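import Pool.Agent.Work.MP_9a767b_pr.U.NearB

/-!
# NearC: the limit shape of nearly constant weights is not the diamond

PROOF. Let `U1, ..., U4` be independent with the law `ρ` (coordinates of four different edges),
`d = E |U1 + U2 - U3 - U4|`. `d > 0`: otherwise `U1 + U2 = U3 + U4` almost surely, so (independence, for
instance the variance) `U1` is almost surely constant, i.e. `ρ` is a Dirac measure. Let `c = d/16`
(`≤ 1`), and choose `δ0 ≤ 1` such that `δ log (1/δ) + 3δ < 2c²` for `0 < δ ≤ δ0`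
(`δ log (1/δ) ≤ ... → 0`, `Real.tendsto_log_mul_self_nhdsGT_zero` or `log (1/δ) ≤ 2 δ^(-1/2)`).
For such `δ`, `M = ∫ x ∂ρ`: `T 0 (1,1)` is at most the minimum of the weights of the two walks with two
edges from `0` to `(1,1)`, `min(a,b) = (a + b - |a - b|)/2`, so
`g ν (1,1) ≤ 2 (1 + δ M) - δ d / 2`, and `Nm (g ν) 1 1 ≤ g ν (1,1)` (`nm_le`), while by `mu_lower`
`2 Nm (g ν) 1 0 ≥ 2 (1 + δ M) - 2 δ c = 2 (1 + δ M) - δ d/8`.
`integrable_near`: `T 0 (1,0) ≤ |ω e|` is bounded by `1 + δ`.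
-/

open MeasureTheory ProbabilityTheory Filter Topology

namespace Pool.Agent.Work.MP_9a767b_pr.U

private theorem nc_prob {ρ : Measure ℝ} [IsProbabilityMeasure ρ] (δ : ℝ) :
    IsProbabilityMeasure (ρ.map (fun x => 1 + δ * x)) :=
  Measure.isProbabilityMeasure_map (by fun_prop)

private theorem nc_ae0 {ρ : Measure ℝ} [IsProbabilityMeasure ρ] (hρ : ρ (Set.Icc 0 1)ᶜ = 0) :
    ∀ᵐ ω ∂(Q ρ), ∀ e : Sym2 V, ω e ∈ Set.Icc (0 : ℝ) 1 := by
  rw [ae_all_iff]
  intro e
  have h1 : MeasurePreserving (Function.eval e) (Q ρ) ρ := measurePreserving_eval_infinitePi _ e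
  have h2 : ∀ᵐ x ∂ρ, x ∈ Set.Icc (0 : ℝ) 1 := by
    rw [ae_iff]
    exact hρ
  exact h1.quasiMeasurePreserving.ae h2

private theorem nc_mp {ρ : Measure ℝ} [IsProbabilityMeasure ρ] (δ : ℝ) :
    MeasurePreserving (fun (ω : Cfg) (e : Sym2 V) => 1 + δ * ω e) (Q ρ)
      (Q (ρ.map (fun x => 1 + δ * x))) := by
  refine ⟨measurable_pi_lambda _ fun e => ?_, ?_⟩
  · have h1 : Measurable fun ω : Cfg => ω e := measurable_pi_apply e
    exact (h1.const_mul δ).const_add 1
  · unfold Q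
    exact Measure.infinitePi_map_pi (μ := fun _ : Sym2 V => ρ) (f := fun _ x => 1 + δ * x)
      (fun _ => by fun_prop)

theorem integrable_near {ρ : Measure ℝ} [IsProbabilityMeasure ρ] (hρ : ρ (Set.Icc 0 1)ᶜ = 0)
    {δ : ℝ} (hδ : 0 < δ) :
    Integrable (fun ω => T ω 0 (1, 0)) (Q (ρ.map (fun x => 1 + δ * x))) := by
  have hP := nc_prob (ρ := ρ) δ
  have hQ : IsProbabilityMeasure (Q ρ) := by unfold Q; infer_instance
  refine ((nc_mp (ρ := ρ) δ).integrable_comp (measurable_T _ _).aestronglyMeasurable).1 ?_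
  refine Integrable.of_mem_Icc 0 (1 + δ)
    ((measurable_T _ _).comp (nc_mp (ρ := ρ) δ).measurable).aemeasurable ?_
  filter_upwards [nc_ae0 hρ] with ω hω
  refine ⟨T_nonneg _ _ _, ?_⟩
  have hadj : lattice.Adj (0 : V) (1, 0) := by
    rw [adj_iff]; simp
  refine (pt_le_len (fun _ => abs_nonneg _) (SimpleGraph.Walk.cons hadj SimpleGraph.Walk.nil)).trans
    ?_
  simp only [len, SimpleGraph.Walk.edges_cons, SimpleGraph.Walk.edges_nil, List.map_cons,
    List.map_nil, List.sum_cons, List.sum_nil, add_zero]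
  have h1 := (hω s(0, (1, 0))).1
  have h2 := (hω s(0, (1, 0))).2
  rw [abs_of_nonneg (by positivity)]
  nlinarith

private def e1 : Sym2 V := s(0, (1, 0))
private def e2 : Sym2 V := s((1, 0), (1, 1))
private def e3 : Sym2 V := s(0, (0, 1))
private def e4 : Sym2 V := s((0, 1), (1, 1))

private theorem nc_T (ω : Cfg) :
    T ω 0 (1, 1) ≤ |ω e1| + |ω e2| ∧ T ω 0 (1, 1) ≤ |ω e3| + |ω e4| := by
  have a1 : lattice.Adj (0 : V) (1, 0) := by rw [adj_iff]; simp
  have a2 : lattice.Adj ((1, 0) : V) (1, 1) := by rw [adj_iff]; simp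
  have a3 : lattice.Adj (0 : V) (0, 1) := by rw [adj_iff]; simp
  have a4 : lattice.Adj ((0, 1) : V) (1, 1) := by rw [adj_iff]; simp
  constructor
  · refine (pt_le_len (fun _ => abs_nonneg _)
      (SimpleGraph.Walk.cons a1 (SimpleGraph.Walk.cons a2 SimpleGraph.Walk.nil))).trans
      (le_of_eq ?_)
    simp [len, e1, e2]
  · refine (pt_le_len (fun _ => abs_nonneg _)
      (SimpleGraph.Walk.cons a3 (SimpleGraph.Walk.cons a4 SimpleGraph.Walk.nil))).trans
      (le_of_eq ?_)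
    simp [len, e3, e4]

private theorem nc_ne : e1 ≠ e2 ∧ e1 ≠ e3 ∧ e1 ≠ e4 := by
  refine ⟨?_, ?_, ?_⟩ <;> decide

private theorem nc_coord {ρ : Measure ℝ} [IsProbabilityMeasure ρ] (f : ℝ → ℝ) (hf : Measurable f)
    (e : Sym2 V) : ∫ ω, f (ω e) ∂(Q ρ) = ∫ x, f x ∂ρ := by
  have h1 : MeasurePreserving (Function.eval e) (Q ρ) ρ := measurePreserving_eval_infinitePi _ e
  have h3 := integral_map (φ := Function.eval e) (f := f) (μ := Q ρ) h1.measurable.aemeasurable
    hf.aestronglyMeasurable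
  rw [h1.map_eq] at h3
  exact h3.symm

private theorem nc_prod {ρ : Measure ℝ} [IsProbabilityMeasure ρ] {e e' : Sym2 V} (h : e ≠ e') :
    ∫ ω, ω e * ω e' ∂(Q ρ) = (∫ x, x ∂ρ) * ∫ x, x ∂ρ := by
  have hind : iIndepFun (fun (e : Sym2 V) (ω : Cfg) => ω e) (Q ρ) :=
    iIndepFun_infinitePi (P := fun _ : Sym2 V => ρ) (X := fun _ x => x) (fun _ => by fun_prop)
  have h1 := (hind.indepFun h).integral_fun_mul_eq_mul_integral
    (measurable_pi_apply e).aestronglyMeasurable (measurable_pi_apply e').aestronglyMeasurable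
  rw [h1, nc_coord (fun x => x) measurable_id e, nc_coord (fun x => x) measurable_id e']

private theorem nc_d {ρ : Measure ℝ} [IsProbabilityMeasure ρ] (hρ : ρ (Set.Icc 0 1)ᶜ = 0)
    (hnd : ∀ x, ρ ≠ Measure.dirac x) : 0 < ∫ ω, |ω e1 + ω e2 - ω e3 - ω e4| ∂(Q ρ) := by
  have hQ : IsProbabilityMeasure (Q ρ) := by unfold Q; infer_instance
  have hae := nc_ae0 hρ
  have hρ' : ∀ᵐ x ∂ρ, x ∈ Set.Icc (0 : ℝ) 1 := by
    rw [ae_iff]
    exact hρ
  have hmeas : Measurable fun ω : Cfg => ω e1 + ω e2 - ω e3 - ω e4 :=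
    (((measurable_pi_apply e1).add (measurable_pi_apply e2)).sub (measurable_pi_apply e3)).sub
      (measurable_pi_apply e4)
  have hi : Integrable (fun ω : Cfg => |ω e1 + ω e2 - ω e3 - ω e4|) (Q ρ) := by
    refine Integrable.of_mem_Icc 0 2 hmeas.abs.aemeasurable ?_
    filter_upwards [hae] with ω hω
    refine ⟨abs_nonneg _, ?_⟩
    rw [abs_le]
    constructor <;> linarith [(hω e1).1, (hω e1).2, (hω e2).1, (hω e2).2, (hω e3).1, (hω e3).2,
      (hω e4).1, (hω e4).2]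
  rcases (integral_nonneg (μ := Q ρ) (f := fun ω : Cfg => |ω e1 + ω e2 - ω e3 - ω e4|)
    (fun _ => abs_nonneg _)).lt_or_eq with h | h
  · exact h
  exfalso
  have h1 : (fun ω : Cfg => |ω e1 + ω e2 - ω e3 - ω e4|) =ᵐ[Q ρ] 0 :=
    (integral_eq_zero_iff_of_nonneg (fun _ => abs_nonneg _) hi).1 h.symm
  set M := ∫ x, x ∂ρ with hM
  have hII : ∀ e e' : Sym2 V, Integrable (fun ω : Cfg => ω e * ω e') (Q ρ) := by
    intro e e'
    refine Integrable.of_mem_Icc 0 1
      ((measurable_pi_apply e).mul (measurable_pi_apply e')).aemeasurable ?_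
    filter_upwards [hae] with ω hω
    have h2 := hω e
    have h3 := hω e'
    exact ⟨mul_nonneg h2.1 h3.1, mul_le_one₀ h2.2 h3.1 h3.2⟩
  have h2 : ∫ ω : Cfg, (ω e1 + ω e2 - ω e3 - ω e4) * ω e1 ∂(Q ρ) = 0 := by
    rw [← integral_zero Cfg ℝ (μ := Q ρ)]
    refine integral_congr_ae ?_
    filter_upwards [h1] with ω hω
    have : ω e1 + ω e2 - ω e3 - ω e4 = 0 := abs_eq_zero.1 hω
    rw [this, zero_mul]
  have h3 : ∫ ω : Cfg, (ω e1 + ω e2 - ω e3 - ω e4) * ω e1 ∂(Q ρ) =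
      ∫ x, x * x ∂ρ - M * M := by
    have h4 : ∀ ω : Cfg, (ω e1 + ω e2 - ω e3 - ω e4) * ω e1 =
        ω e1 * ω e1 + ω e1 * ω e2 - ω e1 * ω e3 - ω e1 * ω e4 := fun ω => by ring
    simp only [h4]
    have i2 : Integrable (fun ω : Cfg => ω e1 * ω e1 + ω e1 * ω e2) (Q ρ) :=
      (hII e1 e1).add (hII e1 e2)
    have i3 : Integrable (fun ω : Cfg => ω e1 * ω e1 + ω e1 * ω e2 - ω e1 * ω e3) (Q ρ) :=
      i2.sub (hII e1 e3)
    rw [integral_sub i3 (hII e1 e4), integral_sub i2 (hII e1 e3),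
      integral_add (hII e1 e1) (hII e1 e2), nc_prod nc_ne.1, nc_prod nc_ne.2.1,
      nc_prod nc_ne.2.2, nc_coord (fun x => x * x) (by fun_prop) e1]
    ring
  have hx : Integrable (fun x : ℝ => x) ρ := Integrable.of_mem_Icc 0 1 aemeasurable_id hρ'
  have hxx : Integrable (fun x : ℝ => x * x) ρ := by
    refine Integrable.of_mem_Icc 0 1 (by fun_prop) ?_
    filter_upwards [hρ'] with x hx
    exact ⟨mul_nonneg hx.1 hx.1, mul_le_one₀ hx.2 hx.1 hx.2⟩
  have h5 : ∫ x, (x - M) ^ 2 ∂ρ = 0 := by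
    have h6 : ∀ x : ℝ, (x - M) ^ 2 = x * x - 2 * M * x + M * M := fun x => by ring
    simp only [h6]
    have i1 : Integrable (fun x : ℝ => x * x - 2 * M * x) ρ := hxx.sub (hx.const_mul _)
    rw [integral_add i1 (integrable_const _),
      integral_sub hxx (hx.const_mul _), integral_const_mul, ← hM]
    simp only [integral_const, probReal_univ, one_smul]
    rw [h2] at h3
    linarith
  have h7 : (fun x : ℝ => (x - M) ^ 2) =ᵐ[ρ] 0 := by
    refine (integral_eq_zero_iff_of_nonneg (fun _ => sq_nonneg _) ?_).1 h5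
    have h6 : (fun x : ℝ => (x - M) ^ 2) = fun x => x * x - 2 * M * x + M * M := by
      funext x; ring
    rw [h6]
    exact (hxx.sub (hx.const_mul _)).add (integrable_const _)
  have h8 : ∀ᵐ x ∂ρ, x = M := by
    filter_upwards [h7] with x hx
    have : (x - M) ^ 2 = 0 := hx
    have := pow_eq_zero_iff (two_ne_zero) |>.1 this
    linarith
  refine hnd M ?_
  ext s hs
  rw [Measure.dirac_apply' _ hs]
  by_cases hm : M ∈ s
  · rw [Set.indicator_of_mem hm, Pi.one_apply]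
    rw [← measure_univ (μ := ρ)]
    refine le_antisymm (measure_mono (Set.subset_univ _)) (measure_mono_ae ?_)
    filter_upwards [h8] with x hx
    intro _
    change x ∈ s
    rw [hx]
    exact hm
  · rw [Set.indicator_of_notMem hm]
    refine measure_mono_null (t := {x | ¬ x = M}) ?_ (ae_iff.1 h8)
    intro x hx h9
    exact hm (h9 ▸ hx)

theorem near_const {ρ : Measure ℝ} [IsProbabilityMeasure ρ] (hρ : ρ (Set.Icc 0 1)ᶜ = 0)
    (hnd : ∀ x, ρ ≠ Measure.dirac x) :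
    ∃ δ0 : ℝ, 0 < δ0 ∧ ∀ δ : ℝ, 0 < δ → δ ≤ δ0 →
      Nm (g (ρ.map (fun x => 1 + δ * x))) 1 1 < 2 * Nm (g (ρ.map (fun x => 1 + δ * x))) 1 0 := by
  have hQ : IsProbabilityMeasure (Q ρ) := by unfold Q; infer_instance
  have hae := nc_ae0 hρ
  set d := ∫ ω, |ω e1 + ω e2 - ω e3 - ω e4| ∂(Q ρ) with hd
  have hd0 : 0 < d := nc_d hρ hnd
  set M := ∫ x, x ∂ρ with hM
  have hmeas : Measurable fun ω : Cfg => ω e1 + ω e2 - ω e3 - ω e4 :=
    (((measurable_pi_apply e1).add (measurable_pi_apply e2)).sub (measurable_pi_apply e3)).sub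
      (measurable_pi_apply e4)
  have hbd : ∀ᵐ ω ∂(Q ρ), |ω e1 + ω e2 - ω e3 - ω e4| ∈ Set.Icc (0 : ℝ) 2 := by
    filter_upwards [hae] with ω hω
    refine ⟨abs_nonneg _, ?_⟩
    rw [abs_le]
    constructor <;> linarith [(hω e1).1, (hω e1).2, (hω e2).1, (hω e2).2, (hω e3).1, (hω e3).2,
      (hω e4).1, (hω e4).2]
  have hi : Integrable (fun ω : Cfg => |ω e1 + ω e2 - ω e3 - ω e4|) (Q ρ) :=
    Integrable.of_mem_Icc 0 2 hmeas.abs.aemeasurable hbd
  have hd2 : d ≤ 2 := by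
    have h1 : d ≤ ∫ _ : Cfg, (2 : ℝ) ∂(Q ρ) :=
      integral_mono_ae hi (integrable_const _) (by filter_upwards [hbd] with ω h using h.2)
    simpa using h1
  set c := d / 16 with hc
  have hc0 : 0 < c := by positivity
  have hc1 : c ≤ 1 := by rw [hc]; linarith
  -- the choice of δ0
  have hlim : Tendsto (fun δ : ℝ => δ * Real.log (1 / δ) + 3 * δ) (𝓝[>] 0) (𝓝 0) := by
    have h1 : Tendsto (fun δ : ℝ => -(Real.log δ * δ)) (𝓝[>] 0) (𝓝 (-0)) := by
      have := tendsto_log_mul_rpow_nhdsGT_zero zero_lt_one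
      simp only [Real.rpow_one] at this
      exact this.neg
    have h2 : Tendsto (fun δ : ℝ => 3 * δ) (𝓝[>] 0) (𝓝 (3 * 0)) :=
      (tendsto_id.mono_left nhdsWithin_le_nhds).const_mul 3
    have h3 := h1.add h2
    rw [neg_zero, mul_zero, add_zero] at h3
    refine h3.congr fun δ => ?_
    rw [one_div, Real.log_inv]
    ring
  have hev : ∀ᶠ δ : ℝ in 𝓝[>] 0, δ * Real.log (1 / δ) + 3 * δ < 2 * c ^ 2 :=
    hlim.eventually (eventually_lt_nhds (by positivity))
  obtain ⟨δ1, hδ1, hsub⟩ := mem_nhdsGT_iff_exists_Ioc_subset.1 hev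
  have hδ1' : 0 < δ1 := hδ1
  refine ⟨min δ1 1, lt_min hδ1' one_pos, fun δ hδ hδle => ?_⟩
  have hle1 : δ ≤ δ1 := hδle.trans (min_le_left _ _)
  have hle2 : δ ≤ 1 := hδle.trans (min_le_right _ _)
  have hP := nc_prob (ρ := ρ) δ
  have hlow := mu_lower hρ hδ hle2 hc0 hc1 (hsub ⟨hδ, hle1⟩)
  have hI := integrable_near hρ hδ
  have hup1 : Nm (g (ρ.map (fun x => 1 + δ * x))) 1 1 ≤ g (ρ.map (fun x => 1 + δ * x)) (1, 1) := by
    have := nm_le (subSym_g hI) ((1, 1) : V)
    simpa using this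
  have hcomp : Integrable (fun ω : Cfg => T (fun e => 1 + δ * ω e) 0 (1, 1)) (Q ρ) :=
    (nc_mp (ρ := ρ) δ).integrable_comp_of_integrable (integrable_T hI _ _)
  have hgeq : g (ρ.map (fun x => 1 + δ * x)) (1, 1) =
      ∫ ω, T (fun e => 1 + δ * ω e) 0 (1, 1) ∂(Q ρ) := by
    unfold g
    rw [← (nc_mp (ρ := ρ) δ).map_eq, integral_map (nc_mp (ρ := ρ) δ).measurable.aemeasurable
      (measurable_T _ _).aestronglyMeasurable]
  have hcoord : ∀ e : Sym2 V, Integrable (fun ω : Cfg => ω e) (Q ρ) := fun e =>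
    Integrable.of_mem_Icc 0 1 (measurable_pi_apply e).aemeasurable
      (by filter_upwards [hae] with ω h using h e)
  have hbound : ∫ ω, T (fun e => 1 + δ * ω e) 0 (1, 1) ∂(Q ρ) ≤
      ∫ ω, (2 + δ / 2 * (ω e1 + ω e2 + ω e3 + ω e4) -
        δ / 2 * |ω e1 + ω e2 - ω e3 - ω e4|) ∂(Q ρ) := by
    refine integral_mono_ae hcomp ?_ ?_
    · exact ((integrable_const _).add (((((hcoord e1).add (hcoord e2)).add (hcoord e3)).add
        (hcoord e4)).const_mul _)).sub (hi.const_mul _)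
    · filter_upwards [hae] with ω hω
      have h1 := nc_T (fun e => 1 + δ * ω e)
      have hp : ∀ e : Sym2 V, |1 + δ * ω e| = 1 + δ * ω e := fun e => by
        have := (hω e).1
        exact abs_of_nonneg (by positivity)
      simp only [hp] at h1
      rcases abs_cases (ω e1 + ω e2 - ω e3 - ω e4) with h2 | h2
      · rw [h2.1]
        refine h1.2.trans (le_of_eq ?_)
        ring
      · rw [h2.1]
        refine h1.1.trans (le_of_eq ?_)
        ring
  have hval : ∫ ω, (2 + δ / 2 * (ω e1 + ω e2 + ω e3 + ω e4) -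
        δ / 2 * |ω e1 + ω e2 - ω e3 - ω e4|) ∂(Q ρ) = 2 + 2 * δ * M - δ * d / 2 := by
    have i2 : Integrable (fun ω : Cfg => ω e1 + ω e2) (Q ρ) := (hcoord e1).add (hcoord e2)
    have i3 : Integrable (fun ω : Cfg => ω e1 + ω e2 + ω e3) (Q ρ) := i2.add (hcoord e3)
    have i4 : Integrable (fun ω : Cfg => ω e1 + ω e2 + ω e3 + ω e4) (Q ρ) := i3.add (hcoord e4)
    have i5 : Integrable (fun ω : Cfg => 2 + δ / 2 * (ω e1 + ω e2 + ω e3 + ω e4)) (Q ρ) :=
      (integrable_const _).add (i4.const_mul _)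
    rw [integral_sub i5 (hi.const_mul _),
      integral_add (integrable_const _) (i4.const_mul _), integral_const_mul, integral_const_mul,
      integral_add i3 (hcoord e4), integral_add i2 (hcoord e3),
      integral_add (hcoord e1) (hcoord e2), nc_coord (fun x => x) measurable_id e1,
      nc_coord (fun x => x) measurable_id e2, nc_coord (fun x => x) measurable_id e3,
      nc_coord (fun x => x) measurable_id e4]
    simp only [integral_const, probReal_univ, one_smul]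
    rw [← hM, ← hd]
    ring
  rw [hgeq] at hup1
  rw [hval] at hbound
  have h9 : 0 < δ * d := by positivity
  have h10 : δ * c = δ * d / 16 := by rw [hc]; ring
  nlinarith

end Pool.Agent.Work.MP_9a767b_pr.U
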