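import Pool.Agent.Work.MP_9a767b_pr.U.Straight
import Pool.Agent.Work.MP_9a767b_pr.Cross

/-!
# Lrbt: a left-right crossing and a bottom-top crossing of a rectangle meet

PROOF. From the theorem `cross` (file `Cross.lean`: a walk `P : 0 → (n,0)` and a walk
`G : (X,-m) → (X,m)` meet if `G` avoids the vertices `(i,0)`, `i ≤ 0`, and `(t,0)`, `t ≥ n`, and
`P` avoids the vertices `(X,y)`, `|y| ≥ m`). Put `c = y1`, `n = x2 - x1 + 2`, `m = y2 - y1 + 2`,
`X = q.1 - (x1 - 1)`. Extend `P`: start at `(x1-1, c)`, go vertically along the column `x1 - 1` to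
the height of `p`, step right to `p`, follow `P`, step right to the column `x2 + 1`, go vertically
to the height `c`. Extend `G`: start at `(q.1, c - m)`, go vertically up to `(q.1, y1 - 1)` and on
to `q`, follow `G` to `q'`, step up to the row `y2 + 1`, go horizontally to `(q.1, y2 + 1)`,
vertically up to `(q.1, c + m)`. Translate everything by `-(x1-1, c)` (map the walks under the
graph homomorphism `v ↦ v - (x1-1,c)`, as in `T_act_le` in `Act.lean`) and apply `cross`. The
extended `P` lives in the columns `x1-1, ..., x2+1` and in the rows `y1, ..., y2`; the extended `G`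
lives in the columns `x1, ..., x2` and in the rows `c - m, ..., c + m`. A common vertex has a
column in `[x1, x2]`, so it is on `P` (the added vertices are in the columns `x1-1`, `x2+1`), and a
row in `[y1, y2]`, so it is on `G` (the added vertices are in rows `< y1` or `> y2`).
-/

open MeasureTheory ProbabilityTheory Filter Topology

namespace Pool.Agent.Work.MP_9a767b_pr.U

private def sh (a b : ℤ) : lattice →g lattice where
  toFun v := (v.1 - a, v.2 - b)
  map_rel' := by
    intro x y h
    rw [adj_iff] at h ⊢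
    simp only [sub_sub_sub_cancel_right]
    exact h

/-- the theorem `cross` with an arbitrary origin -/
private theorem cross_at {a b n X m : ℤ} (hn : 0 < n) (hm : 0 < m)
    (P : lattice.Walk ((a, b) : V) (a + n, b)) (G : lattice.Walk ((X, b - m) : V) (X, b + m))
    (hG1 : ∀ i : ℤ, i ≤ a → ((i, b) : V) ∉ G.support)
    (hG2 : ∀ t : ℤ, a + n ≤ t → ((t, b) : V) ∉ G.support)
    (hP : ∀ y : ℤ, m ≤ |y - b| → ((X, y) : V) ∉ P.support) :
    ∃ v, v ∈ P.support ∧ v ∈ G.support := by
  have e1 : sh a b (a, b) = 0 := by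
    show ((a - a, b - b) : V) = 0
    rw [sub_self, sub_self]
    rfl
  have e2 : sh a b (a + n, b) = (n, 0) := by
    show ((a + n - a, b - b) : V) = (n, 0)
    rw [sub_self, add_sub_cancel_left]
  have e3 : sh a b (X, b - m) = (X - a, -m) := by
    show ((X - a, b - m - b) : V) = (X - a, -m)
    rw [sub_sub_cancel_left]
  have e4 : sh a b (X, b + m) = (X - a, m) := by
    show ((X - a, b + m - b) : V) = (X - a, m)
    rw [add_sub_cancel_left]
  have hmem : ∀ {x y : V} (w : lattice.Walk x y) (i j : ℤ),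
      ((i, j) : V) ∈ (w.map (sh a b)).support → ((i + a, j + b) : V) ∈ w.support := by
    intro x y w i j h
    rw [SimpleGraph.Walk.support_map, List.mem_map] at h
    obtain ⟨v, hv, hv2⟩ := h
    have h3 : ((v.1 - a, v.2 - b) : V) = (i, j) := hv2
    rw [Prod.mk.injEq] at h3
    have h4 : v = (i + a, j + b) := Prod.ext (by simp only; omega) (by simp only; omega)
    rw [← h4]
    exact hv
  obtain ⟨v, hv1, hv2⟩ := cross hn hm ((P.map (sh a b)).copy e1 e2)
    ((G.map (sh a b)).copy e3 e4) (by
      intro i hi h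
      rw [SimpleGraph.Walk.support_copy] at h
      have h2 := hmem G i 0 h
      rw [zero_add] at h2
      exact hG1 _ (by omega) h2) (by
      intro t ht h
      rw [SimpleGraph.Walk.support_copy] at h
      have h2 := hmem G t 0 h
      rw [zero_add] at h2
      exact hG2 _ (by omega) h2) (by
      intro y hy h
      rw [SimpleGraph.Walk.support_copy] at h
      have h2 := hmem P (X - a) y h
      rw [sub_add_cancel] at h2
      exact hP _ (by rw [add_sub_cancel_right]; exact hy) h2)
  rw [SimpleGraph.Walk.support_copy] at hv1 hv2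
  exact ⟨(v.1 + a, v.2 + b), hmem P v.1 v.2 hv1, hmem G v.1 v.2 hv2⟩

theorem lrbt {x1 x2 y1 y2 : ℤ} {p p' q q' : V} (P : lattice.Walk p p') (G : lattice.Walk q q')
    (hp : p.1 = x1) (hp' : p'.1 = x2) (hq : q.2 = y1) (hq' : q'.2 = y2)
    (hP : ∀ v ∈ P.support, x1 ≤ v.1 ∧ v.1 ≤ x2 ∧ y1 ≤ v.2 ∧ v.2 ≤ y2)
    (hG : ∀ v ∈ G.support, x1 ≤ v.1 ∧ v.1 ≤ x2 ∧ y1 ≤ v.2 ∧ v.2 ≤ y2) :
    ∃ v, v ∈ P.support ∧ v ∈ G.support := by
  obtain ⟨p1, p2⟩ := p
  obtain ⟨p1', p2'⟩ := p'
  obtain ⟨q1, q2⟩ := q
  obtain ⟨q1', q2'⟩ := q'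
  simp only at hp hp' hq hq'
  subst hp hp' hq hq'
  have hPs := hP _ P.start_mem_support
  have hPe := hP _ P.end_mem_support
  have hGs := hG _ G.start_mem_support
  have hGe := hG _ G.end_mem_support
  simp only at hPs hPe hGs hGe
  obtain ⟨A1, hA1⟩ := vwalk (p1 - 1) q2 p2
  obtain ⟨A2, hA2⟩ := hwalk (p1 - 1) p1 p2
  obtain ⟨A3, hA3⟩ := hwalk p1' (p1' + 1) p2'
  obtain ⟨A4, hA4⟩ := vwalk (p1' + 1) p2' q2
  obtain ⟨B1, hB1⟩ := vwalk q1 (q2 - (q2' - q2 + 2)) q2
  obtain ⟨B2, hB2⟩ := vwalk q1' q2' (q2' + 1)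
  obtain ⟨B3, hB3⟩ := hwalk q1' q1 (q2' + 1)
  obtain ⟨B4, hB4⟩ := vwalk q1 (q2' + 1) (q2 + (q2' - q2 + 2))
  have hPP : ∀ v ∈ (A1.append (A2.append (P.append (A3.append A4)))).support,
      q2 ≤ v.2 ∧ v.2 ≤ q2' ∧ (v ∈ P.support ∨ v.1 = p1 - 1 ∨ v.1 = p1' + 1) := by
    intro v hv
    rw [SimpleGraph.Walk.mem_support_append_iff, SimpleGraph.Walk.mem_support_append_iff,
      SimpleGraph.Walk.mem_support_append_iff, SimpleGraph.Walk.mem_support_append_iff] at hv
    rcases hv with hv | hv | hv | hv | hv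
    · have h := hA1 v hv
      exact ⟨by omega, by omega, Or.inr (Or.inl h.1)⟩
    · have h := hA2 v hv
      by_cases h2 : v.1 = p1 - 1
      · exact ⟨by omega, by omega, Or.inr (Or.inl h2)⟩
      · have h3 : v = (p1, p2) := Prod.ext (by simp only; omega) (by simp only; omega)
        exact ⟨by omega, by omega, Or.inl (by rw [h3]; exact P.start_mem_support)⟩
    · have h := hP v hv
      exact ⟨h.2.2.1, h.2.2.2, Or.inl hv⟩
    · have h := hA3 v hv
      by_cases h2 : v.1 = p1' + 1
      · exact ⟨by omega, by omega, Or.inr (Or.inr h2)⟩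
      · have h3 : v = (p1', p2') := Prod.ext (by simp only; omega) (by simp only; omega)
        exact ⟨by omega, by omega, Or.inl (by rw [h3]; exact P.end_mem_support)⟩
    · have h := hA4 v hv
      exact ⟨by omega, by omega, Or.inr (Or.inr h.1)⟩
  have hGG : ∀ v ∈ (B1.append (G.append (B2.append (B3.append B4)))).support,
      p1 ≤ v.1 ∧ v.1 ≤ p1' ∧ (v ∈ G.support ∨ v.2 < q2 ∨ q2' < v.2) := by
    intro v hv
    rw [SimpleGraph.Walk.mem_support_append_iff, SimpleGraph.Walk.mem_support_append_iff,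
      SimpleGraph.Walk.mem_support_append_iff, SimpleGraph.Walk.mem_support_append_iff] at hv
    rcases hv with hv | hv | hv | hv | hv
    · have h := hB1 v hv
      by_cases h2 : v.2 = q2
      · have h3 : v = (q1, q2) := Prod.ext h.1 h2
        exact ⟨by omega, by omega, Or.inl (by rw [h3]; exact G.start_mem_support)⟩
      · exact ⟨by omega, by omega, Or.inr (Or.inl (by omega))⟩
    · have h := hG v hv
      exact ⟨h.1, h.2.1, Or.inl hv⟩
    · have h := hB2 v hv
      by_cases h2 : v.2 = q2'
      · have h3 : v = (q1', q2') := Prod.ext h.1 h2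
        exact ⟨by omega, by omega, Or.inl (by rw [h3]; exact G.end_mem_support)⟩
      · exact ⟨by omega, by omega, Or.inr (Or.inr (by omega))⟩
    · have h := hB3 v hv
      exact ⟨by omega, by omega, Or.inr (Or.inr (by omega))⟩
    · have h := hB4 v hv
      exact ⟨by omega, by omega, Or.inr (Or.inr (by omega))⟩
  have e : ((p1' + 1, q2) : V) = ((p1 - 1) + (p1' - p1 + 2), q2) :=
    Prod.ext (by simp only; ring) rfl
  obtain ⟨v, hv1, hv2⟩ := cross_at (a := p1 - 1) (b := q2) (n := p1' - p1 + 2) (X := q1)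
    (m := q2' - q2 + 2) (by omega) (by omega)
    ((A1.append (A2.append (P.append (A3.append A4)))).copy rfl e)
    (B1.append (G.append (B2.append (B3.append B4)))) (by
      intro i hi h
      have h2 := hGG _ h
      simp only at h2
      omega) (by
      intro t ht h
      have h2 := hGG _ h
      simp only at h2
      omega) (by
      intro y hy h
      rw [SimpleGraph.Walk.support_copy] at h
      have h2 := hPP _ h
      simp only at h2
      rw [abs_of_nonneg (by omega)] at hy
      omega)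
  rw [SimpleGraph.Walk.support_copy] at hv1
  obtain ⟨a1, a2, a3⟩ := hPP v hv1
  obtain ⟨c1, c2, c3⟩ := hGG v hv2
  refine ⟨v, ?_, ?_⟩
  · rcases a3 with h | h | h
    · exact h
    · omega
    · omega
  · rcases c3 with h | h | h
    · exact h
    · omega
    · omega

end Pool.Agent.Work.MP_9a767b_pr.U
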