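import Pool.Agent.Work.MP_9a767b_pr.U.Defs
import Pool.Agent.Work.MP_9a767b_pr.Metric
import Pool.Agent.Work.MP_9a767b_pr.Act

/-!
# Sel: the selected geodesic (deterministic properties)

PROOF. `code_inj`: the support determines the walk (`SimpleGraph.Walk.ext_support`), `v ↦ v - x` is
injective, `Encodable.encode` is injective. `exists_isGeo`: `w.toPath`/`w.bypass` has a sublist of
the edges of `w` (`SimpleGraph.Walk.edges_bypass_subset` and nodup, or `bypass` sublist lemma), the
weights are nonnegative, so its weight is at most the weight of `w`; and it is at least `T`. (If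
there is no ready sublist lemma: among all walks from `x` to `y` of minimal weight take one of
minimal length; it is a path, since otherwise a loop can be cut out, see
`SimpleGraph.Walk.takeUntil`, `dropUntil`.) `sel_spec`: `Nat.find_spec`, `Nat.find_min'`.
`sel_eq`: both have the smallest code, use `code_inj`.
`sel_raise`: let `w = sel ω x y`. `ln ω' w = ln ω w = T ω x y`, and for every walk `w'`
`ln ω' w' ≥ ln ω w' ≥ T ω x y`; so `T ω' x y = T ω x y` and `w` is a geodesic for `ω'`. If `w'` is a
geodesic for `ω'` then `ln ω w' ≤ ln ω' w' = T ω x y`, so `w'` is a geodesic for `ω`, and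
`code w ≤ code w'`. Conclude with `sel_eq`.
`sel_trans`: the walks from `x` to `y` correspond to the walks from `z + x` to `z + y` (map under the
homomorphism `v ↦ z + v`, as in `T_act_le` in `Act.lean`; the inverse is the map under
`v ↦ -z + v`, with a `copy`); this bijection preserves the weights
(`ln (act (trans z) ω) w = ln ω (w.map _)`), paths, and the code (the code only depends on the
differences to the first vertex). Use `T_trans` and `sel_eq`.
-/

open MeasureTheory ProbabilityTheory Filter Topology

namespace Pool.Agent.Work.MP_9a767b_pr.U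

theorem code_inj {x y : V} {w w' : lattice.Walk x y} (h : code w = code w') : w = w' := by
  have h1 := Encodable.encode_injective h
  have h2 : Function.Injective (fun v : V => v - x) := sub_left_injective
  have h3 := (List.map_injective_iff.mpr h2) h1
  exact SimpleGraph.Walk.ext_support h3

theorem exists_isGeo {ω : Cfg} (h : HasGeo ω) (x y : V) : ∃ w : lattice.Walk x y, IsGeo ω w := by
  classical
  obtain ⟨w, hw⟩ := h x y
  refine ⟨w.bypass, w.bypass_isPath, le_antisymm ?_ (pt_le_len (fun _ => abs_nonneg _) _)⟩
  rw [← hw]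
  unfold ln len
  refine List.Sublist.sum_le_sum ((w.edges_bypass_sublist_edges).map _) ?_
  intro a ha
  obtain ⟨e, _, rfl⟩ := List.mem_map.1 ha
  exact abs_nonneg _

theorem sel_spec {ω : Cfg} {x y : V} (h : ∃ w : lattice.Walk x y, IsGeo ω w) :
    IsGeo ω (sel ω x y) ∧ ∀ w' : lattice.Walk x y, IsGeo ω w' → code (sel ω x y) ≤ code w' := by
  classical
  have h' : ∃ k : ℕ, ∃ w : lattice.Walk x y, IsGeo ω w ∧ code w = k := by
    obtain ⟨w, hw⟩ := h
    exact ⟨code w, w, hw, rfl⟩
  have e : sel ω x y = (Nat.find_spec h').choose := by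
    unfold sel
    rw [dif_pos h']
  have h1 := (Nat.find_spec h').choose_spec
  rw [← e] at h1
  refine ⟨h1.1, fun w' hw' => ?_⟩
  rw [h1.2]
  exact Nat.find_min' h' ⟨w', hw', rfl⟩

theorem sel_eq {ω : Cfg} {x y : V} (w : lattice.Walk x y) (hw : IsGeo ω w)
    (hmin : ∀ w' : lattice.Walk x y, IsGeo ω w' → code w ≤ code w') : sel ω x y = w := by
  obtain ⟨h1, h2⟩ := sel_spec ⟨w, hw⟩
  exact code_inj (le_antisymm (h2 w hw) (hmin _ h1))

theorem sel_raise {ω ω' : Cfg} {x y : V} (h : ∃ w : lattice.Walk x y, IsGeo ω w)
    (h1 : ∀ e, |ω e| ≤ |ω' e|) (h2 : ∀ e ∈ (sel ω x y).edges, |ω' e| = |ω e|) :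
    sel ω' x y = sel ω x y ∧ T ω' x y = T ω x y := by
  obtain ⟨h3, h4⟩ := sel_spec h
  have hle : ∀ w' : lattice.Walk x y, ln ω w' ≤ ln ω' w' := by
    intro w'
    unfold ln len
    exact List.sum_le_sum fun e _ => h1 e
  have heq : ln ω' (sel ω x y) = ln ω (sel ω x y) := by
    unfold ln len
    congr 1
    exact List.map_congr_left fun e he => h2 e he
  have hT : T ω' x y = T ω x y := by
    refine le_antisymm ?_ ?_
    · calc T ω' x y ≤ ln ω' (sel ω x y) := pt_le_len (fun _ => abs_nonneg _) _
        _ = T ω x y := by rw [heq, h3.2]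
    · refine le_ciInf fun w' => ?_
      exact (pt_le_len (fun _ => abs_nonneg _) w').trans (hle w')
  refine ⟨sel_eq _ ⟨h3.1, by rw [heq, h3.2, hT]⟩ fun w' hw' => ?_, hT⟩
  refine h4 w' ⟨hw'.1, le_antisymm ?_ (pt_le_len (fun _ => abs_nonneg _) w')⟩
  calc ln ω w' ≤ ln ω' w' := hle w'
    _ = T ω x y := by rw [hw'.2, hT]

private def tr (z : V) : lattice →g lattice where
  toFun v := z + v
  map_rel' := by
    intro a b h
    rw [adj_iff] at h ⊢
    simpa using h

private theorem tr_inj (z : V) : Function.Injective (tr z) := add_right_injective z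

private theorem ln_act (z : V) (ω : Cfg) {x y : V} (w : lattice.Walk x y) :
    ln (act (trans z) ω) w = ln ω (w.map (tr z)) := by
  unfold ln len
  rw [SimpleGraph.Walk.edges_map, List.map_map]
  rfl

private theorem code_tr (z : V) {x y : V} (w : lattice.Walk x y) :
    code (w.map (tr z)) = code w := by
  unfold code
  rw [SimpleGraph.Walk.support_map, List.map_map]
  congr 1
  refine List.map_congr_left fun v _ => ?_
  change z + v - (z + x) = v - x
  abel

theorem sel_trans {ω : Cfg} {x y z : V} (h : ∃ w : lattice.Walk (z + x) (z + y), IsGeo ω w) :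
    (sel (act (trans z) ω) x y).support =
      (sel ω (z + x) (z + y)).support.map (fun v => v - z) := by
  obtain ⟨h1, h2⟩ := sel_spec h
  have ex : (tr (-z)) (z + x) = x := neg_add_cancel_left z x
  have ey : (tr (-z)) (z + y) = y := neg_add_cancel_left z y
  obtain ⟨w1, hw1⟩ : ∃ w1 : lattice.Walk x y,
      w1 = ((sel ω (z + x) (z + y)).map (tr (-z))).copy ex ey := ⟨_, rfl⟩
  have hs : w1.support = (sel ω (z + x) (z + y)).support.map (fun v => v - z) := by
    rw [hw1, SimpleGraph.Walk.support_copy, SimpleGraph.Walk.support_map]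
    refine List.map_congr_left fun v _ => ?_
    change -z + v = v - z
    abel
  have hm0 : (w1.map (tr z)).support = (sel ω (z + x) (z + y)).support := by
    rw [SimpleGraph.Walk.support_map, hs, List.map_map]
    have e : (⇑(tr z) ∘ fun v => v - z) = id := by
      funext v
      change z + (v - z) = v
      abel
    rw [e, List.map_id]
  have hm : w1.map (tr z) = sel ω (z + x) (z + y) := SimpleGraph.Walk.ext_support hm0
  have hg : IsGeo (act (trans z) ω) w1 := by
    refine ⟨?_, ?_⟩
    · have h3 := h1.1
      rw [← hm] at h3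
      exact SimpleGraph.Walk.IsPath.of_map h3
    · rw [ln_act, hm, T_trans]
      exact h1.2
  have hsel : sel (act (trans z) ω) x y = w1 := by
    refine sel_eq w1 hg fun w' hw' => ?_
    have k : ln ω (w'.map (tr z)) = T ω (z + x) (z + y) := by
      have k0 := ln_act z ω w'
      rw [hw'.2, T_trans] at k0
      exact k0.symm
    have k1 := h2 (w'.map (tr z)) ⟨SimpleGraph.Walk.IsPath.map (tr_inj z) hw'.1, k⟩
    rw [← code_tr z w1, ← code_tr z w', hm]
    exact k1
  rw [hsel, hs]

end Pool.Agent.Work.MP_9a767b_pr.U
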