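import Pool.Agent.Work.MP_9a767b_pr.U.NearA
import Pool.Agent.Work.MP_9a767b_pr.U.Sel
import Pool.Agent.Work.MP_9a767b_pr.GFacts
import Pool.Agent.Work.MP_9a767b_pr.NormB

/-!
# NearB: a lower bound for the time constant of nearly constant weights

Here `ν` is the law of `1 + δ U` where `U` has the law `ρ` on `[0,1]` with mean `M`.

PROOF. Almost surely `1 ≤ ω e ≤ 1 + δ` for all `e` (countably many). `hoeff`: the weights of the edges of a
nodup list `l` of length `N` are independent (`iIndepFun` for the coordinates of `infinitePi`), so by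
Hoeffding's inequality (`ProbabilityTheory.hasSubgaussianMGF_of_mem_Icc`,
`HasSubgaussianMGF.measure_sum_ge_le_of_iIndepFun` or similar, applied to `1 + δ M - ω e`)
`Q {∑_{e ∈ l} ω e ≤ N (1 + δ M - δ c)} ≤ exp (-2 c² N)`.
`mu_lower`: let `κ = 2c² - (δ log (1/δ) + 3δ) > 0`. If `T ω 0 (n,0) < n (1 + δ (M - c))` then there is a path
`w` from `0` to `(n,0)` with `ln ω w < n (1 + δ (M - c))` (`exists_near` and removal of loops, see
`Sel.lean`). Let `N` be its length; `N ≥ n` and `N ≤ ln ω w < n (1 + δ)` (as `M ≤ 1`), and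
`n (1 + δ (M - c)) ≤ N (1 + δ M - δ c)` since `δ c ≤ 1`, `N ≥ n`. So `w.edges` is in the event of
`hoeff`. By `path_union` with `p = exp (-2c²)`,
`Q {T 0 (n,0) < n (1 + δ (M-c))} ≤ ∑_{N ≥ n} exp (-κ N) → 0`. Hence
`g ν (n,0) ≥ n (1 + δ (M - c)) (1 - o(1))` and `Nm (g ν) 1 0 ≥ 1 + δ (M - c)` (`nm_tendsto_int`).
-/

open MeasureTheory ProbabilityTheory Filter Topology

namespace Pool.Agent.Work.MP_9a767b_pr.U

private theorem nb_prob {ρ : Measure ℝ} [IsProbabilityMeasure ρ] (δ : ℝ) :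
    IsProbabilityMeasure (ρ.map (fun x => 1 + δ * x)) :=
  Measure.isProbabilityMeasure_map (by fun_prop)

private theorem nb_ae {ρ : Measure ℝ} [IsProbabilityMeasure ρ] (hρ : ρ (Set.Icc 0 1)ᶜ = 0) {δ : ℝ}
    (hδ : 0 < δ) :
    ∀ᵐ ω ∂(Q (ρ.map (fun x => 1 + δ * x))), ∀ e : Sym2 V, ω e ∈ Set.Icc (1 : ℝ) (1 + δ) := by
  have := nb_prob (ρ := ρ) δ
  rw [ae_all_iff]
  intro e
  have h1 : MeasurePreserving (Function.eval e) (Q (ρ.map (fun x => 1 + δ * x)))
      (ρ.map (fun x => 1 + δ * x)) := measurePreserving_eval_infinitePi _ e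
  have h2 : ∀ᵐ x ∂(ρ.map (fun x => 1 + δ * x)), x ∈ Set.Icc (1 : ℝ) (1 + δ) := by
    refine (ae_map_iff (by fun_prop) measurableSet_Icc).2 ?_
    have h3 : ∀ᵐ x ∂ρ, x ∈ Set.Icc (0 : ℝ) 1 := by
      rw [ae_iff]
      exact hρ
    filter_upwards [h3] with x hx
    exact ⟨by nlinarith [hx.1], by nlinarith [hx.2]⟩
  exact h1.quasiMeasurePreserving.ae h2

private theorem nb_int {ρ : Measure ℝ} [IsProbabilityMeasure ρ] (hρ : ρ (Set.Icc 0 1)ᶜ = 0) {δ : ℝ}
    (e : Sym2 V) :
    ∫ ω, ω e ∂(Q (ρ.map (fun x => 1 + δ * x))) = 1 + δ * ∫ x, x ∂ρ := by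
  have := nb_prob (ρ := ρ) δ
  have h1 : MeasurePreserving (Function.eval e) (Q (ρ.map (fun x => 1 + δ * x)))
      (ρ.map (fun x => 1 + δ * x)) := measurePreserving_eval_infinitePi _ e
  have h2 : ∫ ω, ω e ∂(Q (ρ.map (fun x => 1 + δ * x))) =
      ∫ x, x ∂(ρ.map (fun x => 1 + δ * x)) := by
    have h3 := integral_map (φ := Function.eval e) (f := fun x : ℝ => x)
      (μ := Q (ρ.map (fun x => 1 + δ * x))) h1.measurable.aemeasurable
      (by exact aestronglyMeasurable_id)
    rw [h1.map_eq] at h3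
    exact h3.symm
  rw [h2, integral_map (φ := fun x => 1 + δ * x) (f := fun x : ℝ => x) (by fun_prop)
    (by exact aestronglyMeasurable_id)]
  have h3 : Integrable (fun x : ℝ => x) ρ := by
    refine Integrable.of_mem_Icc 0 1 aemeasurable_id ?_
    rw [ae_iff]
    exact hρ
  rw [integral_add (integrable_const _) (h3.const_mul _), integral_const_mul]
  simp

theorem hoeff {ρ : Measure ℝ} [IsProbabilityMeasure ρ] (hρ : ρ (Set.Icc 0 1)ᶜ = 0) {δ c : ℝ}
    (hδ : 0 < δ) (hc : 0 < c) (l : List (Sym2 V)) (hl : l.Nodup) :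
    (Q (ρ.map (fun x => 1 + δ * x))).real
      {ω | (l.map (fun e => |ω e|)).sum ≤ l.length * (1 + δ * ((∫ x, x ∂ρ) - c))} ≤
      (Real.exp (-2 * c ^ 2)) ^ l.length := by
  classical
  have hP := nb_prob (ρ := ρ) δ
  have hQ : IsProbabilityMeasure (Q (ρ.map (fun x => 1 + δ * x))) := by unfold Q; infer_instance
  rcases Nat.eq_zero_or_pos l.length with h0 | hlen
  · rw [h0, pow_zero]
    exact measureReal_le_one
  have hlen' : (0 : ℝ) < l.length := by exact_mod_cast hlen
  set M := ∫ x, x ∂ρ with hM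
  set P := Q (ρ.map (fun x => 1 + δ * x)) with hPdef
  have hae := nb_ae hρ hδ
  rw [← hPdef] at hae
  have hind : iIndepFun (fun (e : Sym2 V) (ω : Cfg) => -(ω e) - (-(1 + δ * M))) P :=
    iIndepFun_infinitePi (P := fun _ : Sym2 V => ρ.map (fun x => 1 + δ * x))
      (X := fun _ x => -x - (-(1 + δ * M))) (fun _ => by fun_prop)
  have hsub : ∀ e ∈ l.toFinset, HasSubgaussianMGF (fun ω : Cfg => -(ω e) - (-(1 + δ * M)))
      ((‖(-1 : ℝ) - (-(1 + δ))‖₊ / 2) ^ 2) P := by
    intro e _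
    have h1 : HasSubgaussianMGF (fun ω : Cfg => -(ω e) - ∫ ω : Cfg, -(ω e) ∂P)
        ((‖(-1 : ℝ) - (-(1 + δ))‖₊ / 2) ^ 2) P := by
      refine hasSubgaussianMGF_of_mem_Icc ?_ ?_
      · exact (measurable_pi_apply e).neg.aemeasurable
      · filter_upwards [hae] with ω hω
        exact ⟨by linarith [(hω e).2], by linarith [(hω e).1]⟩
    rw [integral_neg, hPdef, nb_int hρ e] at h1
    exact h1
  have h2 := HasSubgaussianMGF.measure_sum_ge_le_of_iIndepFun hind
    (c := fun _ => (‖(-1 : ℝ) - (-(1 + δ))‖₊ / 2) ^ 2) (s := l.toFinset) hsub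
    (ε := l.length * (δ * c)) (by positivity)
  have hcard : l.toFinset.card = l.length := List.toFinset_card_of_nodup hl
  have h3 : P.real {ω | (l.map (fun e => |ω e|)).sum ≤ l.length * (1 + δ * (M - c))} ≤
      P.real {ω | l.length * (δ * c) ≤ ∑ e ∈ l.toFinset, (-(ω e) - (-(1 + δ * M)))} := by
    refine ENNReal.toReal_mono (measure_ne_top _ _) (measure_mono_ae ?_)
    filter_upwards [hae] with ω hω
    intro h4
    have h5 : (l.map (fun e => |ω e|)).sum ≤ l.length * (1 + δ * (M - c)) := h4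
    have h6 : (l.map (fun e => |ω e|)).sum = ∑ e ∈ l.toFinset, ω e := by
      rw [← List.sum_toFinset _ hl]
      refine Finset.sum_congr rfl fun e _ => ?_
      exact abs_of_nonneg (by linarith [(hω e).1])
    have h7 : ∑ e ∈ l.toFinset, (-(ω e) - (-(1 + δ * M))) =
        -(∑ e ∈ l.toFinset, ω e) + l.length * (1 + δ * M) := by
      rw [Finset.sum_sub_distrib, Finset.sum_neg_distrib, Finset.sum_const, hcard, nsmul_eq_mul]
      ring
    change l.length * (δ * c) ≤ ∑ e ∈ l.toFinset, (-(ω e) - (-(1 + δ * M)))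
    rw [h7, ← h6]
    nlinarith
  refine h3.trans (h2.trans (le_of_eq ?_))
  rw [← Real.exp_nat_mul]
  congr 1
  have h8 : ((‖(-1 : ℝ) - (-(1 + δ))‖₊ / 2) ^ 2 : NNReal) = (δ / 2) ^ 2 := by
    have : (‖(-1 : ℝ) - (-(1 + δ))‖ : ℝ) = δ := by
      rw [Real.norm_eq_abs]
      have : (-1 : ℝ) - (-(1 + δ)) = δ := by ring
      rw [this, abs_of_pos hδ]
    push_cast
    rw [this]
  rw [Finset.sum_const, hcard, nsmul_eq_mul]
  push_cast at h8 ⊢
  rw [h8]
  field_simp

private theorem nb_bypass {ω : Cfg} {x y : V} (w : lattice.Walk x y) :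
    ∃ w' : lattice.Walk x y, w'.IsPath ∧ (w'.edges.map (fun e => |ω e|)).sum ≤
      len (fun e => |ω e|) w := by
  classical
  refine ⟨w.bypass, w.bypass_isPath, ?_⟩
  unfold len
  refine List.Sublist.sum_le_sum (w.edges_bypass_sublist_edges.map _) ?_
  intro r hr
  obtain ⟨e, -, rfl⟩ := List.mem_map.1 hr
  exact abs_nonneg _

private theorem nb_len {x y : V} (w : lattice.Walk x y) : y.1 - x.1 ≤ w.length := by
  induction w with
  | nil => simp
  | @cons u v w h p ih =>
    rw [adj_iff] at h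
    rw [SimpleGraph.Walk.length_cons]
    push_cast
    have h1 := abs_le.1 (le_refl |u.1 - v.1|)
    have h2 := abs_nonneg (u.2 - v.2)
    linarith [h1.1]

private theorem nb_integrable {ρ : Measure ℝ} [IsProbabilityMeasure ρ] (hρ : ρ (Set.Icc 0 1)ᶜ = 0)
    {δ : ℝ} (hδ : 0 < δ) :
    Integrable (fun ω => T ω 0 (1, 0)) (Q (ρ.map (fun x => 1 + δ * x))) := by
  have hP := nb_prob (ρ := ρ) δ
  have hQ : IsProbabilityMeasure (Q (ρ.map (fun x => 1 + δ * x))) := by unfold Q; infer_instance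
  refine Integrable.of_mem_Icc 0 (1 + δ) (measurable_T _ _).aemeasurable ?_
  filter_upwards [nb_ae hρ hδ] with ω hω
  refine ⟨T_nonneg _ _ _, ?_⟩
  have hadj : lattice.Adj (0 : V) (1, 0) := by
    rw [adj_iff]; simp
  refine (pt_le_len (fun _ => abs_nonneg _) (SimpleGraph.Walk.cons hadj SimpleGraph.Walk.nil)).trans
    ?_
  simp only [len, SimpleGraph.Walk.edges_cons, SimpleGraph.Walk.edges_nil, List.map_cons,
    List.map_nil, List.sum_cons, List.sum_nil, add_zero]
  rw [abs_of_nonneg (by linarith [(hω s(0, (1, 0))).1])]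
  exact (hω s(0, (1, 0))).2

theorem mu_lower {ρ : Measure ℝ} [IsProbabilityMeasure ρ] (hρ : ρ (Set.Icc 0 1)ᶜ = 0) {δ c : ℝ}
    (hδ : 0 < δ) (hδ1 : δ ≤ 1) (hc : 0 < c) (hc1 : c ≤ 1)
    (h : δ * Real.log (1 / δ) + 3 * δ < 2 * c ^ 2) :
    1 + δ * ((∫ x, x ∂ρ) - c) ≤ Nm (g (ρ.map (fun x => 1 + δ * x))) 1 0 := by
  have hP := nb_prob (ρ := ρ) δ
  set ν := ρ.map (fun x => 1 + δ * x) with hν
  have hQ : IsProbabilityMeasure (Q ν) := by unfold Q; infer_instance
  set M := ∫ x, x ∂ρ with hM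
  have hae := nb_ae hρ hδ
  rw [← hν] at hae
  have hI : Integrable (fun ω => T ω 0 (1, 0)) (Q ν) := nb_integrable hρ hδ
  have hρ' : ∀ᵐ x ∂ρ, x ∈ Set.Icc (0 : ℝ) 1 := by
    rw [ae_iff]
    exact hρ
  have hM0 : 0 ≤ M := integral_nonneg_of_ae (by filter_upwards [hρ'] with x hx using hx.1)
  have hM1 : M ≤ 1 := by
    have h1 : Integrable (fun x : ℝ => x) ρ := Integrable.of_mem_Icc 0 1 aemeasurable_id hρ'
    have h2 : ∫ x, x ∂ρ ≤ ∫ x, (1 : ℝ) ∂ρ :=
      integral_mono_ae h1 (integrable_const _) (by filter_upwards [hρ'] with x hx using hx.2)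
    simpa using h2
  set A := 1 + δ * (M - c) with hA
  have hA0 : 0 ≤ A := by
    have h1 : δ * c ≤ 1 := by nlinarith
    have h2 : 0 ≤ δ * M := by positivity
    rw [hA]; nlinarith
  have hA1 : A ≤ 1 + δ := by
    rw [hA]; nlinarith
  set a := δ * Real.log (1 / δ) + 3 * δ with ha
  set r := Real.exp a * Real.exp (-2 * c ^ 2) with hr
  have hr0 : 0 < r := by positivity
  have hr1 : r < 1 := by
    rw [hr, ← Real.exp_add]
    rw [Real.exp_lt_one_iff]
    linarith
  -- the probability estimate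
  have hprob : ∀ n : ℕ, (Q ν).real {ω | T ω 0 (n, 0) < n * A} ≤ r ^ n / (1 - r) := by
    intro n
    have h1 := path_union (ν := ν) n hδ hδ1 (p := Real.exp (-2 * c ^ 2)) (Real.exp_pos _).le
      (fun l => {ω | (l.map (fun e => |ω e|)).sum ≤ l.length * (1 + δ * (M - c))})
      (fun l hl => hoeff hρ hδ hc l hl)
    have h2 : (Q ν).real {ω | T ω 0 (n, 0) < n * A} ≤ (Q ν).real
        {ω | ∃ w : lattice.Walk (0 : V) (n, 0), w.IsPath ∧ (w.length : ℝ) ≤ n * (1 + δ) ∧
          ω ∈ {ω : Cfg | (w.edges.map (fun e => |ω e|)).sum ≤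
            w.edges.length * (1 + δ * (M - c))}} := by
      refine ENNReal.toReal_mono (measure_ne_top _ _) (measure_mono_ae ?_)
      filter_upwards [hae] with ω hω
      intro h3
      have h3' : T ω 0 (n, 0) < n * A := h3
      obtain ⟨w, hw⟩ := exists_near (fun e => |ω e|) 0 ((n : ℤ), 0) (sub_pos.2 h3')
      have hw' : len (fun e => |ω e|) w < n * A := by
        have : T ω 0 (n, 0) = pt (fun e => |ω e|) 0 ((n : ℤ), 0) := rfl
        rw [this] at hw
        linarith
      obtain ⟨w', hw1, hw2⟩ := nb_bypass (ω := ω) w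
      have hlow : (w'.edges.length : ℝ) ≤ (w'.edges.map (fun e => |ω e|)).sum := by
        have : (w'.edges.length : ℝ) = (w'.edges.map (fun _ => (1 : ℝ))).sum := by
          simp
        rw [this]
        refine List.sum_le_sum fun e _ => ?_
        rw [abs_of_nonneg (by linarith [(hω e).1])]
        exact (hω e).1
      have hl1 : (w'.length : ℝ) ≤ n * (1 + δ) := by
        rw [← SimpleGraph.Walk.length_edges]
        have : (n : ℝ) * A ≤ n * (1 + δ) := by gcongr
        linarith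
      have hl2 : (n : ℝ) ≤ w'.length := by
        have h4 := nb_len w'
        have h5 : (n : ℤ) ≤ w'.length := by simpa using h4
        exact_mod_cast h5
      refine ⟨w', hw1, hl1, ?_⟩
      rw [SimpleGraph.Walk.length_edges]
      have : (n : ℝ) * A ≤ w'.length * A := by gcongr
      linarith
    refine h2.trans (h1.trans ?_)
    have h3 : ∑ N ∈ Finset.Icc n ⌊n * (1 + δ)⌋₊, r ^ N ≤ r ^ n / (1 - r) := by
      have h4 : ∀ m : ℕ, ∑ N ∈ Finset.Ico n m, r ^ N ≤ r ^ n / (1 - r) := by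
        intro m
        exact (geom_sum_Ico_le_of_lt_one hr0.le hr1)
      rw [← Finset.Ico_add_one_right_eq_Icc]
      exact h4 _
    exact h3
  -- the expectation
  have hexp : ∀ n : ℕ, n * A * (1 - r ^ n / (1 - r)) ≤ g ν ((n : ℤ) * 1, (n : ℤ) * 0) := by
    intro n
    rw [mul_one, mul_zero]
    unfold g
    have h1 : MeasurableSet {ω : Cfg | T ω 0 (n, 0) < n * A} :=
      measurableSet_lt (measurable_T _ _) measurable_const
    have h2 : ∫ ω, ({ω : Cfg | T ω 0 (n, 0) < n * A}ᶜ.indicator (fun _ => (n : ℝ) * A) ω) ∂(Q ν) ≤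
        ∫ ω, T ω 0 (n, 0) ∂(Q ν) := by
      refine integral_mono ((integrable_const _).indicator h1.compl) (integrable_T hI _ _) ?_
      intro ω
      by_cases h3 : ω ∈ {ω : Cfg | T ω 0 (n, 0) < n * A}ᶜ
      · rw [Set.indicator_of_mem h3]
        have h4 : ¬ (T ω 0 (n, 0) < n * A) := h3
        exact not_lt.1 h4
      · rw [Set.indicator_of_notMem h3]
        exact T_nonneg _ _ _
    rw [integral_indicator_const _ h1.compl, smul_eq_mul, probReal_compl_eq_one_sub h1] at h2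
    have h5 := hprob n
    have h6 : 0 ≤ (n : ℝ) * A := by positivity
    nlinarith
  have hlim := nm_tendsto_int (subSym_g hI) 1 0
  have hlim2 : Tendsto (fun n : ℕ => A * (1 - r ^ n / (1 - r))) atTop (𝓝 (A * (1 - 0 / (1 - r)))) :=
    ((tendsto_const_nhds.sub ((tendsto_pow_atTop_nhds_zero_of_lt_one hr0.le hr1).div_const _)))
      |>.const_mul A
  rw [zero_div, sub_zero, mul_one] at hlim2
  have hcast : Nm (g ν) ((1 : ℤ) : ℝ) ((0 : ℤ) : ℝ) = Nm (g ν) 1 0 := by norm_num
  rw [hcast] at hlim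
  refine le_of_tendsto_of_tendsto hlim2 hlim ?_
  filter_upwards [eventually_gt_atTop 0] with n hn
  have hn' : (0 : ℝ) < n := by exact_mod_cast hn
  rw [le_div_iff₀ hn']
  have := hexp n
  linarith

end Pool.Agent.Work.MP_9a767b_pr.U
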