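import Pool.Agent.Work.MP_9a767b_pr.U.SecondDiff
import Pool.Agent.Work.MP_9a767b_pr.Main

/-!
# Main: unit increments

PROOF. `unit`: let `d n = f (n+1) - f n`, `μ = Nm (g ν) 1 0`. Let `δ > 0`. `window` (file `Window.lean`) gives
`K ≥ 1` with `|f (n+K) - f n - K μ| ≤ δ K` for all `n` (the absolute value of an integral is at most the
integral of the absolute value, `integral_T`). By `second_diff`, for large `n`, `|d (i+1) - d i| ≤ δ / K`
for all `i ≥ n`, so `|d (n+i) - d n| ≤ δ` for `0 ≤ i < K` and `|f (n+K) - f n - K d n| ≤ δ K`; so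
`|d n - μ| ≤ 2 δ`.
`unit_main`: as in `Main.lean`: with `transfer`, `∫ a n ∂P = g ν (n,0)`, and the integral in `hk` is
`g ν (k,k)`; `μ = Nm (g ν) 1 0` by uniqueness of limits (`nm_tendsto_int`);
`k Nm (g ν) 1 1 = Nm (g ν) k k ≤ g ν (k,k) < 2 k μ` (`nm_smul`, `nm_le`), and `k > 0` (for `k = 0` the
hypothesis `hk` reads `0 < 0`).
-/

open MeasureTheory ProbabilityTheory Filter Topology

namespace Pool.Agent.Work.MP_9a767b_pr.U

theorem unit {ν : Measure ℝ} [IsProbabilityMeasure ν]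
    (hI : Integrable (fun ω => T ω 0 (1, 0)) (Q ν))
    (hd : Nm (g ν) 1 1 < 2 * Nm (g ν) 1 0) :
    Tendsto (fun n : ℕ => g ν ((n : ℤ) + 1, 0) - g ν (n, 0)) atTop (𝓝 (Nm (g ν) 1 0)) := by
  obtain ⟨F, hF⟩ : ∃ F : ℕ → ℝ, F = fun n : ℕ => g ν ((n : ℤ), 0) := ⟨_, rfl⟩
  obtain ⟨μ, hμ⟩ : ∃ μ : ℝ, μ = Nm (g ν) 1 0 := ⟨_, rfl⟩
  have hsd : Tendsto (fun n : ℕ => F (n + 2) + F n - 2 * F (n + 1)) atTop (𝓝 0) := by
    have h := second_diff hI hd
    rw [hF]
    simpa using h
  have hgoal : Tendsto (fun n : ℕ => F (n + 1) - F n) atTop (𝓝 μ) := by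
    rw [Metric.tendsto_atTop]
    intro ε hε
    obtain ⟨K0, hK0⟩ := window hI (show 0 < ε / 4 by linarith)
    obtain ⟨K, hK⟩ : ∃ K : ℕ, K = K0 + 1 := ⟨_, rfl⟩
    have hKpos : (0 : ℝ) < K := by
      rw [hK]
      positivity
    have hw : ∀ n : ℕ, |F (n + K) - F n - K * μ| ≤ ε / 4 * K := by
      intro n
      have h1 := hK0 K (by omega) n
      have h2 : F (n + K) - F n - K * μ =
          ∫ ω, (T ω 0 ((n : ℤ) + K, 0) - T ω 0 (n, 0) - K * Nm (g ν) 1 0) ∂(Q ν) := by
        have e1 := integral_sub (μ := Q ν) ((integrable_T hI 0 ((n : ℤ) + K, 0)).sub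
          (integrable_T hI 0 ((n : ℤ), 0))) (integrable_const (K * Nm (g ν) 1 0))
        have e2 := integral_sub (μ := Q ν) (integrable_T hI 0 ((n : ℤ) + K, 0))
          (integrable_T hI 0 ((n : ℤ), 0))
        simp only [Pi.sub_apply] at e1 e2
        rw [e1, e2, hF, hμ]
        simp [g]
      rw [h2]
      exact (abs_integral_le_integral_abs).trans h1
    have hδK : 0 < ε / 4 / K := by positivity
    obtain ⟨N, hN⟩ := (Metric.tendsto_atTop.1 hsd) (ε / 4 / K) hδK
    refine ⟨N, fun n hn => ?_⟩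
    have hstep : ∀ i : ℕ, |(F (n + i + 1) - F (n + i)) - (F (n + 1) - F n)| ≤ i * (ε / 4 / K) := by
      intro i
      induction i with
      | zero => simp
      | succ i ih =>
        have h1 := hN (n + i) (by omega)
        rw [Real.dist_eq, sub_zero] at h1
        have e1 : (F (n + (i + 1) + 1) - F (n + (i + 1))) - (F (n + 1) - F n) =
            (F (n + i + 2) + F (n + i) - 2 * F (n + i + 1)) +
            ((F (n + i + 1) - F (n + i)) - (F (n + 1) - F n)) := by
          have e2 : n + (i + 1) + 1 = n + i + 2 := by ring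
          have e3 : n + (i + 1) = n + i + 1 := by ring
          rw [e2, e3]
          ring
        rw [e1]
        refine (abs_add_le _ _).trans ?_
        push_cast
        linarith
    have htel : ∀ m : ℕ, F (n + m) - F n = ∑ i ∈ Finset.range m, (F (n + i + 1) - F (n + i)) := by
      intro m
      have := Finset.sum_range_sub (fun i => F (n + i)) m
      simp only [add_zero, ← add_assoc] at this
      exact this.symm
    have hsum : |F (n + K) - F n - K * (F (n + 1) - F n)| ≤ K * (ε / 4) := by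
      have e1 : F (n + K) - F n - K * (F (n + 1) - F n) =
          ∑ i ∈ Finset.range K, ((F (n + i + 1) - F (n + i)) - (F (n + 1) - F n)) := by
        rw [Finset.sum_sub_distrib, ← htel, Finset.sum_const, Finset.card_range, nsmul_eq_mul]
      rw [e1]
      refine (Finset.abs_sum_le_sum_abs _ _).trans ?_
      refine (Finset.sum_le_sum (g := fun _ => ε / 4) fun i hi => ?_).trans ?_
      · refine (hstep i).trans ?_
        have h1 : (i : ℝ) ≤ K := by exact_mod_cast (Finset.mem_range.1 hi).le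
        calc (i : ℝ) * (ε / 4 / K) ≤ K * (ε / 4 / K) := mul_le_mul_of_nonneg_right h1 hδK.le
          _ = ε / 4 := by field_simp
      · rw [Finset.sum_const, Finset.card_range, nsmul_eq_mul]
    have hw1 := hw n
    have h3 : |K * (F (n + 1) - F n) - K * μ| ≤ K * (ε / 2) := by
      have e1 : K * (F (n + 1) - F n) - K * μ =
          (F (n + K) - F n - K * μ) - (F (n + K) - F n - K * (F (n + 1) - F n)) := by ring
      rw [e1]
      refine (abs_sub _ _).trans ?_
      linarith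
    rw [Real.dist_eq]
    rw [← mul_sub, abs_mul, abs_of_pos hKpos] at h3
    have h4 := le_of_mul_le_mul_left h3 hKpos
    linarith
  rw [hF, hμ] at hgoal
  simpa using hgoal

theorem unit_main {Ω : Type*} [MeasurableSpace Ω] (P : Measure Ω) [IsProbabilityMeasure P]
    (ν : Measure ℝ) (τ : Sym2 (ℤ × ℤ) → Ω → ℝ) (a : ℕ → Ω → ℝ)
    (hτ : ∀ e ∈ lattice.edgeSet, Measurable (τ e))
    (hind : iIndepFun (fun (e : lattice.edgeSet) => τ e.1) P)
    (hlaw : ∀ e ∈ lattice.edgeSet, Measure.map (τ e) P = ν)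
    (hpos : ∀ e ω, 0 ≤ τ e ω)
    (ha : ∀ n ω, a n ω = ⨅ w : lattice.Walk ((0, 0) : ℤ × ℤ) ((n : ℤ), 0),
      (w.edges.map (fun e => τ e ω)).sum)
    (hint : Integrable (a 1) P) (μ : ℝ)
    (hμ : Tendsto (fun n : ℕ => (∫ ω, a n ω ∂P) / n) atTop (𝓝 μ)) (k : ℕ)
    (hk : ∫ ω, (⨅ w : lattice.Walk ((0, 0) : ℤ × ℤ) ((k : ℤ), (k : ℤ)),
      (w.edges.map (fun e => τ e ω)).sum) ∂P < 2 * k * μ) :
    Tendsto (fun n : ℕ => ∫ ω, (a (n + 1) ω - a n ω) ∂P) atTop (𝓝 μ) := by
  have hpt : ∀ n ω, a n ω = pt (fun e => τ e ω) 0 ((n : ℤ), 0) := fun n ω => ha n ω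
  have hedge : s(((0, 0) : ℤ × ℤ), ((1, 0) : ℤ × ℤ)) ∈ lattice.edgeSet := by
    rw [SimpleGraph.mem_edgeSet, adj_iff]; simp
  have : IsProbabilityMeasure ν := by
    rw [← hlaw _ hedge]; exact Measure.isProbabilityMeasure_map (hτ _ hedge).aemeasurable
  have hT := fun (m : ℕ) (x y : Fin m → V) (f : (Fin m → ℝ) → ℝ) (hf : Measurable f) =>
    transfer P ν τ (fun e he => (hτ e he).aemeasurable) hind hlaw hpos x y f hf
  have hI : Integrable (fun ω => T ω 0 (1, 0)) (Q ν) := by
    have h := (hT 1 (fun _ => 0) (fun _ => (1, 0)) (fun v => v 0) (measurable_pi_apply 0)).2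
    refine h.1 ?_
    refine hint.congr (Eventually.of_forall fun ω => ?_)
    simpa using hpt 1 ω
  have hgi : ∀ n : ℕ, Integrable (a n) P ∧ ∫ ω, a n ω ∂P = g ν (n, 0) := by
    intro n
    have h := hT 1 (fun _ => 0) (fun _ => ((n : ℤ), 0)) (fun v => v 0) (measurable_pi_apply 0)
    refine ⟨?_, ?_⟩
    · refine (h.2.2 (integrable_T hI _ _)).congr (Eventually.of_forall fun ω => ?_)
      exact (hpt n ω).symm
    · rw [g, ← h.1]
      exact integral_congr_ae (Eventually.of_forall fun ω => hpt n ω)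
  have hsub := subSym_g hI
  have hμN : μ = Nm (g ν) 1 0 := by
    have h := nm_tendsto_int hsub 1 0
    simp only [mul_one, mul_zero, Int.cast_one, Int.cast_zero] at h
    refine tendsto_nhds_unique hμ (h.congr fun n => ?_)
    rw [(hgi n).2]
  have hkk : g ν ((k : ℤ), (k : ℤ)) < 2 * k * μ := by
    have h := (hT 1 (fun _ => 0) (fun _ => ((k : ℤ), (k : ℤ))) (fun v => v 0)
      (measurable_pi_apply 0)).1
    rw [g, ← h]
    exact hk
  have hk0 : 0 < k := by
    rcases Nat.eq_zero_or_pos k with rfl | h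
    · exfalso
      have e1 := hsub.nonneg (((0 : ℕ) : ℤ), ((0 : ℕ) : ℤ))
      simp only [Nat.cast_zero, mul_zero, zero_mul] at hkk
      simp only [Nat.cast_zero] at e1
      exact absurd hkk (not_lt.2 e1)
    · exact h
  have hkr : (0 : ℝ) < k := by exact_mod_cast hk0
  have hd : Nm (g ν) 1 1 < 2 * Nm (g ν) 1 0 := by
    have e1 := (isNm hsub).smul k hkr.le 1 1
    rw [mul_one] at e1
    have e2 := nm_le hsub ((k : ℤ), (k : ℤ))
    simp only [Int.cast_natCast] at e2
    rw [hμN] at hkk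
    have e3 : k * Nm (g ν) 1 1 < k * (2 * Nm (g ν) 1 0) := by linarith
    exact lt_of_mul_lt_mul_left e3 hkr.le
  have hu := unit hI hd
  rw [hμN]
  refine hu.congr fun n => ?_
  rw [integral_sub (hgi (n + 1)).1 (hgi n).1, (hgi (n + 1)).2, (hgi n).2]
  push_cast
  rfl

end Pool.Agent.Work.MP_9a767b_pr.U
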