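import Pool.Agent.Work.MP_9a767b_pr.U.Defs
import Pool.Agent.Work.MP_9a767b_pr.LLN
import Pool.Agent.Work.MP_9a767b_pr.NormUnif
import Pool.Agent.Work.MP_9a767b_pr.LineH
import Pool.Agent.Work.MP_9a767b_pr.Slopes

/-!
# AvgSlope: steep vertical increments are rare for an average over targets
-/

open MeasureTheory ProbabilityTheory Filter Topology

namespace Pool.Agent.Work.MP_9a767b_pr.U

/-- telescoping with step `k` -/
theorem avg_tele (G : ℕ → ℝ) (k S0 S1 : ℕ) (h : S0 ≤ S1) :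
    ∑ s ∈ Finset.Ico S0 S1, (G (s + k) - G s) =
      ∑ i ∈ Finset.range k, (G (S1 + i) - G (S0 + i)) := by
  induction k with
  | zero => simp
  | succ k ih =>
    rw [Finset.sum_range_succ, ← ih]
    have h1 : ∑ s ∈ Finset.Ico S0 S1, (G (s + k + 1) - G (s + k)) = G (S1 + k) - G (S0 + k) := by
      have key : ∀ d : ℕ, ∑ s ∈ Finset.Ico S0 (S0 + d), (G (s + k + 1) - G (s + k)) =
          G (S0 + d + k) - G (S0 + k) := by
        intro d
        induction d with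
        | zero => simp
        | succ d ihd =>
          rw [← add_assoc, Finset.sum_Ico_succ_top (by omega), ihd]
          rw [show S0 + d + k + 1 = S0 + d + 1 + k by ring]
          ring
      have := key (S1 - S0)
      rwa [Nat.add_sub_cancel' h] at this
    rw [← h1, ← Finset.sum_add_distrib]
    refine Finset.sum_congr rfl fun s _ => ?_
    rw [← add_assoc]
    ring

/-- the deterministic part -/
theorem avg_det {h : V → ℝ} (hh : SubSym h) {q : ℕ} {c ε1 : ℝ} (hc : 0 < c) (hε : 0 < ε1) :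
    ∃ η > 0, ∀ k : ℕ, ∃ n0 : ℕ, ∀ n : ℕ, n0 ≤ n → ∀ S0 S1 : ℕ,
      (S0 : ℝ) + c * n ≤ S1 → S1 ≤ n → ∀ t : ℤ, |(t : ℝ)| ≤ η * n →
      (k : ℝ) * ((S1 : ℝ) - S0) * (Nm h q 1 - ε1) ≤
        ∑ s ∈ Finset.Ico S0 S1, (h ((q : ℤ) * (s + k : ℕ), (s + k : ℕ) + t) -
          h ((q : ℤ) * s, (s : ℤ) + t)) := by
  set μ := Nm h 1 0 with hμ
  have hN : IsNm (Nm h) μ := isNm hh
  have hμ0 : 0 ≤ μ := by
    have h1 := hN.ge1 0 0
    have h2 := hN.le 1 0
    have h3 := hN.ge1 1 0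
    have h4 := hN.add_le 1 0 (-1) 0
    have h5 := hN.neg1 1 0
    have h6 := hN.smul 0 le_rfl 1 0
    simp only [zero_mul, abs_zero, mul_zero, abs_one, mul_one] at *
    rw [show (1 : ℝ) + -1 = 0 by ring, add_zero, h5, h6] at h4
    linarith [hN.one]
  refine ⟨min 1 (c * ε1 / (4 * (μ + 1))), lt_min one_pos (by positivity), fun k => ?_⟩
  obtain ⟨n0, hn0⟩ := nm_unif hh (ε := c * ε1 / 4) (C := 2 * q + 3) (by positivity) (by positivity)
  refine ⟨max n0 (max k 1), fun n hn S0 S1 hS hS1 t ht => ?_⟩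
  have hn0' : n0 ≤ n := (le_max_left _ _).trans hn
  have hk : k ≤ n := (le_max_left _ _).trans ((le_max_right _ _).trans hn)
  have hn1 : 1 ≤ n := (le_max_right _ _).trans ((le_max_right _ _).trans hn)
  have hnpos : (0 : ℝ) < n := by exact_mod_cast hn1
  have hkn : (k : ℝ) ≤ n := by exact_mod_cast hk
  have hS1n : (S1 : ℝ) ≤ n := by exact_mod_cast hS1
  have hle : S0 ≤ S1 := by
    have : (S0 : ℝ) ≤ S1 := by nlinarith
    exact_mod_cast this
  have ht1 : |(t : ℝ)| ≤ n := by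
    calc |(t : ℝ)| ≤ min 1 (c * ε1 / (4 * (μ + 1))) * n := ht
      _ ≤ 1 * n := mul_le_mul_of_nonneg_right (min_le_left _ _) hnpos.le
      _ = n := one_mul _
  have ht2 : μ * |(t : ℝ)| ≤ c * ε1 / 4 * n := by
    have h1 : |(t : ℝ)| ≤ c * ε1 / (4 * (μ + 1)) * n :=
      ht.trans (mul_le_mul_of_nonneg_right (min_le_right _ _) hnpos.le)
    calc μ * |(t : ℝ)| ≤ (μ + 1) * |(t : ℝ)| :=
          mul_le_mul_of_nonneg_right (by linarith) (abs_nonneg _)
      _ ≤ (μ + 1) * (c * ε1 / (4 * (μ + 1)) * n) := mul_le_mul_of_nonneg_left h1 (by linarith)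
      _ = c * ε1 / 4 * n := by field_simp
  -- values at the points
  have hpt : ∀ s : ℕ, (s : ℝ) ≤ 2 * n →
      |h ((q : ℤ) * (s : ℤ), (s : ℤ) + t) - Nm h (q * s) (s + t)| ≤ c * ε1 / 4 * n := by
    intro s hs
    have h1 := hn0 n hn0' ((q : ℤ) * (s : ℤ), (s : ℤ) + t) (by
      push_cast
      rw [abs_of_nonneg (by positivity)]
      nlinarith [(by positivity : (0 : ℝ) ≤ q)]) (by
      push_cast
      have h2 := abs_add_le (s : ℝ) (t : ℝ)
      rw [abs_of_nonneg (by positivity : (0 : ℝ) ≤ (s : ℝ))] at h2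
      nlinarith [(by positivity : (0 : ℝ) ≤ (q : ℝ) * n)])
    push_cast at h1
    exact h1
  have hlow : ∀ s : ℕ, (s : ℝ) * Nm h q 1 - μ * |(t : ℝ)| ≤ Nm h (q * s) (s + t) := by
    intro s
    have h1 := hN.add_le (q * s) (s + t) 0 (-t)
    have h2 := hN.le 0 (-t)
    have h3 := hN.smul (s : ℝ) (by positivity) q 1
    rw [show (q : ℝ) * s + 0 = s * q by ring, show (s : ℝ) + t + -t = s * 1 by ring, h3] at h1
    simp only [abs_zero, zero_add, abs_neg] at h2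
    linarith
  have hupp : ∀ s : ℕ, Nm h (q * s) (s + t) ≤ (s : ℝ) * Nm h q 1 + μ * |(t : ℝ)| := by
    intro s
    have h1 := hN.add_le (s * q) (s * 1) 0 t
    have h2 := hN.le 0 t
    have h3 := hN.smul (s : ℝ) (by positivity) q 1
    rw [h3, show (s : ℝ) * q + 0 = q * s by ring, mul_one] at h1
    simp only [abs_zero, zero_add] at h2
    linarith
  have htele := avg_tele (fun s => h ((q : ℤ) * (s : ℤ), (s : ℤ) + t)) k S0 S1 hle
  have hterm : ∀ i ∈ Finset.range k, ((S1 : ℝ) - S0) * (Nm h q 1 - ε1) ≤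
      h ((q : ℤ) * ((S1 + i : ℕ) : ℤ), ((S1 + i : ℕ) : ℤ) + t) -
        h ((q : ℤ) * ((S0 + i : ℕ) : ℤ), ((S0 + i : ℕ) : ℤ) + t) := by
    intro i hi
    have hik : (i : ℝ) ≤ k := by exact_mod_cast (Finset.mem_range.1 hi).le
    have hle' : (S0 : ℝ) ≤ S1 := by exact_mod_cast hle
    have h1 := abs_le.1 (hpt (S1 + i) (by push_cast; linarith))
    have h2 := abs_le.1 (hpt (S0 + i) (by push_cast; linarith))
    have h3 := hlow (S1 + i)
    have h4 := hupp (S0 + i)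
    have h5 : c * n * ε1 ≤ ((S1 : ℝ) - S0) * ε1 := mul_le_mul_of_nonneg_right (by linarith) hε.le
    push_cast at *
    nlinarith
  calc (k : ℝ) * ((S1 : ℝ) - S0) * (Nm h q 1 - ε1)
      = ∑ i ∈ Finset.range k, ((S1 : ℝ) - S0) * (Nm h q 1 - ε1) := by
        rw [Finset.sum_const, Finset.card_range, nsmul_eq_mul, mul_assoc]
    _ ≤ _ := Finset.sum_le_sum hterm
    _ = _ := htele.symm

theorem avg_slope {ν : Measure ℝ} [IsProbabilityMeasure ν]
    (hI : Integrable (fun ω => T ω 0 (1, 0)) (Q ν)) {q : ℕ} (hq : 0 < q) {σ1 σ2 c ε : ℝ}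
    (hσ : Nm (g ν) q 2 - Nm (g ν) q 1 ≤ σ1) (h12 : σ1 < σ2) (hc : 0 < c) (hε : 0 < ε) :
    ∃ η > 0, ∃ k0 : ℕ, ∀ k : ℕ, k0 ≤ k → 0 < k → ∃ n0 : ℕ, ∀ n : ℕ, n0 ≤ n → ∀ S0 S1 : ℕ,
      c * n ≤ S0 → (S0 : ℝ) + c * n ≤ S1 → S1 ≤ n → ∀ t : ℤ, |(t : ℝ)| ≤ η * n →
      ∑ s ∈ Finset.Ico S0 S1, (Q ν).real {ω |
        T ω (0, (k : ℤ)) ((q : ℤ) * s, s + t) ≤ T ω 0 ((q : ℤ) * s, s + t) - σ2 * k} ≤
        ε * (S1 - S0) := by
  set δ := (σ2 - σ1) / 3 with hδdef
  have hδ : 0 < δ := by rw [hδdef]; linarith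
  set ε1 := ε * δ / 7 with hε1def
  have hε1 : 0 < ε1 := by positivity
  have hN : IsNm (Nm (g ν)) (Nm (g ν) 1 0) := isNm (subSym_g hI)
  set N1 := Nm (g ν) q 1 with hN1
  set N2 := Nm (g ν) q 2 with hN2
  obtain ⟨η, hη, hdet⟩ := avg_det (subSym_g hI) (q := q) hc hε1
  obtain ⟨k0, hk0⟩ := ulln hI (ε := ε1) (C := q + 2) hε1 (by positivity)
  refine ⟨η, hη, k0, fun k hk hkpos => ?_⟩
  obtain ⟨n0, hn0⟩ := hdet k
  refine ⟨n0, fun n hn S0 S1 _ hS hS1 t ht => ?_⟩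
  have hkR : (0 : ℝ) < k := by exact_mod_cast hkpos
  have hq0 : (0 : ℝ) ≤ q := by positivity
  have hle : (S0 : ℝ) ≤ S1 := by nlinarith [(by positivity : (0 : ℝ) ≤ n)]
  -- the two auxiliary passage times
  set p : V := (-((q : ℤ) * k), -(k : ℤ)) with hp
  have hU : ∫ ω, |T ω p 0 - k * N1| ∂(Q ν) ≤ ε1 * k := by
    have h1 := hk0 k hk p 0 (by
      simp only [hp, Prod.fst_zero]
      push_cast
      rw [show (0 : ℝ) - -((q : ℝ) * k) = q * k by ring, abs_of_nonneg (by positivity)]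
      nlinarith) (by
      simp only [hp, Prod.snd_zero]
      push_cast
      rw [show (0 : ℝ) - -((k : ℝ)) = k by ring, abs_of_nonneg (by positivity)]
      nlinarith)
    have h2 := hN.smul (k : ℝ) hkR.le q 1
    simp only [hp, Prod.fst_zero, Prod.snd_zero] at h1
    push_cast at h1
    rw [show (0 : ℝ) - -((q : ℝ) * k) = k * q by ring, show (0 : ℝ) - -((k : ℝ)) = k * 1 by ring,
      h2] at h1
    exact h1
  have hV : ∫ ω, |T ω p (0, (k : ℤ)) - k * N2| ∂(Q ν) ≤ ε1 * k := by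
    have h1 := hk0 k hk p (0, (k : ℤ)) (by
      simp only [hp]
      push_cast
      rw [show (0 : ℝ) - -((q : ℝ) * k) = q * k by ring, abs_of_nonneg (by positivity)]
      nlinarith) (by
      simp only [hp]
      push_cast
      rw [show (k : ℝ) - -((k : ℝ)) = 2 * k by ring, abs_of_nonneg (by positivity)]
      nlinarith)
    have h2 := hN.smul (k : ℝ) hkR.le q 2
    simp only [hp] at h1
    push_cast at h1
    rw [show (0 : ℝ) - -((q : ℝ) * k) = k * q by ring, show (k : ℝ) - -((k : ℝ)) = k * 2 by ring,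
      h2] at h1
    exact h1
  -- the points
  let z : ℕ → V := fun s => ((q : ℤ) * s, s + t)
  let X : ℕ → Cfg → ℝ := fun s ω => T ω p (z s) - T ω 0 (z s)
  have hXint : ∀ s, Integrable (X s) (Q ν) := fun s => (integrable_T hI _ _).sub
    (integrable_T hI _ _)
  have hUint : Integrable (fun ω => T ω p 0) (Q ν) := integrable_T hI _ _
  have hUX : ∀ s ω, 0 ≤ T ω p 0 - X s ω := by
    intro s ω
    have := T_triangle ω p 0 (z s)
    simp only [X]
    linarith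
  have hEX : ∀ s : ℕ, ∫ ω, X s ω ∂(Q ν) = g ν ((q : ℤ) * (s + k : ℕ), (s + k : ℕ) + t) -
      g ν ((q : ℤ) * s, (s : ℤ) + t) := by
    intro s
    simp only [X]
    rw [integral_sub (integrable_T hI _ _) (integrable_T hI _ _), integral_T, integral_T]
    congr 2
    · simp only [z, hp, Prod.mk_sub_mk]
      push_cast
      congr 1 <;> ring
    · simp [z]
  have hEU : ∫ ω, T ω p 0 ∂(Q ν) ≤ k * (N1 + ε1) := by
    have h1 : ∫ ω, (T ω p 0 - k * N1) ∂(Q ν) ≤ ∫ ω, |T ω p 0 - k * N1| ∂(Q ν) :=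
      integral_mono (hUint.sub (integrable_const _)) (hUint.sub (integrable_const _)).abs
        fun ω => le_abs_self _
    rw [integral_sub hUint (integrable_const _)] at h1
    simp only [integral_const, probReal_univ, one_smul] at h1
    linarith
  have hsumX := hn0 n hn S0 S1 hS hS1 t ht
  have hbad1 : (Q ν).real {ω | (k : ℝ) * δ / 2 ≤ |T ω p 0 - k * N1|} ≤ 2 * ε1 / δ := by
    refine (lh_markov (hUint.sub (integrable_const _)) (c := (k : ℝ) * δ / 2) (by positivity)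
      hU).trans (le_of_eq ?_)
    field_simp
  have hbad2 : (Q ν).real {ω | (k : ℝ) * δ ≤ |T ω p (0, (k : ℤ)) - k * N2|} ≤ ε1 / δ := by
    refine (lh_markov ((integrable_T hI _ _).sub (integrable_const _)) (c := (k : ℝ) * δ)
      (by positivity) hV).trans (le_of_eq ?_)
    field_simp
  have hbad3 : ∀ s, (Q ν).real {ω | (k : ℝ) * δ / 2 ≤ |T ω p 0 - X s ω|} ≤
      (∫ ω, T ω p 0 ∂(Q ν) - ∫ ω, X s ω ∂(Q ν)) / ((k : ℝ) * δ / 2) := by
    intro s
    refine lh_markov (hUint.sub (hXint s)) (c := (k : ℝ) * δ / 2) (by positivity) (le_of_eq ?_)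
    rw [← integral_sub hUint (hXint s)]
    refine integral_congr_ae (Eventually.of_forall fun ω => ?_)
    exact abs_of_nonneg (hUX s ω)
  have hincl : ∀ s : ℕ, {ω | T ω (0, (k : ℤ)) (z s) ≤ T ω 0 (z s) - σ2 * k} ⊆
      ({ω | (k : ℝ) * δ / 2 ≤ |T ω p 0 - X s ω|} ∪
        {ω | (k : ℝ) * δ / 2 ≤ |T ω p 0 - k * N1|}) ∪
        {ω | (k : ℝ) * δ ≤ |T ω p (0, (k : ℤ)) - k * N2|} := by
    intro s ω hω
    by_contra hcon
    simp only [Set.mem_union, Set.mem_ofPred_eq, not_or, not_le] at hcon hω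
    obtain ⟨⟨h1, h2⟩, h3⟩ := hcon
    have h4 := abs_lt.1 h1
    have h5 := abs_lt.1 h2
    have h6 := abs_lt.1 h3
    have h7 := T_triangle ω p (0, (k : ℤ)) (z s)
    have h8 : σ2 = σ1 + 3 * δ := by rw [hδdef]; ring
    simp only [X] at h4
    have h9 : (k : ℝ) * N2 - k * N1 ≤ k * σ1 := by
      rw [← mul_sub]; exact mul_le_mul_of_nonneg_left hσ hkR.le
    have h10 : (0 : ℝ) < k * δ := by positivity
    rw [h8] at hω
    nlinarith
  have hone : ∀ s ∈ Finset.Ico S0 S1, (Q ν).real {ω | T ω (0, (k : ℤ)) (z s) ≤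
      T ω 0 (z s) - σ2 * k} ≤ (∫ ω, T ω p 0 ∂(Q ν) - ∫ ω, X s ω ∂(Q ν)) / ((k : ℝ) * δ / 2) +
        2 * ε1 / δ + ε1 / δ := by
    intro s _
    refine (measureReal_mono (hincl s)).trans ?_
    refine (measureReal_union_le _ _).trans ?_
    refine add_le_add ((measureReal_union_le _ _).trans (add_le_add (hbad3 s) hbad1)) hbad2
  calc ∑ s ∈ Finset.Ico S0 S1, (Q ν).real {ω |
        T ω (0, (k : ℤ)) ((q : ℤ) * s, s + t) ≤ T ω 0 ((q : ℤ) * s, s + t) - σ2 * k}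
      ≤ ∑ s ∈ Finset.Ico S0 S1, ((∫ ω, T ω p 0 ∂(Q ν) - ∫ ω, X s ω ∂(Q ν)) /
        ((k : ℝ) * δ / 2) + 2 * ε1 / δ + ε1 / δ) := Finset.sum_le_sum hone
    _ = ((S1 - S0) * ∫ ω, T ω p 0 ∂(Q ν) - ∑ s ∈ Finset.Ico S0 S1, ∫ ω, X s ω ∂(Q ν)) /
        ((k : ℝ) * δ / 2) + (S1 - S0) * (3 * ε1 / δ) := by
        have hcast : ((S1 - S0 : ℕ) : ℝ) = (S1 : ℝ) - S0 :=
          Nat.cast_sub (by exact_mod_cast hle)
        simp only [Finset.sum_add_distrib, ← Finset.sum_div, Finset.sum_sub_distrib,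
          Finset.sum_const, Nat.card_Ico, nsmul_eq_mul, hcast]
        ring
    _ ≤ (2 * ε1 * k * (S1 - S0)) / ((k : ℝ) * δ / 2) + (S1 - S0) * (3 * ε1 / δ) := by
        have h1 : (S1 - S0) * ∫ ω, T ω p 0 ∂(Q ν) - ∑ s ∈ Finset.Ico S0 S1, ∫ ω, X s ω ∂(Q ν) ≤
            2 * ε1 * k * ((S1 : ℝ) - S0) := by
          have h2 : ((S1 : ℝ) - S0) * ∫ ω, T ω p 0 ∂(Q ν) ≤ (S1 - S0) * (k * (N1 + ε1)) :=
            mul_le_mul_of_nonneg_left hEU (by linarith)
          have h3 : ∑ s ∈ Finset.Ico S0 S1, ∫ ω, X s ω ∂(Q ν) =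
              ∑ s ∈ Finset.Ico S0 S1, (g ν ((q : ℤ) * (s + k : ℕ), (s + k : ℕ) + t) -
                g ν ((q : ℤ) * s, (s : ℤ) + t)) := Finset.sum_congr rfl fun s _ => hEX s
          rw [h3]
          nlinarith
        gcongr
    _ = ε * (S1 - S0) := by
        rw [hε1def]
        field_simp
        ring

end Pool.Agent.Work.MP_9a767b_pr.U
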