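import Pool.Agent.Work.MP_9a767b_pr.U.Visit
import Pool.Agent.Work.MP_9a767b_pr.U.Sel

/-!
# Cov: covariance under vertical translations

PROOF. Let `ω' = act (trans (0, s*K)) ω`. `T ω' x y = T ω ((0,sK) + x) ((0,sK) + y)` (`T_trans`).
`hasGeo_act`: map the walks as in `T_act_le` in `Act.lean`. By `sel_trans` the support of
`ga n K ω' j` is the support of `ga n K ω (j + s)` shifted by `-(0, sK)` (rewrite
`(0, sK) + (0, jK) = (0, (j+s)K)`, `(0,sK) + (n, jK) = (n, (j+s)K)`; to avoid problems with dependent
types first prove the statement for general `x' = z + x`, `y' = z + y` by `subst`). `GoodW` only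
depends on the support (`SimpleGraph.Walk.getVert` is given by the entries of the support, the
length is the length of the support minus one) and is invariant under vertical shifts of the
walk. `ht c` is the height of the first entry of the support in the column `c`, so it is shifted,
provided that there is such an entry (`0 ≤ c ≤ n`, `exists_mem_col`). `Mx` is covariant by
`T_trans`.
-/

open MeasureTheory ProbabilityTheory Filter Topology

namespace Pool.Agent.Work.MP_9a767b_pr.U

private theorem act_act_neg (z : V) (ω : Cfg) : act (trans (-z)) (act (trans z) ω) = ω := by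
  funext e
  show ω ((e.map (trans (-z))).map (trans z)) = ω e
  rw [Sym2.map_map]
  congr 1
  have h : (trans z : V → V) ∘ trans (-z) = id := by
    funext v
    show z + (-z + v) = v
    abel
  rw [h, Sym2.map_id]
  rfl

private theorem exists_map (z : V) (ω : Cfg) {x y : V} (w : lattice.Walk x y) :
    ∃ w' : lattice.Walk (z + x) (z + y), ln ω w' = ln (act (trans z) ω) w := by
  let f : lattice →g lattice := ⟨trans z, fun {a b} h => by
    rw [adj_iff] at h ⊢
    simpa only [trans, Equiv.coe_addLeft, Prod.fst_add, Prod.snd_add,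
      add_sub_add_left_eq_sub] using h⟩
  have e : ln ω (w.map f) = ln (act (trans z) ω) w := by
    unfold ln len act
    rw [SimpleGraph.Walk.edges_map, List.map_map]
    rfl
  exact ⟨w.map f, e⟩

private theorem hasGeo_of_act (z : V) (ω : Cfg) (h : HasGeo (act (trans z) ω)) : HasGeo ω := by
  intro x y
  obtain ⟨x', rfl⟩ : ∃ x', x = z + x' := ⟨x - z, by abel⟩
  obtain ⟨y', rfl⟩ : ∃ y', y = z + y' := ⟨y - z, by abel⟩
  obtain ⟨w, hw⟩ := h x' y'
  obtain ⟨w', hw'⟩ := exists_map z ω w
  exact ⟨w', by rw [hw', hw, T_trans]⟩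

theorem hasGeo_act (z : V) (ω : Cfg) : HasGeo (act (trans z) ω) ↔ HasGeo ω := by
  refine ⟨hasGeo_of_act z ω, fun h => ?_⟩
  refine hasGeo_of_act (-z) (act (trans z) ω) ?_
  rw [act_act_neg]
  exact h

private theorem sel_support {ω : Cfg} (h : HasGeo ω) {z x y x' y' : V} (hx : x' = z + x)
    (hy : y' = z + y) : (sel (act (trans z) ω) x y).support =
      (sel ω x' y').support.map (fun v => v - z) := by
  subst hx hy
  exact sel_trans (exists_isGeo h _ _)

private theorem ga_support {n K s j : ℤ} {ω : Cfg} (h : HasGeo ω) :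
    (ga n K (act (trans (0, s * K)) ω) j).support =
      (ga n K ω (j + s)).support.map (fun v => v - (0, s * K)) :=
  sel_support h (by ext <;> simp; ring) (by ext <;> simp; ring)

private theorem getVert_of_support {x y x' y' z : V} {w : lattice.Walk x y}
    {w' : lattice.Walk x' y'} (h : w.support = w'.support.map (fun v => v - z)) :
    w.length = w'.length ∧ ∀ i, i ≤ w.length → w.getVert i = w'.getVert i - z := by
  have hl : w.length = w'.length := by
    have := congrArg List.length h
    rw [List.length_map, SimpleGraph.Walk.length_support, SimpleGraph.Walk.length_support] at this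
    omega
  refine ⟨hl, fun i hi => ?_⟩
  rw [w.getVert_eq_support_getElem hi, w'.getVert_eq_support_getElem (by omega)]
  simp [h]

private theorem goodW_of_support {n m K : ℤ} {x y x' y' z : V} {w : lattice.Walk x y}
    {w' : lattice.Walk x' y'} (h : w.support = w'.support.map (fun v => v - z)) (hz : z.1 = 0)
    (hx : x' = z + x) (hy : y' = z + y) : GoodW n m K w ↔ GoodW n m K w' := by
  obtain ⟨hl, hv⟩ := getVert_of_support h
  have hx2 : x'.2 = z.2 + x.2 := by rw [hx]; rfl
  have hy2 : y'.2 = z.2 + y.2 := by rw [hy]; rfl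
  have hmem : ∀ a b : ℤ, ((a, b) : V) ∈ w.support ↔ ((a, b + z.2) : V) ∈ w'.support := by
    intro a b
    rw [h, List.mem_map]
    constructor
    · rintro ⟨v, hv1, hv2⟩
      have h1 : v = (a, b + z.2) := by
        have e1 := congrArg Prod.fst hv2
        have e2 := congrArg Prod.snd hv2
        simp only [Prod.fst_sub, Prod.snd_sub] at e1 e2
        ext
        · show v.1 = a
          omega
        · show v.2 = b + z.2
          omega
      rwa [h1] at hv1
    · intro h1
      refine ⟨_, h1, ?_⟩
      ext
      · show a - z.1 = a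
        omega
      · show b + z.2 - z.2 = b
        omega
  have hv1 : ∀ i, i ≤ w.length → (w.getVert i).1 = (w'.getVert i).1 := fun i hi => by
    rw [hv i hi, Prod.fst_sub, hz, sub_zero]
  constructor
  · intro hg
    refine ⟨fun b hb => ?_, fun b hb => ?_, fun i j hij hj hi => ?_, fun i j hij hj hi => ?_⟩
    · have h1 := hg.left (b - z.2) ((hmem _ _).2 (by rwa [sub_add_cancel]))
      rw [hx2, show b - (z.2 + x.2) = b - z.2 - x.2 by ring]
      exact h1
    · have h1 := hg.right (b - z.2) ((hmem _ _).2 (by rwa [sub_add_cancel]))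
      rw [hy2, show b - (z.2 + y.2) = b - z.2 - y.2 by ring]
      exact h1
    · rw [← hv1 j (by omega)]
      exact hg.noret i j hij (by omega) (by rw [hv1 i (by omega)]; exact hi)
    · rw [← hv1 j (by omega)]
      exact hg.noret' i j hij (by omega) (by rw [hv1 i (by omega)]; exact hi)
  · intro hg
    refine ⟨fun b hb => ?_, fun b hb => ?_, fun i j hij hj hi => ?_, fun i j hij hj hi => ?_⟩
    · have h1 := hg.left (b + z.2) ((hmem _ _).1 hb)
      rwa [hx2, show b + z.2 - (z.2 + x.2) = b - x.2 by ring] at h1
    · have h1 := hg.right (b + z.2) ((hmem _ _).1 hb)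
      rwa [hy2, show b + z.2 - (z.2 + y.2) = b - y.2 by ring] at h1
    · rw [hv1 j hj]
      exact hg.noret i j hij (by omega) (by rw [← hv1 i (by omega)]; exact hi)
    · rw [hv1 j hj]
      exact hg.noret' i j hij (by omega) (by rw [← hv1 i (by omega)]; exact hi)

theorem inI_act (n m K s j : ℤ) (ω : Cfg) :
    InI n m K (act (trans (0, s * K)) ω) j ↔ InI n m K ω (j + s) := by
  have hG : ∀ (h : HasGeo ω) (j : ℤ), GoodW n m K (ga n K (act (trans (0, s * K)) ω) j) ↔
      GoodW n m K (ga n K ω (j + s)) := fun h j =>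
    goodW_of_support (ga_support h) rfl (by ext <;> simp; ring) (by ext <;> simp; ring)
  have hM : Mx (act (trans (0, s * K)) ω) (0, j * K) (0, (j + 1) * K) (n, j * K)
      (n, (j + 1) * K) = Mx ω (0, (j + s) * K) (0, (j + s + 1) * K) (n, (j + s) * K)
      (n, (j + s + 1) * K) := by
    have e : ∀ a i : ℤ, ((0, s * K) : V) + (a, i * K) = (a, (i + s) * K) := fun a i => by
      ext
      · show 0 + a = a
        ring
      · show s * K + i * K = (i + s) * K
        ring
    unfold Mx
    rw [T_trans, T_trans, T_trans, T_trans, e, e, e, e, show j + 1 + s = j + s + 1 by ring]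
  unfold InI
  rw [hasGeo_act, hM]
  constructor
  · rintro ⟨h1, h2, h3, h4⟩
    refine ⟨h1, (hG h1 j).1 h2, ?_, h4⟩
    have h5 := (hG h1 (j + 1)).1 h3
    rwa [show j + 1 + s = j + s + 1 by ring] at h5
  · rintro ⟨h1, h2, h3, h4⟩
    refine ⟨h1, (hG h1 j).2 h2, (hG h1 (j + 1)).2 ?_, h4⟩
    rwa [show j + 1 + s = j + s + 1 by ring]

theorem trip_act (n m K s j c : ℤ) (ω : Cfg) :
    Trip n m K (act (trans (0, s * K)) ω) j c ↔ Trip n m K ω (j + s) c := by
  unfold Trip
  simp only [inI_act]
  rw [show j + c + s = j + s + c by ring]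
  refine and_congr_right fun _ => and_congr_right fun _ => ?_
  constructor
  · rintro ⟨i, h1, h2, h3, h4⟩
    refine ⟨i + s, by omega, by omega, h3, fun i' h5 h6 h7 => ?_⟩
    have h8 := h4 (i' - s) (by omega) (by omega) (by rwa [sub_add_cancel])
    omega
  · rintro ⟨i, h1, h2, h3, h4⟩
    refine ⟨i - s, by omega, by omega, by rwa [sub_add_cancel], fun i' h5 h6 h7 => ?_⟩
    have h8 := h4 (i' + s) (by omega) (by omega) h7
    omega

theorem ht_act {n K s j c : ℤ} {ω : Cfg} (h : HasGeo ω) (h0 : 0 ≤ c) (hn : c ≤ n) :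
    ht c (ga n K (act (trans (0, s * K)) ω) j) = ht c (ga n K ω (j + s)) - s * K := by
  have h1 : (ga n K (act (trans (0, s * K)) ω) j).support =
      (ga n K ω (j + s)).support.map (fun v => v - (0, s * K)) := ga_support h
  obtain ⟨v, hv1, hv2⟩ := exists_mem_col (ga n K ω (j + s)) (c := c) (Or.inl ⟨h0, hn⟩)
  have h2 : ((ga n K ω (j + s)).support.find? (fun v => v.1 = c)).isSome := by
    rw [List.find?_isSome]
    exact ⟨v, hv1, by simpa using hv2⟩
  obtain ⟨u, hu⟩ := Option.isSome_iff_exists.1 h2
  unfold ht
  rw [h1, List.find?_map]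
  have h3 : ((fun v : V => decide (v.1 = c)) ∘ fun v : V => v - (0, s * K)) =
      fun v : V => decide (v.1 = c) := by
    funext v
    simp
  rw [h3, hu]
  simp

end Pool.Agent.Work.MP_9a767b_pr.U
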