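import Pool.Agent.Work.MP_9a767b_pr.U.Visit

/-!
# Extract: the part of a good walk in the strip

PROOF. `exists_first_col` for `w` and the column `n` gives the first visit `v` of the column `n`
and `w = w'.append w2` with `w'` in `x ≤ n`. `exists_last_col` for `w'` and the column `0` gives the
last visit `u` of the column `0` in `w'` and `w' = w1.append β` with `β` in `x ≥ 0`. So `β` is a
strip walk (`β.support ⊆ w'.support`).
`w1`: suppose `z ∈ w1.support` has `m ≤ z.1`. Since `w1` starts in the column `0`, it visits the
column `m` (`exists_mem_col` for the part of `w1` before `z`), at an index `i ≤ w1.length`, and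
`w.getVert w1.length = u` is in the column `0`: contradiction to `noret`.
`w2`: suppose `z ∈ w2.support` has `z.1 ≤ n - m`. `w2` starts at `v` in the column `n`, so it visits
the column `n - m`, at an index at least `w'.length`: contradiction to `noret'`.
The bounds for `u.2`, `v.2` are `left`, `right` since `u = (0, u.2)`, `v = (n, v.2)` are on `w`.
Heights: let `m ≤ c ≤ n - m`. `w.support = w1.support ++ β.support.tail ++ w2.support.tail`. No
vertex of `w1` is in the column `c`, `u` is not in the column `c` (it is in the column `0`), and `β`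
visits the column `c` (`exists_mem_col`). So `find?` gives the same result for `w.support` and for
`β.support` (`List.find?_append`).
-/

open MeasureTheory ProbabilityTheory Filter Topology

namespace Pool.Agent.Work.MP_9a767b_pr.U

private theorem find_ex (L : List V) (L' : List V) {c : ℤ} (h : ∃ v ∈ L, v.1 = c) :
    (L ++ L').find? (fun v => v.1 = c) = L.find? (fun v => v.1 = c) := by
  rw [List.find?_append]
  obtain ⟨v, hv, hc⟩ := h
  have h1 : (L.find? (fun v => v.1 = c)).isSome := by
    rw [List.find?_isSome]
    exact ⟨v, hv, by simpa using hc⟩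
  obtain ⟨z, hz⟩ := Option.isSome_iff_exists.mp h1
  rw [hz]
  rfl

private theorem find_none (L : List V) (L' : List V) {c : ℤ} (h : ∀ v ∈ L, v.1 ≠ c) :
    (L ++ L').find? (fun v => v.1 = c) = L'.find? (fun v => v.1 = c) := by
  rw [List.find?_append]
  have h1 : L.find? (fun v => v.1 = c) = none := by
    rw [List.find?_eq_none]
    intro v hv
    simpa using h v hv
  rw [h1]
  rfl

theorem strip_extract {n m K : ℤ} (hm : 0 < m) (hn : 2 * m < n) {x y : V} (w : lattice.Walk x y)
    (hx : x.1 = 0) (hy : y.1 = n) (hw : GoodW n m K w) :
    ∃ (u v : V) (w1 : lattice.Walk x u) (β : lattice.Walk u v) (w2 : lattice.Walk v y),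
      w = w1.append (β.append w2) ∧ IsStrip n β ∧ (∀ z ∈ w1.support, z.1 < m) ∧
      (∀ z ∈ w2.support, n - m < z.1) ∧ 2 * |u.2 - x.2| < K ∧ 2 * |v.2 - y.2| < K ∧
      ∀ c, m ≤ c → c ≤ n - m → ht c β = ht c w := by
  classical
  obtain ⟨v, w', w2, e', hv, h1', _⟩ := exists_first_col w (c := n) (by omega) (by omega)
  obtain ⟨u, w1, β, e, hu, h1, _⟩ := exists_last_col w' (c := 0) (by omega) (by omega)
  have hew : w = w1.append (β.append w2) := by
    rw [e', e, SimpleGraph.Walk.append_assoc]
  have hβ : ∀ z ∈ β.support, z.1 ≤ n := fun z hz => h1' z (by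
    rw [e, SimpleGraph.Walk.mem_support_append_iff]
    exact Or.inr hz)
  have hl1 : w.length = w1.length + (β.length + w2.length) := by
    rw [hew, SimpleGraph.Walk.length_append, SimpleGraph.Walk.length_append]
  have hl2 : w.length = w'.length + w2.length := by
    rw [e', SimpleGraph.Walk.length_append]
  have hw1 : ∀ z ∈ w1.support, z.1 < m := by
    intro z hz
    by_contra hcon
    push Not at hcon
    obtain ⟨p, hp, hpm⟩ := exists_mem_col (w1.takeUntil z hz) (c := m) (Or.inl ⟨by omega, hcon⟩)
    have hp1 : p ∈ w1.support := SimpleGraph.Walk.support_takeUntil_subset_support w1 hz hp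
    obtain ⟨i, hi, hil⟩ := SimpleGraph.Walk.mem_support_iff_exists_getVert.mp hp1
    have g1 : w.getVert i = p := by
      rw [hew, SimpleGraph.Walk.getVert_append', if_pos hil, hi]
    have g2 : w.getVert w1.length = u := by
      rw [hew, SimpleGraph.Walk.getVert_append', if_pos le_rfl, SimpleGraph.Walk.getVert_length]
    exact hw.noret i w1.length hil (by omega) (by rw [g1, hpm]) (by rw [g2, hu])
  have hw2 : ∀ z ∈ w2.support, n - m < z.1 := by
    intro z hz
    by_contra hcon
    push Not at hcon
    obtain ⟨p, hp, hpm⟩ := exists_mem_col (w2.takeUntil z hz) (c := n - m)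
      (Or.inr ⟨hcon, by omega⟩)
    have hp1 : p ∈ w2.support := SimpleGraph.Walk.support_takeUntil_subset_support w2 hz hp
    obtain ⟨i, hi, hil⟩ := SimpleGraph.Walk.mem_support_iff_exists_getVert.mp hp1
    have g1 : w.getVert (w'.length + i) = p := by
      rw [e', SimpleGraph.Walk.getVert_append, if_neg (by omega), Nat.add_sub_cancel_left, hi]
    have g2 : w.getVert w'.length = v := by
      rw [e', SimpleGraph.Walk.getVert_append', if_pos le_rfl, SimpleGraph.Walk.getVert_length]
    exact hw.noret' w'.length (w'.length + i) (by omega) (by omega) (by rw [g2, hv])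
      (by rw [g1, hpm])
  have hus : u ∈ w.support := by
    rw [hew, SimpleGraph.Walk.mem_support_append_iff]
    exact Or.inl w1.end_mem_support
  have hvs : v ∈ w.support := by
    rw [e', SimpleGraph.Walk.mem_support_append_iff]
    exact Or.inl w'.end_mem_support
  refine ⟨u, v, w1, β, w2, hew, ⟨hu, hv, fun z hz => ⟨h1 z hz, hβ z hz⟩⟩, hw1, hw2, ?_, ?_, ?_⟩
  · refine hw.left u.2 ?_
    rw [← hu]
    exact hus
  · refine hw.right v.2 ?_
    rw [← hv]
    exact hvs
  · intro c hc hc'
    have f1 : w.support.find? (fun v => v.1 = c) = β.support.find? (fun v => v.1 = c) := by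
      have k0 : w.support = w1.support ++ (β.support.tail ++ w2.support.tail) := by
        rw [hew, SimpleGraph.Walk.support_append, SimpleGraph.Walk.tail_support_append]
      rw [k0, find_none _ _ (fun z hz => by have := hw1 z hz; omega)]
      have k1 : β.support = [u] ++ β.support.tail := (SimpleGraph.Walk.cons_tail_support β).symm
      have k2 : ([u] ++ (β.support.tail ++ w2.support.tail)).find? (fun v => v.1 = c) =
          (β.support.tail ++ w2.support.tail).find? (fun v => v.1 = c) := by
        refine find_none _ _ fun z hz => ?_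
        rw [List.mem_singleton] at hz
        rw [hz, hu]
        omega
      rw [← k2, ← List.append_assoc, ← k1]
      exact find_ex _ _ (exists_mem_col β (Or.inl ⟨by omega, by omega⟩))
    unfold ht
    rw [f1]

end Pool.Agent.Work.MP_9a767b_pr.U
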