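import Pool.Agent.Work.MP_9a767b_pr.U.Through
import Pool.Agent.Work.MP_9a767b_pr.U.Extract
import Pool.Agent.Work.MP_9a767b_pr.U.Sel

/-!
# Order: active geodesics are disjoint and ordered

Here `a_j = (0, jK)`, `b_j = (n, jK)`, `γ_j = ga n K ω j`.

PROOF. `HasGeo ω`, so all `γ_j` are geodesics (`exists_isGeo`, `sel_spec`). By `strip_extract` there
are strip walks `βi, βm, βl` that are parts of `γ_i, γ_(i+1), γ_l`; they are pieces of geodesics by
`piece_of_geo`. Their start heights differ from `iK, (i+1)K, lK` by less than `K/2`, so they are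
strictly increasing (`≤` if `l = i + 1`, where `βm` and `βl` belong to the same walk), the same for
the end heights.
CLAIM: `βi` and `βl` have no common vertex. Suppose `z` is one. Then
`T a_i z + T z b_i = T a_i b_i` (`piece_mem`), and
`T a_(i+1) z + T z b_(i+1) = T a_(i+1) b_(i+1)`: for `l = i + 1` by `piece_mem` for `βl`, for
`l > i + 1` by `through`. So `T a_i b_(i+1) + T a_(i+1) b_i ≤ T a_i z + T z b_(i+1) +
T a_(i+1) z + T z b_i = T a_i b_i + T a_(i+1) b_(i+1)`, i.e. `Mx ≤ 0` for the index `i`, which
contradicts `InI n m K ω i`.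
First statement: a vertex of `γ_i` and `γ_l` in a column in `[m, n-m]` is on `βi` and on `βl`
(`strip_extract`: the other parts of the walks avoid these columns).
Second statement: let `m ≤ c ≤ n - m`. `ht c γ_i = ht c βi` and `ht c γ_l = ht c βl`. Cut `βi` and
`βl` at their first visit of the column `c` (`exists_first_col`; the first vertex in the column
`c` is `(c, ht c βi)` by the definition of `ht` with `find?`): the initial parts are strip walks for
the strip `0 ≤ x ≤ c`, disjoint, and the start of the first one is below the start of the second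
one. If `ht c βl ≤ ht c βi` then `cross_strip` (with `n := c`) gives a common vertex, a
contradiction.
-/

open MeasureTheory ProbabilityTheory Filter Topology

namespace Pool.Agent.Work.MP_9a767b_pr.U

private theorem ht_first {x y u : V} {w : lattice.Walk x y} {w1 : lattice.Walk x u}
    {w2 : lattice.Walk u y} {c : ℤ} (hw : w = w1.append w2) (hu : u.1 = c)
    (h : ∀ v ∈ w1.support.dropLast, v.1 < c) : ht c w = u.2 := by
  have h1 : w1.support = w1.support.dropLast ++ [u] := by
    have h2 := List.dropLast_append_getLast w1.support_ne_nil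
    rw [SimpleGraph.Walk.getLast_support] at h2
    exact h2.symm
  unfold ht
  rw [hw, SimpleGraph.Walk.support_append, h1, List.find?_append, List.find?_append]
  have h3 : w1.support.dropLast.find? (fun v => decide (v.1 = c)) = none := by
    rw [List.find?_eq_none]
    intro v hv
    have := h v hv
    simp only [decide_eq_true_eq]
    omega
  rw [h3]
  simp [hu]

theorem order {n m K : ℤ} (hK : 0 < K) (hm : 0 < m) (hn : 2 * m < n) {ω : Cfg} {i l : ℤ}
    (hil : i < l) (hi : InI n m K ω i) (hl : InI n m K ω l) :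
    (∀ v, v ∈ (ga n K ω i).support → v ∈ (ga n K ω l).support → m ≤ v.1 → v.1 ≤ n - m → False) ∧
      ∀ c, m ≤ c → c ≤ n - m → ht c (ga n K ω i) < ht c (ga n K ω l) := by
  obtain ⟨hG, hgi, hgm, hM⟩ := hi
  have hgl := hl.2.1
  have hgeo : ∀ j, ln ω (ga n K ω j) = T ω (0, j * K) (n, j * K) := fun j =>
    (sel_spec (exists_isGeo hG (0, j * K) (n, j * K))).1.2
  obtain ⟨ui, vi, wi1, bi, wi2, ei, si, ai, ci, di, di', hi'⟩ :=
    strip_extract hm hn (ga n K ω i) rfl rfl hgi
  obtain ⟨ul, vl, wl1, bl, wl2, el, sl, al, cl, dl, dl', hl'⟩ :=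
    strip_extract hm hn (ga n K ω l) rfl rfl hgl
  have gi : Piece ω (0, i * K) (n, i * K) bi := piece_of_geo (hgeo i) ei
  have gl : Piece ω (0, l * K) (n, l * K) bl := piece_of_geo (hgeo l) el
  have e1 : (i + 1) * K ≤ l * K := mul_le_mul_of_nonneg_right (by omega) hK.le
  have e2 : (i + 1) * K = i * K + K := by ring
  have di1 : 2 * |ui.2 - i * K| < K := di
  have di2 : 2 * |vi.2 - i * K| < K := di'
  have dl1 : 2 * |ul.2 - l * K| < K := dl
  have dl2 : 2 * |vl.2 - l * K| < K := dl'
  have a1 := abs_lt.1 (show |ui.2 - i * K| < K by linarith [abs_nonneg (ui.2 - i * K)])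
  have b1 := abs_le.1 (le_refl |ui.2 - i * K|)
  have b2 := abs_le.1 (le_refl |vi.2 - i * K|)
  have b3 := abs_le.1 (le_refl |ul.2 - l * K|)
  have b4 := abs_le.1 (le_refl |vl.2 - l * K|)
  have hul : ui.2 ≤ ul.2 := by linarith [b1.2, b3.1]
  -- the key claim
  have claim : ∀ z, z ∈ bi.support → z ∈ bl.support → False := by
    intro z hz hz'
    have f1 : T ω (0, i * K) z + T ω z (n, i * K) = T ω (0, i * K) (n, i * K) := piece_mem gi hz
    have f2 : T ω (0, (i + 1) * K) z + T ω z (n, (i + 1) * K) =
        T ω (0, (i + 1) * K) (n, (i + 1) * K) := by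
      rcases (by omega : l = i + 1 ∨ i + 2 ≤ l) with h | h
      · rw [← h]
        exact piece_mem gl hz'
      · obtain ⟨um, vm, wm1, bm, wm2, em, sm, am, cm, dm, dm', _⟩ :=
          strip_extract hm hn (ga n K ω (i + 1)) rfl rfl hgm
        have gm : Piece ω (0, (i + 1) * K) (n, (i + 1) * K) bm := piece_of_geo (hgeo (i + 1)) em
        have e3 : (i + 2) * K ≤ l * K := mul_le_mul_of_nonneg_right h hK.le
        have e4 : (i + 2) * K = i * K + 2 * K := by ring
        have dm1 : 2 * |um.2 - (i + 1) * K| < K := dm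
        have dm2 : 2 * |vm.2 - (i + 1) * K| < K := dm'
        have b5 := abs_le.1 (le_refl |um.2 - (i + 1) * K|)
        have b6 := abs_le.1 (le_refl |vm.2 - (i + 1) * K|)
        exact through gi gm gl si sm sl (by linarith [b1.2, b5.1]) (by linarith [b5.2, b3.1])
          (by linarith [b2.2, b6.1]) (by linarith [b6.2, b4.1]) hz hz'
    have f3 := T_triangle ω (0, i * K) z (n, (i + 1) * K)
    have f4 := T_triangle ω (0, (i + 1) * K) z (n, i * K)
    unfold Mx at hM
    linarith
  constructor
  · intro v hv hv' h1 h2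
    have k1 : v ∈ bi.support := by
      rw [ei, SimpleGraph.Walk.mem_support_append_iff, SimpleGraph.Walk.mem_support_append_iff]
        at hv
      rcases hv with hv | hv | hv
      · have := ai v hv
        omega
      · exact hv
      · have := ci v hv
        omega
    have k2 : v ∈ bl.support := by
      rw [el, SimpleGraph.Walk.mem_support_append_iff, SimpleGraph.Walk.mem_support_append_iff]
        at hv'
      rcases hv' with hv' | hv' | hv'
      · have := al v hv'
        omega
      · exact hv'
      · have := cl v hv'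
        omega
    exact claim v k1 k2
  · intro c h1 h2
    rw [← hi' c h1 h2, ← hl' c h1 h2]
    by_contra hc
    rw [not_lt] at hc
    obtain ⟨p, p1, p2, hp, hpc, hp1, hp2⟩ := exists_first_col bi (c := c)
      (by rw [si.1]; omega) (by rw [si.2.1]; omega)
    obtain ⟨q, q1, q2, hq, hqc, hq1, hq2⟩ := exists_first_col bl (c := c)
      (by rw [sl.1]; omega) (by rw [sl.2.1]; omega)
    rw [ht_first hp hpc hp2, ht_first hq hqc hq2] at hc
    have sub1 : ∀ v ∈ p1.support, v ∈ bi.support := fun v hv => by
      rw [hp, SimpleGraph.Walk.mem_support_append_iff]; exact Or.inl hv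
    have sub2 : ∀ v ∈ q1.support, v ∈ bl.support := fun v hv => by
      rw [hq, SimpleGraph.Walk.mem_support_append_iff]; exact Or.inl hv
    have s1 : IsStrip c p1 := ⟨si.1, hpc, fun v hv => ⟨(si.2.2 v (sub1 v hv)).1, hp1 v hv⟩⟩
    have s2 : IsStrip c q1 := ⟨sl.1, hqc, fun v hv => ⟨(sl.2.2 v (sub2 v hv)).1, hq1 v hv⟩⟩
    obtain ⟨z, hz1, hz2⟩ := cross_strip s1 s2 hul hc
    exact claim z (sub1 z hz1) (sub2 z hz2)

end Pool.Agent.Work.MP_9a767b_pr.U
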