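import Pool.Agent.Work.MP_9a767b_pr.U.Sel
import Pool.Agent.Work.MP_9a767b_pr.Meas

/-!
# SelMeas: measurability of events defined with the selected geodesics

PROOF. `T ω x y` is measurable in `ω` (`measurable_T`), `ln ω w` is measurable (`measurable_len`
composed with the measurable map `ω ↦ |ω|`), walks between two fixed vertices are countable
(`countable_walk`, an instance). `{ω | IsGeo ω w}` is measurable.
`measurableSet_sel_eq`: let `E = {ω | ∃ w', IsGeo ω w'}` (measurable, countable union). On the
complement of `E`, `sel ω x y` is a fixed walk. On `E`, `sel ω x y = w` if and only if `IsGeo ω w`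
and for all `w'`, `IsGeo ω w' → code w ≤ code w'` (`sel_spec`, `sel_eq`): a countable intersection.
`measurableSet_sel_prop`: the union over all `w` of `{sel = w} ∩ {P w ω}`.
`measurableSet_inI`, `measurableSet_trip`: `GoodW` of the selected walk is a property of the walk
only (use `measurableSet_sel_prop`), `Mx` is measurable, `HasGeo` is a countable intersection of
countable unions.
-/

open MeasureTheory ProbabilityTheory Filter Topology

namespace Pool.Agent.Work.MP_9a767b_pr.U

theorem measurable_ln {x y : V} (w : lattice.Walk x y) : Measurable (fun ω : Cfg => ln ω w) := by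
  have h : Measurable (fun ω : Cfg => (fun e => |ω e| : Sym2 V → ℝ)) :=
    measurable_pi_lambda _ fun e => continuous_abs.measurable.comp (measurable_pi_apply e)
  exact (measurable_len w).comp h

theorem measurableSet_hasGeo : MeasurableSet {ω : Cfg | HasGeo ω} := by
  have h : {ω : Cfg | HasGeo ω}
      = ⋂ x : V, ⋂ y : V, ⋃ w : lattice.Walk x y, {ω | ln ω w = T ω x y} := by
    ext ω
    simp only [HasGeo, Set.mem_ofPred_eq, Set.mem_iInter, Set.mem_iUnion]
  rw [h]
  exact MeasurableSet.iInter fun x => MeasurableSet.iInter fun y => MeasurableSet.iUnion fun w =>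
    measurableSet_eq_fun (measurable_ln w) (measurable_T x y)

private theorem selmeas_isGeo {x y : V} (w : lattice.Walk x y) :
    MeasurableSet {ω : Cfg | IsGeo ω w} :=
  (MeasurableSet.const w.IsPath).inter (measurableSet_eq_fun (measurable_ln w) (measurable_T x y))

theorem measurableSet_sel_eq {x y : V} (w : lattice.Walk x y) :
    MeasurableSet {ω : Cfg | sel ω x y = w} := by
  classical
  have hE : MeasurableSet {ω : Cfg | ∃ w' : lattice.Walk x y, IsGeo ω w'} := by
    have h : {ω : Cfg | ∃ w' : lattice.Walk x y, IsGeo ω w'}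
        = ⋃ w' : lattice.Walk x y, {ω | IsGeo ω w'} := by
      ext ω
      simp only [Set.mem_ofPred_eq, Set.mem_iUnion]
    rw [h]
    exact MeasurableSet.iUnion fun w' => selmeas_isGeo w'
  have hG : MeasurableSet {ω : Cfg | IsGeo ω w ∧
      ∀ w' : lattice.Walk x y, IsGeo ω w' → code w ≤ code w'} := by
    refine (selmeas_isGeo w).inter ?_
    have h : {ω : Cfg | ∀ w' : lattice.Walk x y, IsGeo ω w' → code w ≤ code w'}
        = ⋂ w' : lattice.Walk x y, ({ω | IsGeo ω w'}ᶜ ∪ {_ω | code w ≤ code w'}) := by
      ext ω
      simp only [Set.mem_ofPred_eq, Set.mem_iInter, Set.mem_union, Set.mem_compl_iff]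
      exact forall_congr' fun w' => imp_iff_not_or
    have h2 : MeasurableSet {ω : Cfg | ∀ w' : lattice.Walk x y, IsGeo ω w' → code w ≤ code w'} := by
      rw [h]
      exact MeasurableSet.iInter fun w' => (selmeas_isGeo w').compl.union (MeasurableSet.const _)
    exact h2
  have h : {ω : Cfg | sel ω x y = w}
      = ({ω : Cfg | ∃ w' : lattice.Walk x y, IsGeo ω w'} ∩ {ω : Cfg | IsGeo ω w ∧
        ∀ w' : lattice.Walk x y, IsGeo ω w' → code w ≤ code w'}) ∪
        ({ω : Cfg | ∃ w' : lattice.Walk x y, IsGeo ω w'}ᶜ ∩
          {_ω : Cfg | (nonempty_walk x y).some = w}) := by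
    ext ω
    simp only [Set.mem_ofPred_eq, Set.mem_union, Set.mem_inter_iff, Set.mem_compl_iff]
    by_cases hw : ∃ w' : lattice.Walk x y, IsGeo ω w'
    · have hs := sel_spec hw
      constructor
      · rintro rfl
        exact Or.inl ⟨hw, hs⟩
      · rintro (⟨_, h1, h2⟩ | ⟨h1, _⟩)
        · exact sel_eq w h1 h2
        · exact absurd hw h1
    · have hs : sel ω x y = (nonempty_walk x y).some := by
        unfold sel
        rw [dif_neg]
        rintro ⟨k, w', h1, h2⟩
        exact hw ⟨w', h1⟩
      rw [hs]
      constructor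
      · intro h1
        exact Or.inr ⟨hw, h1⟩
      · rintro (⟨h1, _⟩ | ⟨_, h1⟩)
        · exact absurd h1 hw
        · exact h1
  rw [h]
  exact (hE.inter hG).union (hE.compl.inter (MeasurableSet.const _))

theorem measurableSet_sel_prop {x y : V} (P : lattice.Walk x y → Cfg → Prop)
    (h : ∀ w, MeasurableSet {ω : Cfg | P w ω}) : MeasurableSet {ω : Cfg | P (sel ω x y) ω} := by
  have h1 : {ω : Cfg | P (sel ω x y) ω}
      = ⋃ w : lattice.Walk x y, ({ω | sel ω x y = w} ∩ {ω | P w ω}) := by
    ext ω
    simp only [Set.mem_ofPred_eq, Set.mem_iUnion, Set.mem_inter_iff]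
    constructor
    · intro h
      exact ⟨_, rfl, h⟩
    · rintro ⟨w, rfl, h⟩
      exact h
  rw [h1]
  exact MeasurableSet.iUnion fun w => (measurableSet_sel_eq w).inter (h w)

theorem measurableSet_inI (n m K j : ℤ) : MeasurableSet {ω : Cfg | InI n m K ω j} := by
  have h1 : ∀ i : ℤ, MeasurableSet {ω : Cfg | GoodW n m K (ga n K ω i)} := fun i =>
    measurableSet_sel_prop (fun w _ => GoodW n m K w) (fun _ => MeasurableSet.const _)
  have h2 : Measurable (fun ω : Cfg => Mx ω (0, j * K) (0, (j + 1) * K) (n, j * K)
      (n, (j + 1) * K)) := by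
    unfold Mx
    exact (((measurable_T _ _).add (measurable_T _ _)).sub (measurable_T _ _)).sub
      (measurable_T _ _)
  exact measurableSet_hasGeo.inter ((h1 j).inter ((h1 (j + 1)).inter
    (measurableSet_lt measurable_const h2)))

theorem measurableSet_trip (n m K j c : ℤ) : MeasurableSet {ω : Cfg | Trip n m K ω j c} := by
  have h1 : ∀ i : ℤ, Measurable (fun ω : Cfg => InI n m K ω i) := fun i =>
    measurableSet_setOfPred.mp (measurableSet_inI n m K i)
  refine measurableSet_setOfPred.mpr ?_
  unfold Trip
  refine (h1 j).and ((h1 (j + c)).and ?_)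
  refine Measurable.exists fun i => ?_
  refine measurable_const.and (measurable_const.and ((h1 i).and ?_))
  refine Measurable.forall fun i' => ?_
  exact measurable_const.imp (measurable_const.imp ((h1 i').imp measurable_const))

end Pool.Agent.Work.MP_9a767b_pr.U
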