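import Pool.Agent.Work.MP_9a767b_pr.U.Mtp
import Pool.Agent.Work.MP_9a767b_pr.U.Order
import Pool.Agent.Work.MP_9a767b_pr.U.Cov
import Pool.Agent.Work.MP_9a767b_pr.U.SelMeas

/-!
# BadV: bad vertices are rarely on the selected geodesic

PROOF. Let `q j y = Q {ω | InI j ∧ ht c (ga j) = y ∧ ω ∈ Bad (c, y)}` (in `ℝ≥0∞`).
Covariance: let `ω' = act (trans (0, jK)) ω`. `InI ω' 0 ↔ InI ω j` (`inI_act`),
`ht c (ga ω' 0) = ht c (ga ω j) - jK` (`ht_act`, `InI` contains `HasGeo`), and
`ω' ∈ Bad (c, y - jK) ↔ ω ∈ Bad (c, y)` (by `hcov` and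
`act (trans z) (act (trans z') ω) = act (trans (z' + z)) ω`). `act` preserves `Q` (`act_mp`). So
`q j y = q 0 (y - jK)`.
For fixed `r` the events `{InI j ∧ ht c (ga j) = r}`, `j : ℤ`, are disjoint (`order`: the heights of
different active indices are different), so
`∑' j, q j r ≤ Q (Bad (c, r)) = Q (Bad 0)` (`act_mp`; `measure_iUnion` for disjoint measurable
sets). By `mtp`, `∑' y, q 0 y ≤ K Q(Bad 0)`. The event of the statement is the union over `y` of
`{InI 0 ∧ ht c (ga 0) = y ∧ ω ∈ Bad (c, y)}` (`measure_iUnion_le`). Convert to real numbers.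
Measurability: `measurableSet_inI`, `measurableSet_sel_prop`.
-/

open MeasureTheory ProbabilityTheory Filter Topology

namespace Pool.Agent.Work.MP_9a767b_pr.U

private theorem act_trans_trans (z z' : V) (ω : Cfg) :
    act (trans z) (act (trans z') ω) = act (trans (z' + z)) ω := by
  funext e
  simp only [act, Sym2.map_map]
  congr 1
  have : (trans z' : V → V) ∘ (trans z : V → V) = (trans (z' + z) : V → V) := by
    funext x
    simp [trans]
  rw [this]

private theorem measure_bad {ν : Measure ℝ} [IsProbabilityMeasure ν] (Bad : V → Set Cfg)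
    (hmeas : ∀ z, MeasurableSet (Bad z))
    (hcov : ∀ z ω, ω ∈ Bad z ↔ act (trans z) ω ∈ Bad 0) (z : V) :
    Q ν (Bad z) = Q ν (Bad 0) := by
  have h : Bad z = act (trans z) ⁻¹' Bad 0 := by
    ext ω
    exact hcov z ω
  rw [h]
  exact (act_mp ν (trans z)).measure_preimage (hmeas 0).nullMeasurableSet

private theorem measSet {n m : ℤ} {K : ℤ} (Bad : V → Set Cfg)
    (hmeas : ∀ z, MeasurableSet (Bad z)) (c j y : ℤ) :
    MeasurableSet {ω : Cfg | InI n m K ω j ∧ ht c (ga n K ω j) = y ∧ ω ∈ Bad (c, y)} := by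
  refine (measurableSet_inI n m K j).inter (MeasurableSet.inter ?_ (hmeas _))
  exact measurableSet_sel_prop (fun w _ => ht c w = y) (fun w => MeasurableSet.const _)

theorem bad_vertex {ν : Measure ℝ} [IsProbabilityMeasure ν] {n m : ℤ} {K : ℕ} (hK : 0 < K)
    (hm : 0 < m) (hn : 2 * m < n) (Bad : V → Set Cfg) (hmeas : ∀ z, MeasurableSet (Bad z))
    (hcov : ∀ z ω, ω ∈ Bad z ↔ act (trans z) ω ∈ Bad 0) (c : ℤ) (h1 : m ≤ c) (h2 : c ≤ n - m) :
    (Q ν).real {ω | InI n m K ω 0 ∧ ω ∈ Bad (c, ht c (ga n K ω 0))} ≤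
      K * (Q ν).real (Bad 0) := by
  have hQ : IsProbabilityMeasure (Q ν) := by unfold Q; infer_instance
  have hKz : (0 : ℤ) < K := by exact_mod_cast hK
  set q : ℤ → ℤ → ENNReal := fun j y =>
    Q ν {ω : Cfg | InI n m K ω j ∧ ht c (ga n K ω j) = y ∧ ω ∈ Bad (c, y)} with hq
  have hcovq : ∀ j y, q j y = q 0 (y - j * K) := by
    intro j y
    have hpre : act (trans (0, j * K)) ⁻¹'
        {ω : Cfg | InI n m K ω 0 ∧ ht c (ga n K ω 0) = y - j * K ∧ ω ∈ Bad (c, y - j * K)} =
        {ω : Cfg | InI n m K ω j ∧ ht c (ga n K ω j) = y ∧ ω ∈ Bad (c, y)} := by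
      ext ω
      simp only [Set.mem_preimage, Set.mem_ofPred_eq]
      have e1 := inI_act n m K j 0 ω
      rw [zero_add] at e1
      rw [e1]
      refine and_congr_right fun hI => ?_
      have e2 := ht_act (n := n) (K := (K : ℤ)) (s := j) (j := 0) (c := c) (ω := ω) hI.1
        (by omega) (by omega)
      rw [zero_add] at e2
      rw [e2]
      have e3 : act (trans (0, j * K)) ω ∈ Bad (c, y - j * K) ↔ ω ∈ Bad (c, y) := by
        rw [hcov, act_trans_trans, hcov (c, y)]
        have : ((0, j * K) : V) + (c, y - j * K) = (c, y) := by ext <;> simp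
        rw [this]
      rw [e3]
      refine and_congr_left fun _ => ?_
      constructor
      · intro h; linarith
      · intro h; rw [h]
    simp only [hq]
    rw [← hpre]
    exact (act_mp ν (trans (0, j * K))).measure_preimage
      (measSet Bad hmeas c 0 (y - j * K)).nullMeasurableSet
  have hB : ∀ r < K, ∑' j : ℤ, q j (r : ℤ) ≤ Q ν (Bad 0) := by
    intro r _
    have hdis : Pairwise (Function.onFun Disjoint fun j : ℤ =>
        {ω : Cfg | InI n m K ω j ∧ ht c (ga n K ω j) = (r : ℤ) ∧ ω ∈ Bad (c, (r : ℤ))}) := by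
      intro i l hil
      refine Set.disjoint_left.2 fun ω hi hl => ?_
      rcases lt_or_gt_of_ne hil with h | h
      · have := (order hKz hm hn h hi.1 hl.1).2 c h1 h2
        rw [hi.2.1, hl.2.1] at this
        exact lt_irrefl _ this
      · have := (order hKz hm hn h hl.1 hi.1).2 c h1 h2
        rw [hi.2.1, hl.2.1] at this
        exact lt_irrefl _ this
    simp only [hq]
    rw [← measure_iUnion hdis (fun j => measSet Bad hmeas c j r)]
    rw [← measure_bad (ν := ν) Bad hmeas hcov (c, (r : ℤ))]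
    refine measure_mono ?_
    intro ω hω
    rw [Set.mem_iUnion] at hω
    obtain ⟨j, hj⟩ := hω
    exact hj.2.2
  have hmt := mtp K hK q hcovq (fun _ => Q ν (Bad 0)) hB
  have hsub : {ω : Cfg | InI n m K ω 0 ∧ ω ∈ Bad (c, ht c (ga n K ω 0))} ⊆
      ⋃ y : ℤ, {ω : Cfg | InI n m K ω 0 ∧ ht c (ga n K ω 0) = y ∧ ω ∈ Bad (c, y)} := by
    intro ω hω
    rw [Set.mem_iUnion]
    exact ⟨_, hω.1, rfl, hω.2⟩
  have hle : Q ν {ω : Cfg | InI n m K ω 0 ∧ ω ∈ Bad (c, ht c (ga n K ω 0))} ≤
      K * Q ν (Bad 0) := by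
    refine (measure_mono hsub).trans ((measure_iUnion_le _).trans (hmt.trans (le_of_eq ?_)))
    rw [Finset.sum_const, Finset.card_range, nsmul_eq_mul]
  have hne : (K : ENNReal) * Q ν (Bad 0) ≠ ⊤ :=
    ENNReal.mul_ne_top (ENNReal.natCast_ne_top K) (measure_ne_top _ _)
  have := ENNReal.toReal_mono hne hle
  rw [ENNReal.toReal_mul, ENNReal.toReal_natCast] at this
  exact this

end Pool.Agent.Work.MP_9a767b_pr.U
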