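import Pool.Agent.Work.MP_9a767b_pr.U.Defs
import Pool.Agent.Work.MP_9a767b_pr.Metric

/-!
# Pieces: pieces of geodesics

PROOF. Only `T_triangle`, `T_comm`, `pt_le_len`, `pt_split`, `len_append` (file `Metric.lean`;
`T ω x y = pt (fun e => |ω e|) x y` and `ln ω w = len (fun e => |ω e|) w` by definition).
`piece_of_geo`: `T x y = ln w = ln w1 + ln β + ln w2 ≥ T x u + ln β + T v y ≥ T x y` (the last
inequality: `ln β ≥ T u v` and the triangle inequality), so equality.
`piece_mem`: `T x y = T x u + ln β + T v y ≥ T x u + T u p + T p v + T v y ≥ T x p + T p y`.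
`piece_split`: `T u p + T p z ≤ ln β1`, `T z q + T q v ≤ ln β2`, so
`T x y ≥ T x u + T u p + T p z + T z q + T q v + T v y ≥ T x p + T p z + T z q + T q y`, and
`T x y ≤ T x p + T p q + T q y`; so `T p z + T z q ≤ T p q`.
`piece_two`: `q` is on the part of `β` after `p` or before `p` (`SimpleGraph.Walk.take_spec`,
`dropUntil`, `takeUntil`); in the first case
`ln β ≥ T u p + T p q + T q v`, which gives the first alternative, otherwise the second one.
-/

open MeasureTheory ProbabilityTheory Filter Topology

namespace Pool.Agent.Work.MP_9a767b_pr.U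

private theorem T_le_ln (ω : Cfg) {x y : V} (w : lattice.Walk x y) : T ω x y ≤ ln ω w :=
  pt_le_len (fun _ => abs_nonneg _) w

private theorem T_sp (ω : Cfg) {x y z : V} (w : lattice.Walk x y) (hz : z ∈ w.support) :
    T ω x z + T ω z y ≤ ln ω w := pt_split (fun _ => abs_nonneg _) w hz

private theorem ln_app (ω : Cfg) {x y z : V} (w : lattice.Walk x y) (w' : lattice.Walk y z) :
    ln ω (w.append w') = ln ω w + ln ω w' := len_append _ w w'

theorem piece_of_geo {ω : Cfg} {x y u v : V} {w : lattice.Walk x y} (h : ln ω w = T ω x y)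
    {w1 : lattice.Walk x u} {β : lattice.Walk u v} {w2 : lattice.Walk v y}
    (hw : w = w1.append (β.append w2)) : Piece ω x y β := by
  unfold Piece
  rw [hw, ln_app, ln_app] at h
  have h1 := T_le_ln ω w1
  have h2 := T_le_ln ω β
  have h3 := T_le_ln ω w2
  have h4 := T_triangle ω x u y
  have h5 := T_triangle ω u v y
  linarith

theorem piece_mem {ω : Cfg} {x y u v : V} {β : lattice.Walk u v} (h : Piece ω x y β) {p : V}
    (hp : p ∈ β.support) : T ω x p + T ω p y = T ω x y := by
  unfold Piece at h
  have h1 := T_sp ω β hp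
  have h2 := T_triangle ω x u p
  have h3 := T_triangle ω p v y
  have h4 := T_triangle ω x p y
  linarith

theorem piece_split {ω : Cfg} {x y u z v : V} (β1 : lattice.Walk u z) (β2 : lattice.Walk z v)
    (h : Piece ω x y (β1.append β2)) {p q : V} (hp : p ∈ β1.support) (hq : q ∈ β2.support) :
    T ω p z + T ω z q = T ω p q := by
  unfold Piece at h
  rw [ln_app] at h
  have h1 := T_sp ω β1 hp
  have h2 := T_sp ω β2 hq
  have h3 := T_triangle ω x u p
  have h4 := T_triangle ω q v y
  have h5 := T_triangle ω x p y
  have h6 := T_triangle ω p q y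
  have h7 := T_triangle ω p z q
  linarith

theorem piece_two {ω : Cfg} {x y u v : V} {β : lattice.Walk u v} (h : Piece ω x y β) {p q : V}
    (hp : p ∈ β.support) (hq : q ∈ β.support) :
    T ω x p + T ω p q + T ω q y = T ω x y ∨ T ω x q + T ω q p + T ω p y = T ω x y := by
  classical
  unfold Piece at h
  have hβ := ln_app ω (β.takeUntil p hp) (β.dropUntil p hp)
  rw [β.take_spec hp] at hβ
  have hq' : q ∈ ((β.takeUntil p hp).append (β.dropUntil p hp)).support := by
    rw [β.take_spec hp]; exact hq
  rw [SimpleGraph.Walk.mem_support_append_iff] at hq'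
  rcases hq' with hq' | hq'
  · right
    have h1 := T_sp ω (β.takeUntil p hp) hq'
    have h2 := T_le_ln ω (β.dropUntil p hp)
    have h3 := T_triangle ω x u q
    have h4 := T_triangle ω p v y
    have h5 := T_triangle ω x q y
    have h6 := T_triangle ω q p y
    linarith
  · left
    have h1 := T_sp ω (β.dropUntil p hp) hq'
    have h2 := T_le_ln ω (β.takeUntil p hp)
    have h3 := T_triangle ω x u p
    have h4 := T_triangle ω q v y
    have h5 := T_triangle ω x p y
    have h6 := T_triangle ω p q y
    linarith

end Pool.Agent.Work.MP_9a767b_pr.U
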