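import Pool.Agent.Work.MP_9a767b_pr.U.SideCross
import Pool.Agent.Work.MP_9a767b_pr.U.Pieces

/-!
# Barrier: an excursion for the target `(n,t)` forces an excursion for a target above it

PROOF. Let `G` be a walk from `0` to `z` with `ln ω G ≤ T 0 z + 1` (`exists_near`). Let `A`, `B` be very
large (larger than all absolute values of coordinates of vertices of `G`, `P`, of `z`, `n`, `t`, `j`).
Barrier walk `β`: from `(-B, A)` along the row `A` to `(0, A)`, down the column `0` to `(0, j)`, along `P`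
to `(n,t)`, along the row `t` to `(B, t)`. Second walk `G'`: from `(0, -B')` up the column `0` to `0`
(`B' ≥ A + B + 1` larger than all absolute heights of `β`), along `G` to `z`, up the column `z.1` to
`(z.1, B')`. (`hwalk`, `vwalk`.) By `side_cross` (`x1 = -B`, `x2 = B`, third alternatives) there is a common
vertex `w`. Cases:
* `w = (0, y)`, `y ≤ 0`, on the first part of `G'`: it is not on the row `A`, not on the column `0` between
  `j > 0` and `A`, not on `P` (the start `(0,j)` has `j > 0`, the other vertices have `0 < x`), not on the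
  last part (`x ≥ n > 0`);
* `w` on `G` and on the row `A`: impossible, `A` is larger than the heights of `G`;
* `w = (0,i)` on `G`, `j ≤ i`: then `T 0 (0,i) + T (0,i) z ≤ ln G ≤ T 0 z + 1` (`pt_split`): first or second
  alternative (`k0 ≤ j ≤ i`);
* `w` on `G` and on `P`: `ln P ≥ T (0,j) w + T w (n,t)`, so by `hlen`
  `T 0 (0,j) + T (0,j) w ≤ T 0 (n,t) + D + 1 - T w (n,t) ≤ T 0 w + D + 1`, hence
  `T 0 (0,j) + T (0,j) z ≤ T 0 (0,j) + T (0,j) w + T w z ≤ T 0 w + T w z + D + 1 ≤ T 0 z + D + 2`: first or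
  second alternative with `i = j`;
* `w = (x,t)` with `n ≤ x` on `G`: fourth alternative;
* `w = (z.1, y)` with `z.2 ≤ y`, on the last part of `G'`: not on the row `A` left of the column `0`
  (`z.1 > 0`), not on the column `0`, not on the row `t` right of `n` (`z.1 < n`), so it is on `P`:
  `T 0 w + T w (n,t) ≤ T 0 (0,j) + T (0,j) w + T w (n,t) ≤ T 0 (0,j) + ln P ≤ T 0 (n,t) + D + 1`: third
  alternative.
-/

open MeasureTheory ProbabilityTheory Filter Topology

namespace Pool.Agent.Work.MP_9a767b_pr.U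

private theorem bdd2 (l : List V) : ∃ A : ℤ, 0 ≤ A ∧
    ∀ w ∈ l, -A ≤ w.1 ∧ w.1 ≤ A ∧ -A ≤ w.2 ∧ w.2 ≤ A := by
  induction l with
  | nil => exact ⟨0, le_rfl, by simp⟩
  | cons a l ih =>
    obtain ⟨A, hA, h⟩ := ih
    refine ⟨max A (max (max a.1 (-a.1)) (max a.2 (-a.2))), by omega, ?_⟩
    intro w hw
    rw [List.mem_cons] at hw
    rcases hw with hw | hw
    · rw [hw]; omega
    · have := h w hw
      omega

theorem barrier {ω : Cfg} {n t k0 W : ℤ} {z : V} {D : ℝ} (hD : 0 ≤ D) (hz : 0 < z.1)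
    (hzn : z.1 < n) (h0 : 0 < k0) {j : ℤ} (hj : k0 ≤ j) (P : lattice.Walk ((0, j) : V) (n, t))
    (hP : ∀ v ∈ P.support.tail, 0 < v.1) (hlen : T ω 0 (0, j) + ln ω P ≤ T ω 0 (n, t) + D + 1) :
    (∃ i : ℤ, k0 ≤ i ∧ i ≤ W ∧ T ω 0 (0, i) + T ω (0, i) z ≤ T ω 0 z + (D + 2)) ∨
    (∃ i : ℤ, W < i ∧ T ω 0 (0, i) + T ω (0, i) z ≤ T ω 0 z + (D + 2)) ∨
    (∃ y : ℤ, z.2 ≤ y ∧ T ω 0 (z.1, y) + T ω (z.1, y) (n, t) ≤ T ω 0 (n, t) + (D + 1)) ∨
    (∃ x : ℤ, n ≤ x ∧ T ω 0 (x, t) + T ω (x, t) z ≤ T ω 0 z + 1) := by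
  obtain ⟨z1, z2⟩ := z
  simp only at hz hzn
  obtain ⟨G, hG⟩ := exists_near (fun e => |ω e|) 0 ((z1, z2) : V) one_pos
  have hlnG : ln ω G ≤ T ω 0 (z1, z2) + 1 := hG.le
  obtain ⟨A, hA0, hA⟩ := bdd2 (G.support ++ P.support)
  have hAG : ∀ w ∈ G.support, -A ≤ w.1 ∧ w.1 ≤ A ∧ -A ≤ w.2 ∧ w.2 ≤ A := fun w hw =>
    hA w (List.mem_append.2 (Or.inl hw))
  have hAP : ∀ w ∈ P.support, -A ≤ w.1 ∧ w.1 ≤ A ∧ -A ≤ w.2 ∧ w.2 ≤ A := fun w hw =>
    hA w (List.mem_append.2 (Or.inr hw))
  have hAz := hAG _ G.end_mem_support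
  have hAj := hAP _ P.start_mem_support
  have hAn := hAP _ P.end_mem_support
  simp only at hAz hAj hAn
  obtain ⟨H1, hH1⟩ := hwalk (-(A + 1)) 0 (A + 1)
  obtain ⟨V1, hV1⟩ := vwalk 0 (A + 1) j
  obtain ⟨H2, hH2⟩ := hwalk n (A + 1) t
  obtain ⟨V2, hV2⟩ := vwalk 0 (-(A + 2)) 0
  obtain ⟨V3, hV3⟩ := vwalk z1 z2 (A + 2)
  have hβ : ∀ w ∈ (H1.append (V1.append (P.append H2))).support,
      (w.2 = A + 1 ∧ -(A + 1) ≤ w.1 ∧ w.1 ≤ 0) ∨ (w.1 = 0 ∧ j ≤ w.2 ∧ w.2 ≤ A + 1) ∨
      w ∈ P.support ∨ (w.2 = t ∧ n ≤ w.1 ∧ w.1 ≤ A + 1) := by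
    intro w hw
    rw [SimpleGraph.Walk.mem_support_append_iff, SimpleGraph.Walk.mem_support_append_iff,
      SimpleGraph.Walk.mem_support_append_iff] at hw
    rcases hw with hw | hw | hw | hw
    · have := hH1 w hw
      exact Or.inl (by omega)
    · have := hV1 w hw
      exact Or.inr (Or.inl (by omega))
    · exact Or.inr (Or.inr (Or.inl hw))
    · have := hH2 w hw
      exact Or.inr (Or.inr (Or.inr (by omega)))
  have hG' : ∀ w ∈ (V2.append (SimpleGraph.Walk.append G V3)).support,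
      (w.1 = 0 ∧ -(A + 2) ≤ w.2 ∧ w.2 ≤ 0) ∨ w ∈ G.support ∨
      (w.1 = z1 ∧ z2 ≤ w.2 ∧ w.2 ≤ A + 2) := by
    intro w hw
    rcases (SimpleGraph.Walk.mem_support_append_iff _ _).1 hw with hw | hw
    · have := hV2 w hw
      exact Or.inl (by omega)
    · rcases (SimpleGraph.Walk.mem_support_append_iff _ _).1 hw with hw | hw
      · exact Or.inr (Or.inl hw)
      · have := hV3 w hw
        exact Or.inr (Or.inr (by omega))
  obtain ⟨w, hw1, hw2⟩ := side_cross (x1 := -(A + 1)) (x2 := A + 1)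
    (H1.append (V1.append (P.append H2))) (V2.append (SimpleGraph.Walk.append G V3)) (by
      intro w hw
      rcases hβ w hw with h | h | h | h
      · omega
      · omega
      · have := hAP w h
        omega
      · omega) (by
      intro w hw
      rcases hG' w hw with h | h | h
      · omega
      · have := hAG w h
        omega
      · omega) (Or.inr (Or.inr (by
        intro w hw
        simp only
        rcases hβ w hw with h | h | h | h
        · omega
        · omega
        · have := hAP w h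
          omega
        · omega))) (Or.inr (Or.inr (by
        intro w hw
        simp only
        rcases hβ w hw with h | h | h | h
        · omega
        · omega
        · have := hAP w h
          omega
        · omega)))
  have fin1 : ∀ i : ℤ, j ≤ i → T ω 0 (0, i) + T ω (0, i) (z1, z2) ≤ T ω 0 (z1, z2) + (D + 2) →
      (∃ i : ℤ, k0 ≤ i ∧ i ≤ W ∧
        T ω 0 (0, i) + T ω (0, i) (z1, z2) ≤ T ω 0 (z1, z2) + (D + 2)) ∨
      (∃ i : ℤ, W < i ∧ T ω 0 (0, i) + T ω (0, i) (z1, z2) ≤ T ω 0 (z1, z2) + (D + 2)) := by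
    intro i hi h
    by_cases hiW : i ≤ W
    · exact Or.inl ⟨i, by omega, hiW, h⟩
    · exact Or.inr ⟨i, by omega, h⟩
  have nn : ∀ e, 0 ≤ (fun e => |ω e|) e := fun e => abs_nonneg _
  have sG : ∀ w ∈ G.support, T ω 0 w + T ω w (z1, z2) ≤ ln ω G := fun w hw =>
    pt_split nn G hw
  have sP : ∀ w ∈ P.support, T ω (0, j) w + T ω w (n, t) ≤ ln ω P := fun w hw =>
    pt_split nn P hw
  rcases hβ w hw1 with h | h | h | h
  · rcases hG' w hw2 with g | g | g
    · omega
    · have := hAG w g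
      omega
    · omega
  · rcases hG' w hw2 with g | g | g
    · omega
    · have e : w = (0, w.2) := Prod.ext h.1 rfl
      have h1 := sG w g
      rw [e] at h1
      rcases fin1 w.2 h.2.1 (by linarith) with h2 | h2
      · exact Or.inl h2
      · exact Or.inr (Or.inl h2)
    · omega
  · rcases hG' w hw2 with g | g | g
    · rw [SimpleGraph.Walk.mem_support_iff] at h
      rcases h with h | h
      · rw [h] at g
        simp only at g
        omega
      · have := hP w h
        omega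
    · have h1 := sG w g
      have h2 := sP w h
      have h3 := T_triangle ω (0, j) w (z1, z2)
      have h4 := T_triangle ω 0 w (n, t)
      rcases fin1 j le_rfl (by linarith) with h2 | h2
      · exact Or.inl h2
      · exact Or.inr (Or.inl h2)
    · have e : w = (z1, w.2) := Prod.ext g.1 rfl
      have h2 := sP w h
      have h4 := T_triangle ω 0 (0, j) w
      rw [e] at h2 h4
      exact Or.inr (Or.inr (Or.inl ⟨w.2, g.2.1, by linarith⟩))
  · rcases hG' w hw2 with g | g | g
    · omega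
    · have e : w = (w.1, t) := Prod.ext rfl h.1
      have h1 := sG w g
      rw [e] at h1
      exact Or.inr (Or.inr (Or.inr ⟨w.1, h.2.1, by linarith⟩))
    · omega

end Pool.Agent.Work.MP_9a767b_pr.U
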