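import Pool.Agent.Work.MP_9a767b_pr.U.Defs
import Pool.Agent.Work.MP_9a767b_pr.LineV
import Pool.Agent.Work.MP_9a767b_pr.Box

/-!
# ColLln: passage times to a whole column

PROOF. `line_v` with `p = 0`, `b = L`, `n = L`, `C = 3` and `min ε δ / 2` in the place of its `ε`: outside
an event of probability at most `δ/2`, `T 0 (L,y) ≥ Nm (g ν) L y - ε L ≥ (μ - ε) L` for all
`|y| ≤ 3 L` (`IsNm.ge1`, `isNm (subSym_g hI)`; on the complement the deviation is at most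
`(ε/2) L`). `box` with `m = 3 L` (it is applied to large `m`): outside an event of probability at
most `δ/2`, `T 0 w > μ 3 L / 2 ≥ μ L` for all `w` with `3 L ≤ |w.2|`. The second statement follows by
the reflection `refl1 0` (`T_refl1`, `real_act`): the event is countable union, hence measurable.
-/

open MeasureTheory ProbabilityTheory Filter Topology

namespace Pool.Agent.Work.MP_9a767b_pr.U

theorem col_lln {ν : Measure ℝ} [IsProbabilityMeasure ν]
    (hI : Integrable (fun ω => T ω 0 (1, 0)) (Q ν)) (hμ : 0 < Nm (g ν) 1 0) {ε δ : ℝ}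
    (hε : 0 < ε) (hδ : 0 < δ) : ∃ L0 : ℕ, ∀ L : ℕ, L0 ≤ L →
      (Q ν).real {ω | ∃ y : ℤ, T ω 0 (L, y) < (Nm (g ν) 1 0 - ε) * L} ≤ δ := by
  have hN := isNm (subSym_g hI)
  have he0 : 0 < min ε δ / 2 := by have := lt_min hε hδ; linarith
  obtain ⟨n1, h1⟩ := line_v hI (ε := min ε δ / 2) (C := 3) he0 (by norm_num)
  obtain ⟨m0, h2⟩ := box hI hμ (ε := δ / 2) (by positivity)
  set μ := Nm (g ν) 1 0 with hμd
  refine ⟨max (max n1 m0) 1, fun L hL => ?_⟩
  have hL1 : n1 ≤ L := (le_max_left _ _).trans ((le_max_left _ _).trans hL)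
  have hL2 : m0 ≤ L := (le_max_right _ _).trans ((le_max_left _ _).trans hL)
  have hL3 : (1 : ℝ) ≤ L := by exact_mod_cast (le_max_right _ _).trans hL
  have a1 := h1 L hL1 0 L (by simp) (by simp) (by
    rw [Int.cast_natCast, Nat.abs_cast]; linarith)
  have a2 := h2 (3 * L) (by omega)
  have hee : min ε δ / 2 ≤ δ / 2 := by have := min_le_right ε δ; linarith
  have hee' : min ε δ / 2 ≤ ε / 2 := by have := min_le_left ε δ; linarith
  have hincl : {ω : Cfg | ∃ y : ℤ, T ω 0 (L, y) < (μ - ε) * L} ⊆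
      {ω | ∃ t : ℤ, |(t : ℝ)| ≤ 3 * L ∧
        min ε δ / 2 * L < |T ω 0 ((L : ℤ), t) -
          Nm (g ν) (((L : ℤ) : ℝ) - (0 : V).1) (t - (0 : V).2)|} ∪
      {ω | ∃ w : V, (((3 * L : ℕ) : ℤ) ≤ |w.1| ∨ ((3 * L : ℕ) : ℤ) ≤ |w.2|) ∧
        T ω 0 w ≤ μ * ((3 * L : ℕ) : ℝ) / 2} := by
    rintro ω ⟨y, hy⟩
    by_cases hy3 : |(y : ℝ)| ≤ 3 * L
    · left
      refine ⟨y, hy3, ?_⟩
      have h3 := hN.ge1 L y
      rw [Nat.abs_cast] at h3
      have h4 : Nm (g ν) (((L : ℤ) : ℝ) - (0 : V).1) (y - (0 : V).2) = Nm (g ν) L y := by simp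
      rw [h4, abs_sub_comm]
      refine lt_of_lt_of_le ?_ (le_abs_self _)
      nlinarith
    · right
      rw [not_le] at hy3
      refine ⟨((L : ℤ), y), Or.inr ?_, ?_⟩
      · have h5 : ((3 * L : ℕ) : ℤ) < |y| := by
          have : (((3 * L : ℕ) : ℤ) : ℝ) < ((|y| : ℤ) : ℝ) := by push_cast; exact hy3
          exact_mod_cast this
        exact h5.le
      · push_cast
        nlinarith
  calc (Q ν).real _ ≤ _ := measureReal_mono hincl (measure_ne_top _ _)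
    _ ≤ _ := measureReal_union_le _ _
    _ ≤ δ := by linarith

theorem col_lln' {ν : Measure ℝ} [IsProbabilityMeasure ν]
    (hI : Integrable (fun ω => T ω 0 (1, 0)) (Q ν)) (hμ : 0 < Nm (g ν) 1 0) {ε δ : ℝ}
    (hε : 0 < ε) (hδ : 0 < δ) : ∃ L0 : ℕ, ∀ L : ℕ, L0 ≤ L →
      (Q ν).real {ω | ∃ y : ℤ, T ω 0 (-(L : ℤ), y) < (Nm (g ν) 1 0 - ε) * L} ≤ δ := by
  obtain ⟨L0, h⟩ := col_lln hI hμ hε hδ
  refine ⟨L0, fun L hL => ?_⟩
  have h1 := h L hL
  have hm : MeasurableSet {ω : Cfg | ∃ y : ℤ, T ω 0 (L, y) < (Nm (g ν) 1 0 - ε) * L} := by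
    have : {ω : Cfg | ∃ y : ℤ, T ω 0 (L, y) < (Nm (g ν) 1 0 - ε) * L} =
        ⋃ y : ℤ, {ω : Cfg | T ω 0 (L, y) < (Nm (g ν) 1 0 - ε) * L} := by
      ext ω; simp
    rw [this]
    exact MeasurableSet.iUnion fun y => measurableSet_lt (measurable_T _ _) measurable_const
  rw [← real_act ν (refl1 0) _ hm] at h1
  refine le_of_eq_of_le ?_ h1
  congr 1
  ext ω
  simp only [Set.mem_ofPred_eq]
  refine exists_congr fun y => ?_
  rw [T_refl1]
  simp
  rfl

end Pool.Agent.Work.MP_9a767b_pr.U
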