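import Pool.Agent.Work.MP_9a767b_pr.U.Visit
import Pool.Agent.Work.MP_9a767b_pr.U.Pieces

/-!
# FirstV: first visits of two columns along a walk

PROOF. `firstv`: `exists_first_col` for `w` and `c'`: `w = w'.append w3`, `w'` ends at the first
vertex of `w` in the column `c'`; this vertex is `(c', ht c' w)` (`ht` is defined with `find?`: all
vertices of `w'.support.dropLast` are in columns `< c'`). Then `exists_first_col` for `w'` and `c`:
`w' = w1.append w2`, and `w1` ends at the first vertex of `w` in the column `c`, which is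
`(c, ht c w)`. (Use `SimpleGraph.Walk.copy`/`subst` to identify the end points.)
`ht_mem`: from `firstv` with `c = c'`.
`ht_dist`: `T x y = ln w = ln w1 + ln w2 + ln w3`, each summand is at least the passage time
between its end points, and the triangle inequality gives equality everywhere (as in
`piece_of_geo`). The second equality: `T x p' ≤ T x p + T p p'` and
`T x y ≤ T x p' + T p' y` with `T x p + T p p' + T p' y = T x y`.
-/

open MeasureTheory ProbabilityTheory Filter Topology

namespace Pool.Agent.Work.MP_9a767b_pr.U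

private theorem ht_first {x y u : V} (w1 : lattice.Walk x u) (w2 : lattice.Walk u y) {c : ℤ}
    (hu : u.1 = c) (h : ∀ v ∈ w1.support.dropLast, v.1 < c) : u = (c, ht c (w1.append w2)) := by
  have h1 : w1.support = w1.support.dropLast ++ [u] := by
    have h2 := List.dropLast_append_getLast (SimpleGraph.Walk.support_ne_nil w1)
    rw [SimpleGraph.Walk.getLast_support] at h2
    exact h2.symm
  have h3 : (w1.append w2).support.find? (fun v => v.1 = c) = some u := by
    rw [SimpleGraph.Walk.support_append, h1, List.append_assoc, List.find?_append]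
    have h4 : w1.support.dropLast.find? (fun v => v.1 = c) = none := by
      rw [List.find?_eq_none]
      intro v hv
      have := h v hv
      simp only [decide_eq_true_eq]
      omega
    rw [h4, List.find?_append]
    simp [hu]
  have h5 : ht c (w1.append w2) = u.2 := by
    unfold ht
    rw [h3]
    rfl
  rw [h5, ← hu]

private theorem copy3 {x y u u' z z' : V} {w : lattice.Walk x y} {w1 : lattice.Walk x u}
    {w2 : lattice.Walk u u'} {w3 : lattice.Walk u' y} (h : w = w1.append (w2.append w3))
    (e : u = z) (e' : u' = z') :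
    w = (w1.copy rfl e).append ((w2.copy e e').append (w3.copy e' rfl)) := by
  subst e e'
  exact h

theorem firstv {x y : V} (w : lattice.Walk x y) {c c' : ℤ} (hx : x.1 ≤ c) (hcc : c ≤ c')
    (hy : c' ≤ y.1) :
    ∃ (w1 : lattice.Walk x (c, ht c w)) (w2 : lattice.Walk ((c, ht c w) : V) (c', ht c' w))
      (w3 : lattice.Walk ((c', ht c' w) : V) y), w = w1.append (w2.append w3) ∧
      ∀ v ∈ w2.support, v.1 ≤ c' := by
  obtain ⟨u', w', w3, e', hu', h1', h2'⟩ := exists_first_col w (hx.trans hcc) hy
  obtain ⟨u, w1, w2, e, hu, h1, h2⟩ := exists_first_col w' hx (hcc.trans hu'.ge)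
  have hw : w = w1.append (w2.append w3) := by
    rw [e', e, SimpleGraph.Walk.append_assoc]
  have k' : u' = (c', ht c' w) := by
    have := ht_first w' w3 hu' h2'
    rwa [← e'] at this
  have k : u = (c, ht c w) := by
    have := ht_first w1 (w2.append w3) hu h2
    rwa [← hw] at this
  refine ⟨w1.copy rfl k, w2.copy k k', w3.copy k' rfl, copy3 hw k k', fun v hv => ?_⟩
  rw [SimpleGraph.Walk.support_copy] at hv
  refine h1' v ?_
  rw [e, SimpleGraph.Walk.mem_support_append_iff]
  exact Or.inr hv

theorem ht_mem {x y : V} (w : lattice.Walk x y) {c : ℤ} (hx : x.1 ≤ c) (hy : c ≤ y.1) :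
    ((c, ht c w) : V) ∈ w.support := by
  obtain ⟨u, w1, w2, e, hu, h1, h2⟩ := exists_first_col w hx hy
  have k := ht_first w1 w2 hu h2
  rw [← e] at k
  rw [← k, e, SimpleGraph.Walk.mem_support_append_iff]
  exact Or.inl w1.end_mem_support

theorem ht_dist {ω : Cfg} {x y : V} {w : lattice.Walk x y} (hw : ln ω w = T ω x y) {c c' : ℤ}
    (hx : x.1 ≤ c) (hcc : c ≤ c') (hy : c' ≤ y.1) :
    T ω x (c, ht c w) + T ω (c, ht c w) (c', ht c' w) + T ω (c', ht c' w) y = T ω x y ∧
      T ω x (c', ht c' w) = T ω x (c, ht c w) + T ω (c, ht c w) (c', ht c' w) := by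
  obtain ⟨w1, w2, w3, e, _⟩ := firstv w hx hcc hy
  have h0 : ln ω w = ln ω w1 + (ln ω w2 + ln ω w3) := by
    conv_lhs => rw [e]
    unfold ln
    rw [len_append, len_append]
  have h1 : T ω x (c, ht c w) ≤ ln ω w1 := pt_le_len (fun _ => abs_nonneg _) w1
  have h2 : T ω (c, ht c w) (c', ht c' w) ≤ ln ω w2 := pt_le_len (fun _ => abs_nonneg _) w2
  have h3 : T ω (c', ht c' w) y ≤ ln ω w3 := pt_le_len (fun _ => abs_nonneg _) w3
  have h4 := T_triangle ω x (c, ht c w) (c', ht c' w)
  have h5 := T_triangle ω x (c', ht c' w) y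
  constructor
  · linarith
  · linarith

end Pool.Agent.Work.MP_9a767b_pr.U
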