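import Pool.Agent.Work.MP_9a767b_pr.U.BadV
import Pool.Agent.Work.MP_9a767b_pr.U.ColLln
import Pool.Agent.Work.MP_9a767b_pr.U.FirstV
import Pool.Agent.Work.MP_9a767b_pr.LLN

/-!
# Energy: the selected geodesic is fast in most blocks

Notation: `μ = Nm (g ν) 1 0`, `x_t = t L`, `p_t = (x_t, ht x_t (ga 0))`, `t0 = n/(4L) + 1`,
`t1 = 3n/(4L)` (natural division), so `n/4 ≤ x_t0` and `x_t1 ≤ 3n/4`, and the number of `t` is at
most `n/L`. For large `n`, `m ≤ x_t0` and `x_t1 ≤ n - m`.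

PROOF. Let `ε1 = ε η / 9`, `δ1 = ε η / (3 μ K)`, `η1 = η / 3`. Choose `L0` such that for `L ≥ L0`
`Q {∃ y, T 0 (L,y) < (μ - ε1) L} ≤ δ1` (`col_lln`). Fix `L`. Let `G` be the event that
`T 0 (n,0) ≤ (μ + ε1) n`, that `T 0 (x_t0, y) ≥ (μ - ε1) x_t0` for all `y` and
`T (n,0) (x_t1, y) ≥ (μ - ε1) (n - x_t1)` for all `y`. For large `n`, `Q(Gᶜ) ≤ η1` (`lln` and Markov's
inequality `lh_markov`; `col_lln`, and `col_lln'` with a translation by `(n,0)`).
Let `0` be active; `w = ga 0` is a geodesic from `a = (0,0)` to `b = (n,0)` (rewrite `0 * K = 0`). By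
`ht_dist`, `T p_t p_(t+1) = T a p_(t+1) - T a p_t` and `T a p_t1 = T a b - T p_t1 b`. So on `G`
`∑_{t0 ≤ t < t1} T p_t p_(t+1) = T a b - T p_t1 b - T a p_t0 ≤ μ (x_t1 - x_t0) + 2 ε1 n`.
Put `Y_t = T p_t p_(t+1) - (μ - ε1) L`. Then `∑ Y_t ≤ 3 ε1 n` on `G`, and `Y_t ≥ - μ L` always. The
event `B_t = {0 active, Y_t < 0}` has probability at most `K δ1` by `bad_vertex` with
`Bad z = {ω | ∃ y, T ω z (z.1 + L, z.2 + y) < (μ - ε1) L}` (measurable, countable union; covariance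
by `T_trans`). If `(μ + ε) L < T p_t p_(t+1)` then `Y_t ≥ ε L`. On `G` and if `0` is active
`ε L #{t : (μ+ε) L < T p_t p_(t+1)} ≤ ∑ Y_t⁺ ≤ 3 ε1 n + μ L ∑ 1_(B_t)`. Integrate:
`ε L ∑_t Q(0 active, (μ+ε)L < T p_t p_(t+1), G) ≤ 3 ε1 n + μ L (n/L) K δ1`, so the sum of the
statement is at most `(3 ε1/ε) (n/L) + (μ K δ1/ε) (n/L) + η1 (n/L) ≤ η n / L`.
-/

open MeasureTheory ProbabilityTheory Filter Topology

namespace Pool.Agent.Work.MP_9a767b_pr.U

private theorem en_geo {n m K : ℤ} {ω : Cfg} (h : InI n m K ω 0) :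
    ln ω (ga n K ω 0) = T ω (0, 0 * K) (n, 0 * K) :=
  (sel_spec (exists_isGeo h.1 _ _)).1.2

/-- The telescoping sum along the selected geodesic. -/
private theorem en_tele {n m K : ℤ} {ω : Cfg} (h : InI n m K ω 0) (L t0 t1 : ℕ) (h01 : t0 ≤ t1)
    (h1 : (t1 : ℤ) * L ≤ n) :
    ∑ t ∈ Finset.Ico t0 t1, T ω ((t : ℤ) * L, ht ((t : ℤ) * L) (ga n K ω 0))
        (((t : ℤ) + 1) * L, ht (((t : ℤ) + 1) * L) (ga n K ω 0)) =
      T ω (0, 0 * K) (n, 0 * K) - T ω ((t1 : ℤ) * L, ht ((t1 : ℤ) * L) (ga n K ω 0)) (n, 0 * K) -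
        T ω (0, 0 * K) ((t0 : ℤ) * L, ht ((t0 : ℤ) * L) (ga n K ω 0)) := by
  have hg := en_geo h
  have hstep : ∀ t : ℕ, t < t1 →
      T ω ((t : ℤ) * L, ht ((t : ℤ) * L) (ga n K ω 0))
        (((t : ℤ) + 1) * L, ht (((t : ℤ) + 1) * L) (ga n K ω 0)) =
      T ω (0, 0 * K) (((t + 1 : ℕ) : ℤ) * L, ht (((t + 1 : ℕ) : ℤ) * L) (ga n K ω 0)) -
      T ω (0, 0 * K) ((t : ℤ) * L, ht ((t : ℤ) * L) (ga n K ω 0)) := by
    intro t ht
    have h2 : ((t : ℤ) + 1) * L ≤ t1 * L := by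
      have : (t : ℤ) + 1 ≤ t1 := by exact_mod_cast ht
      have hL : (0 : ℤ) ≤ L := by positivity
      exact mul_le_mul_of_nonneg_right this hL
    have h3 := (ht_dist hg (c := (t : ℤ) * L) (c' := ((t : ℤ) + 1) * L) (by positivity)
      (by nlinarith [(by positivity : (0 : ℤ) ≤ L)]) (h2.trans h1)).2
    have e : ((t + 1 : ℕ) : ℤ) = (t : ℤ) + 1 := by push_cast; ring
    rw [e]
    linarith
  have h2 : ∑ t ∈ Finset.Ico t0 t1, T ω ((t : ℤ) * L, ht ((t : ℤ) * L) (ga n K ω 0))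
        (((t : ℤ) + 1) * L, ht (((t : ℤ) + 1) * L) (ga n K ω 0)) =
      ∑ t ∈ Finset.Ico t0 t1,
      (T ω (0, 0 * K) (((t + 1 : ℕ) : ℤ) * L, ht (((t + 1 : ℕ) : ℤ) * L) (ga n K ω 0)) -
      T ω (0, 0 * K) ((t : ℤ) * L, ht ((t : ℤ) * L) (ga n K ω 0))) :=
    Finset.sum_congr rfl fun t ht => hstep t (Finset.mem_Ico.1 ht).2
  rw [h2, Finset.sum_Ico_sub (fun t : ℕ => T ω (0, 0 * K)
    ((t : ℤ) * L, ht ((t : ℤ) * L) (ga n K ω 0))) h01]
  have h3 := (ht_dist hg (c := (t1 : ℤ) * L) (c' := (t1 : ℤ) * L) (by positivity) le_rfl h1).1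
  rw [T_self] at h3
  linarith

theorem energy {ν : Measure ℝ} [IsProbabilityMeasure ν]
    (hI : Integrable (fun ω => T ω 0 (1, 0)) (Q ν)) (hμ : 0 < Nm (g ν) 1 0) {m : ℤ} {K : ℕ}
    (hK : 0 < K) (hm : 0 < m) {ε η : ℝ} (hε : 0 < ε) (hη : 0 < η) :
    ∃ L0 : ℕ, ∀ L : ℕ, L0 ≤ L → 0 < L → ∃ n0 : ℕ, ∀ n : ℕ, n0 ≤ n →
      ∑ t ∈ Finset.Ico (n / (4 * L) + 1) (3 * n / (4 * L)),
        (Q ν).real {ω | InI n m K ω 0 ∧ (Nm (g ν) 1 0 + ε) * L <
          T ω ((t : ℤ) * L, ht ((t : ℤ) * L) (ga n K ω 0))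
            (((t : ℤ) + 1) * L, ht (((t : ℤ) + 1) * L) (ga n K ω 0))} ≤ η * (n / L) := by
  set μ := Nm (g ν) 1 0 with hμd
  have hKR : (0 : ℝ) < K := by exact_mod_cast hK
  set ε1 := ε * η / 9 with hε1
  set δ1 := ε * η / (3 * μ * K) with hδ1
  set η1 := η / 3 with hη1
  have hε10 : 0 < ε1 := by positivity
  have hδ10 : 0 < δ1 := by positivity
  have hη10 : 0 < η1 := by positivity
  obtain ⟨L0, hL0⟩ := col_lln hI hμ hε10 hδ10
  rw [← hμd] at hL0
  refine ⟨L0, fun L hLL hL => ?_⟩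
  have hLR : (0 : ℝ) < L := by exact_mod_cast hL
  obtain ⟨a1, ha1⟩ := lln hI ((1, 0) : V) (ε := ε1 * (η1 / 3)) (by positivity)
  obtain ⟨a2, ha2⟩ := col_lln hI hμ hε10 (δ := η1 / 3) (by positivity)
  obtain ⟨a3, ha3⟩ := col_lln' hI hμ hε10 (δ := η1 / 3) (by positivity)
  rw [← hμd] at ha2 ha3
  obtain ⟨m', hm'⟩ : ∃ m' : ℕ, (m' : ℤ) = m := ⟨m.toNat, Int.toNat_of_nonneg hm.le⟩
  refine ⟨a1 + 4 * a2 + 4 * a3 + 8 * L + 4 * m' + 4, fun n hn => ?_⟩
  set t0 := n / (4 * L) + 1 with ht0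
  set t1 := 3 * n / (4 * L) with ht1
  have hL4 : 0 < 4 * L := by positivity
  -- arithmetic
  have hA1 : n < t0 * (4 * L) := by
    rw [ht0, add_mul, one_mul]
    have := Nat.lt_div_mul_add hL4 (a := n)
    linarith
  have hA2 : t0 * (4 * L) ≤ n + 4 * L := by
    rw [ht0, add_mul, one_mul]
    have := Nat.div_mul_le_self n (4 * L)
    linarith
  have hA3 : t1 * (4 * L) ≤ 3 * n := Nat.div_mul_le_self _ _
  have hA4 : 3 * n < t1 * (4 * L) + 4 * L := Nat.lt_div_mul_add hL4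
  set X0 := t0 * L with hX0
  set X1 := t1 * L with hX1
  have hB1 : n < 4 * X0 := by rw [hX0]; linarith
  have hB2 : 4 * X0 ≤ n + 4 * L := by rw [hX0]; linarith
  have hB3 : 4 * X1 ≤ 3 * n := by rw [hX1]; linarith
  have hB4 : 3 * n < 4 * X1 + 4 * L := by rw [hX1]; linarith
  have hX01 : X0 ≤ X1 := by omega
  have ht01 : t0 ≤ t1 := by
    rw [hX0, hX1] at hX01
    exact Nat.le_of_mul_le_mul_right hX01 hL
  have hX1n : X1 ≤ n := by omega
  have hmX0 : m' ≤ X0 := by omega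
  have hX1m : X1 + m' ≤ n := by omega
  have hnR : (0 : ℝ) < n := by exact_mod_cast (by omega : 0 < n)
  have h2m : 2 * m < (n : ℤ) := by rw [← hm']; omega
  -- the events
  let E : ℕ → Set Cfg := fun t => {ω | InI n m K ω 0 ∧ (μ + ε) * L <
          T ω ((t : ℤ) * L, ht ((t : ℤ) * L) (ga n K ω 0))
            (((t : ℤ) + 1) * L, ht (((t : ℤ) + 1) * L) (ga n K ω 0))}
  let B : ℕ → Set Cfg := fun t => {ω | InI n m K ω 0 ∧
          T ω ((t : ℤ) * L, ht ((t : ℤ) * L) (ga n K ω 0))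
            (((t : ℤ) + 1) * L, ht (((t : ℤ) + 1) * L) (ga n K ω 0)) < (μ - ε1) * L}
  let G1 : Set Cfg := {ω | ε1 * n ≤ |T ω 0 ((n : ℤ) • ((1, 0) : V)) - n * μ|}
  let G2 : Set Cfg := {ω | ∃ y : ℤ, T ω 0 (X0, y) < (μ - ε1) * X0}
  let G3 : Set Cfg := {ω | act (trans (n, 0)) ω ∈
    {ω : Cfg | ∃ y : ℤ, T ω 0 (-((n - X1 : ℕ) : ℤ), y) < (μ - ε1) * (n - X1 : ℕ)}}
  let G : Set Cfg := G1 ∪ (G2 ∪ G3)
  have mE : ∀ t, MeasurableSet (E t) := by
    intro t
    refine (measurableSet_inI n m K 0).inter ?_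
    exact measurableSet_sel_prop (x := (0, 0 * (K : ℤ))) (y := ((n : ℤ), 0 * (K : ℤ)))
      (fun w ω => (μ + ε) * L < T ω ((t : ℤ) * L, ht ((t : ℤ) * L) w)
        (((t : ℤ) + 1) * L, ht (((t : ℤ) + 1) * L) w))
      (fun w => measurableSet_lt measurable_const (measurable_T _ _))
  have mB : ∀ t, MeasurableSet (B t) := by
    intro t
    refine (measurableSet_inI n m K 0).inter ?_
    exact measurableSet_sel_prop (x := (0, 0 * (K : ℤ))) (y := ((n : ℤ), 0 * (K : ℤ)))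
      (fun w ω => T ω ((t : ℤ) * L, ht ((t : ℤ) * L) w)
        (((t : ℤ) + 1) * L, ht (((t : ℤ) + 1) * L) w) < (μ - ε1) * L)
      (fun w => measurableSet_lt (measurable_T _ _) measurable_const)
  have mcol : ∀ (c : ℤ) (A : ℝ), MeasurableSet {ω : Cfg | ∃ y : ℤ, T ω 0 (c, y) < A} := by
    intro c A
    have : {ω : Cfg | ∃ y : ℤ, T ω 0 (c, y) < A} = ⋃ y : ℤ, {ω : Cfg | T ω 0 (c, y) < A} := by
      ext ω; simp
    rw [this]
    exact MeasurableSet.iUnion fun y => measurableSet_lt (measurable_T _ _) measurable_const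
  have mG1 : MeasurableSet G1 :=
    measurableSet_le measurable_const ((measurable_T _ _).sub_const _).abs
  have mG2 : MeasurableSet G2 := mcol _ _
  have mG3 : MeasurableSet G3 := measurable_act (trans (n, 0)) (mcol _ _)
  have mG : MeasurableSet G := mG1.union (mG2.union mG3)
  -- probabilities
  have pG1 : (Q ν).real G1 ≤ η1 / 3 := by
    have h1 := ha1 n (by omega)
    have h1' : ∫ ω, |T ω 0 ((n : ℤ) • ((1, 0) : V)) - n * μ| ∂(Q ν) ≤ ε1 * (η1 / 3) * n := by
      refine le_trans (le_of_eq ?_) h1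
      rw [hμd]
      norm_num
    refine (lh_markov ((integrable_T hI _ _).sub (integrable_const _)) (c := ε1 * n)
      (by positivity) h1').trans (le_of_eq ?_)
    field_simp
  have pG2 : (Q ν).real G2 ≤ η1 / 3 := ha2 X0 (by omega)
  have pG3 : (Q ν).real G3 ≤ η1 / 3 := by
    have h1 : (Q ν).real G3 = (Q ν).real
        {ω : Cfg | ∃ y : ℤ, T ω 0 (-((n - X1 : ℕ) : ℤ), y) < (μ - ε1) * (n - X1 : ℕ)} :=
      real_act ν _ _ (mcol _ _)
    rw [h1]
    exact ha3 (n - X1) (by omega)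
  have pG : (Q ν).real G ≤ η1 := by
    have h1 := measureReal_union_le (μ := Q ν) G1 (G2 ∪ G3)
    have h2 := measureReal_union_le (μ := Q ν) G2 G3
    linarith
  have pB : ∀ t ∈ Finset.Ico t0 t1, (Q ν).real (B t) ≤ K * δ1 := by
    intro t htm
    rw [Finset.mem_Ico] at htm
    let Bad : V → Set Cfg := fun z => {ω | ∃ y : ℤ, T ω z (z.1 + L, z.2 + y) < (μ - ε1) * L}
    have hBm : ∀ z, MeasurableSet (Bad z) := by
      intro z
      have : Bad z = ⋃ y : ℤ, {ω : Cfg | T ω z (z.1 + L, z.2 + y) < (μ - ε1) * L} := by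
        ext ω; simp [Bad]
      rw [this]
      exact MeasurableSet.iUnion fun y => measurableSet_lt (measurable_T _ _) measurable_const
    have hBc : ∀ z ω, ω ∈ Bad z ↔ act (trans z) ω ∈ Bad 0 := by
      intro z ω
      have : ∀ y : ℤ, T (act (trans z) ω) 0 ((0 : V).1 + L, (0 : V).2 + y) =
          T ω z (z.1 + L, z.2 + y) := by
        intro y
        rw [T_trans]
        congr 1
        · simp
        · ext <;> simp
      change (∃ y : ℤ, _) ↔ (∃ y : ℤ, _)
      simp only [this]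
    have hx0 : X0 ≤ t * L := by rw [hX0]; exact Nat.mul_le_mul_right L htm.1
    have hx1 : t * L ≤ X1 := by rw [hX1]; exact Nat.mul_le_mul_right L htm.2.le
    have hc1 : m ≤ (t : ℤ) * L := by
      rw [← hm']
      exact_mod_cast hmX0.trans hx0
    have hc2 : (t : ℤ) * L ≤ n - m := by
      rw [← hm']
      have : t * L + m' ≤ n := by omega
      have : (t : ℤ) * L + m' ≤ n := by exact_mod_cast this
      linarith
    have h1 := bad_vertex (ν := ν) hK hm h2m Bad hBm hBc ((t : ℤ) * L) hc1 hc2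
    have h2 : (Q ν).real (Bad 0) ≤ δ1 := by
      refine le_trans (le_of_eq ?_) (hL0 L hLL)
      congr 1
      ext ω
      simp [Bad]
    have h3 : (Q ν).real (B t) ≤ (Q ν).real
        {ω | InI n m K ω 0 ∧ ω ∈ Bad ((t : ℤ) * L, ht ((t : ℤ) * L) (ga n K ω 0))} := by
      refine measureReal_mono ?_ (measure_ne_top _ _)
      rintro ω ⟨h4, h5⟩
      refine ⟨h4, ht (((t : ℤ) + 1) * L) (ga n K ω 0) - ht ((t : ℤ) * L) (ga n K ω 0), ?_⟩
      have e : ((((t : ℤ) * L, ht ((t : ℤ) * L) (ga n K ω 0)) : V).1 + (L : ℤ),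
          (((t : ℤ) * L, ht ((t : ℤ) * L) (ga n K ω 0)) : V).2 +
          (ht (((t : ℤ) + 1) * L) (ga n K ω 0) - ht ((t : ℤ) * L) (ga n K ω 0))) =
          (((((t : ℤ) + 1) * L, ht (((t : ℤ) + 1) * L) (ga n K ω 0))) : V) := by
        ext
        · simp; ring
        · simp
      rw [e]
      exact h5
    refine h3.trans (h1.trans ?_)
    exact mul_le_mul_of_nonneg_left h2 hKR.le
  -- the pointwise inequality
  have hX0R : (X0 : ℝ) ≤ X1 := by exact_mod_cast hX01
  have hX1R : (X1 : ℝ) ≤ n := by exact_mod_cast hX1n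
  have hX0p : (0 : ℝ) ≤ X0 := by positivity
  have hcard : ((Finset.Ico t0 t1).card : ℝ) * L = X1 - X0 := by
    rw [Nat.card_Ico, Nat.cast_sub ht01, sub_mul, hX0, hX1]
    push_cast
    ring
  have key : ∀ ω, ε * L * ∑ t ∈ Finset.Ico t0 t1, (E t).indicator (fun _ => (1 : ℝ)) ω ≤
      3 * ε1 * n + μ * L * ∑ t ∈ Finset.Ico t0 t1, (B t).indicator (fun _ => (1 : ℝ)) ω +
        ε * n * G.indicator (fun _ => (1 : ℝ)) ω := by
    intro ω
    have hBnn : 0 ≤ ∑ t ∈ Finset.Ico t0 t1, (B t).indicator (fun _ => (1 : ℝ)) ω :=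
      Finset.sum_nonneg fun t _ => Set.indicator_nonneg (fun _ _ => zero_le_one) _
    have hEle : ∑ t ∈ Finset.Ico t0 t1, (E t).indicator (fun _ => (1 : ℝ)) ω ≤
        ((Finset.Ico t0 t1).card : ℝ) := by
      have : ((Finset.Ico t0 t1).card : ℝ) = ∑ t ∈ Finset.Ico t0 t1, (1 : ℝ) := by simp
      rw [this]
      exact Finset.sum_le_sum fun t _ => Set.indicator_le_self' (fun _ _ => zero_le_one) _
    by_cases hG : ω ∈ G
    · rw [Set.indicator_of_mem hG]
      have h1 : ε * L * ∑ t ∈ Finset.Ico t0 t1, (E t).indicator (fun _ => (1 : ℝ)) ω ≤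
          ε * L * ((Finset.Ico t0 t1).card : ℝ) :=
        mul_le_mul_of_nonneg_left hEle (by positivity)
      have h2 : ε * L * ((Finset.Ico t0 t1).card : ℝ) = ε * (X1 - X0) := by
        rw [← hcard]; ring
      have h3 : ε * ((X1 : ℝ) - X0) ≤ ε * n := by
        refine mul_le_mul_of_nonneg_left ?_ hε.le
        linarith
      have h4 : 0 ≤ 3 * ε1 * (n : ℝ) := by positivity
      have h5 : 0 ≤ μ * L * ∑ t ∈ Finset.Ico t0 t1, (B t).indicator (fun _ => (1 : ℝ)) ω :=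
        mul_nonneg (by positivity) hBnn
      linarith
    · rw [Set.indicator_of_notMem hG, mul_zero, add_zero]
      by_cases hIn : InI n m K ω 0
      · have hG1 : ω ∉ G1 := fun h => hG (Or.inl h)
        have hG2 : ω ∉ G2 := fun h => hG (Or.inr (Or.inl h))
        have hG3 : ω ∉ G3 := fun h => hG (Or.inr (Or.inr h))
        have e0 : (((0 : ℤ), 0 * (K : ℤ)) : V) = 0 := by simp
        have en : (((n : ℤ), 0 * (K : ℤ)) : V) = (n : ℤ) • ((1, 0) : V) := by
          ext <;> simp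
        have h1 : T ω (0, 0 * (K : ℤ)) (n, 0 * (K : ℤ)) ≤ (μ + ε1) * n := by
          rw [e0, en]
          have h2 : |T ω 0 ((n : ℤ) • ((1, 0) : V)) - n * μ| < ε1 * n := not_le.1 hG1
          have h3 := (abs_lt.1 h2).2
          linarith
        have h2 : ∀ y : ℤ, (μ - ε1) * X0 ≤ T ω (0, 0 * (K : ℤ)) ((t0 : ℤ) * L, y) := by
          intro y
          rw [e0]
          have h3 : ¬ (T ω 0 (X0, y) < (μ - ε1) * X0) := fun h => hG2 ⟨y, h⟩
          have e : ((X0 : ℤ), y) = ((t0 : ℤ) * L, y) := by rw [hX0]; push_cast; rfl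
          rw [e] at h3
          exact not_lt.1 h3
        have h3 : ∀ y : ℤ, (μ - ε1) * (n - X1) ≤ T ω ((t1 : ℤ) * L, y) (n, 0 * (K : ℤ)) := by
          intro y
          have h4 : ¬ (T (act (trans (n, 0)) ω) 0 (-((n - X1 : ℕ) : ℤ), y) <
            (μ - ε1) * (n - X1 : ℕ)) := fun h => hG3 ⟨y, h⟩
          rw [T_trans] at h4
          have e1 : (((n : ℤ), (0 : ℤ)) : V) + (0 : V) = ((n : ℤ), 0 * (K : ℤ)) := by simp
          have e2 : (((n : ℤ), (0 : ℤ)) : V) + (-((n - X1 : ℕ) : ℤ), y) = ((t1 : ℤ) * L, y) := by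
            rw [Nat.cast_sub hX1n, hX1]
            ext
            · simp
            · simp
          rw [e1, e2, T_comm, Nat.cast_sub hX1n] at h4
          exact not_lt.1 h4
        have htele := en_tele hIn L t0 t1 ht01 (by exact_mod_cast hX1n)
        have h4 := h2 (ht ((t0 : ℤ) * L) (ga n K ω 0))
        have h5 := h3 (ht ((t1 : ℤ) * L) (ga n K ω 0))
        have hpt : ∀ t ∈ Finset.Ico t0 t1, ε * L * (E t).indicator (fun _ => (1 : ℝ)) ω ≤
            (T ω ((t : ℤ) * L, ht ((t : ℤ) * L) (ga n K ω 0))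
              (((t : ℤ) + 1) * L, ht (((t : ℤ) + 1) * L) (ga n K ω 0)) - (μ - ε1) * L) +
            μ * L * (B t).indicator (fun _ => (1 : ℝ)) ω := by
          intro t _
          have hT := T_nonneg ω ((t : ℤ) * L, ht ((t : ℤ) * L) (ga n K ω 0))
              (((t : ℤ) + 1) * L, ht (((t : ℤ) + 1) * L) (ga n K ω 0))
          have hεL : 0 < ε1 * L := by positivity
          have hεL' : 0 < ε * L := by positivity
          have hr1 : (μ - ε1) * L = μ * L - ε1 * L := by ring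
          have hr2 : (μ + ε) * L = μ * L + ε * L := by ring
          by_cases hB : ω ∈ B t
          · have hE : ω ∉ E t := by
              intro h
              have h6 := h.2
              have h7 := hB.2
              linarith
            rw [Set.indicator_of_mem hB, Set.indicator_of_notMem hE]
            linarith
          · have h6 : (μ - ε1) * L ≤ T ω ((t : ℤ) * L, ht ((t : ℤ) * L) (ga n K ω 0))
              (((t : ℤ) + 1) * L, ht (((t : ℤ) + 1) * L) (ga n K ω 0)) := by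
              by_contra h7
              exact hB ⟨hIn, not_le.1 h7⟩
            rw [Set.indicator_of_notMem hB]
            by_cases hE : ω ∈ E t
            · rw [Set.indicator_of_mem hE]
              have h7 := hE.2
              linarith
            · rw [Set.indicator_of_notMem hE]
              linarith
        have hsum := Finset.sum_le_sum hpt
        rw [← Finset.mul_sum, Finset.sum_add_distrib, ← Finset.mul_sum, Finset.sum_sub_distrib,
          htele, Finset.sum_const, nsmul_eq_mul] at hsum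
        have h6 : ((Finset.Ico t0 t1).card : ℝ) * ((μ - ε1) * L) = (μ - ε1) * (X1 - X0) := by
          rw [← hcard]; ring
        rw [h6] at hsum
        have h7 : (μ - ε1) * (n - X1) + (μ - ε1) * X0 + (μ - ε1) * (X1 - X0) = (μ - ε1) * n := by
          ring
        have h8 : (μ + ε1) * n = (μ - ε1) * n + 2 * (ε1 * n) := by ring
        have h9 : 0 ≤ ε1 * (n : ℝ) := by positivity
        have h10 : 3 * ε1 * (n : ℝ) = 3 * (ε1 * n) := by ring
        linarith
      · have h1 : ∀ t ∈ Finset.Ico t0 t1, (E t).indicator (fun _ => (1 : ℝ)) ω = 0 := by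
          intro t _
          exact Set.indicator_of_notMem (fun h => hIn h.1) _
        rw [Finset.sum_eq_zero h1, mul_zero]
        have h4 : 0 ≤ 3 * ε1 * (n : ℝ) := by positivity
        have h5 : 0 ≤ μ * L * ∑ t ∈ Finset.Ico t0 t1, (B t).indicator (fun _ => (1 : ℝ)) ω :=
          mul_nonneg (by positivity) hBnn
        linarith
  -- integration
  have iE : ∀ t, Integrable (fun ω => (E t).indicator (fun _ => (1 : ℝ)) ω) (Q ν) := fun t =>
    (integrable_const _).indicator (mE t)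
  have iB : ∀ t, Integrable (fun ω => (B t).indicator (fun _ => (1 : ℝ)) ω) (Q ν) := fun t =>
    (integrable_const _).indicator (mB t)
  have iG : Integrable (fun ω => G.indicator (fun _ => (1 : ℝ)) ω) (Q ν) :=
    (integrable_const _).indicator mG
  have vE : ∀ t, ∫ ω, (E t).indicator (fun _ => (1 : ℝ)) ω ∂(Q ν) = (Q ν).real (E t) := by
    intro t
    rw [integral_indicator_const _ (mE t), smul_eq_mul, mul_one]
  have vB : ∀ t, ∫ ω, (B t).indicator (fun _ => (1 : ℝ)) ω ∂(Q ν) = (Q ν).real (B t) := by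
    intro t
    rw [integral_indicator_const _ (mB t), smul_eq_mul, mul_one]
  have vG : ∫ ω, G.indicator (fun _ => (1 : ℝ)) ω ∂(Q ν) = (Q ν).real G := by
    rw [integral_indicator_const _ mG, smul_eq_mul, mul_one]
  have iSE : Integrable (fun ω => ∑ t ∈ Finset.Ico t0 t1, (E t).indicator (fun _ => (1 : ℝ)) ω)
      (Q ν) := integrable_finsetSum _ fun t _ => iE t
  have iSB : Integrable (fun ω => ∑ t ∈ Finset.Ico t0 t1, (B t).indicator (fun _ => (1 : ℝ)) ω)
      (Q ν) := integrable_finsetSum _ fun t _ => iB t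
  have i1 : Integrable (fun ω => 3 * ε1 * n + μ * L * ∑ t ∈ Finset.Ico t0 t1,
      (B t).indicator (fun _ => (1 : ℝ)) ω) (Q ν) :=
    (integrable_const _).add (iSB.const_mul _)
  have hint := integral_mono (iSE.const_mul (ε * L)) (i1.add (iG.const_mul (ε * n))) key
  have hl : ∫ ω, ε * L * ∑ t ∈ Finset.Ico t0 t1, (E t).indicator (fun _ => (1 : ℝ)) ω ∂(Q ν) =
      ε * L * ∑ t ∈ Finset.Ico t0 t1, (Q ν).real (E t) := by
    rw [integral_const_mul, integral_finsetSum _ fun t _ => iE t]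
    simp only [vE]
  have hr : ∫ ω, (3 * ε1 * n + μ * L * ∑ t ∈ Finset.Ico t0 t1,
      (B t).indicator (fun _ => (1 : ℝ)) ω + ε * n * G.indicator (fun _ => (1 : ℝ)) ω) ∂(Q ν) =
      3 * ε1 * n + μ * L * ∑ t ∈ Finset.Ico t0 t1, (Q ν).real (B t) + ε * n * (Q ν).real G := by
    rw [integral_add i1 (iG.const_mul _), integral_add (integrable_const _) (iSB.const_mul _),
      integral_const_mul (μ * L), integral_const_mul (ε * n),
      integral_finsetSum _ fun t _ => iB t, vG]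
    simp only [vB, integral_const, probReal_univ, one_smul]
  have hfin : ε * L * ∑ t ∈ Finset.Ico t0 t1, (Q ν).real (E t) ≤
      3 * ε1 * n + μ * L * ∑ t ∈ Finset.Ico t0 t1, (Q ν).real (B t) + ε * n * (Q ν).real G := by
    rw [← hl, ← hr]
    exact hint
  have hsB : μ * L * ∑ t ∈ Finset.Ico t0 t1, (Q ν).real (B t) ≤ μ * (K * δ1) * n := by
    have h1 : ∑ t ∈ Finset.Ico t0 t1, (Q ν).real (B t) ≤
        ((Finset.Ico t0 t1).card : ℝ) * (K * δ1) := by
      have := Finset.sum_le_card_nsmul (Finset.Ico t0 t1) (fun t => (Q ν).real (B t)) (K * δ1) pB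
      rwa [nsmul_eq_mul] at this
    have h2 : μ * L * ∑ t ∈ Finset.Ico t0 t1, (Q ν).real (B t) ≤
        μ * L * (((Finset.Ico t0 t1).card : ℝ) * (K * δ1)) :=
      mul_le_mul_of_nonneg_left h1 (by positivity)
    have h3 : μ * L * (((Finset.Ico t0 t1).card : ℝ) * (K * δ1)) =
        μ * (K * δ1) * (X1 - X0) := by rw [← hcard]; ring
    have h4 : μ * (K * δ1) * ((X1 : ℝ) - X0) ≤ μ * (K * δ1) * n :=
      mul_le_mul_of_nonneg_left (by linarith) (by positivity)
    linarith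
  have hsG : ε * n * (Q ν).real G ≤ ε * n * η1 := mul_le_mul_of_nonneg_left pG (by positivity)
  have hv1 : μ * (K * δ1) = ε * η / 3 := by rw [hδ1]; field_simp
  rw [hv1] at hsB
  have htot : ε * L * ∑ t ∈ Finset.Ico t0 t1, (Q ν).real (E t) ≤ ε * η * n := by
    rw [hη1] at hsG
    rw [hε1] at hfin
    linarith
  have h10 : L * ∑ t ∈ Finset.Ico t0 t1, (Q ν).real (E t) ≤ η * n := by
    have h11 : ε * (L * ∑ t ∈ Finset.Ico t0 t1, (Q ν).real (E t)) ≤ ε * (η * n) := by linarith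
    exact le_of_mul_le_mul_left h11 hε
  change ∑ t ∈ Finset.Ico t0 t1, (Q ν).real (E t) ≤ η * (n / L)
  rw [← mul_div_assoc, le_div_iff₀ hLR]
  linarith

end Pool.Agent.Work.MP_9a767b_pr.U
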