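import Pool.Agent.Work.MP_9a767b_pr.U.Mtp
import Pool.Agent.Work.MP_9a767b_pr.U.Order
import Pool.Agent.Work.MP_9a767b_pr.U.Cov
import Pool.Agent.Work.MP_9a767b_pr.U.SelMeas

/-!
# GapB: the gap between an active geodesic and its second successor is rarely large

PROOF. Let `q j y = Q {ω | ∃ k, Trip j k ∧ ht c (ga j) < y ∧ y ≤ ht c (ga (j + k))}`.
Covariance `q j y = q 0 (y - jK)` as in `BadV.lean` (`trip_act`, `ht_act`, `act_mp`).
For fixed `r` and `ω` at most two indices `j` have `∃ k, Trip j k ∧ ht c (ga j) < r ∧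
r ≤ ht c (ga (j+k))`: if `j1 < j2 < j3` are three such indices, all are active, so the second active
index `j1 + k1` after `j1` is at most `j3`, and by `order` `ht c (ga (j1+k1)) ≤ ht c (ga j3) < r`, a
contradiction. So `∑' j, q j r ≤ 2` (a sum of indicator functions that is at most `2`
everywhere: `lintegral_tsum`, or finite sums) and `∑' y, q 0 y ≤ 2 K` by `mtp`.
On the event of the statement (with `k`; it is unique) at least `R` integers `y` satisfy
`ht c (ga 0) < y ≤ ht c (ga k)`, so `R Q(event) ≤ ∑' y, q 0 y ≤ 2 K`.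
-/

open MeasureTheory ProbabilityTheory Filter Topology

namespace Pool.Agent.Work.MP_9a767b_pr.U

private def SG (n m K c j y : ℤ) : Set Cfg :=
  {ω : Cfg | ∃ k : ℤ, Trip n m K ω j k ∧ ht c (ga n K ω j) < y ∧ y ≤ ht c (ga n K ω (j + k))}

private theorem measSG (n m K c j y : ℤ) : MeasurableSet (SG n m K c j y) := by
  have h : SG n m K c j y = ⋃ k : ℤ, ({ω : Cfg | Trip n m K ω j k} ∩
      ({ω : Cfg | ht c (ga n K ω j) < y} ∩ {ω : Cfg | y ≤ ht c (ga n K ω (j + k))})) := by
    ext ω
    simp [SG]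
  rw [h]
  refine MeasurableSet.iUnion fun k => ?_
  refine (measurableSet_trip n m K j k).inter (MeasurableSet.inter ?_ ?_)
  · exact measurableSet_sel_prop (fun w _ => ht c w < y) (fun w => MeasurableSet.const _)
  · exact measurableSet_sel_prop (fun w _ => y ≤ ht c w) (fun w => MeasurableSet.const _)

private theorem three {n m K c r : ℤ} (hK : 0 < K) (hm : 0 < m) (hn : 2 * m < n) (h1 : m ≤ c)
    (h2 : c ≤ n - m) {ω : Cfg} {a b d : ℤ} (ha : ω ∈ SG n m K c a r) (hb : ω ∈ SG n m K c b r)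
    (hd : ω ∈ SG n m K c d r) (hab : a < b) (hbd : b < d) : False := by
  obtain ⟨k, hk, -, hr⟩ := ha
  obtain ⟨kb, hkb, -, -⟩ := hb
  obtain ⟨kd, hkd, hrd, -⟩ := hd
  obtain ⟨-, hak, i, -, -, -, hu⟩ := hk
  by_cases hc : d < a + k
  · have e1 := hu b hab (by omega) hkb.1
    have e2 := hu d (by omega) hc hkd.1
    omega
  · rw [not_lt] at hc
    rcases hc.lt_or_eq with hlt | heq
    · have := (order hK hm hn hlt hak hkd.1).2 c h1 h2
      omega
    · rw [heq] at hr
      omega

private theorem sumInd {n m K c r : ℤ} (hK : 0 < K) (hm : 0 < m) (hn : 2 * m < n) (h1 : m ≤ c)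
    (h2 : c ≤ n - m) (ω : Cfg) :
    ∑' j : ℤ, (SG n m K c j r).indicator (fun _ => (1 : ENNReal)) ω ≤ 2 := by
  classical
  rw [ENNReal.tsum_eq_iSup_sum]
  refine iSup_le fun s => ?_
  have h : ∑ j ∈ s, (SG n m K c j r).indicator (fun _ => (1 : ENNReal)) ω =
      ((s.filter (fun j => ω ∈ SG n m K c j r)).card : ENNReal) := by
    simp only [Set.indicator_apply]
    rw [Finset.sum_boole]
  rw [h]
  have hcard : (s.filter (fun j => ω ∈ SG n m K c j r)).card ≤ 2 := by
    by_contra hcon
    rw [not_le, Finset.two_lt_card] at hcon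
    obtain ⟨a, ha, b, hb, d, hd, hab, had, hbd⟩ := hcon
    rw [Finset.mem_filter] at ha hb hd
    have ha := ha.2
    have hb := hb.2
    have hd := hd.2
    rcases lt_or_gt_of_ne hab with h1' | h1' <;> rcases lt_or_gt_of_ne had with h2' | h2' <;>
      rcases lt_or_gt_of_ne hbd with h3' | h3'
    · exact three hK hm hn h1 h2 ha hb hd h1' h3'
    · exact three hK hm hn h1 h2 ha hd hb h2' h3'
    · omega
    · exact three hK hm hn h1 h2 hd ha hb h2' h1'
    · exact three hK hm hn h1 h2 hb ha hd h1' h2'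
    · omega
    · exact three hK hm hn h1 h2 hb hd ha h3' h2'
    · exact three hK hm hn h1 h2 hd hb ha h3' h1'
  exact_mod_cast hcard

theorem gap_bound {ν : Measure ℝ} [IsProbabilityMeasure ν] {n m : ℤ} {K : ℕ} (hK : 0 < K)
    (hm : 0 < m) (hn : 2 * m < n) (c : ℤ) (h1 : m ≤ c) (h2 : c ≤ n - m) (R : ℕ) (hR : 0 < R) :
    (Q ν).real {ω | ∃ k : ℤ, Trip n m K ω 0 k ∧
      (R : ℤ) ≤ ht c (ga n K ω k) - ht c (ga n K ω 0)} ≤ 2 * K / R := by
  have hQ : IsProbabilityMeasure (Q ν) := by unfold Q; infer_instance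
  have hKz : (0 : ℤ) < K := by exact_mod_cast hK
  set q : ℤ → ℤ → ENNReal := fun j y => Q ν (SG n m K c j y) with hq
  have hcovq : ∀ j y, q j y = q 0 (y - j * K) := by
    intro j y
    have hpre : act (trans (0, j * K)) ⁻¹' (SG n m K c 0 (y - j * K)) = SG n m K c j y := by
      ext ω
      simp only [Set.mem_preimage, SG, Set.mem_ofPred_eq]
      refine exists_congr fun k => ?_
      have e1 := trip_act n m K j 0 k ω
      rw [zero_add] at e1
      rw [e1]
      refine and_congr_right fun hI => ?_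
      have e2 := ht_act (n := n) (K := (K : ℤ)) (s := j) (j := 0) (c := c) (ω := ω) hI.1.1
        (by omega) (by omega)
      have e3 := ht_act (n := n) (K := (K : ℤ)) (s := j) (j := 0 + k) (c := c) (ω := ω) hI.1.1
        (by omega) (by omega)
      rw [zero_add] at e2
      have e4 : 0 + k + j = j + k := by ring
      rw [e4] at e3
      rw [e2, e3]
      constructor
      · rintro ⟨h, h'⟩
        exact ⟨by linarith, by linarith⟩
      · rintro ⟨h, h'⟩
        exact ⟨by linarith, by linarith⟩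
    simp only [hq]
    rw [← hpre]
    exact (act_mp ν (trans (0, j * K))).measure_preimage (measSG n m K c 0 _).nullMeasurableSet
  have hind : ∀ j y : ℤ, q j y =
      ∫⁻ ω, (SG n m K c j y).indicator (fun _ => (1 : ENNReal)) ω ∂(Q ν) := by
    intro j y
    rw [lintegral_indicator (measSG n m K c j y)]
    simp [hq]
  have hB : ∀ r < K, ∑' j : ℤ, q j (r : ℤ) ≤ 2 := by
    intro r _
    simp only [hind]
    rw [← lintegral_tsum (fun j => (measurable_const.indicator (measSG n m K c j r)).aemeasurable)]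
    refine (lintegral_mono fun ω => sumInd hKz hm hn h1 h2 ω).trans (le_of_eq ?_)
    simp
  have hmt := mtp K hK q hcovq (fun _ => 2) hB
  set f : Cfg → ENNReal := fun ω =>
    ∑' y : ℤ, (SG n m K c 0 y).indicator (fun _ => (1 : ENNReal)) ω with hf
  have hfm : Measurable f :=
    Measurable.tsum fun y => measurable_const.indicator (measSG n m K c 0 y)
  have hint : ∫⁻ ω, f ω ∂(Q ν) = ∑' y : ℤ, q 0 y := by
    simp only [hind, hf]
    rw [← lintegral_tsum (fun j => (measurable_const.indicator (measSG n m K c 0 j)).aemeasurable)]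
  have hsub : {ω : Cfg | ∃ k : ℤ, Trip n m K ω 0 k ∧
      (R : ℤ) ≤ ht c (ga n K ω k) - ht c (ga n K ω 0)} ⊆ {ω | (R : ENNReal) ≤ f ω} := by
    rintro ω ⟨k, hk, hR'⟩
    set h0 := ht c (ga n K ω 0) with hh0
    have hsum : ∑ y ∈ Finset.Ioc h0 (h0 + R),
        (SG n m K c 0 y).indicator (fun _ => (1 : ENNReal)) ω = (R : ENNReal) := by
      have : ∀ y ∈ Finset.Ioc h0 (h0 + R),
          (SG n m K c 0 y).indicator (fun _ => (1 : ENNReal)) ω = 1 := by
        intro y hy
        rw [Finset.mem_Ioc] at hy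
        refine Set.indicator_of_mem ?_ _
        refine ⟨k, hk, hy.1, ?_⟩
        rw [zero_add]
        omega
      rw [Finset.sum_congr rfl this, Finset.sum_const, nsmul_eq_mul, mul_one, Int.card_Ioc]
      simp
    show (R : ENNReal) ≤ f ω
    rw [← hsum]
    exact ENNReal.sum_le_tsum _
  have hmark := mul_meas_ge_le_lintegral (μ := Q ν) hfm (R : ENNReal)
  have hle : (R : ENNReal) * Q ν {ω : Cfg | ∃ k : ℤ, Trip n m K ω 0 k ∧
      (R : ℤ) ≤ ht c (ga n K ω k) - ht c (ga n K ω 0)} ≤ 2 * K := by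
    refine (mul_le_mul_right (measure_mono hsub) _).trans (hmark.trans ?_)
    rw [hint]
    refine hmt.trans (le_of_eq ?_)
    rw [Finset.sum_const, Finset.card_range, nsmul_eq_mul, mul_comm]
  have hne : (2 : ENNReal) * (K : ENNReal) ≠ ⊤ :=
    ENNReal.mul_ne_top (by simp) (ENNReal.natCast_ne_top K)
  have hreal := ENNReal.toReal_mono hne hle
  rw [ENNReal.toReal_mul, ENNReal.toReal_mul, ENNReal.toReal_natCast, ENNReal.toReal_natCast]
    at hreal
  have hRr : (0 : ℝ) < R := by exact_mod_cast hR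
  rw [le_div_iff₀ hRr, mul_comm]
  simpa [Measure.real] using hreal

end Pool.Agent.Work.MP_9a767b_pr.U
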