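import Pool.Agent.Work.MP_9a767b_pr.U.Defs
import Pool.Agent.Work.MP_9a767b_pr.Box
import Pool.Agent.Work.MP_9a767b_pr.GFacts

/-!
# Local: two local estimates

PROOF. `vert_small`: the sum is a real random variable `X ≥ 0`; `Q {k < X} → 0` as `k → ∞` since the
sets `{k < X}`, `k : ℕ`, decrease to the empty set (`tendsto_measure_iInter_atTop` or similar).
`far_small`: let `m0` be given by `box` for `ε/2`: for `m ≥ m0`,
`Q {∃ w outside the box of size m, T 0 w ≤ μ m / 2} ≤ δ/2`. Choose `M` with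
`Q {∃ i ≤ R, M < T 0 (0,i)} ≤ δ/2` (finitely many real random variables). Let `R1 ≥ m0` with
`μ (R1+1) / 2 > Z1 + M`. If `T (0,i) v < Z1` for some `i ≤ R` and some `v` outside the box of radius
`R1` (so `R1 + 1 ≤ |v.1|` or `R1 + 1 ≤ |v.2|`) then `T 0 v < Z1 + M` unless `M < T 0 (0,i)`; apply
`box` with `m = R1 + 1`.
-/

open MeasureTheory ProbabilityTheory Filter Topology

namespace Pool.Agent.Work.MP_9a767b_pr.U

private theorem tail_small (ν : Measure ℝ) [IsProbabilityMeasure ν] (X : Cfg → ℝ)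
    (hX : Measurable X) {δ : ℝ} (hδ : 0 < δ) :
    ∃ M : ℝ, 0 < M ∧ (Q ν).real {ω | M < X ω} ≤ δ := by
  have h1 : Tendsto (fun k : ℕ => (Q ν) {ω | (k : ℝ) < X ω}) atTop
      (𝓝 ((Q ν) (⋂ k : ℕ, {ω | (k : ℝ) < X ω}))) := by
    refine tendsto_measure_iInter_atTop (fun k => ?_) ?_ ⟨0, measure_ne_top _ _⟩
    · exact (measurableSet_lt measurable_const hX).nullMeasurableSet
    · intro a b hab ω hω
      have hab' : (a : ℝ) ≤ b := by exact_mod_cast hab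
      have hω' : (b : ℝ) < X ω := hω
      exact lt_of_le_of_lt hab' hω'
  have h2 : (⋂ k : ℕ, {ω : Cfg | (k : ℝ) < X ω}) = ∅ := by
    ext ω
    simp only [Set.mem_iInter, Set.mem_ofPred_eq, Set.mem_empty_iff_false, iff_false, not_forall,
      not_lt]
    exact exists_nat_ge (X ω)
  rw [h2, measure_empty] at h1
  have h3 : ∀ᶠ k : ℕ in atTop, (Q ν) {ω | (k : ℝ) < X ω} < ENNReal.ofReal δ :=
    h1.eventually_lt_const (ENNReal.ofReal_pos.2 hδ)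
  obtain ⟨k, hk, hk1⟩ := (h3.and (eventually_ge_atTop 1)).exists
  refine ⟨k, by exact_mod_cast hk1, ?_⟩
  exact ENNReal.toReal_le_of_le_ofReal hδ.le hk.le

theorem vert_small (ν : Measure ℝ) [IsProbabilityMeasure ν] (R : ℕ) {δ : ℝ} (hδ : 0 < δ) :
    ∃ C0 : ℝ, 0 < C0 ∧ (Q ν).real {ω | C0 < ∑ i ∈ Finset.range R,
      |ω s(((0, (i : ℤ)) : V), (0, (i : ℤ) + 1))|} ≤ δ :=
  tail_small ν _ (Finset.measurable_sum _ fun i _ =>
    continuous_abs.measurable.comp (measurable_pi_apply _)) hδ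

theorem far_small {ν : Measure ℝ} [IsProbabilityMeasure ν]
    (hI : Integrable (fun ω => T ω 0 (1, 0)) (Q ν)) (hμ : 0 < Nm (g ν) 1 0) (R : ℕ) (Z1 : ℝ)
    {δ : ℝ} (hδ : 0 < δ) : ∃ R0 : ℕ, ∀ R1 : ℕ, R0 ≤ R1 →
      (Q ν).real {ω | ∃ i : ℕ, i ≤ R ∧ ∃ v : V, ¬ (|v.1| ≤ R1 ∧ |v.2| ≤ R1) ∧
        T ω (0, i) v < Z1} ≤ δ := by
  obtain ⟨m0, h0⟩ := box hI hμ (ε := δ / 2) (by positivity)
  obtain ⟨M, hM, h1⟩ := tail_small ν (fun ω => ∑ i ∈ Finset.range (R + 1), T ω 0 (0, (i : ℤ)))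
    (Finset.measurable_sum _ fun _ _ => measurable_T _ _) (δ := δ / 2) (by positivity)
  set μ := Nm (g ν) 1 0 with hμd
  obtain ⟨r, hr⟩ := exists_nat_gt ((Z1 + M) * 2 / μ)
  refine ⟨max m0 r, fun R1 hR1 => ?_⟩
  have hm0 : m0 ≤ R1 + 1 := ((le_max_left _ _).trans hR1).trans (Nat.le_succ _)
  have hr1 : (r : ℝ) ≤ R1 := by exact_mod_cast (le_max_right _ _).trans hR1
  have h2 := h0 (R1 + 1) hm0
  have h3 : Z1 + M < μ * ((R1 + 1 : ℕ) : ℝ) / 2 := by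
    rw [div_lt_iff₀ hμ] at hr
    push_cast
    nlinarith
  have hincl : {ω : Cfg | ∃ i : ℕ, i ≤ R ∧ ∃ v : V, ¬ (|v.1| ≤ R1 ∧ |v.2| ≤ R1) ∧
        T ω (0, i) v < Z1} ⊆
      {ω | M < ∑ i ∈ Finset.range (R + 1), T ω 0 (0, (i : ℤ))} ∪
      {ω | ∃ w : V, (((R1 + 1 : ℕ) : ℤ) ≤ |w.1| ∨ ((R1 + 1 : ℕ) : ℤ) ≤ |w.2|) ∧
        T ω 0 w ≤ μ * ((R1 + 1 : ℕ) : ℝ) / 2} := by
    rintro ω ⟨i, hi, v, hv, hT⟩
    by_cases hM' : M < ∑ i ∈ Finset.range (R + 1), T ω 0 (0, (i : ℤ))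
    · exact Or.inl hM'
    · right
      refine ⟨v, ?_, ?_⟩
      · rw [not_and_or, not_le, not_le] at hv
        push_cast
        rcases hv with hv | hv
        · exact Or.inl (Int.add_one_le_iff.2 hv)
        · exact Or.inr (Int.add_one_le_iff.2 hv)
      · have h4 : T ω 0 (0, (i : ℤ)) ≤ ∑ i ∈ Finset.range (R + 1), T ω 0 (0, (i : ℤ)) :=
          Finset.single_le_sum (f := fun i : ℕ => T ω 0 (0, (i : ℤ)))
            (fun j _ => T_nonneg _ _ _) (Finset.mem_range.2 (by omega))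
        have h5 := T_triangle ω 0 (0, (i : ℤ)) v
        linarith [not_lt.1 hM']
  calc (Q ν).real _ ≤ _ := measureReal_mono hincl (measure_ne_top _ _)
    _ ≤ _ := measureReal_union_le _ _
    _ ≤ δ := by linarith

end Pool.Agent.Work.MP_9a767b_pr.U
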