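import Pool.Agent.Work.MP_9a767b_pr.U.Cov
import Pool.Agent.Work.MP_9a767b_pr.U.SelMeas
import Pool.Agent.Work.MP_9a767b_pr.GFacts

/-!
# TripP: most active indices have a second active successor at bounded distance

PROOF. For `1 ≤ i ≤ W` let `E_i` be the event: `0` is active and at most one index in the open
interval `(0, i)` is active. If `0` is active and there is no `k ≤ W` with `Trip 0 k`, then all
`E_i`, `1 ≤ i ≤ W`, occur (if two indices in `(0,i)` were active, take the two smallest active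
indices `i1 < i2` in `(0, i)`: `Trip 0 i2`, `i2 ≤ W`). By translation (`inI_act` with `s = -i`,
`act_mp`) `Q(E_i) = Q(E'_i)` with `E'_i`: `-i` is active and at most one index in `(-i, 0)` is active.
For each `ω` at most two of the `E'_i`, `1 ≤ i ≤ W`, occur (if `i1 < i2 < i3` then `-i1, -i2` are two
active indices in `(-i3, 0)`). So `W Q(0 active, no trip of length ≤ W) ≤ ∑ Q(E'_i) ≤ 2`. (The sum
of the indicator functions is at most `2`; integrate.) Measurability: `measurableSet_inI`,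
countable or finite unions and intersections.
-/

open MeasureTheory ProbabilityTheory Filter Topology

namespace Pool.Agent.Work.MP_9a767b_pr.U

/-- At most one active index in the open interval. -/
private def AM (n m K a b : ℤ) (ω : Cfg) : Prop :=
  ∀ x y : ℤ, a < x → x < b → a < y → y < b → InI n m K ω x → InI n m K ω y → x = y

private theorem measurableSet_AM (n m K a b : ℤ) : MeasurableSet {ω : Cfg | AM n m K a b ω} := by
  have e : {ω : Cfg | AM n m K a b ω} = ⋂ (x : ℤ), ⋂ (y : ℤ),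
      {ω : Cfg | a < x → x < b → a < y → y < b → InI n m K ω x → InI n m K ω y → x = y} := by
    ext ω
    simp only [AM, Set.mem_setOf_eq, Set.mem_iInter]
  rw [e]
  refine MeasurableSet.iInter fun x => MeasurableSet.iInter fun y => ?_
  by_cases h : a < x ∧ x < b ∧ a < y ∧ y < b ∧ x ≠ y
  · obtain ⟨h1, h2, h3, h4, h5⟩ := h
    have e2 : {ω : Cfg | a < x → x < b → a < y → y < b → InI n m K ω x → InI n m K ω y → x = y} =
        ({ω : Cfg | InI n m K ω x} ∩ {ω : Cfg | InI n m K ω y})ᶜ := by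
      ext ω
      simp only [Set.mem_setOf_eq, Set.mem_compl_iff, Set.mem_inter_iff]
      constructor
      · intro h6 h7
        exact h5 (h6 h1 h2 h3 h4 h7.1 h7.2)
      · intro h6 _ _ _ _ h7 h8
        exact absurd ⟨h7, h8⟩ h6
    rw [e2]
    exact ((measurableSet_inI n m K x).inter (measurableSet_inI n m K y)).compl
  · have e2 : {ω : Cfg | a < x → x < b → a < y → y < b → InI n m K ω x → InI n m K ω y → x = y} =
        Set.univ := by
      ext ω
      simp only [Set.mem_setOf_eq, Set.mem_univ, iff_true]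
      intro h1 h2 h3 h4 _ _
      by_contra h5
      exact h ⟨h1, h2, h3, h4, h5⟩
    rw [e2]
    exact MeasurableSet.univ

private theorem exists_trip {n m K : ℤ} {ω : Cfg} {W i : ℕ} (hi : i ≤ W) (h0 : InI n m K ω 0)
    (h : ¬ AM n m K 0 i ω) : ∃ k : ℤ, k ≤ W ∧ Trip n m K ω 0 k := by
  classical
  unfold AM at h
  push Not at h
  obtain ⟨x, y, hx0, hxi, hy0, hyi, hx, hy, hxy⟩ := h
  obtain ⟨F, hF⟩ : ∃ F : Finset ℤ, F = (Finset.Ioo (0 : ℤ) i).filter (fun j => InI n m K ω j) :=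
    ⟨_, rfl⟩
  have hxF : x ∈ F := by
    rw [hF, Finset.mem_filter, Finset.mem_Ioo]; exact ⟨⟨hx0, hxi⟩, hx⟩
  have hyF : y ∈ F := by
    rw [hF, Finset.mem_filter, Finset.mem_Ioo]; exact ⟨⟨hy0, hyi⟩, hy⟩
  obtain ⟨i1, h1F, h1min⟩ := F.exists_min_image id ⟨x, hxF⟩
  have hne : (F.erase i1).Nonempty := by
    by_cases h2 : x = i1
    · exact ⟨y, Finset.mem_erase.2 ⟨fun h3 => hxy (h2.trans h3.symm), hyF⟩⟩
    · exact ⟨x, Finset.mem_erase.2 ⟨h2, hxF⟩⟩
  obtain ⟨i2, h2F, h2min⟩ := (F.erase i1).exists_min_image id hne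
  have h2F' := Finset.mem_erase.1 h2F
  have h12 : i1 < i2 := lt_of_le_of_ne (h1min i2 h2F'.2) (Ne.symm h2F'.1)
  have g1 := h1F
  have g2 := h2F'.2
  rw [hF, Finset.mem_filter, Finset.mem_Ioo] at g1 g2
  refine ⟨i2, by omega, h0, by rw [zero_add]; exact g2.2, i1, g1.1.1, by omega, g1.2, ?_⟩
  intro i' h3 h4 h5
  by_contra h6
  have h7 : i' ∈ F.erase i1 := by
    rw [Finset.mem_erase, hF, Finset.mem_filter, Finset.mem_Ioo]
    exact ⟨h6, ⟨h3, by omega⟩, h5⟩
  have h8 := h2min i' h7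
  simp only [id] at h8
  omega

theorem trip_prob {ν : Measure ℝ} [IsProbabilityMeasure ν] {n m : ℤ} {K : ℕ} (W : ℕ)
    (hW : 0 < W) :
    (Q ν).real {ω | InI n m K ω 0} ≤
      (Q ν).real {ω | ∃ k : ℤ, k ≤ W ∧ Trip n m K ω 0 k} + 2 / W := by
  classical
  have : IsProbabilityMeasure (Q ν) := by unfold Q; infer_instance
  obtain ⟨E, hE⟩ : ∃ E : ℕ → Set Cfg,
      E = fun i : ℕ => {ω | InI n m K ω 0 ∧ AM n m K 0 i ω} := ⟨_, rfl⟩
  obtain ⟨E', hE'⟩ : ∃ E' : ℕ → Set Cfg,
      E' = fun i : ℕ => {ω | InI n m K ω (-(i : ℤ)) ∧ AM n m K (-(i : ℤ)) 0 ω} := ⟨_, rfl⟩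
  have hmE : ∀ i, MeasurableSet (E i) := fun i => by
    rw [hE]
    exact (measurableSet_inI n m K 0).inter (measurableSet_AM n m K 0 i)
  have hmE' : ∀ i, MeasurableSet (E' i) := fun i => by
    rw [hE']
    exact (measurableSet_inI n m K _).inter (measurableSet_AM n m K _ 0)
  have hEE : ∀ i, (Q ν).real (E i) = (Q ν).real (E' i) := fun i => by
    rw [← real_act ν (trans (0, (-(i : ℤ)) * K)) (E i) (hmE i)]
    congr 1
    rw [hE, hE']
    ext ω
    simp only [Set.mem_setOf_eq, AM]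
    rw [inI_act, zero_add]
    refine and_congr_right fun _ => ?_
    constructor
    · intro h x y h1 h2 h3 h4 h5 h6
      have h7 := h (x + i) (y + i) (by omega) (by omega) (by omega) (by omega)
        (by rw [inI_act]; rwa [show x + (i : ℤ) + -(i : ℤ) = x by ring])
        (by rw [inI_act]; rwa [show y + (i : ℤ) + -(i : ℤ) = y by ring])
      omega
    · intro h x y h1 h2 h3 h4 h5 h6
      rw [inI_act] at h5 h6
      have h7 := h _ _ (by omega) (by omega) (by omega) (by omega) h5 h6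
      omega
  -- pointwise bound
  have hpt : ∀ ω : Cfg, ((Finset.Icc 1 W).filter (fun i => ω ∈ E' i)).card ≤ 2 := by
    intro ω
    by_contra hc
    rw [not_le] at hc
    obtain ⟨F, hF⟩ : ∃ F : Finset ℕ, F = (Finset.Icc 1 W).filter (fun i => ω ∈ E' i) := ⟨_, rfl⟩
    rw [← hF] at hc
    obtain ⟨i3, h3F, h3max⟩ := F.exists_max_image id (Finset.card_pos.1 (by omega))
    have h4 : 1 < (F.erase i3).card := by
      rw [Finset.card_erase_of_mem h3F]; omega
    obtain ⟨a, ha, b, hb, hab⟩ := Finset.one_lt_card.1 h4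
    have ha' := Finset.mem_erase.1 ha
    have hb' := Finset.mem_erase.1 hb
    have ha3 : a < i3 := lt_of_le_of_ne (h3max a ha'.2) ha'.1
    have hb3 : b < i3 := lt_of_le_of_ne (h3max b hb'.2) hb'.1
    have ga := ha'.2
    have gb := hb'.2
    have g3 := h3F
    rw [hF, Finset.mem_filter, Finset.mem_Icc, hE'] at ga gb g3
    have h5 := g3.2.2 (-(a : ℤ)) (-(b : ℤ)) (by omega) (by omega) (by omega) (by omega)
      ga.2.1 gb.2.1
    exact hab (by omega)
  have hsum : ∑ i ∈ Finset.Icc 1 W, (Q ν).real (E' i) ≤ 2 := by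
    have h1 : ∀ i, (Q ν).real (E' i) = ∫ ω, (E' i).indicator (fun _ => (1 : ℝ)) ω ∂(Q ν) :=
      fun i => by rw [integral_indicator_const _ (hmE' i), smul_eq_mul, mul_one]
    have hint : ∀ i, Integrable (fun ω => (E' i).indicator (fun _ => (1 : ℝ)) ω) (Q ν) :=
      fun i => (integrable_const 1).indicator (hmE' i)
    rw [Finset.sum_congr rfl fun i _ => h1 i, ← integral_finset_sum _ fun i _ => hint i]
    have h2 : ∫ ω, ∑ i ∈ Finset.Icc 1 W, (E' i).indicator (fun _ => (1 : ℝ)) ω ∂(Q ν) ≤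
        ∫ _, (2 : ℝ) ∂(Q ν) := by
      refine integral_mono (integrable_finset_sum _ fun i _ => hint i) (integrable_const 2) ?_
      intro ω
      show ∑ i ∈ Finset.Icc 1 W, (E' i).indicator (fun _ => (1 : ℝ)) ω ≤ 2
      have h3 : ∑ i ∈ Finset.Icc 1 W, (E' i).indicator (fun _ => (1 : ℝ)) ω =
          (((Finset.Icc 1 W).filter (fun i => ω ∈ E' i)).card : ℝ) := by
        rw [Finset.card_filter, Nat.cast_sum]
        refine Finset.sum_congr rfl fun i _ => ?_
        by_cases h4 : ω ∈ E' i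
        · rw [Set.indicator_of_mem h4, if_pos h4, Nat.cast_one]
        · rw [Set.indicator_of_notMem h4, if_neg h4, Nat.cast_zero]
      rw [h3]
      exact_mod_cast hpt ω
    refine h2.trans ?_
    rw [integral_const, probReal_univ, one_smul]
  obtain ⟨A, hA⟩ : ∃ A : Set Cfg, A = {ω | InI n m K ω 0} := ⟨_, rfl⟩
  obtain ⟨B, hB⟩ : ∃ B : Set Cfg, B = {ω | ∃ k : ℤ, k ≤ W ∧ Trip n m K ω 0 k} := ⟨_, rfl⟩
  rw [← hA, ← hB]
  have hsub : ∀ i ∈ Finset.Icc 1 W, A \ B ⊆ E i := by
    intro i hi ω hω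
    rw [Finset.mem_Icc] at hi
    rw [hE]
    rw [hA, hB] at hω
    refine ⟨hω.1, ?_⟩
    by_contra hc
    exact hω.2 (exists_trip hi.2 hω.1 hc)
  have hWpos : (0 : ℝ) < W := by exact_mod_cast hW
  have h1 : (W : ℝ) * (Q ν).real (A \ B) ≤ 2 := by
    calc (W : ℝ) * (Q ν).real (A \ B) = ∑ i ∈ Finset.Icc 1 W, (Q ν).real (A \ B) := by
          rw [Finset.sum_const, Nat.card_Icc, nsmul_eq_mul, Nat.add_sub_cancel]
      _ ≤ ∑ i ∈ Finset.Icc 1 W, (Q ν).real (E' i) :=
          Finset.sum_le_sum fun i hi => by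
            rw [← hEE i]
            exact measureReal_mono (hsub i hi)
      _ ≤ 2 := hsum
  have h2 : (Q ν).real (A \ B) ≤ 2 / W := by
    rw [le_div_iff₀ hWpos, mul_comm]
    exact h1
  have h3 : A ⊆ B ∪ (A \ B) := fun ω hω => by
    by_cases hb : ω ∈ B
    · exact Or.inl hb
    · exact Or.inr ⟨hω, hb⟩
  calc (Q ν).real A ≤ (Q ν).real (B ∪ (A \ B)) := measureReal_mono h3
    _ ≤ (Q ν).real B + (Q ν).real (A \ B) := measureReal_union_le _ _
    _ ≤ _ := by linarith

end Pool.Agent.Work.MP_9a767b_pr.U
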