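import Pool.Agent.Work.MP_9a767b_pr.U.WallSum
import Pool.Agent.Work.MP_9a767b_pr.U.Energy
import Pool.Agent.Work.MP_9a767b_pr.U.GapB
import Pool.Agent.Work.MP_9a767b_pr.U.TripP
import Pool.Agent.Work.MP_9a767b_pr.U.Local
import Pool.Agent.Work.MP_9a767b_pr.U.BadV

/-!
# Corridor: active indices are rare

PROOF. We may assume `δ ≤ 1`. Suppose the statement is false: there are arbitrarily large `n` with
`Q(InI 0) > δ`. Parameters (in this order): `W ≥ 8/δ` (natural), `R ≥ 33 K / δ` (so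
`2 K / R ≤ δ/16`), `C0` from `vert_small` with the bound `δ/(16 K)`, `ε > 0` with `μ + ε < H`
(`μ = Nm (g ν) 1 0`), `η = δ/32`, `L` from `energy` (with `ε`, `η`) and so large that
`2 C0 + (μ + ε) L < H L`, `κ = (μ + ε) L`, `Z1 = 2 C0 + κ + 1`, `R1` from `far_small` with the bound
`δ/(16 K)`, `q = R1 + 2`. Now let `n` be large with `Q(InI 0) > δ`; `t0 = n/(4L) + 1`,
`t1 = 3n/(4L)`.
By `trip_prob`, `Q(∃ k ≤ W, Trip 0 k) ≥ δ - 2/W ≥ 3δ/4`. Fix `t ∈ [t0, t1)`, `x = tL`, `x' = (t+1)L`;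
`m ≤ x`, `x' ≤ n - m`. If `Trip 0 k` with `k ≤ W`, then `PW ω ... t (ga 0) (ga k)` holds unless one of
the following events occurs:
(a) the gap at `x` or at `x'` is at least `R` (`gap_bound`, probability at most `2 δ/16`; the lower
bounds in `gap` and `gap'` are `order`);
(b) `vert` or `vert'` fails: `bad_vertex` with
`Bad z = {ω | C0 < ∑ i < R, |ω s(z + (0,i), z + (0,i+1))|}`: probability at most
`2 K δ/(16K) = 2 δ/16`;
(c) `far` fails: `bad_vertex` with the event of `far_small` translated to `z`: at most `δ/16`;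
(d) `hor` fails: `InI 0` and `κ < T p_t p_(t+1)`: probability `e_t` with `∑_t e_t ≤ η n / L`.
So `Q(∃ k ≤ W, Trip 0 k ∧ PW ... t) ≥ 3δ/4 - 5δ/16 - e_t`. Sum over `t`: since `t1 - t0 ≥ n/(4L)` for
large `n` (it is about `n/(2L)`),
`∑_t Q(∃ k ≤ W, Trip 0 k ∧ PW ... t) ≥ (7δ/16)(n/(4L)) - (δ/32)(n/L) ≥ (δ/16) (n/L)`.
On the other hand `Trip 0 k` gives `InI 0`, `InI k`, and an active index in between (so `k ≥ 2`), and
`HasGeo`, so by `wall_sum` for each `k ∈ {2, ..., W}` the sum is at most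
`W (q+1) 2^h p^(-h)`, which does not depend on `n`. Contradiction for large `n`.
(Measurability is not needed for upper bounds of real measures by subadditivity
`measureReal_union_le`, only monotonicity is used.)
-/

open MeasureTheory ProbabilityTheory Filter Topology

namespace Pool.Agent.Work.MP_9a767b_pr.U

/-- The bad event for the vertical weights. -/
private def BV (R : ℕ) (C0 : ℝ) (z : V) : Set Cfg :=
  {ω | C0 < ∑ i ∈ Finset.range R, |ω s((z.1, z.2 + (i : ℤ)), (z.1, z.2 + (i : ℤ) + 1))|}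

/-- The bad event for the distances. -/
private def BF (R R1 : ℕ) (Z1 : ℝ) (z : V) : Set Cfg :=
  {ω | ∃ i : ℕ, i ≤ R ∧ ∃ v : V, ¬ (|v.1 - z.1| ≤ R1 ∧ |v.2 - z.2| ≤ R1) ∧
    T ω (z.1, z.2 + (i : ℤ)) v < Z1}

private theorem meas_BV (R : ℕ) (C0 : ℝ) (z : V) : MeasurableSet (BV R C0 z) :=
  measurableSet_lt measurable_const (Finset.measurable_sum _ fun i _ =>
    continuous_abs.measurable.comp (measurable_pi_apply _))

private theorem meas_BF (R R1 : ℕ) (Z1 : ℝ) (z : V) : MeasurableSet (BF R R1 Z1 z) := by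
  have e : BF R R1 Z1 z = ⋃ (i : ℕ), ⋃ (v : V),
      {ω | i ≤ R ∧ ¬ (|v.1 - z.1| ≤ R1 ∧ |v.2 - z.2| ≤ R1) ∧ T ω (z.1, z.2 + (i : ℤ)) v < Z1} := by
    ext ω
    rw [Set.mem_iUnion]
    constructor
    · rintro ⟨i, hi, v, hv, hT⟩
      exact ⟨i, Set.mem_iUnion.2 ⟨v, hi, hv, hT⟩⟩
    · rintro ⟨i, hi⟩
      obtain ⟨v, h1, h2, h3⟩ := Set.mem_iUnion.1 hi
      exact ⟨i, h1, v, h2, h3⟩
  rw [e]
  refine MeasurableSet.iUnion fun i => MeasurableSet.iUnion fun v => ?_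
  refine (MeasurableSet.const _).inter ((MeasurableSet.const _).inter ?_)
  exact measurableSet_lt (measurable_T _ _) measurable_const

private theorem cov_BV (R : ℕ) (C0 : ℝ) (z : V) (ω : Cfg) :
    ω ∈ BV R C0 z ↔ act (trans z) ω ∈ BV R C0 0 := by
  have e : ∀ i : ℕ, act (trans z) ω s(((0 : V).1, (0 : V).2 + (i : ℤ)),
      ((0 : V).1, (0 : V).2 + (i : ℤ) + 1)) =
      ω s((z.1, z.2 + (i : ℤ)), (z.1, z.2 + (i : ℤ) + 1)) := by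
    intro i
    show ω s(z + ((0 : V).1, (0 : V).2 + (i : ℤ)), z + ((0 : V).1, (0 : V).2 + (i : ℤ) + 1)) = _
    have e1 : z + ((0 : V).1, (0 : V).2 + (i : ℤ)) = (z.1, z.2 + (i : ℤ)) := by
      ext
      · show z.1 + 0 = z.1
        ring
      · show z.2 + (0 + (i : ℤ)) = z.2 + i
        ring
    have e2 : z + ((0 : V).1, (0 : V).2 + (i : ℤ) + 1) = (z.1, z.2 + (i : ℤ) + 1) := by
      ext
      · show z.1 + 0 = z.1
        ring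
      · show z.2 + (0 + (i : ℤ) + 1) = z.2 + i + 1
        ring
    rw [e1, e2]
  show (C0 < _) ↔ (C0 < _)
  simp only [e]

private theorem cov_BF (R R1 : ℕ) (Z1 : ℝ) (z : V) (ω : Cfg) :
    ω ∈ BF R R1 Z1 z ↔ act (trans z) ω ∈ BF R R1 Z1 0 := by
  have e : ∀ i : ℕ, z + ((0 : V).1, (0 : V).2 + (i : ℤ)) = (z.1, z.2 + (i : ℤ)) := by
    intro i
    ext
    · show z.1 + 0 = z.1
      ring
    · show z.2 + (0 + (i : ℤ)) = z.2 + i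
      ring
  constructor
  · rintro ⟨i, hi, v, hv, hT⟩
    refine ⟨i, hi, v - z, ?_, ?_⟩
    · show ¬ (|v.1 - z.1 - 0| ≤ (R1 : ℤ) ∧ |v.2 - z.2 - 0| ≤ (R1 : ℤ))
      rw [sub_zero, sub_zero]
      exact hv
    · rw [T_trans, e]
      have e2 : z + (v - z) = v := by abel
      rw [e2]
      exact hT
  · rintro ⟨i, hi, v, hv, hT⟩
    refine ⟨i, hi, z + v, ?_, ?_⟩
    · have hv' : ¬ (|v.1 - 0| ≤ (R1 : ℤ) ∧ |v.2 - 0| ≤ (R1 : ℤ)) := hv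
      rw [sub_zero, sub_zero] at hv'
      show ¬ (|z.1 + v.1 - z.1| ≤ (R1 : ℤ) ∧ |z.2 + v.2 - z.2| ≤ (R1 : ℤ))
      rw [add_sub_cancel_left, add_sub_cancel_left]
      exact hv'
    · rw [T_trans, e] at hT
      exact hT

/-- One position. -/
private theorem one_pos_bound {ν : Measure ℝ} [IsProbabilityMeasure ν] {m : ℤ} {K n : ℕ}
    (hK : 0 < K) (hm : 0 < m) (hn : 2 * m < (n : ℤ)) {δ C0 κ Z1 : ℝ} {W L R R1 t : ℕ}
    (hR : 0 < R) (hR2 : 2 * (K : ℝ) / R ≤ δ / 16)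
    (hV : (Q ν).real (BV R C0 0) ≤ δ / (16 * K)) (hF : (Q ν).real (BF R R1 Z1 0) ≤ δ / (16 * K))
    (hm1 : m ≤ (t : ℤ) * L) (hm1' : m ≤ ((t : ℤ) + 1) * L) (hm2 : (t : ℤ) * L ≤ n - m)
    (hm2' : ((t : ℤ) + 1) * L ≤ n - m) :
    (Q ν).real {ω | ∃ k : ℤ, k ≤ W ∧ Trip n m K ω 0 k} ≤
      ∑ k ∈ Finset.Icc 1 W, (Q ν).real {ω | HasGeo ω ∧ InI n m K ω 0 ∧ InI n m K ω (k : ℤ) ∧
        (∃ i, 0 < i ∧ i < (k : ℤ) ∧ InI n m K ω i) ∧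
        PW ω L R R1 C0 κ Z1 t (ga n K ω 0) (ga n K ω (k : ℤ))} +
      5 * (δ / 16) + (Q ν).real {ω | InI n m K ω 0 ∧ κ <
          T ω ((t : ℤ) * L, ht ((t : ℤ) * L) (ga n K ω 0))
            (((t : ℤ) + 1) * L, ht (((t : ℤ) + 1) * L) (ga n K ω 0))} := by
  have hprob : IsProbabilityMeasure (Q ν) := by unfold Q; infer_instance
  have hKz : (0 : ℤ) < (K : ℤ) := by exact_mod_cast hK
  have hKr : (0 : ℝ) < (K : ℝ) := by exact_mod_cast hK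
  have g1 := gap_bound (ν := ν) hK hm hn ((t : ℤ) * L) hm1 hm2 R hR
  have g2 := gap_bound (ν := ν) hK hm hn (((t : ℤ) + 1) * L) hm1' hm2' R hR
  have v1 := bad_vertex (ν := ν) hK hm hn (BV R C0) (meas_BV R C0) (cov_BV R C0)
    ((t : ℤ) * L) hm1 hm2
  have v2 := bad_vertex (ν := ν) hK hm hn (BV R C0) (meas_BV R C0) (cov_BV R C0)
    (((t : ℤ) + 1) * L) hm1' hm2'
  have f1 := bad_vertex (ν := ν) hK hm hn (BF R R1 Z1) (meas_BF R R1 Z1) (cov_BF R R1 Z1)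
    ((t : ℤ) * L) hm1 hm2
  have hKV : (K : ℝ) * (Q ν).real (BV R C0 0) ≤ δ / 16 := by
    calc (K : ℝ) * (Q ν).real (BV R C0 0) ≤ K * (δ / (16 * K)) :=
          mul_le_mul_of_nonneg_left hV hKr.le
      _ = δ / 16 := by field_simp
  have hKF : (K : ℝ) * (Q ν).real (BF R R1 Z1 0) ≤ δ / 16 := by
    calc (K : ℝ) * (Q ν).real (BF R R1 Z1 0) ≤ K * (δ / (16 * K)) :=
          mul_le_mul_of_nonneg_left hF hKr.le
      _ = δ / 16 := by field_simp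
  obtain ⟨B1, hB1⟩ : ∃ B1 : Set Cfg, B1 = {ω | ∃ k : ℤ, Trip n m K ω 0 k ∧
      (R : ℤ) ≤ ht ((t : ℤ) * L) (ga n K ω k) - ht ((t : ℤ) * L) (ga n K ω 0)} := ⟨_, rfl⟩
  obtain ⟨B2, hB2⟩ : ∃ B2 : Set Cfg, B2 = {ω | ∃ k : ℤ, Trip n m K ω 0 k ∧
      (R : ℤ) ≤ ht (((t : ℤ) + 1) * L) (ga n K ω k) - ht (((t : ℤ) + 1) * L) (ga n K ω 0)} :=
    ⟨_, rfl⟩
  obtain ⟨B3, hB3⟩ : ∃ B3 : Set Cfg, B3 = {ω | InI n m K ω 0 ∧
      ω ∈ BV R C0 ((t : ℤ) * L, ht ((t : ℤ) * L) (ga n K ω 0))} := ⟨_, rfl⟩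
  obtain ⟨B4, hB4⟩ : ∃ B4 : Set Cfg, B4 = {ω | InI n m K ω 0 ∧
      ω ∈ BV R C0 (((t : ℤ) + 1) * L, ht (((t : ℤ) + 1) * L) (ga n K ω 0))} := ⟨_, rfl⟩
  obtain ⟨B5, hB5⟩ : ∃ B5 : Set Cfg, B5 = {ω | InI n m K ω 0 ∧
      ω ∈ BF R R1 Z1 ((t : ℤ) * L, ht ((t : ℤ) * L) (ga n K ω 0))} := ⟨_, rfl⟩
  obtain ⟨B6, hB6⟩ : ∃ B6 : Set Cfg, B6 = {ω | InI n m K ω 0 ∧ κ <
          T ω ((t : ℤ) * L, ht ((t : ℤ) * L) (ga n K ω 0))
            (((t : ℤ) + 1) * L, ht (((t : ℤ) + 1) * L) (ga n K ω 0))} := ⟨_, rfl⟩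
  obtain ⟨S, hS⟩ : ∃ S : ℕ → Set Cfg, S = fun k : ℕ => {ω | HasGeo ω ∧ InI n m K ω 0 ∧
        InI n m K ω (k : ℤ) ∧ (∃ i, 0 < i ∧ i < (k : ℤ) ∧ InI n m K ω i) ∧
        PW ω L R R1 C0 κ Z1 t (ga n K ω 0) (ga n K ω (k : ℤ))} := ⟨_, rfl⟩
  rw [← hB1] at g1
  rw [← hB2] at g2
  rw [← hB3] at v1
  rw [← hB4] at v2
  rw [← hB5] at f1
  rw [← hB6]
  have hincl : {ω | ∃ k : ℤ, k ≤ W ∧ Trip n m K ω 0 k} ⊆
      (⋃ k ∈ Finset.Icc 1 W, S k) ∪ (B1 ∪ (B2 ∪ (B3 ∪ (B4 ∪ (B5 ∪ B6))))) := by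
    rintro ω ⟨k, hkW, hk⟩
    by_contra hc
    simp only [Set.mem_union, not_or] at hc
    obtain ⟨c0, c1, c2, c3, c4, c5, c6⟩ := hc
    obtain ⟨hk0, hkk, i, hi0, hik, hi, -⟩ := id hk
    rw [zero_add] at hkk hik
    obtain ⟨k', rfl⟩ : ∃ k' : ℕ, k = (k' : ℤ) := ⟨k.toNat, by omega⟩
    apply c0
    rw [Set.mem_iUnion₂]
    refine ⟨k', by rw [Finset.mem_Icc]; omega, ?_⟩
    rw [hS]
    have o := (order hKz hm hn (by omega : (0 : ℤ) < (k' : ℤ)) hk0 hkk).2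
    have o1 := o ((t : ℤ) * L) hm1 hm2
    have o2 := o (((t : ℤ) + 1) * L) hm1' hm2'
    have p1 : ht ((t : ℤ) * L) (ga n K ω (k' : ℤ)) - ht ((t : ℤ) * L) (ga n K ω 0) < R := by
      by_contra h
      rw [not_lt] at h
      exact c1 (by rw [hB1]; exact ⟨_, hk, h⟩)
    have p2 : ht (((t : ℤ) + 1) * L) (ga n K ω (k' : ℤ)) -
        ht (((t : ℤ) + 1) * L) (ga n K ω 0) < R := by
      by_contra h
      rw [not_lt] at h
      exact c2 (by rw [hB2]; exact ⟨_, hk, h⟩)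
    have p3 : ¬ ω ∈ BV R C0 ((t : ℤ) * L, ht ((t : ℤ) * L) (ga n K ω 0)) := fun h =>
      c3 (by rw [hB3]; exact ⟨hk0, h⟩)
    have p4 : ¬ ω ∈ BV R C0 (((t : ℤ) + 1) * L, ht (((t : ℤ) + 1) * L) (ga n K ω 0)) := fun h =>
      c4 (by rw [hB4]; exact ⟨hk0, h⟩)
    have p5 : ¬ ω ∈ BF R R1 Z1 ((t : ℤ) * L, ht ((t : ℤ) * L) (ga n K ω 0)) := fun h =>
      c5 (by rw [hB5]; exact ⟨hk0, h⟩)
    have p6 : ¬ κ < T ω ((t : ℤ) * L, ht ((t : ℤ) * L) (ga n K ω 0))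
            (((t : ℤ) + 1) * L, ht (((t : ℤ) + 1) * L) (ga n K ω 0)) := fun h =>
      c6 (by rw [hB6]; exact ⟨hk0, h⟩)
    refine ⟨hk0.1, hk0, hkk, ⟨i, hi0, hik, hi⟩, ?_⟩
    refine ⟨⟨o1.le, by linarith⟩, ⟨o2.le, by linarith⟩, not_lt.1 p3, not_lt.1 p4, not_lt.1 p6, ?_⟩
    intro i' hi' v hv
    by_contra h
    rw [not_le] at h
    exact p5 ⟨i', hi', v, hv, h⟩
  calc (Q ν).real {ω | ∃ k : ℤ, k ≤ W ∧ Trip n m K ω 0 k}
      ≤ (Q ν).real ((⋃ k ∈ Finset.Icc 1 W, S k) ∪ (B1 ∪ (B2 ∪ (B3 ∪ (B4 ∪ (B5 ∪ B6)))))) :=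
        measureReal_mono hincl
    _ ≤ (Q ν).real (⋃ k ∈ Finset.Icc 1 W, S k) + ((Q ν).real B1 + ((Q ν).real B2 +
        ((Q ν).real B3 + ((Q ν).real B4 + ((Q ν).real B5 + (Q ν).real B6))))) := by
      have u1 := measureReal_union_le (μ := Q ν) (⋃ k ∈ Finset.Icc 1 W, S k)
        (B1 ∪ (B2 ∪ (B3 ∪ (B4 ∪ (B5 ∪ B6)))))
      have u2 := measureReal_union_le (μ := Q ν) B1 (B2 ∪ (B3 ∪ (B4 ∪ (B5 ∪ B6))))
      have u3 := measureReal_union_le (μ := Q ν) B2 (B3 ∪ (B4 ∪ (B5 ∪ B6)))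
      have u4 := measureReal_union_le (μ := Q ν) B3 (B4 ∪ (B5 ∪ B6))
      have u5 := measureReal_union_le (μ := Q ν) B4 (B5 ∪ B6)
      have u6 := measureReal_union_le (μ := Q ν) B5 B6
      linarith
    _ ≤ _ := by
      have u7 := measureReal_biUnion_finset_le (μ := Q ν) (Finset.Icc 1 W) S
      rw [hS] at u7 ⊢
      linarith

theorem corridor {ν : Measure ℝ} [IsProbabilityMeasure ν]
    (hI : Integrable (fun ω => T ω 0 (1, 0)) (Q ν)) (hμ : 0 < Nm (g ν) 1 0) {H : ℝ}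
    (hH : Nm (g ν) 1 0 < H) (hp : 0 < ν.real {x | H ≤ |x|}) {m : ℤ} {K : ℕ} (hK : 0 < K)
    (hm : 0 < m) {δ : ℝ} (hδ : 0 < δ) :
    ∃ n0 : ℕ, ∀ n : ℕ, n0 ≤ n → (Q ν).real {ω | InI n m K ω 0} ≤ δ := by
  have hKr : (0 : ℝ) < (K : ℝ) := by exact_mod_cast hK
  have hKz : (0 : ℤ) < (K : ℤ) := by exact_mod_cast hK
  obtain ⟨μ, hμd⟩ : ∃ μ : ℝ, μ = Nm (g ν) 1 0 := ⟨_, rfl⟩
  obtain ⟨W, hW⟩ := exists_nat_gt (8 / δ)
  have hW0 : (0 : ℝ) < W := lt_trans (by positivity) hW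
  have hW0' : 0 < W := by exact_mod_cast hW0
  have hW2 : 2 / (W : ℝ) ≤ δ / 4 := by
    rw [div_lt_iff₀ hδ] at hW
    rw [div_le_iff₀ hW0]
    linarith
  obtain ⟨R, hR⟩ := exists_nat_gt (32 * (K : ℝ) / δ)
  have hR0 : (0 : ℝ) < R := lt_trans (by positivity) hR
  have hR0' : 0 < R := by exact_mod_cast hR0
  have hR2 : 2 * (K : ℝ) / R ≤ δ / 16 := by
    rw [div_lt_iff₀ hδ] at hR
    rw [div_le_iff₀ hR0]
    linarith
  obtain ⟨C0, hC0, hV⟩ := vert_small ν R (δ := δ / (16 * K)) (by positivity)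
  have hV' : (Q ν).real (BV R C0 0) ≤ δ / (16 * K) := by
    have e : BV R C0 0 = {ω | C0 < ∑ i ∈ Finset.range R,
      |ω s(((0, (i : ℤ)) : V), (0, (i : ℤ) + 1))|} := by
      ext ω
      show (C0 < ∑ i ∈ Finset.range R, |ω s(((0 : ℤ), 0 + (i : ℤ)), ((0 : ℤ), 0 + (i : ℤ) + 1))|) ↔
        (C0 < ∑ i ∈ Finset.range R, |ω s(((0, (i : ℤ)) : V), (0, (i : ℤ) + 1))|)
      simp only [zero_add]
    rw [e]
    exact hV
  obtain ⟨ε, hεd⟩ : ∃ ε : ℝ, ε = (H - Nm (g ν) 1 0) / 2 := ⟨_, rfl⟩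
  have hε : 0 < ε := by rw [hεd]; linarith
  obtain ⟨L0, hL0⟩ := energy hI hμ hK hm hε (show 0 < δ / 32 by positivity)
  obtain ⟨L1, hL1⟩ := exists_nat_gt (2 * C0 / ε)
  obtain ⟨L, hLd⟩ : ∃ L : ℕ, L = max (max L0 L1) 1 := ⟨_, rfl⟩
  have hLL0 : L0 ≤ L := by rw [hLd]; exact (le_max_left _ _).trans (le_max_left _ _)
  have hLL1 : L1 ≤ L := by rw [hLd]; exact (le_max_right _ _).trans (le_max_left _ _)
  have hL : 0 < L := by rw [hLd]; exact lt_of_lt_of_le one_pos (le_max_right _ _)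
  have hLr : (0 : ℝ) < L := by exact_mod_cast hL
  have hLz : (0 : ℤ) < (L : ℤ) := by exact_mod_cast hL
  obtain ⟨n1, hn1⟩ := hL0 L hLL0 hL
  obtain ⟨κ, hκ⟩ : ∃ κ : ℝ, κ = (Nm (g ν) 1 0 + ε) * L := ⟨_, rfl⟩
  have hκ0 : 0 < κ := by rw [hκ]; positivity
  have hHL : 2 * C0 + κ < H * L := by
    have h1 : 2 * C0 / ε < L := lt_of_lt_of_le hL1 (by exact_mod_cast hLL1)
    rw [div_lt_iff₀ hε] at h1
    have h2 : H = Nm (g ν) 1 0 + ε + ε := by rw [hεd]; ring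
    rw [hκ, h2]
    linarith
  obtain ⟨R1, hR1⟩ := far_small hI hμ R (2 * C0 + κ + 1) (δ := δ / (16 * K)) (by positivity)
  have hF := hR1 R1 le_rfl
  have hF' : (Q ν).real (BF R R1 (2 * C0 + κ + 1) 0) ≤ δ / (16 * K) := by
    have e : BF R R1 (2 * C0 + κ + 1) 0 = {ω | ∃ i : ℕ, i ≤ R ∧ ∃ v : V,
        ¬ (|v.1| ≤ R1 ∧ |v.2| ≤ R1) ∧ T ω (0, i) v < 2 * C0 + κ + 1} := by
      ext ω
      show (∃ i : ℕ, i ≤ R ∧ ∃ v : V, ¬ (|v.1 - 0| ≤ R1 ∧ |v.2 - 0| ≤ R1) ∧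
        T ω ((0 : ℤ), 0 + (i : ℤ)) v < 2 * C0 + κ + 1) ↔ (∃ i : ℕ, i ≤ R ∧ ∃ v : V,
        ¬ (|v.1| ≤ R1 ∧ |v.2| ≤ R1) ∧ T ω (0, i) v < 2 * C0 + κ + 1)
      simp only [zero_add, sub_zero]
    rw [e]
    exact hF
  obtain ⟨C, hC⟩ : ∃ C : ℝ, C = (((R1 + 2 : ℕ) : ℝ) + 1) * (2 ^ (L * (2 * R1 + 1)) /
      (ν.real {x | H ≤ |x|}) ^ (L * (2 * R1 + 1))) := ⟨_, rfl⟩
  have hC0' : 0 ≤ C := by rw [hC]; positivity
  obtain ⟨n2, hn2⟩ := exists_nat_gt (16 * L * (W * C) / δ)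
  refine ⟨n1 + n2 + 8 * L + 4 * m.toNat + 1, fun n hn => ?_⟩
  by_contra hcon
  rw [not_le] at hcon
  have hmn : 4 * m < (n : ℤ) := by omega
  have h2mn : 2 * m < (n : ℤ) := by omega
  have hn8 : 8 * L ≤ n := by omega
  have hE := hn1 n (by omega)
  obtain ⟨t0, ht0⟩ : ∃ t0 : ℕ, t0 = n / (4 * L) + 1 := ⟨_, rfl⟩
  obtain ⟨t1, ht1⟩ : ∃ t1 : ℕ, t1 = 3 * n / (4 * L) := ⟨_, rfl⟩
  rw [← ht0, ← ht1] at hE
  have h4L : 0 < 4 * L := by omega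
  have k0 : n < 4 * L * t0 := by
    rw [ht0]
    have := Nat.lt_mul_div_succ n h4L
    exact this
  have k1 : 4 * L * t1 ≤ 3 * n := by
    rw [ht1]
    exact Nat.mul_div_le _ _
  have k2 : 3 * n < 4 * L * (t1 + 1) := by
    rw [ht1]
    exact Nat.lt_mul_div_succ _ h4L
  have k3 : 4 * L * t0 ≤ n + 4 * L := by
    rw [ht0, mul_add, mul_one]
    exact Nat.add_le_add_right (Nat.mul_div_le _ _) _
  have k0z : (n : ℤ) < 4 * L * t0 := by exact_mod_cast k0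
  have k1z : 4 * (L : ℤ) * t1 ≤ 3 * n := by exact_mod_cast k1
  have k2r : 3 * (n : ℝ) < 4 * L * (t1 + 1) := by exact_mod_cast k2
  have k3r : 4 * (L : ℝ) * t0 ≤ n + 4 * L := by exact_mod_cast k3
  have hn8r : 8 * (L : ℝ) ≤ n := by exact_mod_cast hn8
  have ht0m : m ≤ (t0 : ℤ) * L := by nlinarith
  have ht1m : (t1 : ℤ) * L ≤ n - m := by nlinarith
  have hws : ∀ k ∈ Finset.Icc 1 W, ∑ t ∈ Finset.Ico t0 t1, (Q ν).real {ω | HasGeo ω ∧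
      InI n m K ω 0 ∧ InI n m K ω (k : ℤ) ∧ (∃ i, 0 < i ∧ i < (k : ℤ) ∧ InI n m K ω i) ∧
        PW ω L R R1 C0 κ (2 * C0 + κ + 1) t (ga n K ω 0) (ga n K ω (k : ℤ))} ≤ C := by
    intro k _
    rw [hC]
    exact wall_sum hKz hm h2mn hL (q := R1 + 2) (Nat.le_mul_of_pos_right _ hL)
      (by positivity) (by linarith) hHL hp t0 t1 ht0m ht1m
  have hA := trip_prob (ν := ν) (n := (n : ℤ)) (m := m) (K := K) W hW0'
  have hone : ∀ t ∈ Finset.Ico t0 t1, 7 * δ / 16 ≤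
      ∑ k ∈ Finset.Icc 1 W, (Q ν).real {ω | HasGeo ω ∧ InI n m K ω 0 ∧ InI n m K ω (k : ℤ) ∧
        (∃ i, 0 < i ∧ i < (k : ℤ) ∧ InI n m K ω i) ∧
        PW ω L R R1 C0 κ (2 * C0 + κ + 1) t (ga n K ω 0) (ga n K ω (k : ℤ))} +
      (Q ν).real {ω | InI n m K ω 0 ∧ (Nm (g ν) 1 0 + ε) * L <
          T ω ((t : ℤ) * L, ht ((t : ℤ) * L) (ga n K ω 0))
            (((t : ℤ) + 1) * L, ht (((t : ℤ) + 1) * L) (ga n K ω 0))} := by
    intro t ht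
    rw [Finset.mem_Ico] at ht
    have l1 : (t0 : ℤ) * L ≤ (t : ℤ) * L :=
      mul_le_mul_of_nonneg_right (by exact_mod_cast ht.1) hLz.le
    have l2 : ((t : ℤ) + 1) * L ≤ (t1 : ℤ) * L :=
      mul_le_mul_of_nonneg_right (by exact_mod_cast ht.2) hLz.le
    have l3 : ((t : ℤ) + 1) * L = (t : ℤ) * L + L := by ring
    have h1 := one_pos_bound (ν := ν) (κ := κ) (W := W) (L := L) (t := t) hK hm h2mn hR0' hR2
      hV' hF' (by omega) (by omega) (by omega) (by omega)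
    rw [← hκ]
    linarith
  have hsum := Finset.sum_le_sum hone
  rw [Finset.sum_const, Nat.card_Ico, nsmul_eq_mul, Finset.sum_add_distrib,
    Finset.sum_comm] at hsum
  have hws2 := Finset.sum_le_sum hws
  rw [Finset.sum_const, Nat.card_Icc, nsmul_eq_mul, Nat.add_sub_cancel] at hws2
  have hle : t0 ≤ t1 := by
    have h1 : 4 * (L : ℝ) * t0 < 4 * L * (t1 + 1) := by linarith
    have h2 : (t0 : ℝ) < t1 + 1 := lt_of_mul_lt_mul_left h1 (by positivity)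
    have h3 : t0 < t1 + 1 := by exact_mod_cast h2
    omega
  have hcard : (n : ℝ) / (4 * L) ≤ ((t1 - t0 : ℕ) : ℝ) := by
    rw [Nat.cast_sub hle, div_le_iff₀ (by positivity)]
    nlinarith
  have hfin : (n : ℝ) / L * (δ / 16) ≤ W * C := by
    have h1 : (n : ℝ) / (4 * L) * (7 * δ / 16) ≤ ((t1 - t0 : ℕ) : ℝ) * (7 * δ / 16) :=
      mul_le_mul_of_nonneg_right hcard (by positivity)
    have h2 : (n : ℝ) / (4 * L) * (7 * δ / 16) = (n : ℝ) / L * (δ / 16) * (7 / 4) := by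
      field_simp
    have h3 : 0 ≤ (n : ℝ) / L * (δ / 16) := by positivity
    have h4 : δ / 32 * ((n : ℝ) / L) = (n : ℝ) / L * (δ / 16) * (1 / 2) := by ring
    linarith
  have hn2' : 16 * L * (W * C) / δ < n :=
    lt_of_lt_of_le hn2 (by exact_mod_cast (by omega : n2 ≤ n))
  rw [div_lt_iff₀ hδ] at hn2'
  have h5 : (n : ℝ) / L * (δ / 16) = n * δ / (16 * L) := by
    field_simp
  rw [h5, div_le_iff₀ (by positivity)] at hfin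
  linarith

end Pool.Agent.Work.MP_9a767b_pr.U
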