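import Pool.Agent.Work.MP_9a767b_pr.Act

/-!
# Unit increments: definitions

Throughout `V = ℤ × ℤ`, `T ω x y` is the passage time for the weights `|ω e|`, and
`Mx ω x x' y y' = T(x,y') + T(x',y) - T(x,y) - T(x',y')` is the four point expression.

The plan. `Mx` of `(-1,0), (0,0)` and `(n,0), (n+1,0)` has expectation
`f(n+2) + f(n) - 2 f(n+1)` with `f(n) = E T(0,(n,0))`; it is bounded by `2 T((-1,0),0)`, and it is
shown that it vanishes with probability tending to one. So the second differences of `f` tend to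
zero, and the theorem about windows gives `f(n+1) - f(n) → μ`.

* part A (files Steep ... Exc): geodesics from `0` to `(n,t)` visit the column of the origin only
  near the origin (needs that the limit shape is not the diamond);
* part B (files Sel ... Corridor): the corridor theorem: `Mx > 0` for the points
  `(0,0), (0,K), (n,0), (n,K)` has small probability;
* part C (files Four, Final): conclusion.
-/

open MeasureTheory ProbabilityTheory Filter Topology

namespace Pool.Agent.Work.MP_9a767b_pr.U

/-- The four point expression. -/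
noncomputable def Mx (ω : Cfg) (x x' y y' : V) : ℝ :=
  T ω x y' + T ω x' y - T ω x y - T ω x' y'

/-- The weight of a walk in the configuration `ω`. -/
noncomputable def ln (ω : Cfg) {x y : V} (w : lattice.Walk x y) : ℝ := len (fun e => |ω e|) w

/-- Every two vertices are joined by a walk of minimal weight. -/
def HasGeo (ω : Cfg) : Prop := ∀ x y : V, ∃ w : lattice.Walk x y, ln ω w = T ω x y

/-- A geodesic: a path of minimal weight. -/
def IsGeo (ω : Cfg) {x y : V} (w : lattice.Walk x y) : Prop := w.IsPath ∧ ln ω w = T ω x y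

/-- The code of a walk; it is invariant under translations. -/
def code {x y : V} (w : lattice.Walk x y) : ℕ :=
  Encodable.encode (w.support.map (fun v => v - x))

open Classical in
/-- The selected geodesic: the geodesic with the smallest code (some walk if there is none). -/
noncomputable def sel (ω : Cfg) (x y : V) : lattice.Walk x y :=
  if h : ∃ k : ℕ, ∃ w : lattice.Walk x y, IsGeo ω w ∧ code w = k then (Nat.find_spec h).choose
  else (nonempty_walk x y).some

/-- The height of the first visit of the column `c` (zero if there is none). -/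
def ht (c : ℤ) {x y : V} (w : lattice.Walk x y) : ℤ :=
  ((w.support.find? (fun v => v.1 = c)).getD 0).2

/-- A walk between the columns `0` and `n` without large excursions: it visits the columns `0`
and `n` only near its end points, it does not come back to the column `0` after visiting the
column `m`, and it does not come back to the column `n - m` after visiting the column `n`. -/
structure GoodW (n m K : ℤ) {x y : V} (w : lattice.Walk x y) : Prop where
  left : ∀ h : ℤ, ((0, h) : V) ∈ w.support → 2 * |h - x.2| < K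
  right : ∀ h : ℤ, ((n, h) : V) ∈ w.support → 2 * |h - y.2| < K
  noret : ∀ i j : ℕ, i ≤ j → j ≤ w.length → (w.getVert i).1 = m → (w.getVert j).1 ≠ 0
  noret' : ∀ i j : ℕ, i ≤ j → j ≤ w.length → (w.getVert i).1 = n → (w.getVert j).1 ≠ n - m

/-- The `j`-th selected geodesic, from `(0, jK)` to `(n, jK)`. -/
noncomputable def ga (n K : ℤ) (ω : Cfg) (j : ℤ) : lattice.Walk ((0, j * K) : V) (n, j * K) :=
  sel ω (0, j * K) (n, j * K)

/-- The index `j` is active: `Mx > 0` for the `j`-th and the `(j+1)`-st points. -/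
def InI (n m K : ℤ) (ω : Cfg) (j : ℤ) : Prop :=
  HasGeo ω ∧ GoodW n m K (ga n K ω j) ∧ GoodW n m K (ga n K ω (j + 1)) ∧
    0 < Mx ω (0, j * K) (0, (j + 1) * K) (n, j * K) (n, (j + 1) * K)

/-- `j + c` is the second active index after the active index `j`. -/
def Trip (n m K : ℤ) (ω : Cfg) (j c : ℤ) : Prop :=
  InI n m K ω j ∧ InI n m K ω (j + c) ∧ ∃ i, j < i ∧ i < j + c ∧ InI n m K ω i ∧
    ∀ i', j < i' → i' < j + c → InI n m K ω i' → i' = i

/-- A walk that crosses the strip `0 ≤ x ≤ n`. -/
def IsStrip (n : ℤ) {x y : V} (w : lattice.Walk x y) : Prop :=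
  x.1 = 0 ∧ y.1 = n ∧ ∀ v ∈ w.support, 0 ≤ v.1 ∧ v.1 ≤ n

/-- `β` is a piece of a walk from `x` to `y` of minimal weight. -/
def Piece (ω : Cfg) (x y : V) {u v : V} (β : lattice.Walk u v) : Prop :=
  T ω x u + ln ω β + T ω v y = T ω x y

/-- Potential wall at the position `t`, near the walks `w0` and `wc`. -/
structure PW (ω : Cfg) (L R R1 : ℕ) (C0 κ Z1 : ℝ) (t : ℤ) {a b a' b' : V}
    (w0 : lattice.Walk a b) (wc : lattice.Walk a' b') : Prop where
  gap : ht (t * L) w0 ≤ ht (t * L) wc ∧ ht (t * L) wc ≤ ht (t * L) w0 + R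
  gap' : ht ((t + 1) * L) w0 ≤ ht ((t + 1) * L) wc ∧
    ht ((t + 1) * L) wc ≤ ht ((t + 1) * L) w0 + R
  vert : ∑ i ∈ Finset.range R, |ω s((t * L, ht (t * L) w0 + i), (t * L, ht (t * L) w0 + i + 1))|
    ≤ C0
  vert' : ∑ i ∈ Finset.range R, |ω s(((t + 1) * L, ht ((t + 1) * L) w0 + i),
    ((t + 1) * L, ht ((t + 1) * L) w0 + i + 1))| ≤ C0
  hor : T ω (t * L, ht (t * L) w0) ((t + 1) * L, ht ((t + 1) * L) w0) ≤ κ
  far : ∀ i : ℕ, i ≤ R → ∀ v : V, ¬ (|v.1 - t * L| ≤ R1 ∧ |v.2 - ht (t * L) w0| ≤ R1) →
    Z1 ≤ T ω (t * L, ht (t * L) w0 + i) v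

/-- All horizontal edges between the columns `tL` and `(t+1)L` near `w0` have weight at least `H`,
except those of `w0` and `wc`. -/
def High (ω : Cfg) (L R1 : ℕ) (H : ℝ) (t : ℤ) {a b a' b' : V}
    (w0 : lattice.Walk a b) (wc : lattice.Walk a' b') : Prop :=
  ∀ s y : ℤ, t * L ≤ s → s < (t + 1) * L → |y - ht (t * L) w0| ≤ R1 →
    s(((s, y) : V), (s + 1, y)) ∉ w0.edges → s(((s, y) : V), (s + 1, y)) ∉ wc.edges →
    H ≤ |ω s((s, y), (s + 1, y))|

end Pool.Agent.Work.MP_9a767b_pr.U
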