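import Pool.Agent.Work.MP_9a767b_pr.U.Defs
import Pool.Agent.Work.MP_9a767b_pr.Metric

/-!
# Visit: first and last visits of a column

PROOF. Adjacent vertices have first coordinates that differ by at most one (`adj_iff`). Induction
on the walk. `exists_first_col`: for `cons h p` from `x`: if `x.1 = c` take `w1 = nil`, `w2 = w`;
otherwise `x.1 < c`, the next vertex has first coordinate at most `c`, use the induction
hypothesis for `p` and put `w1 = cons h w1'`. `exists_last_col`: apply `exists_first_col` to the
reversed walk after the reflection `(a,b) ↦ (-a,b)`, or directly by induction on the reversed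
walk / with `SimpleGraph.Walk.concatRec`: for `w = p.concat h` with end `y`: if `y.1 = c` take
`w2 = nil`; otherwise `c < y.1` and the vertex before `y` has first coordinate at least `c`.
`exists_index` is a consequence of `exists_first_col` (or induction).
-/

open MeasureTheory ProbabilityTheory Filter Topology

namespace Pool.Agent.Work.MP_9a767b_pr.U

private theorem first_gen (f : V → ℤ) (hf : ∀ x y, lattice.Adj x y → f y ≤ f x + 1) {x y : V}
    (w : lattice.Walk x y) {c : ℤ} (hx : f x ≤ c) (hy : c ≤ f y) :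
    ∃ (u : V) (w1 : lattice.Walk x u) (w2 : lattice.Walk u y), w = w1.append w2 ∧ f u = c ∧
      (∀ v ∈ w1.support, f v ≤ c) ∧ ∀ v ∈ w1.support.dropLast, f v < c := by
  induction w with
  | @nil u =>
    refine ⟨u, SimpleGraph.Walk.nil, SimpleGraph.Walk.nil, rfl, le_antisymm hx hy, ?_, ?_⟩
    · intro v hv
      rw [SimpleGraph.Walk.support_nil, List.mem_singleton] at hv
      rw [hv]
      exact hx
    · intro v hv
      simp at hv
  | @cons u v w h p ih =>
    by_cases hc : f u = c
    · refine ⟨u, SimpleGraph.Walk.nil, SimpleGraph.Walk.cons h p, rfl, hc, ?_, ?_⟩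
      · intro v hv
        rw [SimpleGraph.Walk.support_nil, List.mem_singleton] at hv
        rw [hv]
        exact hx
      · intro v hv
        simp at hv
    · have h1 := hf _ _ h
      have hlt : f u < c := lt_of_le_of_ne hx hc
      obtain ⟨z, w1, w2, e, hz, h2, h3⟩ := ih (by omega) hy
      refine ⟨z, SimpleGraph.Walk.cons h w1, w2, by rw [e]; rfl, hz, ?_, ?_⟩
      · intro v hv
        rw [SimpleGraph.Walk.support_cons, List.mem_cons] at hv
        rcases hv with hv | hv
        · rw [hv]; exact hx
        · exact h2 v hv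
      · intro v hv
        rw [SimpleGraph.Walk.support_cons,
          List.dropLast_cons_of_ne_nil (SimpleGraph.Walk.support_ne_nil w1), List.mem_cons] at hv
        rcases hv with hv | hv
        · rw [hv]; exact hlt
        · exact h3 v hv

private theorem adj_fst {x y : V} (h : lattice.Adj x y) : y.1 ≤ x.1 + 1 ∧ x.1 ≤ y.1 + 1 := by
  rw [adj_iff] at h
  have h2 := abs_nonneg (x.2 - y.2)
  have h1 : |x.1 - y.1| ≤ 1 := by linarith
  rw [abs_le] at h1
  omega

/-- The first visit of a column. -/
theorem exists_first_col {x y : V} (w : lattice.Walk x y) {c : ℤ} (hx : x.1 ≤ c) (hy : c ≤ y.1) :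
    ∃ (u : V) (w1 : lattice.Walk x u) (w2 : lattice.Walk u y), w = w1.append w2 ∧ u.1 = c ∧
      (∀ v ∈ w1.support, v.1 ≤ c) ∧ ∀ v ∈ w1.support.dropLast, v.1 < c :=
  first_gen Prod.fst (fun _ _ h => (adj_fst h).1) w hx hy

/-- The last visit of a column. -/
theorem exists_last_col {x y : V} (w : lattice.Walk x y) {c : ℤ} (hx : x.1 ≤ c) (hy : c ≤ y.1) :
    ∃ (u : V) (w1 : lattice.Walk x u) (w2 : lattice.Walk u y), w = w1.append w2 ∧ u.1 = c ∧
      (∀ v ∈ w2.support, c ≤ v.1) ∧ ∀ v ∈ w2.support.tail, c < v.1 := by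
  obtain ⟨u, w1, w2, e, hu, h1, h2⟩ := first_gen (fun v => -v.1)
    (fun a b h => by have := (adj_fst h).2; omega) w.reverse (c := -c) (by omega) (by omega)
  refine ⟨u, w2.reverse, w1.reverse, ?_, by omega, ?_, ?_⟩
  · rw [← SimpleGraph.Walk.reverse_append, ← e, SimpleGraph.Walk.reverse_reverse]
  · intro v hv
    rw [SimpleGraph.Walk.support_reverse, List.mem_reverse] at hv
    have := h1 v hv
    omega
  · intro v hv
    rw [SimpleGraph.Walk.support_reverse, List.tail_reverse, List.mem_reverse] at hv
    have := h2 v hv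
    omega

/-- A walk between two sides of a column visits it. -/
theorem exists_mem_col {x y : V} (w : lattice.Walk x y) {c : ℤ}
    (h : (x.1 ≤ c ∧ c ≤ y.1) ∨ (y.1 ≤ c ∧ c ≤ x.1)) : ∃ v ∈ w.support, v.1 = c := by
  rcases h with ⟨h1, h2⟩ | ⟨h1, h2⟩
  · obtain ⟨u, w1, w2, e, hu, _, _⟩ := exists_first_col w h1 h2
    refine ⟨u, ?_, hu⟩
    rw [e, SimpleGraph.Walk.mem_support_append_iff]
    exact Or.inl w1.end_mem_support
  · obtain ⟨u, w1, w2, e, hu, _, _⟩ := exists_first_col w.reverse h1 h2
    refine ⟨u, ?_, hu⟩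
    have h3 : u ∈ w.reverse.support := by
      rw [e, SimpleGraph.Walk.mem_support_append_iff]
      exact Or.inl w1.end_mem_support
    rwa [SimpleGraph.Walk.support_reverse, List.mem_reverse] at h3

end Pool.Agent.Work.MP_9a767b_pr.U
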