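import Pool.Agent.Work.MP_9a767b_pr.U.ExcUp
import Pool.Agent.Work.MP_9a767b_pr.U.Visit

/-!
# Exc: no large excursions along the column of the starting point

PROOF. Let `k0` be from `exc_up` with `ε/3`. Choose `k > k0` such that the local event
`L = {∃ i, |i| < k0 ∧ ∃ j, k ≤ |j| ∧ T 0 (0,j) ≤ T 0 (0,i) + D + 1}` has probability at most `ε/3`: there is `M`
with `Q {∃ |i| < k0, M < T 0 (0,i)} ≤ ε/6`, and by `box` for large `k`, with probability at least `1 - ε/6`,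
`T 0 (0,j) > μ k/2 ≥ M + D + 1` for all `|j| ≥ k`.
Let `ω` be in the event of the statement, with `j`. Let `P` be a walk from `(0,j)` to `(n,t)` with
`ln P ≤ T (0,j) (n,t) + 1`. By `exists_last_col` (column `0`) `P = P1.append P2`, `P2` starts at `(0,i)` and its
other vertices have `x > 0`. `T 0 (0,i) + ln P2 ≤ T 0 (0,j) + ln P1 + ln P2 ≤ T 0 (n,t) + D + 1`. If
`|i| < k0`: `T 0 (0,j) + T (0,j) (0,i) + ln P2 ≤ T 0 (n,t) + D + 1 ≤ T 0 (0,i) + ln P2 + D + 1`, so `ω ∈ L`. If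
`k0 ≤ i`: `ω` is in the event of `exc_up`. If `i ≤ -k0`: reflect with `refl2` (`(a,b) ↦ (a,-b)`, `T_refl2`;
map the walk `P2` under the reflection as in `T_act_le` in `Act.lean`): `act refl2 ω` is in the event of
`exc_up` for the target `(n,-t)`. (The event of `exc_up` is a countable union of measurable sets, walks
are countable, so `real_act` applies.)
-/

open MeasureTheory ProbabilityTheory Filter Topology

namespace Pool.Agent.Work.MP_9a767b_pr.U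

private theorem ln_map_inv (σ : V ≃ V) (f : lattice →g lattice) (hf : ∀ x, f x = σ x)
    (hinv : ∀ x, σ (σ x) = x) (ω : Cfg) {x y : V} (w : lattice.Walk x y) :
    ln (act σ ω) (w.map f) = ln ω w := by
  unfold ln len act
  rw [SimpleGraph.Walk.edges_map, List.map_map]
  congr 1
  refine List.map_congr_left fun e _ => ?_
  simp only [Function.comp_apply, Sym2.map_map]
  congr 2
  have : (fun x => σ (f x)) = (id : V → V) := by
    funext z
    simp only [hf, hinv, id]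
  have h2 : Sym2.map (fun x => σ (f x)) e = e := by
    rw [this, Sym2.map_id]
    rfl
  exact h2

private theorem meas_ln {x y : V} (w : lattice.Walk x y) : Measurable (fun ω : Cfg => ln ω w) :=
  (measurable_len w).comp (measurable_pi_lambda _ fun e => (measurable_pi_apply e).abs)

private theorem meas_EU (k0 n t : ℤ) (D : ℝ) : MeasurableSet {ω : Cfg | ∃ j : ℤ, k0 ≤ j ∧
    ∃ P : lattice.Walk ((0, j) : V) (n, t), (∀ v ∈ P.support.tail, 0 < v.1) ∧
        T ω 0 (0, j) + ln ω P ≤ T ω 0 (n, t) + D + 1} := by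
  have e : {ω : Cfg | ∃ j : ℤ, k0 ≤ j ∧
    ∃ P : lattice.Walk ((0, j) : V) (n, t), (∀ v ∈ P.support.tail, 0 < v.1) ∧
        T ω 0 (0, j) + ln ω P ≤ T ω 0 (n, t) + D + 1} = ⋃ j : ℤ, ⋃ _ : k0 ≤ j,
      ⋃ P : lattice.Walk ((0, j) : V) (n, t), ⋃ _ : (∀ v ∈ P.support.tail, 0 < v.1),
      {ω : Cfg | T ω 0 (0, j) + ln ω P ≤ T ω 0 (n, t) + D + 1} := by
    ext ω
    simp only [Set.mem_iUnion, exists_prop, Set.mem_ofPred_eq]
  rw [e]
  refine MeasurableSet.iUnion fun j => MeasurableSet.iUnion fun _ => ?_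
  have := countable_walk ((0, j) : V) (n, t)
  refine MeasurableSet.iUnion fun P => MeasurableSet.iUnion fun _ => ?_
  exact measurableSet_le ((measurable_T _ _).add (meas_ln P))
    (((measurable_T _ _).add_const _).add_const _)

private theorem meas_EV (k n t : ℤ) (D : ℝ) : MeasurableSet {ω : Cfg | ∃ j : ℤ, k ≤ |j| ∧
        T ω 0 (0, j) + T ω (0, j) (n, t) ≤ T ω 0 (n, t) + D} := by
  have e : {ω : Cfg | ∃ j : ℤ, k ≤ |j| ∧
        T ω 0 (0, j) + T ω (0, j) (n, t) ≤ T ω 0 (n, t) + D} = ⋃ j : ℤ, ⋃ _ : k ≤ |j|,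
      {ω : Cfg | T ω 0 (0, j) + T ω (0, j) (n, t) ≤ T ω 0 (n, t) + D} := by
    ext ω
    simp only [Set.mem_iUnion, exists_prop, Set.mem_ofPred_eq]
  rw [e]
  refine MeasurableSet.iUnion fun j => MeasurableSet.iUnion fun _ => ?_
  exact measurableSet_le ((measurable_T _ _).add (measurable_T _ _))
    ((measurable_T _ _).add_const _)

/-- Passage times in a finite part of the column are bounded with high probability. -/
private theorem loc_bound {ν : Measure ℝ} [IsProbabilityMeasure ν]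
    (hI : Integrable (fun ω => T ω 0 (1, 0)) (Q ν)) (k0 : ℕ) {ε : ℝ} (hε : 0 < ε) :
    ∃ M : ℝ, 0 ≤ M ∧ (Q ν).real {ω | ∃ i : ℤ, |i| < k0 ∧ M < T ω 0 (0, i)} ≤ ε := by
  have hSS := subSym_g hI
  obtain ⟨S, hS⟩ : ∃ S : ℝ, S = ∑ i ∈ Finset.Ioo (-(k0 : ℤ)) k0, g ν (0, i) := ⟨_, rfl⟩
  have hS0 : 0 ≤ S := by
    rw [hS]
    exact Finset.sum_nonneg fun i _ => hSS.nonneg _
  have hM : 0 < (S + 1) / ε := by positivity
  refine ⟨(S + 1) / ε, hM.le, ?_⟩
  have hsub : {ω : Cfg | ∃ i : ℤ, |i| < k0 ∧ (S + 1) / ε < T ω 0 (0, i)} ⊆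
      ⋃ i ∈ Finset.Ioo (-(k0 : ℤ)) k0, {ω : Cfg | (S + 1) / ε ≤ T ω 0 (0, i)} := by
    rintro ω ⟨i, hi, hT⟩
    rw [abs_lt] at hi
    simp only [Set.mem_iUnion]
    exact ⟨i, Finset.mem_Ioo.2 hi, hT.le⟩
  have hmk : ∀ i : ℤ, (Q ν).real {ω : Cfg | (S + 1) / ε ≤ T ω 0 (0, i)} ≤
      g ν (0, i) / ((S + 1) / ε) := by
    intro i
    have h1 := mul_meas_ge_le_integral_of_nonneg (μ := Q ν)
      (Filter.Eventually.of_forall fun ω => T_nonneg ω 0 (0, i)) (integrable_T hI 0 (0, i))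
      ((S + 1) / ε)
    rw [integral_T, sub_zero] at h1
    rw [le_div_iff₀ hM, mul_comm]
    exact h1
  calc (Q ν).real {ω : Cfg | ∃ i : ℤ, |i| < k0 ∧ (S + 1) / ε < T ω 0 (0, i)}
      ≤ (Q ν).real (⋃ i ∈ Finset.Ioo (-(k0 : ℤ)) k0, {ω : Cfg | (S + 1) / ε ≤ T ω 0 (0, i)}) :=
        measureReal_mono hsub (measure_ne_top _ _)
    _ ≤ ∑ i ∈ Finset.Ioo (-(k0 : ℤ)) k0, (Q ν).real {ω : Cfg | (S + 1) / ε ≤ T ω 0 (0, i)} :=
        measureReal_biUnion_finset_le _ _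
    _ ≤ ∑ i ∈ Finset.Ioo (-(k0 : ℤ)) k0, g ν (0, i) / ((S + 1) / ε) :=
        Finset.sum_le_sum fun i _ => hmk i
    _ = S / ((S + 1) / ε) := by rw [← Finset.sum_div, ← hS]
    _ ≤ ε := by
        rw [div_le_iff₀ hM, mul_div_cancel₀ _ hε.ne']
        linarith

theorem exc {ν : Measure ℝ} [IsProbabilityMeasure ν]
    (hI : Integrable (fun ω => T ω 0 (1, 0)) (Q ν))
    (hd : Nm (g ν) 1 1 < 2 * Nm (g ν) 1 0) {D ε : ℝ} (hD : 0 ≤ D) (hε : 0 < ε) :
    ∃ k : ℕ, 0 < k ∧ ∀ t0 : ℕ, ∃ n0 : ℕ, ∀ n : ℕ, n0 ≤ n → ∀ t : ℤ, |t| ≤ t0 →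
      (Q ν).real {ω | ∃ j : ℤ, (k : ℤ) ≤ |j| ∧
        T ω 0 (0, j) + T ω (0, j) (n, t) ≤ T ω 0 (n, t) + D} ≤ ε := by
  have hN := isNm (subSym_g hI)
  have hμ : 0 < Nm (g ν) 1 0 := by
    have h1 := hN.ge1 1 1
    rw [abs_one, mul_one] at h1
    linarith
  obtain ⟨k0, hk0, hup⟩ := exc_up hI hd hD (show 0 < ε / 3 by linarith)
  obtain ⟨M, hM0, hM⟩ := loc_bound hI k0 (show 0 < ε / 6 by linarith)
  obtain ⟨m0, hbox⟩ := box hI hμ (show 0 < ε / 6 by linarith)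
  obtain ⟨k1, hk1⟩ := exists_nat_gt (2 * (M + D + 1) / Nm (g ν) 1 0)
  obtain ⟨k, hk⟩ : ∃ k : ℕ, k = max (max m0 k1) (k0 + 1) := ⟨_, rfl⟩
  have hkm : m0 ≤ k := by rw [hk]; exact (le_max_left _ _).trans (le_max_left _ _)
  have hkk1 : k1 ≤ k := by rw [hk]; exact (le_max_right _ _).trans (le_max_left _ _)
  have hkk0 : k0 + 1 ≤ k := by rw [hk]; exact le_max_right _ _
  have hkM : M + D + 1 < Nm (g ν) 1 0 * k / 2 := by
    rw [div_lt_iff₀ hμ] at hk1
    have : (k1 : ℝ) ≤ k := by exact_mod_cast hkk1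
    nlinarith
  refine ⟨k, by omega, fun t0 => ?_⟩
  obtain ⟨n0, hn0⟩ := hup t0
  refine ⟨n0, fun n hn t ht => ?_⟩
  obtain ⟨EU, hEU⟩ : ∃ EU : ℤ → Set Cfg, EU = fun t => {ω | ∃ j : ℤ, (k0 : ℤ) ≤ j ∧
      ∃ P : lattice.Walk ((0, j) : V) (n, t), (∀ v ∈ P.support.tail, 0 < v.1) ∧
        T ω 0 (0, j) + ln ω P ≤ T ω 0 (n, t) + D + 1} := ⟨_, rfl⟩
  have hEUm : ∀ t, MeasurableSet (EU t) := by
    intro t
    rw [hEU]
    exact meas_EU k0 n t D
  have u1 : (Q ν).real (EU t) ≤ ε / 3 := by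
    rw [hEU]
    exact hn0 n hn t ht
  have u2 : (Q ν).real {ω | act refl2 ω ∈ EU (-t)} ≤ ε / 3 := by
    rw [real_act ν refl2 _ (hEUm _), hEU]
    exact hn0 n hn (-t) (by rw [abs_neg]; exact ht)
  obtain ⟨A, hA⟩ : ∃ A : Set Cfg, A = {ω | ∃ i : ℤ, |i| < k0 ∧ M < T ω 0 (0, i)} := ⟨_, rfl⟩
  obtain ⟨B, hB⟩ : ∃ B : Set Cfg, B = {ω | ∃ w : V, ((k : ℤ) ≤ |w.1| ∨ (k : ℤ) ≤ |w.2|) ∧
        T ω 0 w ≤ Nm (g ν) 1 0 * k / 2} := ⟨_, rfl⟩
  have hB' := hbox k hkm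
  rw [← hA] at hM
  rw [← hB] at hB'
  have hsub : {ω : Cfg | ∃ j : ℤ, (k : ℤ) ≤ |j| ∧
        T ω 0 (0, j) + T ω (0, j) (n, t) ≤ T ω 0 (n, t) + D} ⊆
      (A ∪ B) ∪ (EU t ∪ {ω | act refl2 ω ∈ EU (-t)}) := by
    rintro ω ⟨j, hj, hle⟩
    obtain ⟨P, hP⟩ := exists_near (fun e => |ω e|) ((0, j) : V) (n, t) one_pos
    have hP' : ln ω P < T ω (0, j) (n, t) + 1 := hP
    obtain ⟨u, P1, P2, hPP, hu, -, htail⟩ := exists_last_col P (c := 0) le_rfl
      (by show (0 : ℤ) ≤ (n : ℤ); positivity)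
    obtain ⟨u1, i⟩ := u
    have hu' : u1 = 0 := hu
    subst hu'
    have hlen : ln ω P = ln ω P1 + ln ω P2 := by
      rw [hPP]
      exact len_append _ _ _
    have hT1 : T ω (0, j) (0, i) ≤ ln ω P1 := pt_le_len (fun _ => abs_nonneg _) P1
    have hT2 : T ω (0, i) (n, t) ≤ ln ω P2 := pt_le_len (fun _ => abs_nonneg _) P2
    have hT3 := T_triangle ω 0 (0, j) (0, i)
    have hT4 := T_triangle ω 0 (0, i) (n, t)
    have hT5 := T_nonneg ω (0, j) (0, i)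
    have hmain : T ω 0 (0, i) + ln ω P2 ≤ T ω 0 (n, t) + D + 1 := by linarith
    rcases lt_or_ge |i| (k0 : ℤ) with hi | hi
    · left
      by_cases hiM : M < T ω 0 (0, i)
      · left
        rw [hA]
        exact ⟨i, hi, hiM⟩
      · right
        rw [hB]
        refine ⟨(0, j), Or.inr hj, ?_⟩
        have : T ω 0 (0, j) ≤ T ω 0 (0, i) + D + 1 := by linarith
        linarith [not_lt.1 hiM]
    · right
      rcases le_abs.1 hi with hi | hi
      · left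
        rw [hEU]
        exact ⟨i, hi, P2, htail, hmain⟩
      · right
        show act refl2 ω ∈ EU (-t)
        rw [hEU]
        have hadj : ∀ x y, lattice.Adj x y → lattice.Adj (refl2 x) (refl2 y) := by
          intro x y h
          rw [adj_iff] at h ⊢
          have e1 : -x.2 - -y.2 = -(x.2 - y.2) := by ring
          show |x.1 - y.1| + |-x.2 - -y.2| = 1
          rw [e1, abs_neg]
          exact h
        let f : lattice →g lattice := ⟨refl2, fun {a b} h => hadj a b h⟩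
        refine ⟨-i, hi, P2.map f, ?_, ?_⟩
        · intro v hv
          have hs : (P2.map f).support.tail = P2.support.tail.map f := by
            rw [SimpleGraph.Walk.support_map, List.map_tail]
          have hv2 : v ∈ (P2.map f).support.tail := hv
          rw [hs, List.mem_map] at hv2
          obtain ⟨v', hv', rfl⟩ := hv2
          exact htail v' hv'
        · have e2 : ln (act refl2 ω) (P2.map f) = ln ω P2 :=
            ln_map_inv refl2 f (fun _ => rfl) (fun x => by ext <;> simp [refl2]) ω P2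
          have e3 : T (act refl2 ω) 0 (0, -i) = T ω 0 (0, i) := by
            rw [T_refl2]
            simp
            rfl
          have e4 : T (act refl2 ω) 0 ((n : ℤ), -t) = T ω 0 (n, t) := by
            rw [T_refl2]
            simp
            rfl
          refine le_trans (le_of_eq ?_) (hmain.trans (le_of_eq ?_))
          · rw [e3]
            exact congrArg _ e2
          · rw [e4]
  calc _ ≤ (Q ν).real ((A ∪ B) ∪ (EU t ∪ {ω | act refl2 ω ∈ EU (-t)})) :=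
        measureReal_mono hsub (measure_ne_top _ _)
    _ ≤ (Q ν).real (A ∪ B) + (Q ν).real (EU t ∪ {ω | act refl2 ω ∈ EU (-t)}) :=
        measureReal_union_le _ _
    _ ≤ ((Q ν).real A + (Q ν).real B) + ((Q ν).real (EU t) +
          (Q ν).real {ω | act refl2 ω ∈ EU (-t)}) :=
        add_le_add (measureReal_union_le _ _) (measureReal_union_le _ _)
    _ ≤ ε := by linarith

/-- Both ends, for a start `(0,a)` and a target `(n,b)`. -/
theorem exc2 {ν : Measure ℝ} [IsProbabilityMeasure ν]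
    (hI : Integrable (fun ω => T ω 0 (1, 0)) (Q ν))
    (hd : Nm (g ν) 1 1 < 2 * Nm (g ν) 1 0) {D ε : ℝ} (hD : 0 ≤ D) (hε : 0 < ε) :
    ∃ k : ℕ, 0 < k ∧ ∀ t0 : ℕ, ∃ n0 : ℕ, ∀ n : ℕ, n0 ≤ n → ∀ a b : ℤ, |a - b| ≤ t0 →
      (Q ν).real {ω | ∃ j : ℤ,
        ((k : ℤ) ≤ |j - a| ∧ T ω (0, a) (0, j) + T ω (0, j) (n, b) ≤ T ω (0, a) (n, b) + D) ∨
        ((k : ℤ) ≤ |j - b| ∧ T ω (0, a) (n, j) + T ω (n, j) (n, b) ≤ T ω (0, a) (n, b) + D)}
        ≤ ε := by
  obtain ⟨k, hk, h⟩ := exc hI hd hD (show 0 < ε / 2 by linarith)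
  refine ⟨k, hk, fun t0 => ?_⟩
  obtain ⟨n0, hn0⟩ := h t0
  refine ⟨n0, fun n hn a b hab => ?_⟩
  obtain ⟨EV, hEV⟩ : ∃ EV : ℤ → Set Cfg, EV = fun t => {ω | ∃ j : ℤ, (k : ℤ) ≤ |j| ∧
        T ω 0 (0, j) + T ω (0, j) (n, t) ≤ T ω 0 (n, t) + D} := ⟨_, rfl⟩
  have hEVm : ∀ t, MeasurableSet (EV t) := by
    intro t
    rw [hEV]
    exact meas_EV k n t D
  have v1 : (Q ν).real {ω | act (trans (0, a)) ω ∈ EV (b - a)} ≤ ε / 2 := by
    rw [real_act ν _ _ (hEVm _), hEV]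
    exact hn0 n hn (b - a) (by rw [abs_sub_comm]; exact hab)
  have v2 : (Q ν).real {ω | act (refl1 n) ω ∈ {ω' | act (trans (0, b)) ω' ∈ EV (a - b)}} ≤
      ε / 2 := by
    have hm2 : MeasurableSet {ω' : Cfg | act (trans (0, b)) ω' ∈ EV (a - b)} :=
      measurable_act _ (hEVm _)
    rw [real_act ν (refl1 n) _ hm2, real_act ν _ _ (hEVm _), hEV]
    exact hn0 n hn (a - b) hab
  have hsub : {ω : Cfg | ∃ j : ℤ,
        ((k : ℤ) ≤ |j - a| ∧ T ω (0, a) (0, j) + T ω (0, j) (n, b) ≤ T ω (0, a) (n, b) + D) ∨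
        ((k : ℤ) ≤ |j - b| ∧ T ω (0, a) (n, j) + T ω (n, j) (n, b) ≤ T ω (0, a) (n, b) + D)} ⊆
      {ω | act (trans (0, a)) ω ∈ EV (b - a)} ∪
      {ω | act (refl1 n) ω ∈ {ω' | act (trans (0, b)) ω' ∈ EV (a - b)}} := by
    rintro ω ⟨j, ⟨hj, hle⟩ | ⟨hj, hle⟩⟩
    · left
      show act (trans (0, a)) ω ∈ EV (b - a)
      rw [hEV]
      refine ⟨j - a, hj, ?_⟩
      simp only [T_trans]
      simpa using hle
    · right
      show act (trans (0, b)) (act (refl1 n) ω) ∈ EV (a - b)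
      rw [hEV]
      refine ⟨j - b, hj, ?_⟩
      simp only [T_trans, T_refl1]
      have e1 := T_comm ω (0, a) ((n : ℤ), j)
      have e2 := T_comm ω ((n : ℤ), j) ((n : ℤ), b)
      have e3 := T_comm ω (0, a) ((n : ℤ), b)
      simp
      linarith
  calc _ ≤ (Q ν).real ({ω | act (trans (0, a)) ω ∈ EV (b - a)} ∪
      {ω | act (refl1 n) ω ∈ {ω' | act (trans (0, b)) ω' ∈ EV (a - b)}}) :=
        measureReal_mono hsub (measure_ne_top _ _)
    _ ≤ _ := measureReal_union_le _ _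
    _ ≤ ε := by linarith

end Pool.Agent.Work.MP_9a767b_pr.U
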