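import Pool.Agent.Work.MP_9a767b_pr.Defs

/-!
# SlopeQ: if the limit shape is not the diamond, there is a direction with a small vertical slope

PROOF. `slope_q`: `2 N(q,b+1) = N(2q, 2b+2) ≤ N(q,b) + N(q,b+2)` (`smul` with `t = 2`, `add_le`), so the
increments `N(q,b+1) - N(q,b)` are nondecreasing in `b : ℕ`. Suppose `N(q,2) - N(q,1) ≥ μ` for all
natural `q ≥ 1`. Then `N(q,q) ≥ N(q,1) + (q-1) μ ≥ μ q + (q - 1) μ` (`ge1`), and `N(q,q) = q N(1,1)`, so
`N(1,1) ≥ 2 μ - μ/q` for all `q ≥ 1`, i.e. `N(1,1) ≥ 2 μ`, a contradiction. (`hd` and `ge1` give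
`μ ≤ N(1,1) < 2 μ`, so `μ > 0`.)
`slope_pt`: let `f b = N (q s) b`. It is convex (`add_le`, `smul`), even (`neg2`), hence nondecreasing for
`b ≥ 0`, and `f (2s) - f s = s (N(q,2) - N(q,1)) ≤ σ s` (`smul`). For a convex function the slope over
`[x1,x2]` is at most the slope over `[y1,y2]` if `x1 ≤ y1`, `x2 ≤ y2`. Apply this to
`x1 = s + t - j ≤ s = y1` and `x2 = s + t ≤ 2 s = y2`: `f (s+t) - f (s+t-j) ≤ σ j`. (`ConvexOn` lemmas, or
direct convex combinations.)
-/

open MeasureTheory ProbabilityTheory Filter Topology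

namespace Pool.Agent.Work.MP_9a767b_pr.U

theorem nm_convexOn {N : ℝ → ℝ → ℝ} {μ : ℝ} (hN : IsNm N μ) (a : ℝ) :
    ConvexOn ℝ Set.univ (fun b => N a b) := by
  refine ⟨convex_univ, fun x _ y _ α β hα hβ hαβ => ?_⟩
  simp only [smul_eq_mul]
  calc N a (α * x + β * y) = N (α * a + β * a) (α * x + β * y) := by rw [← add_mul, hαβ, one_mul]
    _ ≤ N (α * a) (α * x) + N (β * a) (β * y) := hN.add_le _ _ _ _
    _ = α * N a x + β * N a y := by rw [hN.smul α hα, hN.smul β hβ]

theorem slope_q {N : ℝ → ℝ → ℝ} {μ : ℝ} (hN : IsNm N μ) (hd : N 1 1 < 2 * μ) :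
    ∃ q : ℕ, 0 < q ∧ N q 2 - N q 1 < μ := by
  by_contra hcon
  push Not at hcon
  have h1 : μ ≤ N 1 1 := by simpa using hN.ge1 1 1
  have hμ : 0 < μ := by linarith
  obtain ⟨q, hq⟩ := exists_nat_gt (μ / (2 * μ - N 1 1) + 2)
  have hpos : 0 < 2 * μ - N 1 1 := by linarith
  have hq2 : (2 : ℝ) < q := by
    have : 0 < μ / (2 * μ - N 1 1) := by positivity
    linarith
  have hq0 : 0 < q := by
    have : (0 : ℝ) < q := by linarith
    exact_mod_cast this
  have h2 := hcon q hq0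
  have h3 := (nm_convexOn hN (q : ℝ)).secant_mono (a := 1) (x := 2) (y := (q : ℝ))
    (Set.mem_univ _) (Set.mem_univ _) (Set.mem_univ _) (by norm_num) (by linarith) hq2.le
  have h4 : (0 : ℝ) < (q : ℝ) - 1 := by linarith
  have h5 : (N q 2 - N q 1) * ((q : ℝ) - 1) ≤ N q q - N q 1 := by
    rw [show (2 : ℝ) - 1 = 1 by norm_num, div_one, le_div_iff₀ h4] at h3
    exact h3
  have h6 : N q q = q * N 1 1 := by
    have := hN.smul q (by positivity) 1 1
    rwa [mul_one] at this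
  have h7 : μ * q ≤ N q 1 := by
    have := hN.ge1 q 1
    rwa [abs_of_nonneg (by positivity)] at this
  have h8 : μ * ((q : ℝ) - 1) ≤ (N q 2 - N q 1) * ((q : ℝ) - 1) :=
    mul_le_mul_of_nonneg_right h2 h4.le
  have h9 : μ < (2 * μ - N 1 1) * q := by
    have h10 : μ / (2 * μ - N 1 1) < q := by linarith
    rw [div_lt_iff₀ hpos] at h10
    linarith
  nlinarith

/-- The vertical slopes below the points `(q s, s + t)` with `0 ≤ t ≤ s`. -/
theorem slope_pt {N : ℝ → ℝ → ℝ} {μ σ : ℝ} (hN : IsNm N μ) {q : ℝ} (hq : 0 < q)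
    (hσ : N q 2 - N q 1 ≤ σ) {s t j : ℝ} (hs : 0 < s) (ht : 0 ≤ t) (hts : t ≤ s)
    (htj : t ≤ j) (hj : 0 < j) : N (q * s) (s + t) - N (q * s) (s + t - j) ≤ σ * j := by
  have hc := nm_convexOn hN (q * s)
  have h1 : (N (q * s) (s + t) - N (q * s) (s + t - j)) / j ≤
      (N (q * s) (2 * s) - N (q * s) (s + t - j)) / (2 * s - (s + t - j)) := by
    have h := hc.secant_mono (a := s + t - j) (x := s + t) (y := 2 * s) (Set.mem_univ _)
      (Set.mem_univ _) (Set.mem_univ _) (by linarith) (by linarith) (by linarith)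
    rwa [show s + t - (s + t - j) = j by ring] at h
  have h2 : (N (q * s) (2 * s) - N (q * s) (s + t - j)) / (2 * s - (s + t - j)) ≤
      (N (q * s) (2 * s) - N (q * s) s) / s := by
    have h := hc.secant_mono (a := 2 * s) (x := s + t - j) (y := s) (Set.mem_univ _)
      (Set.mem_univ _) (Set.mem_univ _) (by linarith) (by linarith) (by linarith)
    have e1 : (N (q * s) (s + t - j) - N (q * s) (2 * s)) / (s + t - j - 2 * s) =
        (N (q * s) (2 * s) - N (q * s) (s + t - j)) / (2 * s - (s + t - j)) := by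
      rw [← neg_div_neg_eq]; ring_nf
    have e2 : (N (q * s) s - N (q * s) (2 * s)) / (s - 2 * s) =
        (N (q * s) (2 * s) - N (q * s) s) / s := by
      rw [← neg_div_neg_eq]; ring_nf
    rwa [e1, e2] at h
  have h3 : (N (q * s) (2 * s) - N (q * s) s) / s ≤ σ := by
    have e1 : N (q * s) (2 * s) = s * N q 2 := by
      rw [← hN.smul s hs.le]; congr 1 <;> ring
    have e2 : N (q * s) s = s * N q 1 := by
      rw [← hN.smul s hs.le]; congr 1 <;> ring
    rw [e1, e2, ← mul_sub, mul_div_assoc, mul_comm, div_mul_cancel₀ _ hs.ne']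
    exact hσ
  have h4 := (h1.trans h2).trans h3
  rwa [div_le_iff₀ hj] at h4

end Pool.Agent.Work.MP_9a767b_pr.U
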