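import Pool.Agent.Work.MP_9a767b_pr.U.Macro
import Pool.Agent.Work.MP_9a767b_pr.U.SlopeQ
import Pool.Agent.Work.MP_9a767b_pr.NormB

/-!
# Mabc: three macroscopic events

Notation: `N = Nm (g ν)`, `μ = N 1 0 > 0`, `z = (q s, s + t)`, `v = (n, u)`. From the hypotheses
`(1 - 1/(4q)) n ≤ q s ≤ (1 - 1/(8q)) n`, `t ≤ s`; `N ≤ μ(|a| + |b|)`, `N ≥ μ|a|`, `N ≥ μ|b|`
(`isNm (subSym_g hI)`).

PROOF. `ma`: `macro_v` with target `v`, `b = q s`: for `y ≥ s + t`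
`N(qs, y) + N(n - qs, u - y) - N(n, u) ≥ μ q s + μ |u - y| - μ (n + |u|) ≥
μ (q s + s - 2|u| - n) ≥ μ (n/(2q) - 2 t0)`, because `q s - n ≥ - n/(4q)` and `s ≥ (3/4) n/q`. So
`c = μ/(4q)` works for large `n`, and `D ≤ c n/4` for large `n`.
`mb`: `macro_h` with target `z`, `b = u`: for `x ≥ n`
`N(x,u) + N(qs - x, s + t - u) - N(qs, s+t) ≥ μ x + μ (s + t - |u|) - μ (q s + s + t) ≥
μ (n - q s - t0) ≥ μ (n/(8q) - t0)`; `c = μ/(16 q)`.
`mc`: `macro_v` with target `z`, `b = 0`: for `j > η n` (so `j ≥ t`, `j > 0`; `n ≥ 1`)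
`N(0,j) + N(qs, s + t - j) - N(qs, s+t) ≥ μ j - σ j ≥ (μ - σ) η n` by `slope_pt` with
`σ = N q 2 - N q 1 < μ` and `N(0,j) = μ j`; `c = (μ - σ) η`.
`C = 3` is enough as a bound for all coordinates for large `n` (`|u| ≤ t0 ≤ n`).
-/

open MeasureTheory ProbabilityTheory Filter Topology

namespace Pool.Agent.Work.MP_9a767b_pr.U

/-- Elementary bounds for the target. -/
private theorem target_bounds {q : ℕ} (hq : 0 < q) {n s t : ℕ}
    (h1 : (1 - 1 / (4 * q)) * n ≤ (q : ℝ) * s) (h2 : (q : ℝ) * s ≤ (1 - 1 / (8 * q)) * n)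
    (hts : t ≤ s) :
    (q : ℝ) * s ≤ n ∧ (s : ℝ) + t ≤ 2 * n ∧ (n : ℝ) - n / (4 * q) ≤ q * s ∧
      (q : ℝ) * s ≤ n - n / (8 * q) ∧ 3 / 4 * (n / q) ≤ (s : ℝ) := by
  have hqR : (1 : ℝ) ≤ q := by exact_mod_cast hq
  have hq0 : (0 : ℝ) < q := by linarith
  have hn0 : (0 : ℝ) ≤ n := by positivity
  have htR : (t : ℝ) ≤ s := by exact_mod_cast hts
  have e1 : (1 - 1 / (4 * (q : ℝ))) * n = n - n / (4 * q) := by ring
  have e2 : (1 - 1 / (8 * (q : ℝ))) * n = n - n / (8 * q) := by ring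
  have e3 : (0 : ℝ) ≤ n / (8 * q) := by positivity
  have e4 : (q : ℝ) * s ≤ n := by linarith
  have e5 : (s : ℝ) ≤ q * s := by
    have : (0 : ℝ) ≤ s := by positivity
    nlinarith
  have e6 : (3 : ℝ) / 4 * n ≤ q * s := by
    have : (n : ℝ) / (4 * q) ≤ n / 4 := by
      apply div_le_div_of_nonneg_left hn0 (by norm_num) (by linarith)
    linarith
  refine ⟨e4, by linarith, by linarith, by linarith, ?_⟩
  have e7 : (3 : ℝ) / 4 * (n / q) = (3 / 4 * n) / q := by ring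
  rw [e7, div_le_iff₀ hq0]
  linarith

theorem ma {ν : Measure ℝ} [IsProbabilityMeasure ν]
    (hI : Integrable (fun ω => T ω 0 (1, 0)) (Q ν)) (hμ : 0 < Nm (g ν) 1 0) {q : ℕ} (hq : 0 < q)
    {D ε : ℝ} (hε : 0 < ε) (t0 : ℕ) : ∃ n0 : ℕ, ∀ n : ℕ, n0 ≤ n → ∀ s t : ℕ,
      (1 - 1 / (4 * q)) * n ≤ (q : ℝ) * s → (q : ℝ) * s ≤ (1 - 1 / (8 * q)) * n → t ≤ s →
      ∀ u : ℤ, |u| ≤ t0 →
      (Q ν).real {ω | ∃ y : ℤ, (s : ℤ) + t ≤ y ∧
        T ω 0 ((q : ℤ) * s, y) + T ω ((q : ℤ) * s, y) (n, u) ≤ T ω 0 (n, u) + D} ≤ ε := by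
  have hN := isNm (subSym_g hI)
  set μ := Nm (g ν) 1 0 with hμd
  have hqR : (1 : ℝ) ≤ q := by exact_mod_cast hq
  have hq0 : (0 : ℝ) < q := by linarith
  obtain ⟨c, hc⟩ : ∃ c : ℝ, c = μ / (4 * q) := ⟨_, rfl⟩
  have hc0 : 0 < c := by rw [hc]; positivity
  obtain ⟨n1, h1⟩ := macro_v hI hμ hε hc0 (C := 3) (by norm_num)
  refine ⟨max (max n1 t0) (max (8 * q * t0) ⌈4 * D / c⌉₊), fun n hn s t hs1 hs2 hts u hu => ?_⟩
  have hn1 : n1 ≤ n := (le_max_left _ _).trans ((le_max_left _ _).trans hn)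
  have hn2 : t0 ≤ n := (le_max_right _ _).trans ((le_max_left _ _).trans hn)
  have hn3 : 8 * q * t0 ≤ n := (le_max_left _ _).trans ((le_max_right _ _).trans hn)
  have hn4 : 4 * D / c ≤ n := (Nat.le_ceil _).trans
    (by exact_mod_cast (le_max_right _ _).trans ((le_max_right _ _).trans hn))
  rw [div_le_iff₀ hc0] at hn4
  obtain ⟨b1, b2, b3, b4, b5⟩ := target_bounds hq hs1 hs2 hts
  have huR : |(u : ℝ)| ≤ t0 := by exact_mod_cast hu
  have hn2R : (t0 : ℝ) ≤ n := by exact_mod_cast hn2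
  have hn3R : 8 * (q : ℝ) * t0 ≤ n := by exact_mod_cast hn3
  have hnn : (0 : ℝ) ≤ n := by positivity
  have hqs : (0 : ℝ) ≤ q * s := by positivity
  have h2 := h1 n hn1 ((n : ℤ), u) ((q : ℤ) * s)
    (by push_cast; rw [abs_of_nonneg hnn]; linarith) (by simp only; linarith)
    (by push_cast; rw [abs_of_nonneg hqs]; linarith)
  refine (measureReal_mono ?_ (measure_ne_top _ _)).trans h2
  rintro ω ⟨y, hy, hω⟩
  refine ⟨y, ?_, by linarith⟩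
  have g1 := hN.ge1 ((q : ℝ) * s) y
  have g2 := hN.ge2 ((n : ℝ) - q * s) ((u : ℝ) - y)
  have g3 := hN.le n u
  rw [abs_of_nonneg hqs] at g1
  rw [abs_of_nonneg hnn] at g3
  have hyR : (s : ℝ) + t ≤ y := by exact_mod_cast hy
  have h4 : (y : ℝ) - |(u : ℝ)| ≤ |(u : ℝ) - y| := by
    have := neg_abs_le ((u : ℝ) - y)
    have := le_abs_self (u : ℝ)
    linarith
  have h5 : μ * ((y : ℝ) - |(u : ℝ)|) ≤ μ * |(u : ℝ) - y| := mul_le_mul_of_nonneg_left h4 hμ.le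
  have h6 : c * n ≤ μ * (q * s + (s - |(u : ℝ)|) - (n + |(u : ℝ)|)) := by
    have e1 : c * n = μ * (n / (4 * q)) := by rw [hc]; ring
    rw [e1]
    refine mul_le_mul_of_nonneg_left ?_ hμ.le
    have e2 : (t0 : ℝ) ≤ n / (8 * q) := by
      rw [le_div_iff₀ (by positivity)]; linarith
    have e3 : (n : ℝ) / (4 * q) = 1 / 4 * (n / q) := by ring
    have e4 : (n : ℝ) / (8 * q) = 1 / 8 * (n / q) := by ring
    rw [e3] at b3 ⊢
    rw [e4] at e2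
    linarith
  have h7 : μ * ((s : ℝ)) ≤ μ * (y : ℝ) := by
    refine mul_le_mul_of_nonneg_left ?_ hμ.le
    have : (0 : ℝ) ≤ t := by positivity
    linarith
  push_cast
  nlinarith

theorem mb {ν : Measure ℝ} [IsProbabilityMeasure ν]
    (hI : Integrable (fun ω => T ω 0 (1, 0)) (Q ν)) (hμ : 0 < Nm (g ν) 1 0) {q : ℕ} (hq : 0 < q)
    {D ε : ℝ} (hε : 0 < ε) (t0 : ℕ) : ∃ n0 : ℕ, ∀ n : ℕ, n0 ≤ n → ∀ s t : ℕ,
      (1 - 1 / (4 * q)) * n ≤ (q : ℝ) * s → (q : ℝ) * s ≤ (1 - 1 / (8 * q)) * n → t ≤ s →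
      ∀ u : ℤ, |u| ≤ t0 →
      (Q ν).real {ω | ∃ x : ℤ, (n : ℤ) ≤ x ∧
        T ω 0 (x, u) + T ω (x, u) ((q : ℤ) * s, (s : ℤ) + t) ≤
          T ω 0 ((q : ℤ) * s, (s : ℤ) + t) + D} ≤ ε := by
  have hN := isNm (subSym_g hI)
  set μ := Nm (g ν) 1 0 with hμd
  have hqR : (1 : ℝ) ≤ q := by exact_mod_cast hq
  have hq0 : (0 : ℝ) < q := by linarith
  obtain ⟨c, hc⟩ : ∃ c : ℝ, c = μ / (16 * q) := ⟨_, rfl⟩
  have hc0 : 0 < c := by rw [hc]; positivity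
  obtain ⟨n1, h1⟩ := macro_h hI hμ hε hc0 (C := 3) (by norm_num)
  refine ⟨max (max n1 t0) (max (16 * q * t0) ⌈4 * D / c⌉₊), fun n hn s t hs1 hs2 hts u hu => ?_⟩
  have hn1 : n1 ≤ n := (le_max_left _ _).trans ((le_max_left _ _).trans hn)
  have hn2 : t0 ≤ n := (le_max_right _ _).trans ((le_max_left _ _).trans hn)
  have hn3 : 16 * q * t0 ≤ n := (le_max_left _ _).trans ((le_max_right _ _).trans hn)
  have hn4 : 4 * D / c ≤ n := (Nat.le_ceil _).trans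
    (by exact_mod_cast (le_max_right _ _).trans ((le_max_right _ _).trans hn))
  rw [div_le_iff₀ hc0] at hn4
  obtain ⟨b1, b2, b3, b4, b5⟩ := target_bounds hq hs1 hs2 hts
  have huR : |(u : ℝ)| ≤ t0 := by exact_mod_cast hu
  have hn2R : (t0 : ℝ) ≤ n := by exact_mod_cast hn2
  have hn3R : 16 * (q : ℝ) * t0 ≤ n := by exact_mod_cast hn3
  have hnn : (0 : ℝ) ≤ n := by positivity
  have hqs : (0 : ℝ) ≤ q * s := by positivity
  have hst : (0 : ℝ) ≤ s + t := by positivity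
  have h2 := h1 n hn1 ((q : ℤ) * s, (s : ℤ) + t) u
    (by push_cast; rw [abs_of_nonneg hqs]; linarith)
    (by push_cast; rw [abs_of_nonneg hst]; linarith) (by linarith)
  refine (measureReal_mono ?_ (measure_ne_top _ _)).trans h2
  rintro ω ⟨x, hx, hω⟩
  refine ⟨x, ?_, by linarith⟩
  have hxR : (n : ℝ) ≤ x := by exact_mod_cast hx
  have g1 := hN.ge1 x u
  have g2 := hN.ge2 ((q : ℝ) * s - x) ((s : ℝ) + t - u)
  have g3 := hN.le ((q : ℝ) * s) ((s : ℝ) + t)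
  rw [abs_of_nonneg (hnn.trans hxR)] at g1
  rw [abs_of_nonneg hqs, abs_of_nonneg hst] at g3
  have h4 : (s : ℝ) + t - |(u : ℝ)| ≤ |(s : ℝ) + t - u| := by
    have := le_abs_self ((s : ℝ) + t - u)
    have := le_abs_self (u : ℝ)
    linarith
  have h5 : μ * ((s : ℝ) + t - |(u : ℝ)|) ≤ μ * |(s : ℝ) + t - u| :=
    mul_le_mul_of_nonneg_left h4 hμ.le
  have h6 : c * n ≤ μ * (x - |(u : ℝ)| - q * s) := by
    have e1 : c * n = μ * (n / (16 * q)) := by rw [hc]; ring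
    rw [e1]
    refine mul_le_mul_of_nonneg_left ?_ hμ.le
    have e2 : (t0 : ℝ) ≤ n / (16 * q) := by
      rw [le_div_iff₀ (by positivity)]; linarith
    have e3 : (n : ℝ) / (8 * q) = 2 * (n / (16 * q)) := by ring
    rw [e3] at b4
    linarith
  push_cast
  nlinarith

theorem mc {ν : Measure ℝ} [IsProbabilityMeasure ν]
    (hI : Integrable (fun ω => T ω 0 (1, 0)) (Q ν)) (hμ : 0 < Nm (g ν) 1 0) {q : ℕ} (hq : 0 < q)
    {D ε η : ℝ} (hσ : Nm (g ν) q 2 - Nm (g ν) q 1 < Nm (g ν) 1 0) (hε : 0 < ε) (hη : 0 < η) :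
    ∃ n0 : ℕ, ∀ n : ℕ, n0 ≤ n → ∀ s t : ℕ,
      (1 - 1 / (4 * q)) * n ≤ (q : ℝ) * s → (q : ℝ) * s ≤ (1 - 1 / (8 * q)) * n → t ≤ s →
      (t : ℝ) ≤ η * n →
      (Q ν).real {ω | ∃ j : ℤ, η * n < (j : ℝ) ∧
        T ω 0 (0, j) + T ω (0, j) ((q : ℤ) * s, (s : ℤ) + t) ≤
          T ω 0 ((q : ℤ) * s, (s : ℤ) + t) + D} ≤ ε := by
  have hN := isNm (subSym_g hI)
  set μ := Nm (g ν) 1 0 with hμd
  have hqR : (1 : ℝ) ≤ q := by exact_mod_cast hq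
  have hq0 : (0 : ℝ) < q := by linarith
  obtain ⟨σ, hσd⟩ : ∃ σ, σ = Nm (g ν) q 2 - Nm (g ν) q 1 := ⟨_, rfl⟩
  rw [← hσd] at hσ
  obtain ⟨c, hc⟩ : ∃ c : ℝ, c = (μ - σ) * η := ⟨_, rfl⟩
  have hc0 : 0 < c := by rw [hc]; exact mul_pos (by linarith) hη
  obtain ⟨n1, h1⟩ := macro_v hI hμ hε hc0 (C := 3) (by norm_num)
  refine ⟨max (max n1 1) ⌈4 * D / c⌉₊, fun n hn s t hs1 hs2 hts htn => ?_⟩
  have hn1 : n1 ≤ n := (le_max_left _ _).trans ((le_max_left _ _).trans hn)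
  have hn2 : 1 ≤ n := (le_max_right _ _).trans ((le_max_left _ _).trans hn)
  have hn4 : 4 * D / c ≤ n := (Nat.le_ceil _).trans
    (by exact_mod_cast (le_max_right _ _).trans hn)
  rw [div_le_iff₀ hc0] at hn4
  obtain ⟨b1, b2, b3, b4, b5⟩ := target_bounds hq hs1 hs2 hts
  have hn2R : (1 : ℝ) ≤ n := by exact_mod_cast hn2
  have hnn : (0 : ℝ) < n := by linarith
  have hqs : (0 : ℝ) ≤ q * s := by positivity
  have hst : (0 : ℝ) ≤ s + t := by positivity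
  have hs : (0 : ℝ) < s := lt_of_lt_of_le (by positivity) b5
  have h2 := h1 n hn1 ((q : ℤ) * s, (s : ℤ) + t) 0
    (by push_cast; rw [abs_of_nonneg hqs]; linarith)
    (by push_cast; rw [abs_of_nonneg hst]; linarith) (by simp)
  refine (measureReal_mono ?_ (measure_ne_top _ _)).trans h2
  rintro ω ⟨j, hj, hω⟩
  refine ⟨j, ?_, by linarith⟩
  have hj0 : (0 : ℝ) < j := lt_trans (by positivity) hj
  have g1 := hN.ge2 0 j
  rw [abs_of_pos hj0] at g1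
  have g2 := slope_pt hN hq0 hσd.symm.le (s := s) (t := t) (j := j) hs (by positivity)
    (by exact_mod_cast hts) (by linarith) hj0
  have h6 : c * n ≤ (μ - σ) * j := by
    rw [hc, mul_assoc]
    exact mul_le_mul_of_nonneg_left hj.le (by linarith)
  push_cast
  rw [sub_zero]
  linarith

end Pool.Agent.Work.MP_9a767b_pr.U
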