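import Pool.Agent.Work.MP_9a767b_pr.U.SteepExp

/-!
# PickZ: a target with few steep stretches

PROOF. Let `c = 1/(32 q^2)`, and let `η, K1` be from `steep_exp` with `ε/2` in the place of `ε` (a smaller
`η` is also fine: put `η' = min η (1/(8q))`). Let `n` be large, `W = ⌊η' n⌋ ≥ 1`,
`S0 = ⌈(1 - 1/(4q)) n / q⌉`, `S1 = ⌊(1 - 1/(8q)) n / q⌋`; then `c n ≤ S0`, `S0 + c n ≤ S1 ≤ n` for large
`n`, since `S1 - S0 ≥ n/(8 q^2) - 2`. Since the double sum in `steep_exp` has `W (S1 - S0) > 0` terms and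
is at most `(ε/2) W (S1 - S0)`, one of the terms is at most `ε`; put `t' = W - r ∈ [1, W]`.
-/

open MeasureTheory ProbabilityTheory Filter Topology

namespace Pool.Agent.Work.MP_9a767b_pr.U

theorem pick_z {ν : Measure ℝ} [IsProbabilityMeasure ν]
    (hI : Integrable (fun ω => T ω 0 (1, 0)) (Q ν)) (hμ : 0 < Nm (g ν) 1 0) {q : ℕ} (hq : 0 < q)
    {D ε : ℝ} (hσ : Nm (g ν) q 2 - Nm (g ν) q 1 < Nm (g ν) 1 0) (hD : 0 ≤ D) (hε : 0 < ε) :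
    ∃ η : ℝ, 0 < η ∧ η ≤ 1 / (8 * q) ∧ ∃ K1 : ℕ, 0 < K1 ∧ ∃ n0 : ℕ, ∀ n : ℕ, n0 ≤ n → ∃ s t : ℕ,
      (1 - 1 / (4 * q)) * n ≤ (q : ℝ) * s ∧ (q : ℝ) * s ≤ (1 - 1 / (8 * q)) * n ∧ t ≤ s ∧
      (t : ℝ) ≤ η * n ∧
      (Q ν).real {ω | ∃ j : ℕ, K1 ≤ j ∧ (j : ℝ) ≤ η * n ∧
        T ω 0 (0, (j : ℤ)) + T ω (0, (j : ℤ)) ((q : ℤ) * s, (s : ℤ) + t) ≤
          T ω 0 ((q : ℤ) * s, (s : ℤ) + t) + D} ≤ ε := by
  have hqR : (1 : ℝ) ≤ q := by exact_mod_cast hq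
  have hq0 : (0 : ℝ) < q := by linarith
  obtain ⟨c, hc⟩ : ∃ c : ℝ, c = 1 / (32 * (q : ℝ) ^ 2) := ⟨_, rfl⟩
  have hc0 : 0 < c := by rw [hc]; positivity
  obtain ⟨η, hη, K1, hK1, n1, h1⟩ := steep_exp hI hμ hq (c := c) (D := D) (ε := ε / 2) hσ hc0 hD
    (by positivity)
  obtain ⟨η', hη'⟩ : ∃ η' : ℝ, η' = min η (1 / (8 * q)) := ⟨_, rfl⟩
  have hη0 : 0 < η' := by rw [hη']; exact lt_min hη (by positivity)
  have hη1 : η' ≤ η := by rw [hη']; exact min_le_left _ _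
  have hη2 : η' ≤ 1 / (8 * q) := by rw [hη']; exact min_le_right _ _
  refine ⟨η', hη0, hη2, K1, hK1, max n1 (max ⌈1 / η'⌉₊ (64 * q ^ 2)), fun n hn => ?_⟩
  have hn1 : n1 ≤ n := (le_max_left _ _).trans hn
  have hn2 : 1 / η' ≤ n := (Nat.le_ceil _).trans
    (by exact_mod_cast (le_max_left _ _).trans ((le_max_right _ _).trans hn))
  have hn3 : 64 * q ^ 2 ≤ n := (le_max_right _ _).trans ((le_max_right _ _).trans hn)
  rw [div_le_iff₀ hη0] at hn2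
  have hn3R : 64 * (q : ℝ) ^ 2 ≤ n := by exact_mod_cast hn3
  have hnn : (0 : ℝ) < n := lt_of_lt_of_le (by positivity) hn3R
  obtain ⟨W, hW⟩ : ∃ W : ℕ, W = ⌊η' * (n : ℝ)⌋₊ := ⟨_, rfl⟩
  have hW1 : 1 ≤ W := by rw [hW]; exact Nat.le_floor (by push_cast; linarith)
  have hW2 : (W : ℝ) ≤ η' * n := by rw [hW]; exact Nat.floor_le (by positivity)
  -- the interval
  obtain ⟨u, hu⟩ : ∃ u : ℝ, u = (n : ℝ) / q := ⟨_, rfl⟩
  have hun : (n : ℝ) = q * u := by rw [hu]; field_simp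
  have hu0 : 0 < u := by rw [hu]; positivity
  have hu64 : 64 * (q : ℝ) ≤ u := by
    rw [hu, le_div_iff₀ hq0]; nlinarith
  have huu : u ≤ n := by rw [hun]; nlinarith
  have hq4 : 1 / (4 * (q : ℝ)) ≤ 1 / 4 := by
    apply one_div_le_one_div_of_le (by norm_num); linarith
  have hq8 : 0 < 1 / (8 * (q : ℝ)) := by positivity
  have hq48 : 1 / (4 * (q : ℝ)) = 2 * (1 / (8 * q)) := by field_simp; norm_num
  have hqu : 8 ≤ 1 / (8 * (q : ℝ)) * u := by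
    rw [div_mul_eq_mul_div, le_div_iff₀ (by positivity)]
    linarith
  have hcn : c * n = 1 / 4 * (1 / (8 * q) * u) := by
    rw [hc, hun]; field_simp; norm_num
  obtain ⟨S0, hS0⟩ : ∃ S0 : ℕ, S0 = ⌈(1 - 1 / (4 * (q : ℝ))) * u⌉₊ := ⟨_, rfl⟩
  obtain ⟨S1, hS1⟩ : ∃ S1 : ℕ, S1 = ⌊(1 - 1 / (8 * (q : ℝ))) * u⌋₊ := ⟨_, rfl⟩
  have a1 : (1 - 1 / (4 * (q : ℝ))) * u ≤ S0 := hS0 ▸ Nat.le_ceil _
  have hpos : 0 ≤ (1 - 1 / (4 * (q : ℝ))) * u := mul_nonneg (by linarith) hu0.le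
  have a2 : (S0 : ℝ) < (1 - 1 / (4 * (q : ℝ))) * u + 1 := hS0 ▸ Nat.ceil_lt_add_one hpos
  have hpos' : 0 ≤ (1 - 1 / (8 * (q : ℝ))) * u := mul_nonneg (by linarith) hu0.le
  have a3 : (S1 : ℝ) ≤ (1 - 1 / (8 * (q : ℝ))) * u := hS1 ▸ Nat.floor_le hpos'
  have a4 : (1 - 1 / (8 * (q : ℝ))) * u < S1 + 1 := hS1 ▸ Nat.lt_floor_add_one _
  have a5 : (3 : ℝ) / 4 * u ≤ S0 := by
    refine le_trans ?_ a1
    exact mul_le_mul_of_nonneg_right (by linarith) hu0.le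
  have a6 : 1 / (8 * (q : ℝ)) * u ≤ 1 / 8 * u := by
    refine mul_le_mul_of_nonneg_right ?_ hu0.le
    linarith
  have b1 : c * n ≤ S0 := by rw [hcn]; linarith
  have b2 : (S0 : ℝ) + c * n ≤ S1 := by rw [hcn]; nlinarith
  have b3 : S1 ≤ n := by
    have : (S1 : ℝ) ≤ n := by nlinarith
    exact_mod_cast this
  have h2 := h1 n hn1 S0 S1 b1 b2 b3 W (hW2.trans (mul_le_mul_of_nonneg_right hη1 hnn.le))
  have b4 : (S0 : ℝ) < S1 := by rw [hcn] at b2; linarith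
  have b4' : S0 < S1 := by exact_mod_cast b4
  have hWR : (1 : ℝ) ≤ W := by exact_mod_cast hW1
  -- choice of `s` and `r`
  obtain ⟨s, hs, r, hr, hsr⟩ : ∃ s ∈ Finset.Ico S0 S1, ∃ r ∈ Finset.range W,
      (Q ν).real {ω | ∃ j : ℕ, K1 ≤ j ∧ j ≤ W ∧
        T ω 0 (0, (j : ℤ)) + T ω (0, (j : ℤ)) ((q : ℤ) * s, (s : ℤ) + W - r) ≤
          T ω 0 ((q : ℤ) * s, (s : ℤ) + W - r) + D} ≤ ε := by
    by_contra hcon
    push Not at hcon
    have h3 : ∑ s ∈ Finset.Ico S0 S1, ∑ r ∈ Finset.range W, ε ≤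
        ε / 2 * (W * (S1 - S0)) := by
      refine le_trans ?_ h2
      exact Finset.sum_le_sum fun s hs => Finset.sum_le_sum fun r hr => (hcon s hs r hr).le
    rw [Finset.sum_const, Finset.sum_const, Finset.card_range, Nat.card_Ico, nsmul_eq_mul,
      nsmul_eq_mul, Nat.cast_sub b4'.le] at h3
    have h4 : 0 < (W : ℝ) * (S1 - S0) := mul_pos (by linarith) (by linarith)
    have h5 : 0 < ε * ((W : ℝ) * (S1 - S0)) := mul_pos hε h4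
    nlinarith
  rw [Finset.mem_Ico] at hs
  rw [Finset.mem_range] at hr
  have hsR : (S0 : ℝ) ≤ s := by exact_mod_cast hs.1
  have hsR1 : (s : ℝ) ≤ S1 := by exact_mod_cast hs.2.le
  have c1 : (1 - 1 / (4 * (q : ℝ))) * u ≤ s := a1.trans hsR
  have c2 : (s : ℝ) ≤ (1 - 1 / (8 * (q : ℝ))) * u := hsR1.trans a3
  have htW : ((W - r : ℕ) : ℝ) ≤ W := by exact_mod_cast Nat.sub_le _ _
  refine ⟨s, W - r, ?_, ?_, ?_, htW.trans hW2, ?_⟩
  · rw [hun]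
    calc (1 - 1 / (4 * (q : ℝ))) * (q * u) = q * ((1 - 1 / (4 * (q : ℝ))) * u) := by ring
      _ ≤ q * s := mul_le_mul_of_nonneg_left c1 hq0.le
  · rw [hun]
    calc (q : ℝ) * s ≤ q * ((1 - 1 / (8 * (q : ℝ))) * u) := mul_le_mul_of_nonneg_left c2 hq0.le
      _ = (1 - 1 / (8 * q)) * (q * u) := by ring
  · have d1 : (W : ℝ) ≤ s := by
      refine hW2.trans ?_
      have d2 : η' * n ≤ 1 / (8 * q) * n := mul_le_mul_of_nonneg_right hη2 hnn.le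
      have d3 : 1 / (8 * (q : ℝ)) * n = 1 / 8 * u := by rw [hun]; field_simp
      linarith
    have d4 : W ≤ s := by exact_mod_cast d1
    omega
  · refine (measureReal_mono ?_ (measure_ne_top _ _)).trans hsr
    rintro ω ⟨j, hj1, hj2, hω⟩
    refine ⟨j, hj1, ?_, ?_⟩
    · rw [hW]; exact Nat.le_floor hj2
    · have e : (s : ℤ) + W - r = (s : ℤ) + ((W - r : ℕ) : ℤ) := by
        rw [Nat.cast_sub hr.le]; ring
      rw [e]
      exact hω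

end Pool.Agent.Work.MP_9a767b_pr.U
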