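import Pool.Agent.Work.MP_9a767b_pr.U.Barrier
import Pool.Agent.Work.MP_9a767b_pr.U.Mabc
import Pool.Agent.Work.MP_9a767b_pr.U.PickZ

/-!
# ExcUp: no large upward excursions

PROOF. `μ = Nm (g ν) 1 0 > 0` (from `hd` and `IsNm.ge1`: `μ ≤ N(1,1) < 2μ`). `slope_q` gives `q`. Let `η, K1` be
from `pick_z` with `D + 2` and `ε/4`; `k0 = K1`. Given `t0`, let `n` be large and let `s, t'` be given by
`pick_z`; `z = (q s, s + t')`, `0 < z.1 < n`. By `barrier` with `W = ⌊η n⌋` the event in the statement is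
contained in the union of: the event of `pick_z` (`K1 ≤ i ≤ W`, so `i` is a natural number with
`i ≤ η n`), the event of `mc` with `D + 2` (`W < i` gives `η n < i`), the event of `ma` with `D + 1`, the
event of `mb` with `1` (`u = t`), each of probability at most `ε/4`.
-/

open MeasureTheory ProbabilityTheory Filter Topology

namespace Pool.Agent.Work.MP_9a767b_pr.U

theorem exc_up {ν : Measure ℝ} [IsProbabilityMeasure ν]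
    (hI : Integrable (fun ω => T ω 0 (1, 0)) (Q ν))
    (hd : Nm (g ν) 1 1 < 2 * Nm (g ν) 1 0) {D ε : ℝ} (hD : 0 ≤ D) (hε : 0 < ε) :
    ∃ k0 : ℕ, 0 < k0 ∧ ∀ t0 : ℕ, ∃ n0 : ℕ, ∀ n : ℕ, n0 ≤ n → ∀ t : ℤ, |t| ≤ t0 →
      (Q ν).real {ω | ∃ j : ℤ, (k0 : ℤ) ≤ j ∧ ∃ P : lattice.Walk ((0, j) : V) (n, t),
        (∀ v ∈ P.support.tail, 0 < v.1) ∧
        T ω 0 (0, j) + ln ω P ≤ T ω 0 (n, t) + D + 1} ≤ ε := by
  have hN := isNm (subSym_g hI)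
  have hμ : 0 < Nm (g ν) 1 0 := by
    have h1 := hN.ge1 1 1
    rw [abs_one, mul_one] at h1
    linarith
  obtain ⟨q, hq, hσ⟩ := slope_q hN hd
  have hε4 : 0 < ε / 4 := by linarith
  obtain ⟨η, hη, hη8, K1, hK1, n1, h1⟩ := pick_z hI hμ hq (D := D + 2) hσ (by linarith) hε4
  refine ⟨K1, hK1, fun t0 => ?_⟩
  obtain ⟨n2, h2⟩ := mc hI hμ hq (D := D + 2) hσ hε4 hη
  obtain ⟨n3, h3⟩ := ma hI hμ hq (D := D + 1) hε4 t0
  obtain ⟨n4, h4⟩ := mb hI hμ hq (D := 1) hε4 t0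
  refine ⟨max (max n1 n2) (max (max n3 n4) 1), fun n hn t ht => ?_⟩
  simp only [max_le_iff] at hn
  obtain ⟨⟨hn1, hn2⟩, ⟨hn3, hn4⟩, hn5⟩ := hn
  obtain ⟨s, t', hs1, hs2, hts, htη, hp⟩ := h1 n hn1
  have e2 := h2 n hn2 s t' hs1 hs2 hts htη
  have e3 := h3 n hn3 s t' hs1 hs2 hts t ht
  have e4 := h4 n hn4 s t' hs1 hs2 hts t ht
  have hq1 : (1 : ℝ) ≤ q := by exact_mod_cast hq
  have hnr : (1 : ℝ) ≤ n := by exact_mod_cast hn5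
  have hz : 0 < (((q : ℤ) * s, (s : ℤ) + t') : V).1 := by
    have e5 : (1 : ℝ) / (4 * q) ≤ 1 / 4 := by
      apply one_div_le_one_div_of_le <;> linarith
    have e6 : (0 : ℝ) < (q : ℝ) * s := by
      refine lt_of_lt_of_le ?_ hs1
      refine mul_pos (by linarith) (by linarith)
    show (0 : ℤ) < (q : ℤ) * s
    exact_mod_cast e6
  have hzn : (((q : ℤ) * s, (s : ℤ) + t') : V).1 < (n : ℤ) := by
    have e5 : (0 : ℝ) < 1 / (8 * q) := by positivity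
    have e6 : (q : ℝ) * s < n := by
      refine lt_of_le_of_lt hs2 ?_
      nlinarith
    show (q : ℤ) * s < (n : ℤ)
    exact_mod_cast e6
  obtain ⟨A1, hA1⟩ : ∃ A : Set Cfg, A = {ω | ∃ j : ℕ, K1 ≤ j ∧ (j : ℝ) ≤ η * n ∧
        T ω 0 (0, (j : ℤ)) + T ω (0, (j : ℤ)) ((q : ℤ) * s, (s : ℤ) + t') ≤
          T ω 0 ((q : ℤ) * s, (s : ℤ) + t') + (D + 2)} := ⟨_, rfl⟩
  obtain ⟨A2, hA2⟩ : ∃ A : Set Cfg, A = {ω | ∃ j : ℤ, η * n < (j : ℝ) ∧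
        T ω 0 (0, j) + T ω (0, j) ((q : ℤ) * s, (s : ℤ) + t') ≤
          T ω 0 ((q : ℤ) * s, (s : ℤ) + t') + (D + 2)} := ⟨_, rfl⟩
  obtain ⟨A3, hA3⟩ : ∃ A : Set Cfg, A = {ω | ∃ y : ℤ, (s : ℤ) + t' ≤ y ∧
        T ω 0 ((q : ℤ) * s, y) + T ω ((q : ℤ) * s, y) (n, t) ≤ T ω 0 (n, t) + (D + 1)} :=
    ⟨_, rfl⟩
  obtain ⟨A4, hA4⟩ : ∃ A : Set Cfg, A = {ω | ∃ x : ℤ, (n : ℤ) ≤ x ∧
        T ω 0 (x, t) + T ω (x, t) ((q : ℤ) * s, (s : ℤ) + t') ≤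
          T ω 0 ((q : ℤ) * s, (s : ℤ) + t') + 1} := ⟨_, rfl⟩
  rw [← hA1] at hp
  rw [← hA2] at e2
  rw [← hA3] at e3
  rw [← hA4] at e4
  have hsub : {ω : Cfg | ∃ j : ℤ, (K1 : ℤ) ≤ j ∧ ∃ P : lattice.Walk ((0, j) : V) (n, t),
        (∀ v ∈ P.support.tail, 0 < v.1) ∧
        T ω 0 (0, j) + ln ω P ≤ T ω 0 (n, t) + D + 1} ⊆ (A1 ∪ A2) ∪ (A3 ∪ A4) := by
    rintro ω ⟨j, hj, P, hP, hlen⟩
    rcases barrier (k0 := (K1 : ℤ)) (W := ⌊η * n⌋) hD hz hzn (by exact_mod_cast hK1) hj P hP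
      hlen with ⟨i, hi1, hi2, hi3⟩ | ⟨i, hi1, hi2⟩ | ⟨y, hy1, hy2⟩ | ⟨x, hx1, hx2⟩
    · left; left
      rw [hA1]
      have hi0 : 0 ≤ i := le_trans (by positivity) hi1
      obtain ⟨i', rfl⟩ := Int.eq_ofNat_of_zero_le hi0
      refine ⟨i', by exact_mod_cast hi1, ?_, hi3⟩
      have e7 : ((i' : ℤ) : ℝ) ≤ (⌊η * n⌋ : ℝ) := by exact_mod_cast hi2
      have e8 := Int.floor_le (η * n)
      push_cast at e7
      linarith
    · left; right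
      rw [hA2]
      exact ⟨i, Int.floor_lt.1 hi1, hi2⟩
    · right; left
      rw [hA3]
      exact ⟨y, hy1, hy2⟩
    · right; right
      rw [hA4]
      exact ⟨x, hx1, hx2⟩
  calc _ ≤ (Q ν).real ((A1 ∪ A2) ∪ (A3 ∪ A4)) := measureReal_mono hsub (measure_ne_top _ _)
    _ ≤ (Q ν).real (A1 ∪ A2) + (Q ν).real (A3 ∪ A4) := measureReal_union_le _ _
    _ ≤ ((Q ν).real A1 + (Q ν).real A2) + ((Q ν).real A3 + (Q ν).real A4) :=
        add_le_add (measureReal_union_le _ _) (measureReal_union_le _ _)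
    _ ≤ ε := by linarith

end Pool.Agent.Work.MP_9a767b_pr.U
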