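import Pool.Agent.Work.MP_9a767b_pr.U.Defs
import Pool.Agent.Work.MP_9a767b_pr.NormB
import Pool.Agent.Work.MP_9a767b_pr.GFacts

/-!
# ExistsH: weights larger than the time constant

PROOF. Let `μ = Nm (g ν) 1 0`. Suppose `ν {x | H ≤ |x|} = 0` for all `H > μ`. Then `ν {x | μ < |x|} = 0`
(countable union). The weight `|ω e|` of the edge `e0 = {(0,0),(1,0)}` is at most `μ` almost surely,
and `T 0 (1,0) ≤ |ω e0|`, `E T 0 (1,0) = g ν (1,0) ≥ μ` (`nm_le`). So `∫ |ω e0| = μ`
and `|ω e0| = μ` almost surely, i.e. `ν {x | |x| ≠ μ} = 0` (the law of `ω e0` is `ν`: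
`measurePreserving_eval_infinitePi` or similar). Almost surely `|ω e| = μ` for all `e` (countably many
edges). A walk from `0` to `(n,n)` has at least `2n` edges, so `T 0 (n,n) ≥ 2 n μ` almost surely and
`g ν (n,n) ≥ 2 n μ`, hence `Nm (g ν) 1 1 ≥ 2 μ` (`nm_tendsto_int`), a contradiction.
-/

open MeasureTheory ProbabilityTheory Filter Topology

namespace Pool.Agent.Work.MP_9a767b_pr.U

private theorem walk_length {x y : V} (w : lattice.Walk x y) :
    |x.1 - y.1| + |x.2 - y.2| ≤ (w.length : ℤ) := by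
  induction w with
  | nil => simp
  | @cons a b c h p ih =>
    rw [adj_iff] at h
    rw [SimpleGraph.Walk.length_cons]
    push_cast
    have h1 := abs_sub_le a.1 b.1 c.1
    have h2 := abs_sub_le a.2 b.2 c.2
    linarith

private theorem law_ae {ν : Measure ℝ} [IsProbabilityMeasure ν] (P : ℝ → Prop)
    (h : ∀ᵐ x ∂ν, P x) (e : Sym2 V) : ∀ᵐ ω ∂(Q ν), P (ω e) :=
  (measurePreserving_eval_infinitePi (fun _ : Sym2 V => ν) e).quasiMeasurePreserving.ae h

theorem exists_H {ν : Measure ℝ} [IsProbabilityMeasure ν]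
    (hI : Integrable (fun ω => T ω 0 (1, 0)) (Q ν))
    (hd : Nm (g ν) 1 1 < 2 * Nm (g ν) 1 0) :
    ∃ H : ℝ, Nm (g ν) 1 0 < H ∧ 0 < ν.real {x | H ≤ |x|} := by
  by_contra hcon
  push Not at hcon
  have hSS := subSym_g hI
  obtain ⟨μ, hμ⟩ : ∃ μ : ℝ, μ = Nm (g ν) 1 0 := ⟨_, rfl⟩
  rw [← hμ] at hd hcon
  -- the weights are at most `μ`
  have h1 : ∀ᵐ x ∂ν, |x| ≤ μ := by
    have e1 : ∀ n : ℕ, ∀ᵐ x ∂ν, |x| < μ + 1 / ((n : ℝ) + 1) := by
      intro n
      have e2 : ν {x | μ + 1 / ((n : ℝ) + 1) ≤ |x|} = 0 := by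
        have e3 := hcon (μ + 1 / ((n : ℝ) + 1)) (lt_add_of_pos_right _ (by positivity))
        have e4 : ν.real {x | μ + 1 / ((n : ℝ) + 1) ≤ |x|} = 0 := le_antisymm e3 measureReal_nonneg
        exact (measureReal_eq_zero_iff (measure_ne_top _ _)).1 e4
      rw [ae_iff]
      refine le_antisymm ((measure_mono fun x hx => ?_).trans e2.le) bot_le
      exact not_lt.1 hx
    filter_upwards [ae_all_iff.2 e1] with x hx
    refine le_of_forall_pos_lt_add fun ε hε => ?_
    obtain ⟨n, hn⟩ := exists_nat_one_div_lt hε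
    exact (hx n).trans (by linarith)
  obtain ⟨e0, he0⟩ : ∃ e0 : Sym2 V, e0 = s(((0 : ℤ), (0 : ℤ)), ((1 : ℤ), (0 : ℤ))) := ⟨_, rfl⟩
  have hmp := measurePreserving_eval_infinitePi (fun _ : Sym2 V => ν) e0
  -- integrability of the absolute value
  have hint : Integrable (fun x : ℝ => |x|) ν := by
    refine Integrable.of_bound (C := μ) (continuous_abs.aestronglyMeasurable) ?_
    filter_upwards [h1] with x hx
    rw [Real.norm_eq_abs, abs_abs]
    exact hx
  have hintQ : Integrable (fun ω : Cfg => |ω e0|) (Q ν) := hmp.integrable_comp_of_integrable hint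
  have hval : ∫ ω, |ω e0| ∂(Q ν) = ∫ x, |x| ∂ν := by
    have := integral_map (μ := Q ν) (φ := fun ω : Cfg => ω e0) hmp.measurable.aemeasurable
      (f := fun x : ℝ => |x|) continuous_abs.aestronglyMeasurable
    rw [← this]
    congr 1
    exact hmp.map_eq
  have hadj : lattice.Adj ((0 : ℤ), (0 : ℤ)) ((1 : ℤ), (0 : ℤ)) := by
    rw [adj_iff]
    simp
  have hge : μ ≤ ∫ x, |x| ∂ν := by
    have e1 : μ ≤ g ν (1, 0) := by
      rw [hμ]
      have := nm_le hSS (1, 0)
      simpa using this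
    have e2 : g ν (1, 0) ≤ ∫ ω, |ω e0| ∂(Q ν) := by
      unfold g
      refine integral_mono hI hintQ fun ω => ?_
      have e3 := pt_le_len (c := fun e => |ω e|) (fun _ => abs_nonneg _)
        (SimpleGraph.Walk.cons hadj SimpleGraph.Walk.nil)
      rw [he0]
      refine e3.trans (le_of_eq ?_)
      unfold len
      simp
    rw [← hval]
    exact e1.trans e2
  have h2 : ∀ᵐ x ∂ν, |x| = μ := by
    have e1 : 0 ≤ᵐ[ν] fun x => μ - |x| := by
      filter_upwards [h1] with x hx
      simp only [Pi.zero_apply, sub_nonneg]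
      exact hx
    have e2 : Integrable (fun x : ℝ => μ - |x|) ν := (integrable_const μ).sub hint
    have e3 : ∫ x, (μ - |x|) ∂ν = 0 := by
      refine le_antisymm ?_ (integral_nonneg_of_ae e1)
      rw [integral_sub (integrable_const μ) hint, integral_const]
      simp only [probReal_univ, smul_eq_mul, one_mul]
      linarith
    rw [integral_eq_zero_iff_of_nonneg_ae e1 e2] at e3
    filter_upwards [e3] with x hx
    have hx' : μ - |x| = 0 := hx
    linarith
  have h3 : ∀ᵐ ω ∂(Q ν), ∀ e : Sym2 V, |ω e| = μ := by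
    rw [ae_all_iff]
    exact fun e => law_ae (fun x => |x| = μ) h2 e
  have hμ0 : 0 ≤ μ := by
    have e1 := (isNm hSS).ge1 1 1
    rw [← hμ] at e1
    rw [abs_one, mul_one] at e1
    linarith
  have h4 : ∀ n : ℕ, 2 * n * μ ≤ g ν ((n : ℤ) * 1, (n : ℤ) * 1) := by
    intro n
    have e1 : ∀ᵐ ω ∂(Q ν), 2 * n * μ ≤ T ω 0 ((n : ℤ) * 1, (n : ℤ) * 1) := by
      filter_upwards [h3] with ω hω
      have := nonempty_walk (0 : V) ((n : ℤ) * 1, (n : ℤ) * 1)
      refine le_ciInf fun w => ?_
      have e2 : len (fun e => |ω e|) w = w.length * μ := by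
        unfold len
        have e3 : w.edges.map (fun e => |ω e|) = w.edges.map (fun _ => μ) :=
          List.map_congr_left fun e _ => hω e
        rw [e3, List.map_const', List.sum_replicate, SimpleGraph.Walk.length_edges, nsmul_eq_mul]
      rw [e2]
      refine mul_le_mul_of_nonneg_right ?_ hμ0
      have e4 := walk_length w
      have e5 : (2 * n : ℤ) ≤ w.length := by
        refine le_trans (le_of_eq ?_) e4
        simp only [Prod.fst_zero, Prod.snd_zero, mul_one, zero_sub, abs_neg, Nat.abs_cast]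
        ring
      exact_mod_cast e5
    unfold g
    have e6 := integral_mono_ae (μ := Q ν) (integrable_const (2 * n * μ)) (integrable_T hI 0 _) e1
    rw [integral_const] at e6
    simpa using e6
  have h5 := nm_tendsto_int hSS 1 1
  have h6 : 2 * μ ≤ Nm (g ν) 1 1 := by
    have h5' : Tendsto (fun n : ℕ => g ν ((n : ℤ) * 1, (n : ℤ) * 1) / (n : ℝ)) atTop
        (𝓝 (Nm (g ν) 1 1)) := by simpa using h5
    refine ge_of_tendsto h5' ?_
    filter_upwards [eventually_gt_atTop 0] with n hn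
    have hn' : (0 : ℝ) < n := by exact_mod_cast hn
    rw [le_div_iff₀ hn']
    linarith [h4 n]
  linarith

end Pool.Agent.Work.MP_9a767b_pr.U
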