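import Pool.Agent.Work.MP_9a767b_pr.U.Strip
import Pool.Agent.Work.MP_9a767b_pr.U.Pieces
import Pool.Agent.Work.MP_9a767b_pr.U.FirstV

/-!
# Four: the four geodesics pass through a common vertex (deterministic)

PROOF. Let `a∓ = (0, ∓K)`, `b∓ = (n, ∓K)`, `γ1` a geodesic from `a-` to `b+`, `γ2` one from `a+` to `b-`
(`hg`). As in the first lines of the proof of `strip_extract` (`exists_first_col` for the column `n`,
then `exists_last_col` for the column `0`) there are parts `σ1` of `γ1` from `u1` to `v1` and `σ2` of `γ2` from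
`u2` to `v2` that are strip walks; they are pieces (`piece_of_geo`). `u1 = (0,h)` is on `γ1`, so
`T a- u1 + T u1 b+ = T a- b+` and by `h1` `|h + K| < l`; in this way
`|u1.2 + K|, |v1.2 - K|, |u2.2 - K|, |v2.2 + K| < l`. Since `l ≤ K` (`hlk`), `cross_strip` with `P = σ1`,
`G = σ2` gives a common vertex `z`. Split `σ1 = σ1a.append σ1b`, `σ2 = σ2a.append σ2b` at `z`.
(1) `T a- z + T z b+ = T a- b+`, `T a+ z + T z b- = T a+ b-` (`piece_mem`). By `hM`
`T a- b- + T a+ b+ ≥ T a- b+ + T a+ b- = (T a- z + T z b-) + (T a+ z + T z b+) ≥ T a- b- + T a+ b+`, so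
`T a- z + T z b- = T a- b-` and `T a+ z + T z b+ = T a+ b+`.
(2) if `p` is on `σ1a` or `σ2a` and `q` is on `σ1b` or `σ2b` then `T p z + T z q = T p q`: if they are on the
same `σ` this is `piece_split`; if `p` is on `σ1a` and `q` on `σ2b`: `T a- z = T a- p + T p z`,
`T z b- = T z q + T q b-` (pieces), so by (1) `T a- b- = T a- p + T p z + T z q + T q b-`, and
`T a- b- ≤ T a- p + T p q + T q b-`; the last case is symmetric.
(3) Let `|a|, |b| ≤ k`, `u = (0,a)`, `v = (n,b)`. CLAIM `T u z + T z v = T u v`. Let `γ` be a geodesic from `u` to `v`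
and `β` its strip part (as above), from `(0,h)` to `(n,h')`, `|h - a| < l`, `|h' - b| < l` by `h3`. Since
`-K + l ≤ -k - l` and `k + l ≤ K - l` (`hlk`), `pocket_left` with `A = σ1a.append σ2a.reverse` (from `u1` to
`u2`) gives `p` on `β` and on `σ1a` or `σ2a`, and `pocket_right` with `A = σ2b.reverse.append σ1b` (from `v2`
to `v1`) gives `q` on `β` and on `σ1b` or `σ2b`. By (2) `T p z + T z q = T p q`, and the claim follows with
`piece_two` as in the conclusion of `Through.lean`.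
(4) Let `x = (-1,0)` or `(0,0)`, `y = (n,0)` or `(n+1,0)`. CLAIM `T x z + T z y = T x y`. Let `w` be a geodesic
from `x` to `y`. By `ht_dist` with the columns `0`, `n`: `T x y = T x u + T u v + T v y` with `u = (0, ht 0 w)`,
`v = (n, ht n w)`. These vertices are on `w`, so by `h4` `|ht 0 w| < k` and `|ht n w| < k`. By (3)
`T x y = T x u + T u z + T z v + T v y ≥ T x z + T z y`.
(5) So `Mx ω (-1,0) (0,0) (n,0) (n+1,0) = 0`: all four passage times are `T x z + T z y`.
-/

open MeasureTheory ProbabilityTheory Filter Topology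

namespace Pool.Agent.Work.MP_9a767b_pr.U

/-- No excursions: for the pair `(0,a)`, `(n,b)`. -/
def NE (ω : Cfg) (n l a b : ℤ) : Prop :=
  (∀ j : ℤ, l ≤ |j - a| → T ω (0, a) (n, b) < T ω (0, a) (0, j) + T ω (0, j) (n, b)) ∧
  ∀ j : ℤ, l ≤ |j - b| → T ω (0, a) (n, b) < T ω (0, a) (n, j) + T ω (n, j) (n, b)

private theorem split_T {ω : Cfg} {x y : V} (w : lattice.Walk x y) {z : V}
    (hz : z ∈ w.support) : T ω x z + T ω z y ≤ ln ω w :=
  pt_split (fun _ => abs_nonneg _) w hz

private theorem strip_ne {ω : Cfg} (hg : HasGeo ω) {n l a b : ℤ} (hn : 0 < n)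
    (h : NE ω n l a b) : ∃ (h h' : ℤ) (β : lattice.Walk ((0, h) : V) (n, h')),
      |h - a| < l ∧ |h' - b| < l ∧ IsStrip n β ∧ Piece ω (0, a) (n, b) β := by
  obtain ⟨w, hw⟩ := hg (0, a) (n, b)
  obtain ⟨v, w', w2, e, hv, hv2, -⟩ := exists_first_col w (c := n) hn.le le_rfl
  obtain ⟨u, w1, β, e', hu, hu2, -⟩ := exists_last_col w' (c := 0) le_rfl (by omega)
  obtain ⟨u1, h1⟩ := u
  obtain ⟨v1, h1'⟩ := v
  simp only at hu hv
  subst hu hv
  have e2 : w = w1.append (β.append w2) := by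
    rw [e, e', SimpleGraph.Walk.append_assoc]
  have hus : ((0, h1) : V) ∈ w.support := by
    rw [e2, SimpleGraph.Walk.mem_support_append_iff]
    exact Or.inl w1.end_mem_support
  have hvs : ((v1, h1') : V) ∈ w.support := by
    rw [e, SimpleGraph.Walk.mem_support_append_iff]
    exact Or.inl w'.end_mem_support
  have s1 := split_T (ω := ω) w hus
  have s2 := split_T (ω := ω) w hvs
  rw [hw] at s1 s2
  refine ⟨h1, h1', β, ?_, ?_, ⟨rfl, rfl, ?_⟩, piece_of_geo hw e2⟩
  · by_contra hc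
    have := h.1 h1 (not_lt.1 hc)
    linarith
  · by_contra hc
    have := h.2 h1' (not_lt.1 hc)
    linarith
  · intro z hz
    refine ⟨hu2 z hz, hv2 z ?_⟩
    rw [e', SimpleGraph.Walk.mem_support_append_iff]
    exact Or.inr hz

private theorem piece_a {ω : Cfg} {x y u z v : V} (β1 : lattice.Walk u z) (β2 : lattice.Walk z v)
    (h : Piece ω x y (β1.append β2)) {p : V} (hp : p ∈ β1.support) :
    T ω x p + T ω p z = T ω x z := by
  have h' : T ω x u + ln ω (β1.append β2) + T ω v y = T ω x y := h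
  have e : ln ω (β1.append β2) = ln ω β1 + ln ω β2 := len_append _ _ _
  have s1 := split_T (ω := ω) β1 hp
  have s2 : T ω z v ≤ ln ω β2 := pt_le_len (fun _ => abs_nonneg _) β2
  have t1 := T_triangle ω x u p
  have t2 := T_triangle ω z v y
  have t3 := T_triangle ω x z y
  have t4 := T_triangle ω x p z
  linarith

private theorem piece_b {ω : Cfg} {x y u z v : V} (β1 : lattice.Walk u z) (β2 : lattice.Walk z v)
    (h : Piece ω x y (β1.append β2)) {q : V} (hq : q ∈ β2.support) :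
    T ω z q + T ω q y = T ω z y := by
  have h' : T ω x u + ln ω (β1.append β2) + T ω v y = T ω x y := h
  have e : ln ω (β1.append β2) = ln ω β1 + ln ω β2 := len_append _ _ _
  have s1 := split_T (ω := ω) β2 hq
  have s2 : T ω u z ≤ ln ω β1 := pt_le_len (fun _ => abs_nonneg _) β1
  have t1 := T_triangle ω x u z
  have t2 := T_triangle ω q v y
  have t3 := T_triangle ω x z y
  have t4 := T_triangle ω z q y
  linarith

private theorem through_two {ω : Cfg} {x y u v z : V} {β : lattice.Walk u v}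
    (g : Piece ω x y β) {p q : V} (hp : p ∈ β.support) (hq : q ∈ β.support)
    (hpq : T ω p z + T ω z q = T ω p q) : T ω x z + T ω z y = T ω x y := by
  refine le_antisymm ?_ (T_triangle ω x z y)
  rcases piece_two g hp hq with h | h
  · have a1 := T_triangle ω x p z
    have a2 := T_triangle ω z q y
    linarith
  · have a1 := T_triangle ω x q z
    have a2 := T_triangle ω z p y
    have a3 : T ω q z = T ω z q := T_comm ω q z
    have a4 : T ω z p = T ω p z := T_comm ω z p
    have a5 : T ω q p = T ω p q := T_comm ω q p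
    linarith

private theorem mem_rev {x y : V} {w : lattice.Walk x y} {p : V} (h : p ∈ w.reverse.support) :
    p ∈ w.support := by
  rwa [SimpleGraph.Walk.support_reverse, List.mem_reverse] at h

/-- steps (1), (2), (3) -/
private theorem four3 {ω : Cfg} (hg : HasGeo ω) {n k l K : ℤ} (hn : 0 < n) (hk : 0 < k)
    (hlk : k + 2 * l ≤ K) (h1 : NE ω n l (-K) K) (h2 : NE ω n l K (-K))
    (h3 : ∀ a b : ℤ, |a| ≤ k → |b| ≤ k → NE ω n l a b)
    (hM : Mx ω (0, -K) (0, K) (n, -K) (n, K) ≤ 0) :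
    ∃ z : V, ∀ a b : ℤ, |a| ≤ k → |b| ≤ k →
      T ω (0, a) z + T ω z (n, b) = T ω (0, a) (n, b) := by
  obtain ⟨c1, c1', σ1, k1, k1', s1, g1⟩ := strip_ne hg hn h1
  obtain ⟨c2, c2', σ2, k2, k2', s2, g2⟩ := strip_ne hg hn h2
  rw [abs_lt] at k1 k1' k2 k2'
  obtain ⟨z, hz1, hz2⟩ := cross_strip s1 s2 (by simp only; omega) (by simp only; omega)
  have e1 := SimpleGraph.Walk.take_spec σ1 hz1
  have e2 := SimpleGraph.Walk.take_spec σ2 hz2
  obtain ⟨σ1a, σ1b, e1⟩ : ∃ (w1 : lattice.Walk ((0, c1) : V) z) (w2 : lattice.Walk z (n, c1')),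
    w1.append w2 = σ1 := ⟨_, _, e1⟩
  obtain ⟨σ2a, σ2b, e2⟩ : ∃ (w1 : lattice.Walk ((0, c2) : V) z) (w2 : lattice.Walk z (n, c2')),
    w1.append w2 = σ2 := ⟨_, _, e2⟩
  have q1 := piece_mem g1 hz1
  have q2 := piece_mem g2 hz2
  have hM' : T ω (0, -K) (n, K) + T ω (0, K) (n, -K) - T ω (0, -K) (n, -K) -
    T ω (0, K) (n, K) ≤ 0 := hM
  have t1 := T_triangle ω (0, -K) z (n, -K)
  have t2 := T_triangle ω (0, K) z (n, K)
  have E1 : T ω (0, -K) z + T ω z (n, -K) = T ω (0, -K) (n, -K) := by linarith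
  have E2 : T ω (0, K) z + T ω z (n, K) = T ω (0, K) (n, K) := by linarith
  obtain ⟨s11, s12, s13⟩ := s1
  obtain ⟨s21, s22, s23⟩ := s2
  subst e1 e2
  have key : ∀ p q : V, (p ∈ σ1a.support ∨ p ∈ σ2a.support) →
      (q ∈ σ1b.support ∨ q ∈ σ2b.support) → T ω p z + T ω z q = T ω p q := by
    intro p q hp hq
    rcases hp with hp | hp
    · rcases hq with hq | hq
      · exact piece_split σ1a σ1b g1 hp hq
      · have a1 := piece_a σ1a σ1b g1 hp
        have a2 := piece_b σ2a σ2b g2 hq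
        have a3 := T_triangle ω p z q
        have a4 := T_triangle ω (0, -K) p (n, -K)
        have a5 := T_triangle ω p q (n, -K)
        linarith
    · rcases hq with hq | hq
      · have a1 := piece_a σ2a σ2b g2 hp
        have a2 := piece_b σ1a σ1b g1 hq
        have a3 := T_triangle ω p z q
        have a4 := T_triangle ω (0, K) p (n, K)
        have a5 := T_triangle ω p q (n, K)
        linarith
      · exact piece_split σ2a σ2b g2 hp hq
  have m1a : ∀ v ∈ σ1a.support, 0 ≤ v.1 ∧ v.1 ≤ n := fun v hv =>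
    s13 v ((SimpleGraph.Walk.mem_support_append_iff _ _).2 (Or.inl hv))
  have m1b : ∀ v ∈ σ1b.support, 0 ≤ v.1 ∧ v.1 ≤ n := fun v hv =>
    s13 v ((SimpleGraph.Walk.mem_support_append_iff _ _).2 (Or.inr hv))
  have m2a : ∀ v ∈ σ2a.support, 0 ≤ v.1 ∧ v.1 ≤ n := fun v hv =>
    s23 v ((SimpleGraph.Walk.mem_support_append_iff _ _).2 (Or.inl hv))
  have m2b : ∀ v ∈ σ2b.support, 0 ≤ v.1 ∧ v.1 ≤ n := fun v hv =>
    s23 v ((SimpleGraph.Walk.mem_support_append_iff _ _).2 (Or.inr hv))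
  refine ⟨z, ?_⟩
  intro a b ha hb
  obtain ⟨c, c', β, k3, k3', s3, g3⟩ := strip_ne hg hn (h3 a b ha hb)
  rw [abs_lt] at k3 k3'
  rw [abs_le] at ha hb
  obtain ⟨p, hp, hpA⟩ := pocket_left s3 (σ1a.append σ2a.reverse) rfl rfl (by
    intro v hv
    rcases (SimpleGraph.Walk.mem_support_append_iff _ _).1 hv with h | h
    · exact m1a v h
    · exact m2a v (mem_rev h)) (by simp only; omega) (by simp only; omega)
  obtain ⟨q, hq, hqB⟩ := pocket_right s3 (σ2b.reverse.append σ1b) rfl rfl (by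
    intro v hv
    rcases (SimpleGraph.Walk.mem_support_append_iff _ _).1 hv with h | h
    · exact m2b v (mem_rev h)
    · exact m1b v h) (by simp only; omega) (by simp only; omega)
  refine through_two g3 hp hq (key p q ?_ ?_)
  · rcases (SimpleGraph.Walk.mem_support_append_iff _ _).1 hpA with h | h
    · exact Or.inl h
    · exact Or.inr (mem_rev h)
  · rcases (SimpleGraph.Walk.mem_support_append_iff _ _).1 hqB with h | h
    · exact Or.inr (mem_rev h)
    · exact Or.inl h

theorem four {ω : Cfg} (hg : HasGeo ω) {n k l K : ℤ} (hn : 0 < n) (hk : 0 < k) (hl : 0 < l)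
    (hlk : k + 2 * l ≤ K) (h1 : NE ω n l (-K) K) (h2 : NE ω n l K (-K))
    (h3 : ∀ a b : ℤ, |a| ≤ k → |b| ≤ k → NE ω n l a b)
    (hM : Mx ω (0, -K) (0, K) (n, -K) (n, K) ≤ 0)
    (h4 : ∀ x y : V, (x = (-1, 0) ∨ x = (0, 0)) → (y = (n, 0) ∨ y = (n + 1, 0)) → ∀ j : ℤ,
      k ≤ |j| → T ω x y < T ω x (0, j) + T ω (0, j) y ∧ T ω x y < T ω x (n, j) + T ω (n, j) y) :
    Mx ω (-1, 0) (0, 0) (n, 0) (n + 1, 0) = 0 := by
  obtain ⟨z, hz⟩ := four3 hg hn hk hlk h1 h2 h3 hM
  have key : ∀ x y : V, (x = (-1, 0) ∨ x = (0, 0)) → (y = (n, 0) ∨ y = (n + 1, 0)) →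
      T ω x y = T ω x z + T ω z y := by
    intro x y hx hy
    obtain ⟨w, hw⟩ := hg x y
    have hx1 : x.1 ≤ 0 := by
      rcases hx with h | h <;> rw [h] <;> norm_num
    have hy1 : n ≤ y.1 := by
      rcases hy with h | h <;> rw [h] <;> simp
    have d := (ht_dist hw hx1 hn.le hy1).1
    have m1 := split_T (ω := ω) w (ht_mem w hx1 (hn.le.trans hy1))
    have m2 := split_T (ω := ω) w (ht_mem w (hx1.trans hn.le) hy1)
    rw [hw] at m1 m2
    have b1 : |ht 0 w| ≤ k := by
      by_contra hc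
      have := (h4 x y hx hy (ht 0 w) (not_le.1 hc).le).1
      linarith
    have b2 : |ht n w| ≤ k := by
      by_contra hc
      have := (h4 x y hx hy (ht n w) (not_le.1 hc).le).2
      linarith
    have e := hz _ _ b1 b2
    have t1 := T_triangle ω x (0, ht 0 w) z
    have t2 := T_triangle ω z (n, ht n w) y
    have t3 := T_triangle ω x z y
    linarith
  have e1 := key (-1, 0) (n + 1, 0) (Or.inl rfl) (Or.inr rfl)
  have e2 := key (0, 0) (n, 0) (Or.inr rfl) (Or.inl rfl)
  have e3 := key (-1, 0) (n, 0) (Or.inl rfl) (Or.inl rfl)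
  have e4 := key (0, 0) (n + 1, 0) (Or.inr rfl) (Or.inr rfl)
  unfold Mx
  linarith

end Pool.Agent.Work.MP_9a767b_pr.U
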