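import Pool.Agent.Work.MP_9a767b_pr.U.Exc
import Pool.Agent.Work.MP_9a767b_pr.U.Cov
import Pool.Agent.Work.MP_9a767b_pr.U.SelMeas
import Pool.Agent.Work.MP_9a767b_pr.Box

/-!
# GoodP: the selected geodesics are good with high probability

PROOF. By `Cov` (the law is invariant under vertical translations; `{HasGeo ∧ ¬ GoodW (ga j)}` is the
preimage of the event for `j = 0` under `act (trans (0, jK))`; prove `GoodW n m K (ga n K (act ..) 0) ↔
GoodW n m K (ga n K ω j)` from `sel_trans` as in `Cov.lean`, measurability by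
`measurableSet_sel_prop`) it is enough to treat `j = 0`; let `a = (0,0)`, `b = (n,0)`, `w = ga n K ω 0`, a
geodesic. `μ = Nm (g ν) 1 0 > 0`.
Let `k` be from `exc2` with `D = 0`, `ε = δ/3` (`t0 = 0`, `a = b = 0`), and `K0 = 2k`. Outside an event of
probability at most `δ/3` every vertex `(0,h)` of `w` has `|h| < k` (since
`T a (0,h) + T (0,h) b = T a b`), so `2|h| < 2k ≤ K`; in the same way for `(n,h)`.
Choose `M` with `Q {∃ |h| < k, M < T 0 (0,h)} ≤ δ/6` and then, by `box`, `m > 0` with `μ m / 2 ≥ M` and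
`Q {∃ y, T 0 (m,y) ≤ μ m /2} ≤ δ/6`; so outside an event of probability at most `δ/3`,
`T 0 (0,h) < T 0 (m,y)` for all `y` and all `|h| < k`. If `noret` fails: `w.getVert i = (m,y)`,
`w.getVert j = (0,h)`, `i ≤ j`, so `T a (m,y) + T (m,y) (0,h) + T (0,h) b = T a b ≤ T a (0,h) + T (0,h) b`, so
`T a (m,y) ≤ T a (0,h)`, and `|h| < k` by the first part: impossible. By the reflection `refl1 n` outside
another event of probability at most `δ/3`, `T b (n,h) < T b (n-m, y)` for all `y` and `|h| < k`, and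
`noret'` holds. `m` does not depend on `n`.
-/

open MeasureTheory ProbabilityTheory Filter Topology

namespace Pool.Agent.Work.MP_9a767b_pr.U

private theorem split3 {ω : Cfg} {x y : V} (w : lattice.Walk x y) {i j : ℕ} (hij : i ≤ j) :
    T ω x (w.getVert i) + T ω (w.getVert i) (w.getVert j) + T ω (w.getVert j) y ≤ ln ω w := by
  have h0 : ln ω w = ln ω (w.take i) + ln ω (w.drop i) := by
    conv_lhs => rw [← w.append_take_drop_eq i]
    exact len_append _ _ _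
  have h1 : T ω x (w.getVert i) ≤ ln ω (w.take i) := pt_le_len (fun _ => abs_nonneg _) _
  have h2 : w.getVert j ∈ (w.drop i).support := by
    have e := (w.drop i).getVert_mem_support (j - i)
    rw [w.drop_getVert i (j - i)] at e
    rwa [Nat.add_sub_cancel' hij] at e
  have h3 : T ω (w.getVert i) (w.getVert j) + T ω (w.getVert j) y ≤ ln ω (w.drop i) :=
    pt_split (fun _ => abs_nonneg _) _ h2
  linarith

private theorem meas_A (k : ℕ) (M : ℝ) :
    MeasurableSet {ω : Cfg | ∃ i : ℤ, |i| < k ∧ M < T ω 0 (0, i)} := by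
  have e : {ω : Cfg | ∃ i : ℤ, |i| < k ∧ M < T ω 0 (0, i)} = ⋃ i : ℤ, ⋃ _ : |i| < (k : ℤ),
      {ω : Cfg | M < T ω 0 (0, i)} := by
    ext ω
    simp only [Set.mem_iUnion, exists_prop, Set.mem_ofPred_eq]
  rw [e]
  refine MeasurableSet.iUnion fun j => MeasurableSet.iUnion fun _ => ?_
  exact measurableSet_lt measurable_const (measurable_T _ _)

private theorem meas_B (m : ℕ) (c : ℝ) :
    MeasurableSet {ω : Cfg | ∃ w : V, ((m : ℤ) ≤ |w.1| ∨ (m : ℤ) ≤ |w.2|) ∧ T ω 0 w ≤ c} := by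
  have e : {ω : Cfg | ∃ w : V, ((m : ℤ) ≤ |w.1| ∨ (m : ℤ) ≤ |w.2|) ∧ T ω 0 w ≤ c} =
      ⋃ w : V, ⋃ _ : ((m : ℤ) ≤ |w.1| ∨ (m : ℤ) ≤ |w.2|), {ω : Cfg | T ω 0 w ≤ c} := by
    ext ω
    simp only [Set.mem_iUnion, exists_prop, Set.mem_ofPred_eq]
  rw [e]
  refine MeasurableSet.iUnion fun j => MeasurableSet.iUnion fun _ => ?_
  exact measurableSet_le (measurable_T _ _) measurable_const

private theorem loc_bound {ν : Measure ℝ} [IsProbabilityMeasure ν]
    (hI : Integrable (fun ω => T ω 0 (1, 0)) (Q ν)) (k0 : ℕ) {ε : ℝ} (hε : 0 < ε) :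
    ∃ M : ℝ, 0 ≤ M ∧ (Q ν).real {ω | ∃ i : ℤ, |i| < k0 ∧ M < T ω 0 (0, i)} ≤ ε := by
  have hSS := subSym_g hI
  obtain ⟨S, hS⟩ : ∃ S : ℝ, S = ∑ i ∈ Finset.Ioo (-(k0 : ℤ)) k0, g ν (0, i) := ⟨_, rfl⟩
  have hS0 : 0 ≤ S := by
    rw [hS]
    exact Finset.sum_nonneg fun i _ => hSS.nonneg _
  have hM : 0 < (S + 1) / ε := by positivity
  refine ⟨(S + 1) / ε, hM.le, ?_⟩
  have hsub : {ω : Cfg | ∃ i : ℤ, |i| < k0 ∧ (S + 1) / ε < T ω 0 (0, i)} ⊆
      ⋃ i ∈ Finset.Ioo (-(k0 : ℤ)) k0, {ω : Cfg | (S + 1) / ε ≤ T ω 0 (0, i)} := by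
    rintro ω ⟨i, hi, hT⟩
    rw [abs_lt] at hi
    simp only [Set.mem_iUnion]
    exact ⟨i, Finset.mem_Ioo.2 hi, hT.le⟩
  have hmk : ∀ i : ℤ, (Q ν).real {ω : Cfg | (S + 1) / ε ≤ T ω 0 (0, i)} ≤
      g ν (0, i) / ((S + 1) / ε) := by
    intro i
    have h1 := mul_meas_ge_le_integral_of_nonneg (μ := Q ν)
      (Filter.Eventually.of_forall fun ω => T_nonneg ω 0 (0, i)) (integrable_T hI 0 (0, i))
      ((S + 1) / ε)
    rw [integral_T, sub_zero] at h1
    rw [le_div_iff₀ hM, mul_comm]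
    exact h1
  calc (Q ν).real {ω : Cfg | ∃ i : ℤ, |i| < k0 ∧ (S + 1) / ε < T ω 0 (0, i)}
      ≤ (Q ν).real (⋃ i ∈ Finset.Ioo (-(k0 : ℤ)) k0, {ω : Cfg | (S + 1) / ε ≤ T ω 0 (0, i)}) :=
        measureReal_mono hsub (measure_ne_top _ _)
    _ ≤ ∑ i ∈ Finset.Ioo (-(k0 : ℤ)) k0, (Q ν).real {ω : Cfg | (S + 1) / ε ≤ T ω 0 (0, i)} :=
        measureReal_biUnion_finset_le _ _
    _ ≤ ∑ i ∈ Finset.Ioo (-(k0 : ℤ)) k0, g ν (0, i) / ((S + 1) / ε) :=
        Finset.sum_le_sum fun i _ => hmk i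
    _ = S / ((S + 1) / ε) := by rw [← Finset.sum_div, ← hS]
    _ ≤ ε := by
        rw [div_le_iff₀ hM, mul_div_cancel₀ _ hε.ne']
        linarith

theorem good_prob {ν : Measure ℝ} [IsProbabilityMeasure ν]
    (hI : Integrable (fun ω => T ω 0 (1, 0)) (Q ν))
    (hd : Nm (g ν) 1 1 < 2 * Nm (g ν) 1 0) {δ : ℝ} (hδ : 0 < δ) :
    ∃ K0 : ℕ, 0 < K0 ∧ ∀ K : ℕ, K0 ≤ K → ∃ m : ℤ, 0 < m ∧ ∃ n0 : ℕ, ∀ n : ℕ, n0 ≤ n → ∀ j : ℤ,
      (Q ν).real {ω | HasGeo ω ∧ ¬ GoodW n m K (ga n K ω j)} ≤ δ := by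
  have hN := isNm (subSym_g hI)
  have hμ : 0 < Nm (g ν) 1 0 := by
    have h1 := hN.ge1 1 1
    rw [abs_one, mul_one] at h1
    linarith
  obtain ⟨k, hk, hex⟩ := exc2 hI hd (D := 0) le_rfl (show 0 < δ / 3 by linarith)
  refine ⟨2 * k, by omega, fun K hK => ?_⟩
  obtain ⟨M, hM0, hM⟩ := loc_bound hI k (show 0 < δ / 6 by linarith)
  obtain ⟨m0, hbox⟩ := box hI hμ (show 0 < δ / 6 by linarith)
  obtain ⟨m1, hm1⟩ := exists_nat_gt (2 * M / Nm (g ν) 1 0)
  obtain ⟨m, hm⟩ : ∃ m : ℕ, m = max m0 m1 + 1 := ⟨_, rfl⟩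
  have hmm0 : m0 ≤ m := by rw [hm]; exact (le_max_left _ _).trans (Nat.le_succ _)
  have hmm1 : m1 ≤ m := by rw [hm]; exact (le_max_right _ _).trans (Nat.le_succ _)
  have hmM : M ≤ Nm (g ν) 1 0 * m / 2 := by
    rw [div_lt_iff₀ hμ] at hm1
    have : (m1 : ℝ) ≤ m := by exact_mod_cast hmm1
    nlinarith
  obtain ⟨n0, hn0⟩ := hex 0
  refine ⟨m, by omega, n0, fun n hn j => ?_⟩
  obtain ⟨a, ha⟩ : ∃ a : ℤ, a = j * K := ⟨_, rfl⟩
  have hE1 := hn0 n hn a a (by simp)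
  obtain ⟨E1, hE1d⟩ : ∃ E : Set Cfg, E = {ω | ∃ j : ℤ,
        ((k : ℤ) ≤ |j - a| ∧ T ω (0, a) (0, j) + T ω (0, j) (n, a) ≤ T ω (0, a) (n, a) + 0) ∨
        ((k : ℤ) ≤ |j - a| ∧ T ω (0, a) (n, j) + T ω (n, j) (n, a) ≤ T ω (0, a) (n, a) + 0)} :=
    ⟨_, rfl⟩
  rw [← hE1d] at hE1
  obtain ⟨A, hA⟩ : ∃ A : Set Cfg, A = {ω | ∃ i : ℤ, |i| < k ∧ M < T ω 0 (0, i)} := ⟨_, rfl⟩
  obtain ⟨B, hB⟩ : ∃ B : Set Cfg, B = {ω | ∃ w : V, ((m : ℤ) ≤ |w.1| ∨ (m : ℤ) ≤ |w.2|) ∧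
        T ω 0 w ≤ Nm (g ν) 1 0 * m / 2} := ⟨_, rfl⟩
  have hB' := hbox m hmm0
  rw [← hA] at hM
  rw [← hB] at hB'
  have hAm : MeasurableSet A := by rw [hA]; exact meas_A k M
  have hBm : MeasurableSet B := by rw [hB]; exact meas_B m _
  have p2 : (Q ν).real {ω | act (trans (0, a)) ω ∈ A} ≤ δ / 6 := by
    rw [real_act ν _ _ hAm]
    exact hM
  have p3 : (Q ν).real {ω | act (trans (0, a)) ω ∈ B} ≤ δ / 6 := by
    rw [real_act ν _ _ hBm]
    exact hB'
  have p4 : (Q ν).real {ω | act (refl1 n) ω ∈ {ω' | act (trans (0, a)) ω' ∈ A}} ≤ δ / 6 := by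
    have hm2 : MeasurableSet {ω' : Cfg | act (trans (0, a)) ω' ∈ A} := measurable_act _ hAm
    rw [real_act ν (refl1 n) _ hm2]
    exact p2
  have p5 : (Q ν).real {ω | act (refl1 n) ω ∈ {ω' | act (trans (0, a)) ω' ∈ B}} ≤ δ / 6 := by
    have hm2 : MeasurableSet {ω' : Cfg | act (trans (0, a)) ω' ∈ B} := measurable_act _ hBm
    rw [real_act ν (refl1 n) _ hm2]
    exact p3
  have hsub : {ω : Cfg | HasGeo ω ∧ ¬ GoodW n m K (ga n K ω j)} ⊆
      E1 ∪ (({ω | act (trans (0, a)) ω ∈ A} ∪ {ω | act (trans (0, a)) ω ∈ B}) ∪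
      ({ω | act (refl1 n) ω ∈ {ω' | act (trans (0, a)) ω' ∈ A}} ∪
        {ω | act (refl1 n) ω ∈ {ω' | act (trans (0, a)) ω' ∈ B}})) := by
    rintro ω ⟨hgeo, hbad⟩
    by_contra hcon
    simp only [Set.mem_union, Set.mem_ofPred_eq, not_or] at hcon
    obtain ⟨c1, ⟨c2, c3⟩, c4, c5⟩ := hcon
    apply hbad
    have hb1 : ∀ h : ℤ, T ω (0, a) (0, h) + T ω (0, h) (n, a) ≤ T ω (0, a) (n, a) →
        |h - a| < k := by
      intro h hle
      by_contra hc
      apply c1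
      rw [hE1d]
      exact ⟨h, Or.inl ⟨not_lt.1 hc, by linarith⟩⟩
    have hb2 : ∀ h : ℤ, T ω (0, a) (n, h) + T ω (n, h) (n, a) ≤ T ω (0, a) (n, a) →
        |h - a| < k := by
      intro h hle
      by_contra hc
      apply c1
      rw [hE1d]
      exact ⟨h, Or.inr ⟨not_lt.1 hc, by linarith⟩⟩
    have hb3 : ∀ h : ℤ, |h - a| < k → T ω (0, a) (0, h) ≤ M := by
      intro h hh
      by_contra hc
      apply c2
      rw [hA]
      refine ⟨h - a, hh, ?_⟩
      simp only [T_trans]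
      simpa using hc
    have hb4 : ∀ y : ℤ, M < T ω (0, a) (m, y) := by
      intro y
      by_contra hc
      apply c3
      rw [hB]
      refine ⟨((m : ℤ), y - a), Or.inl (le_abs_self _), ?_⟩
      simp only [T_trans]
      have e1 : T ω ((0, a) + 0) ((0, a) + ((m : ℤ), y - a)) = T ω (0, a) (m, y) := by simp
      rw [e1]
      exact (not_lt.1 hc).trans hmM
    have hb5 : ∀ h : ℤ, |h - a| < k → T ω (n, h) (n, a) ≤ M := by
      intro h hh
      by_contra hc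
      apply c4
      rw [hA]
      refine ⟨h - a, hh, ?_⟩
      simp only [T_trans, T_refl1]
      rw [T_comm]
      simpa using hc
    have hb6 : ∀ y : ℤ, M < T ω ((n : ℤ) - m, y) (n, a) := by
      intro y
      by_contra hc
      apply c5
      rw [hB]
      refine ⟨((m : ℤ), y - a), Or.inl (le_abs_self _), ?_⟩
      simp only [T_trans, T_refl1]
      rw [T_comm]
      refine le_trans (le_of_eq ?_) ((not_lt.1 hc).trans hmM)
      simp
    obtain ⟨w, hw⟩ : ∃ w : lattice.Walk ((0, a) : V) (n, a), w = sel ω (0, a) (n, a) := ⟨_, rfl⟩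
    have hlw : ln ω w = T ω (0, a) (n, a) := by
      rw [hw]
      exact (sel_spec (exists_isGeo hgeo _ _)).1.2
    have hleft : ∀ h : ℤ, ((0, h) : V) ∈ w.support → |h - a| < k := by
      intro h hh
      apply hb1
      rw [← hlw]
      exact pt_split (fun _ => abs_nonneg _) w hh
    have hright : ∀ h : ℤ, (((n : ℤ), h) : V) ∈ w.support → |h - a| < k := by
      intro h hh
      apply hb2
      rw [← hlw]
      exact pt_split (fun _ => abs_nonneg _) w hh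
    have hgood : GoodW n m K w := by
      refine ⟨fun h hh => ?_, fun h hh => ?_, fun i i' hii _ h1 h2 => ?_,
        fun i i' hii _ h1 h2 => ?_⟩
      · have := hleft h hh
        show 2 * |h - a| < K
        have : (2 * k : ℤ) ≤ K := by exact_mod_cast hK
        linarith
      · have := hright h hh
        show 2 * |h - a| < K
        have : (2 * k : ℤ) ≤ K := by exact_mod_cast hK
        linarith
      · have e1 := split3 (ω := ω) w hii
        have e2 := w.getVert_mem_support i'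
        obtain ⟨p1, p2, hp⟩ : ∃ p1 p2 : ℤ, w.getVert i = (p1, p2) := ⟨_, _, rfl⟩
        obtain ⟨q1, q2, hq⟩ : ∃ q1 q2 : ℤ, w.getVert i' = (q1, q2) := ⟨_, _, rfl⟩
        rw [hp] at h1 e1
        rw [hq] at h2 e1 e2
        have h1' : p1 = m := h1
        have h2' : q1 = 0 := h2
        subst h1' h2'
        have e3 := hb3 q2 (hleft q2 e2)
        have e4 := hb4 p2
        have e5 := T_triangle ω (0, a) (0, q2) (n, a)
        have e6 := T_nonneg ω ((m : ℤ), p2) (0, q2)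
        rw [hlw] at e1
        linarith
      · have e1 := split3 (ω := ω) w hii
        have e2 := w.getVert_mem_support i
        obtain ⟨p1, p2, hp⟩ : ∃ p1 p2 : ℤ, w.getVert i = (p1, p2) := ⟨_, _, rfl⟩
        obtain ⟨q1, q2, hq⟩ : ∃ q1 q2 : ℤ, w.getVert i' = (q1, q2) := ⟨_, _, rfl⟩
        rw [hp] at h1 e1 e2
        rw [hq] at h2 e1
        have h1' : p1 = n := h1
        have h2' : q1 = n - m := h2
        subst h1' h2'
        have e3 := hb5 p2 (hright p2 e2)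
        have e4 := hb6 q2
        have e5 := T_triangle ω (0, a) ((n : ℤ), p2) (n, a)
        have e6 := T_nonneg ω ((n : ℤ), p2) ((n : ℤ) - m, q2)
        rw [hlw] at e1
        linarith
    subst ha
    rw [hw] at hgood
    exact hgood
  calc _ ≤ (Q ν).real (E1 ∪ (({ω | act (trans (0, a)) ω ∈ A} ∪ {ω | act (trans (0, a)) ω ∈ B}) ∪
      ({ω | act (refl1 n) ω ∈ {ω' | act (trans (0, a)) ω' ∈ A}} ∪
        {ω | act (refl1 n) ω ∈ {ω' | act (trans (0, a)) ω' ∈ B}}))) :=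
        measureReal_mono hsub (measure_ne_top _ _)
    _ ≤ (Q ν).real E1 + (Q ν).real (({ω | act (trans (0, a)) ω ∈ A} ∪
      {ω | act (trans (0, a)) ω ∈ B}) ∪ ({ω | act (refl1 n) ω ∈ {ω' | act (trans (0, a)) ω' ∈ A}} ∪
        {ω | act (refl1 n) ω ∈ {ω' | act (trans (0, a)) ω' ∈ B}})) := measureReal_union_le _ _
    _ ≤ (Q ν).real E1 + ((Q ν).real ({ω | act (trans (0, a)) ω ∈ A} ∪
      {ω | act (trans (0, a)) ω ∈ B}) + (Q ν).real ({ω | act (refl1 n) ω ∈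
        {ω' | act (trans (0, a)) ω' ∈ A}} ∪
        {ω | act (refl1 n) ω ∈ {ω' | act (trans (0, a)) ω' ∈ B}})) := by
        gcongr
        exact measureReal_union_le _ _
    _ ≤ (Q ν).real E1 + (((Q ν).real {ω | act (trans (0, a)) ω ∈ A} +
      (Q ν).real {ω | act (trans (0, a)) ω ∈ B}) + ((Q ν).real {ω | act (refl1 n) ω ∈
        {ω' | act (trans (0, a)) ω' ∈ A}} +
        (Q ν).real {ω | act (refl1 n) ω ∈ {ω' | act (trans (0, a)) ω' ∈ B}})) := by
        gcongr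
        · exact measureReal_union_le _ _
        · exact measureReal_union_le _ _
    _ ≤ δ := by linarith

end Pool.Agent.Work.MP_9a767b_pr.U
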