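import Pool.Agent.Work.MP_9a767b_pr.U.Sel
import Pool.Agent.Work.MP_9a767b_pr.U.SelMeas
import Pool.Agent.Work.MP_9a767b_pr.Box
import Pool.Agent.Work.MP_9a767b_pr.GFacts

/-!
# HasGeoAe: geodesics exist almost surely

PROOF. Let `μ = Nm (g ν) 1 0 > 0`. Fix `x : V`. For natural `M` let `D_M` be the event that there is
`m : ℕ` with `T x w > M` for all `w` outside the box of radius `m` around `x`. By translation
(`T_trans`, `real_act`) and `box`, for every `ε > 0` and all large `m`, with probability at least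
`1 - ε`, `T x w > μ m / 2` for all `w` outside the box of radius `m` around `x`; so `D_M` has
probability one for every `M`. Let `ω` be in all the sets `D_M` (for all `x`, `M`).
For `x, y` let `M ≥ T x y + 1` and `m` as in `D_M`, with `y` in the box. A walk `w` from `x` to `y` with
`ln ω w ≤ T x y + 1` has all its vertices `v` in the box, since `T x v ≤ ln ω w ≤ M`. Removing loops
(as in `Sel.exists_isGeo`: for every walk there is a path with at most the same weight whose
vertices are among the vertices of the walk) we get: `T x y` is the infimum of the weights of the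
paths from `x` to `y` that stay in the box. There are finitely many such paths (the support is a
list without repetitions with entries in a finite set, and it determines the walk), and there is
at least one, so the infimum is attained.
-/

open MeasureTheory ProbabilityTheory Filter Topology

namespace Pool.Agent.Work.MP_9a767b_pr.U

private theorem finite_paths (B : Finset V) (x y : V) :
    {w : lattice.Walk x y | w.IsPath ∧ ∀ v ∈ w.support, v ∈ B}.Finite := by
  have h1 : {l : List V | l.Nodup ∧ ∀ v ∈ l, v ∈ B}.Finite := by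
    refine ((List.finite_length_le (↥B) B.card).image (List.map Subtype.val)).subset ?_
    rintro l ⟨hl1, hl2⟩
    refine ⟨l.attach.map (fun v => (⟨v.1, hl2 v.1 v.2⟩ : ↥B)), ?_, ?_⟩
    · show (l.attach.map (fun v => (⟨v.1, hl2 v.1 v.2⟩ : ↥B))).length ≤ B.card
      rw [List.length_map, List.length_attach]
      classical
      rw [← List.toFinset_card_of_nodup hl1]
      exact Finset.card_le_card fun v hv => hl2 v (List.mem_toFinset.1 hv)
    · rw [List.map_map]
      exact List.attach_map_subtype_val l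
  refine Set.Finite.of_finite_image (f := fun w : lattice.Walk x y => w.support) (h1.subset ?_) ?_
  · rintro l ⟨w, hw, rfl⟩
    exact ⟨hw.1.support_nodup, hw.2⟩
  · intro w _ w' _ h
    exact SimpleGraph.Walk.ext_support h

private theorem ln_bypass_le (ω : Cfg) {x y : V} (w : lattice.Walk x y) :
    ln ω w.bypass ≤ ln ω w := by
  unfold ln len
  refine List.Sublist.sum_le_sum ((w.edges_bypass_sublist_edges).map _) ?_
  intro a ha
  obtain ⟨e, _, rfl⟩ := List.mem_map.1 ha
  exact abs_nonneg _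

private theorem hasGeo_of_far {ω : Cfg} (h : ∀ M : ℕ, ∃ m : ℕ, ∀ w : V,
    ((m : ℤ) ≤ |w.1| ∨ (m : ℤ) ≤ |w.2|) → (M : ℝ) < T ω 0 w) : HasGeo ω := by
  classical
  intro x y
  obtain ⟨M, hM⟩ := exists_nat_ge (T ω 0 x + T ω x y + 1)
  obtain ⟨m, hm⟩ := h M
  obtain ⟨B, hB⟩ : ∃ B : Finset V, B = Finset.Icc (-(m : ℤ)) m ×ˢ Finset.Icc (-(m : ℤ)) m :=
    ⟨_, rfl⟩
  have hin : ∀ w : lattice.Walk x y, ln ω w ≤ T ω x y + 1 → ∀ v ∈ w.support, v ∈ B := by
    intro w hw v hv
    have h1 : T ω x v + T ω v y ≤ ln ω w := pt_split (fun _ => abs_nonneg _) w hv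
    have h2 := T_triangle ω 0 x v
    have h3 := T_nonneg ω v y
    have h4 : T ω 0 v ≤ M := by linarith
    have h5 : ¬ ((m : ℤ) ≤ |v.1| ∨ (m : ℤ) ≤ |v.2|) := fun h6 => by
      have := hm v h6
      linarith
    rw [not_or, not_le, not_le] at h5
    have h6 := abs_lt.1 h5.1
    have h7 := abs_lt.1 h5.2
    rw [hB, Finset.mem_product, Finset.mem_Icc, Finset.mem_Icc]
    exact ⟨⟨h6.1.le, h6.2.le⟩, ⟨h7.1.le, h7.2.le⟩⟩
  have hby : ∀ δ : ℝ, 0 < δ → δ ≤ 1 → ∃ w : lattice.Walk x y,
      (w.IsPath ∧ ∀ v ∈ w.support, v ∈ B) ∧ ln ω w < T ω x y + δ := by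
    intro δ hδ hδ1
    obtain ⟨w, hw⟩ := exists_near (fun e => |ω e|) x y hδ
    have h1 : ln ω w.bypass < T ω x y + δ := lt_of_le_of_lt (ln_bypass_le ω w) hw
    exact ⟨w.bypass, ⟨w.bypass_isPath, hin _ (by linarith)⟩, h1⟩
  obtain ⟨w0, hw0, _⟩ := hby 1 one_pos le_rfl
  obtain ⟨a, _, hmin⟩ := Set.exists_min_image _ (fun w : lattice.Walk x y => ln ω w)
    (finite_paths B x y) ⟨w0, hw0⟩
  refine ⟨a, le_antisymm ?_ (pt_le_len (fun _ => abs_nonneg _) _)⟩
  refine le_of_forall_pos_lt_add fun δ hδ => ?_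
  obtain ⟨w, hw, hlt⟩ := hby (min δ 1) (lt_min hδ one_pos) (min_le_right _ _)
  have h1 := hmin w hw
  have h2 := min_le_left δ 1
  linarith

theorem hasGeo_ae {ν : Measure ℝ} [IsProbabilityMeasure ν]
    (hI : Integrable (fun ω => T ω 0 (1, 0)) (Q ν)) (hμ : 0 < Nm (g ν) 1 0) :
    ∀ᵐ ω ∂(Q ν), HasGeo ω := by
  have hprob : IsProbabilityMeasure (Q ν) := by unfold Q; infer_instance
  have key : ∀ M : ℕ, ∀ᵐ ω ∂(Q ν), ∃ m : ℕ, ∀ w : V,
      ((m : ℤ) ≤ |w.1| ∨ (m : ℤ) ≤ |w.2|) → (M : ℝ) < T ω 0 w := by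
    intro M
    have h0 : (Q ν).real {ω | ¬ ∃ m : ℕ, ∀ w : V,
        ((m : ℤ) ≤ |w.1| ∨ (m : ℤ) ≤ |w.2|) → (M : ℝ) < T ω 0 w} = 0 := by
      refine le_antisymm (le_of_forall_pos_le_add fun ε hε => ?_) measureReal_nonneg
      rw [zero_add]
      obtain ⟨m0, hm0⟩ := box hI hμ hε
      obtain ⟨m1, hm1⟩ := exists_nat_ge (2 * (M : ℝ) / Nm (g ν) 1 0)
      have h1 := hm0 (max m0 m1) (le_max_left _ _)
      refine (measureReal_mono ?_).trans h1
      intro ω hω
      have hω' : ¬ ∃ m : ℕ, ∀ w : V,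
        ((m : ℤ) ≤ |w.1| ∨ (m : ℤ) ≤ |w.2|) → (M : ℝ) < T ω 0 w := hω
      push Not at hω'
      obtain ⟨w, hw1, hw2⟩ := hω' (max m0 m1)
      refine ⟨w, hw1, hw2.trans ?_⟩
      have h2 : 2 * (M : ℝ) / Nm (g ν) 1 0 ≤ ((max m0 m1 : ℕ) : ℝ) :=
        hm1.trans (by exact_mod_cast le_max_right m0 m1)
      rw [div_le_iff₀ hμ] at h2
      linarith
    rw [ae_iff]
    exact (measureReal_eq_zero_iff).1 h0
  filter_upwards [ae_all_iff.2 key] with ω hω
  exact hasGeo_of_far hω

end Pool.Agent.Work.MP_9a767b_pr.U
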