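import Pool.Agent.Work.MP_9a767b_pr.U.FirstV
import Pool.Agent.Work.MP_9a767b_pr.U.Sel

/-!
# Insert: insertion of a wall

Notation: `x_s = s L`, `γ_0 = ga n K ω 0`, `γ_c = ga n K ω c`, `S = SS ω L R1 H t γ_0 γ_c`.

PROOF. For `e ∈ S`, `|ω e| < H ≤ |ω' e|`; for other `e`, `ω' e = ω e`. So `|ω e| ≤ |ω' e|` for all `e`,
with equality on the edges of `γ_0` and `γ_c`. By `sel_raise` (and `exists_isGeo`), `ga n K ω' 0 = γ_0`
and `ga n K ω' c = γ_c`, and `T ω' ≥ T ω` everywhere (the weights increase).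
`PW ω' ... t`: `gap`, `gap'` do not depend on the weights. `vert`, `vert'`: vertical edges are not
in `S` (all edges in `S` are horizontal, `s((s,y),(s+1,y))`, and a vertical edge
`s((x,y),(x,y+1))` is never equal to such an edge). `hor`: by `firstv` `γ_0` has a part `w2` from `p_t`
to `p_(t+1)`, `ln ω w2 = T ω p_t p_(t+1)` (as in `ht_dist`/`piece_of_geo`), the edges of `w2` are edges
of `γ_0`, so `T ω' p_t p_(t+1) ≤ ln ω' w2 = ln ω w2 ≤ κ`. `far`: `T ω' ≥ T ω`.
`High ω' ... t`: let `e` be a horizontal edge as in the definition. If `e ∈ S` then `H ≤ |ω' e|`;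
otherwise `e ∈ ES`, not in `γ_0`, `γ_c`, and not in `S`, so `H ≤ |ω e| = |ω' e|`.
The last statement: let `t + q < t'` or `t' + q < t` and assume `PW ω' ... t'`, `High ω' ... t'`.
`gap`, `gap'`: no weights. `vert`, `vert'`: as above. `hor`: `T ω ≤ T ω'`. `far`: let `i ≤ R`, let `v`
be outside the box of radius `R1` around `p_t'`, `u = p_t' + (0,i)`, and suppose `T ω u v < Z1`. Take
a walk `w` from `u` to `v` with `ln ω w < Z1` (`exists_near`). If `u` is outside the box, then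
`0 = T ω' u u ≥ Z1 > T ω u v ≥ 0` is a contradiction. Otherwise let `v'` be the first vertex of `w`
outside the box; all vertices of the part `w'` of `w` from `u` to `v'` are in columns between
`x_t' - R1 - 1` and `x_t' + R1 + 1`. The edges in `S` have both end points in the columns
`[x_t, x_(t+1)]`. If `t' ≥ t + q + 1` then `x_t' - R1 - 1 ≥ x_(t+1) + q L - R1 - 1 ≥ x_(t+1) + 1`;
if `t' ≤ t - q - 1` then `x_t' + R1 + 1 ≤ x_t - q L - L + R1 + 1 ≤ x_t - 1 - L`. So `w'` has no edge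
in `S`, `ln ω' w' = ln ω w' ≤ ln ω w < Z1`, and `T ω' u v' < Z1` with `v'` outside the box, a
contradiction to `far` for `ω'`. `High ω ... t'`: the edges `s((s,y),(s+1,y))` with
`t' L ≤ s < (t'+1) L` are not in `S`, since `t' ≠ t` (for `S`: `t L ≤ s < (t+1) L`).
-/

open MeasureTheory ProbabilityTheory Filter Topology

namespace Pool.Agent.Work.MP_9a767b_pr.U

/-- The horizontal edges between the columns `tL` and `(t+1)L` with height within `R1` of `y`. -/
noncomputable def ES (L R1 : ℕ) (t y : ℤ) : Finset (Sym2 V) :=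
  ((Finset.Ico (t * L) ((t + 1) * L)) ×ˢ (Finset.Icc (y - R1) (y + R1))).image
    (fun p : ℤ × ℤ => s((p : V), (p.1 + 1, p.2)))

open Classical in
/-- The edges that are raised. -/
noncomputable def SS (ω : Cfg) (L R1 : ℕ) (H : ℝ) (t : ℤ) {a b a' b' : V}
    (w0 : lattice.Walk a b) (wc : lattice.Walk a' b') : Finset (Sym2 V) :=
  (ES L R1 t (ht (t * L) w0)).filter (fun e => e ∉ w0.edges ∧ e ∉ wc.edges ∧ |ω e| < H)

theorem card_ES (L R1 : ℕ) (t y : ℤ) : (ES L R1 t y).card ≤ L * (2 * R1 + 1) := by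
  unfold ES
  refine Finset.card_image_le.trans (le_of_eq ?_)
  rw [Finset.card_product, Int.card_Ico, Int.card_Icc]
  congr 1
  · have : (t + 1) * (L : ℤ) - t * L = L := by ring
    rw [this]; simp
  · have : y + (R1 : ℤ) + 1 - (y - R1) = ((2 * R1 + 1 : ℕ) : ℤ) := by push_cast; ring
    rw [this, Int.toNat_natCast]

private theorem mem_ES {L R1 : ℕ} {t y : ℤ} {e : Sym2 V} :
    e ∈ ES L R1 t y ↔ ∃ a b : ℤ, (t * L ≤ a ∧ a < (t + 1) * L) ∧ |b - y| ≤ R1 ∧
      e = s(((a, b) : V), (a + 1, b)) := by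
  unfold ES
  simp only [Finset.mem_image, Finset.mem_product, Finset.mem_Ico, Finset.mem_Icc, Prod.exists]
  constructor
  · rintro ⟨a, b, ⟨⟨h1, h2⟩, h3, h4⟩, rfl⟩
    exact ⟨a, b, ⟨h1, h2⟩, by rw [abs_le]; constructor <;> linarith, rfl⟩
  · rintro ⟨a, b, ⟨h1, h2⟩, h3, rfl⟩
    rw [abs_le] at h3
    exact ⟨a, b, ⟨⟨h1, h2⟩, by linarith [h3.1], by linarith [h3.2]⟩, rfl⟩

private theorem mem_SS {ω : Cfg} {L R1 : ℕ} {H : ℝ} {t : ℤ} {a b a' b' : V}
    {w0 : lattice.Walk a b} {wc : lattice.Walk a' b'} {e : Sym2 V} :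
    e ∈ SS ω L R1 H t w0 wc ↔ e ∈ ES L R1 t (ht (t * L) w0) ∧ e ∉ w0.edges ∧ e ∉ wc.edges ∧
      |ω e| < H := by
  unfold SS
  rw [Finset.mem_filter]

private theorem vert_not_mem {L R1 : ℕ} {t y : ℤ} (x h : ℤ) :
    s(((x, h) : V), (x, h + 1)) ∉ ES L R1 t y := by
  rw [mem_ES]
  rintro ⟨a, b, -, -, h3⟩
  rw [Sym2.eq_iff] at h3
  rcases h3 with ⟨h3, h4⟩ | ⟨h3, h4⟩ <;> rw [Prod.mk.injEq] at h3 h4 <;> omega

private theorem hor_eq {a b c d : ℤ} (h : s(((a, b) : V), (a + 1, b)) = s(((c, d) : V), (c + 1, d))) :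
    a = c ∧ b = d := by
  rw [Sym2.eq_iff] at h
  rcases h with ⟨h3, h4⟩ | ⟨h3, h4⟩ <;> rw [Prod.mk.injEq] at h3 h4 <;> omega

private theorem ln_nonneg (ω : Cfg) {x y : V} (w : lattice.Walk x y) : 0 ≤ ln ω w :=
  len_nonneg (fun _ => abs_nonneg _) w

private theorem ln_cons (ω : Cfg) {x y z : V} (h : lattice.Adj x y) (w : lattice.Walk y z) :
    ln ω (SimpleGraph.Walk.cons h w) = |ω s(x, y)| + ln ω w := by
  simp [ln, len]

private theorem ln_congr {ω ω' : Cfg} {x y : V} (w : lattice.Walk x y)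
    (h : ∀ e ∈ w.edges, ω' e = ω e) : ln ω' w = ln ω w := by
  unfold ln len
  congr 1
  refine List.map_congr_left fun e he => ?_
  rw [h e he]

private theorem exit_walk (ω : Cfg) (P : V → Prop) {u v : V} (w : lattice.Walk u v) (hv : ¬ P v) :
    ∃ v' : V, ¬ P v' ∧ ∃ w' : lattice.Walk u v', ln ω w' ≤ ln ω w ∧
      ∀ e ∈ w'.edges, ∃ a ∈ e, P a := by
  induction w with
  | nil => exact ⟨_, hv, SimpleGraph.Walk.nil, le_refl _, by simp⟩
  | @cons u u1 v h p ih =>
    by_cases hu : P u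
    · obtain ⟨v', hv', w', h1, h2⟩ := ih hv
      refine ⟨v', hv', SimpleGraph.Walk.cons h w', ?_, ?_⟩
      · rw [ln_cons, ln_cons]; linarith
      · intro e he
        rw [SimpleGraph.Walk.edges_cons, List.mem_cons] at he
        rcases he with rfl | he
        · exact ⟨u, by simp, hu⟩
        · exact h2 e he
    · refine ⟨u, hu, SimpleGraph.Walk.nil, ?_, by simp⟩
      have : ln ω (SimpleGraph.Walk.nil : lattice.Walk u u) = 0 := by simp [ln, len]
      rw [this]
      exact ln_nonneg _ _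

private theorem T_mono {ω ω' : Cfg} (h : ∀ e, |ω e| ≤ |ω' e|) (x y : V) : T ω x y ≤ T ω' x y := by
  refine le_ciInf fun w => (pt_le_len (fun _ => abs_nonneg _) w).trans ?_
  unfold len
  refine List.sum_le_sum ?_
  intro e _
  exact h e

theorem insert_wall {n K c : ℤ} {ω ω' : Cfg} (hg : HasGeo ω) {L R R1 : ℕ} {C0 κ Z1 H : ℝ} {t : ℤ}
    (h0 : 0 ≤ t * L) (h1 : (t + 1) * L ≤ n) (hL : 0 < L) (hZ : 0 < Z1) (q : ℕ)
    (hq : R1 + 2 ≤ q * L)
    (hpw : PW ω L R R1 C0 κ Z1 t (ga n K ω 0) (ga n K ω c))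
    (hS1 : ∀ e, e ∉ SS ω L R1 H t (ga n K ω 0) (ga n K ω c) → ω' e = ω e)
    (hS2 : ∀ e, e ∈ SS ω L R1 H t (ga n K ω 0) (ga n K ω c) → H ≤ |ω' e|) :
    ga n K ω' 0 = ga n K ω 0 ∧ ga n K ω' c = ga n K ω c ∧
      PW ω' L R R1 C0 κ Z1 t (ga n K ω 0) (ga n K ω c) ∧
      High ω' L R1 H t (ga n K ω 0) (ga n K ω c) ∧
      ∀ t' : ℤ, (t + q < t' ∨ t' + q < t) →
        PW ω' L R R1 C0 κ Z1 t' (ga n K ω 0) (ga n K ω c) →
        High ω' L R1 H t' (ga n K ω 0) (ga n K ω c) →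
        PW ω L R R1 C0 κ Z1 t' (ga n K ω 0) (ga n K ω c) ∧
        High ω L R1 H t' (ga n K ω 0) (ga n K ω c) := by
  set w0 := ga n K ω 0 with hw0
  set wc := ga n K ω c with hwc
  have hmono : ∀ e, |ω e| ≤ |ω' e| := by
    intro e
    by_cases he : e ∈ SS ω L R1 H t w0 wc
    · exact ((mem_SS.1 he).2.2.2.le).trans (hS2 e he)
    · rw [hS1 e he]
  have he0 : ∀ e ∈ w0.edges, ω' e = ω e := by
    intro e he
    exact hS1 e fun h => (mem_SS.1 h).2.1 he
  have hec : ∀ e ∈ wc.edges, ω' e = ω e := by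
    intro e he
    exact hS1 e fun h => (mem_SS.1 h).2.2.1 he
  have hvert : ∀ x h : ℤ, ω' s(((x, h) : V), (x, h + 1)) = ω s(((x, h) : V), (x, h + 1)) := by
    intro x h
    exact hS1 _ fun h' => vert_not_mem x h (mem_SS.1 h').1
  have hTm := T_mono hmono
  have hs0 : ga n K ω' 0 = w0 := by
    exact (sel_raise (exists_isGeo hg _ _) hmono (fun e he => by rw [he0 e he])).1
  have hsc : ga n K ω' c = wc := by
    exact (sel_raise (exists_isGeo hg _ _) hmono (fun e he => by rw [hec e he])).1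
  have hg0 : ln ω w0 = T ω ((0, 0 * K) : V) (n, 0 * K) := (sel_spec (exists_isGeo hg _ _)).1.2
  refine ⟨hs0, hsc, ?_, ?_, ?_⟩
  · refine ⟨hpw.gap, hpw.gap', ?_, ?_, ?_, ?_⟩
    · refine le_trans (le_of_eq ?_) hpw.vert
      refine Finset.sum_congr rfl fun i _ => ?_
      rw [hvert]
    · refine le_trans (le_of_eq ?_) hpw.vert'
      refine Finset.sum_congr rfl fun i _ => ?_
      rw [hvert]
    · have hcc : t * (L : ℤ) ≤ (t + 1) * L := by nlinarith
      obtain ⟨w1, w2, w3, hw, -⟩ := firstv w0 (c := t * L) (c' := (t + 1) * L) h0 hcc h1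
      have h2 := ht_dist hg0 (c := t * L) (c' := (t + 1) * L) h0 hcc h1
      have h3 : ln ω w0 = ln ω w1 + (ln ω w2 + ln ω w3) := by
        conv_lhs => rw [hw]
        unfold ln
        rw [len_append, len_append]
      have h4 : T ω ((0, 0 * K) : V) (t * L, ht (t * L) w0) ≤ ln ω w1 :=
        pt_le_len (fun _ => abs_nonneg _) w1
      have h5 : T ω ((t + 1) * L, ht ((t + 1) * L) w0) ((n, 0 * K) : V) ≤ ln ω w3 :=
        pt_le_len (fun _ => abs_nonneg _) w3
      have h6 : ln ω' w2 = ln ω w2 := by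
        refine ln_congr w2 fun e he => he0 e ?_
        rw [hw]
        simp only [SimpleGraph.Walk.edges_append, List.mem_append]
        exact Or.inr (Or.inl he)
      have h7 : T ω' (t * L, ht (t * L) w0) ((t + 1) * L, ht ((t + 1) * L) w0) ≤ ln ω' w2 :=
        pt_le_len (fun _ => abs_nonneg _) w2
      have h8 := hpw.hor
      linarith [h2.1]
    · intro i hi v hv
      exact (hpw.far i hi v hv).trans (hTm _ _)
  · intro s y hs1 hs2 hy hn0 hnc
    by_cases hlt : |ω s(((s, y) : V), (s + 1, y))| < H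
    · refine hS2 _ (mem_SS.2 ⟨mem_ES.2 ⟨s, y, ⟨hs1, hs2⟩, hy, rfl⟩, hn0, hnc, hlt⟩)
    · exact (not_lt.1 hlt).trans (hmono _)
  · intro t' ht' hp hh
    have hqL : (R1 : ℤ) + 2 ≤ q * L := by exact_mod_cast hq
    have hL0 : (0 : ℤ) < L := by exact_mod_cast hL
    refine ⟨⟨hp.gap, hp.gap', ?_, ?_, ?_, ?_⟩, ?_⟩
    · refine le_trans (le_of_eq ?_) hp.vert
      refine Finset.sum_congr rfl fun i _ => ?_
      rw [hvert]
    · refine le_trans (le_of_eq ?_) hp.vert'
      refine Finset.sum_congr rfl fun i _ => ?_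
      rw [hvert]
    · exact (hTm _ _).trans hp.hor
    · intro i hi v hv
      by_contra hlt
      rw [not_le] at hlt
      obtain ⟨w, hw⟩ := exists_near (fun e => |ω e|) (t' * L, ht (t' * L) w0 + i) v
        (sub_pos.2 hlt)
      have hw' : ln ω w < Z1 := by
        have : len (fun e => |ω e|) w < T ω (t' * L, ht (t' * L) w0 + i) v +
          (Z1 - T ω (t' * L, ht (t' * L) w0 + i) v) := hw
        unfold ln
        linarith
      obtain ⟨v', hv', w', h2, h3⟩ := exit_walk ω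
        (fun v => |v.1 - t' * L| ≤ R1 ∧ |v.2 - ht (t' * L) w0| ≤ R1) w hv
      have h4 : ln ω' w' = ln ω w' := by
        refine ln_congr w' fun e he => hS1 e fun heS => ?_
        obtain ⟨a, ha, ⟨ha1, -⟩⟩ := h3 e he
        obtain ⟨s, y, ⟨hs1, hs2⟩, -, rfl⟩ := mem_ES.1 (mem_SS.1 heS).1
        have ha' : t * (L : ℤ) ≤ a.1 ∧ a.1 ≤ (t + 1) * L := by
          rw [Sym2.mem_iff] at ha
          rcases ha with rfl | rfl
          · exact ⟨hs1, hs2.le⟩
          · exact ⟨by simp only; linarith, by simp only; linarith⟩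
        rw [abs_le] at ha1
        rcases ht' with h5 | h5
        · have h6 : (t + q + 1) * (L : ℤ) ≤ t' * L :=
            mul_le_mul_of_nonneg_right (by linarith) hL0.le
          nlinarith [ha1.1, ha1.2, ha'.1, ha'.2]
        · have h6 : (t' + q + 1) * (L : ℤ) ≤ t * L :=
            mul_le_mul_of_nonneg_right (by linarith) hL0.le
          nlinarith [ha1.1, ha1.2, ha'.1, ha'.2]
      have h7 := hp.far i hi v' hv'
      have h8 : T ω' (t' * L, ht (t' * L) w0 + i) v' ≤ ln ω' w' :=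
        pt_le_len (fun _ => abs_nonneg _) w'
      linarith
    · intro s y hs1 hs2 hy hn0 hnc
      refine (hh s y hs1 hs2 hy hn0 hnc).trans (le_of_eq ?_)
      rw [hS1 _ fun heS => ?_]
      obtain ⟨s', y', ⟨hs1', hs2'⟩, -, he⟩ := mem_ES.1 (mem_SS.1 heS).1
      obtain ⟨rfl, -⟩ := hor_eq he
      have h5 : t' < t + 1 := by
        by_contra hc
        have : (t + 1) * (L : ℤ) ≤ t' * L := mul_le_mul_of_nonneg_right (by linarith) hL0.le
        linarith
      have h6 : t < t' + 1 := by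
        by_contra hc
        have : (t' + 1) * (L : ℤ) ≤ t * L := mul_le_mul_of_nonneg_right (by linarith) hL0.le
        linarith
      have h7 : (0 : ℤ) ≤ q := by positivity
      rcases ht' with h8 | h8 <;> linarith

end Pool.Agent.Work.MP_9a767b_pr.U
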