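import Pool.Agent.Work.MP_9a767b_pr.U.Defs
import Pool.Agent.Work.MP_9a767b_pr.LineH
import Pool.Agent.Work.MP_9a767b_pr.LineV
import Pool.Agent.Work.MP_9a767b_pr.Box
import Pool.Agent.Work.MP_9a767b_pr.GapV

/-!
# Macro: macroscopic gaps of the norm (whole lines, arbitrary tolerance)

PROOF (of `macro_v`; `macro_h` is the same with `line_h`). Compare `GapV.lean`. Let `N = Nm (g ν)`,
`μ = N 1 0`. Choose `C' ≥ C` with `μ C' / 2 > μ · 2 C + 2 c + 1`, and `ε1 = min (ε/4) (c/8)` (and `≤ 1`).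
Apply `line_v` with `ε1` and `C'` twice, with `p = 0` and with `p = z`, and `lh_point` for the pair
`0, z`: outside an event of probability at most `3 ε1 ≤ 3 ε/4`,
`|T 0 (b,y) - N(b,y)| ≤ ε1 n`, `|T z (b,y) - N(b - z.1, y - z.2)| ≤ ε1 n` for all `|y| ≤ C' n`, and
`|T 0 z - N z| ≤ ε1 n`. Then, for such `y` with the gap of the norm,
`T 0 (b,y) + T (b,y) z ≥ N(b,y) + N(z - (b,y)) - 2 ε1 n ≥ N z + c n - 2 ε1 n ≥ T 0 z + (c - 3 ε1) n
> T 0 z + c n / 4` (use `neg1`, `neg2`). For `|y| > C' n`: by `box` (with `m = ⌊C' n⌋` and `ε/4`) outside an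
event of probability at most `ε/4`, `T 0 (b,y) > μ m / 2 ≥ T 0 z + c n/4`, because
`T 0 z ≤ N z + ε1 n ≤ 2 μ C n + ε1 n`. For large `n` everything is fine (`n ≥ 1`).
-/

open MeasureTheory ProbabilityTheory Filter Topology

namespace Pool.Agent.Work.MP_9a767b_pr.U

private theorem mv_meas (ν : Measure ℝ) (D δ : ℝ) (z : V) (b : ℤ) :
    MeasurableSet {ω : Cfg | ∃ y : ℤ,
        Nm (g ν) z.1 z.2 + D ≤ Nm (g ν) b y + Nm (g ν) (z.1 - b) (z.2 - y) ∧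
        T ω 0 (b, y) + T ω (b, y) z ≤ T ω 0 z + δ} := by
  rw [Set.ofPred_exists]
  refine MeasurableSet.iUnion fun y => ?_
  by_cases ht : Nm (g ν) z.1 z.2 + D ≤ Nm (g ν) b y + Nm (g ν) (z.1 - b) (z.2 - y)
  · simp only [ht, true_and]
    exact measurableSet_le ((measurable_T _ _).add (measurable_T _ _))
      ((measurable_T _ _).add_const _)
  · simp only [ht, false_and]
    exact MeasurableSet.empty

theorem macro_v {ν : Measure ℝ} [IsProbabilityMeasure ν]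
    (hI : Integrable (fun ω => T ω 0 (1, 0)) (Q ν)) (hμ : 0 < Nm (g ν) 1 0) {ε c C : ℝ}
    (hε : 0 < ε) (hc : 0 < c) (hC : 0 < C) :
    ∃ n0 : ℕ, ∀ n : ℕ, n0 ≤ n → ∀ (z : V) (b : ℤ), |(z.1 : ℝ)| ≤ C * n → |(z.2 : ℝ)| ≤ C * n →
      |(b : ℝ)| ≤ C * n →
      (Q ν).real {ω | ∃ y : ℤ,
        Nm (g ν) z.1 z.2 + c * n ≤ Nm (g ν) b y + Nm (g ν) (z.1 - b) (z.2 - y) ∧
        T ω 0 (b, y) + T ω (b, y) z ≤ T ω 0 z + c * n / 4} ≤ ε := by
  have hN := isNm (subSym_g hI)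
  set μ := Nm (g ν) 1 0 with hμd
  obtain ⟨C', hC'⟩ : ∃ C' : ℝ, C' = 4 * C + 1 + c / μ := ⟨_, rfl⟩
  have hcμ : 0 < c / μ := by positivity
  have hCC' : C ≤ C' := by linarith
  have hC'0 : 0 < C' := by linarith
  obtain ⟨e, he⟩ : ∃ e : ℝ, e = min (ε / 4) (c / 8) := ⟨_, rfl⟩
  have he0 : 0 < e := he ▸ lt_min (by positivity) (by positivity)
  have he1 : e ≤ ε / 4 := he ▸ min_le_left _ _
  have he2 : e ≤ c / 8 := he ▸ min_le_right _ _
  obtain ⟨n1, h1⟩ := line_v hI he0 hC'0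
  obtain ⟨n2, h2⟩ := lh_point hI (δ := e) (c := e) (ε := e) he0 hC'0 he0 le_rfl he0
  obtain ⟨n3, h3⟩ := box hI hμ (show 0 < ε / 4 by positivity)
  refine ⟨max (max n1 n2) (max n3 1), fun n hn z b hz1 hz2 hb => ?_⟩
  have hn1 : n1 ≤ n := (le_max_left _ _).trans ((le_max_left _ _).trans hn)
  have hn2 : n2 ≤ n := (le_max_right _ _).trans ((le_max_left _ _).trans hn)
  have hn3 : n3 ≤ n := (le_max_left _ _).trans ((le_max_right _ _).trans hn)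
  have hn4 : (1 : ℝ) ≤ n := by exact_mod_cast (le_max_right _ _).trans ((le_max_right _ _).trans hn)
  have hCn : C * n ≤ C' * n := mul_le_mul_of_nonneg_right hCC' (by linarith)
  have z0 : |(((0 : V).1 : ℤ) : ℝ)| ≤ C' * (n : ℝ) := by simp; positivity
  have z0' : |(((0 : V).2 : ℤ) : ℝ)| ≤ C' * (n : ℝ) := by simp; positivity
  have a1 := h1 n hn1 0 b z0 z0' (hb.trans hCn)
  have a2 := h1 n hn1 z b (hz1.trans hCn) (hz2.trans hCn) (hb.trans hCn)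
  have a3 := h2 n hn2 0 z (by simpa using hz1.trans hCn) (by simpa using hz2.trans hCn)
  obtain ⟨m, hm⟩ : ∃ m : ℕ, m = ⌊C' * (n : ℝ)⌋₊ := ⟨_, rfl⟩
  have hm1 : (m : ℝ) ≤ C' * n := hm ▸ Nat.floor_le (by positivity)
  have hm2 : C' * n < m + 1 := hm ▸ Nat.lt_floor_add_one _
  have hm3 : n ≤ m := by
    rw [hm]
    apply Nat.le_floor
    have : 1 ≤ C' := by linarith
    nlinarith
  have a4 := h3 m (hn3.trans hm3)
  set A1 := {ω : Cfg | ∃ t : ℤ, |(t : ℝ)| ≤ C' * n ∧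
        e * n < |T ω 0 (b, t) - Nm (g ν) (b - (0 : V).1) (t - (0 : V).2)|}
  set A2 := {ω : Cfg | ∃ t : ℤ, |(t : ℝ)| ≤ C' * n ∧
        e * n < |T ω z (b, t) - Nm (g ν) (b - z.1) (t - z.2)|}
  set A3 := {ω : Cfg | e * n ≤ |T ω 0 z - Nm (g ν) (z.1 - (0 : V).1) (z.2 - (0 : V).2)|}
  set A4 := {ω : Cfg | ∃ w : V, ((m : ℤ) ≤ |w.1| ∨ (m : ℤ) ≤ |w.2|) ∧ T ω 0 w ≤ μ * m / 2}
  have hincl : {ω : Cfg | ∃ y : ℤ,
        Nm (g ν) z.1 z.2 + c * n ≤ Nm (g ν) b y + Nm (g ν) (z.1 - b) (z.2 - y) ∧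
        T ω 0 (b, y) + T ω (b, y) z ≤ T ω 0 z + c * n / 4} ⊆ (A1 ∪ A2) ∪ (A3 ∪ A4) := by
    rintro ω ⟨y, hgap, hω⟩
    by_contra hcon
    simp only [Set.mem_union, not_or, A1, A2, A3, A4, Set.mem_ofPred_eq, not_exists, not_and,
      not_lt, not_le] at hcon
    obtain ⟨⟨c1, c2⟩, c3, c4⟩ := hcon
    have d3 := (abs_lt.1 c3).2
    simp only [Prod.fst_zero, Prod.snd_zero, Int.cast_zero, sub_zero] at d3
    have hcn : 0 < c * n := by positivity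
    have hen : e * n ≤ c * n / 8 := by
      have := mul_le_mul_of_nonneg_right he2 (show (0 : ℝ) ≤ n by linarith)
      linarith
    rcases le_or_gt |(y : ℝ)| (C' * n) with hy | hy
    · have d1 := (abs_le.1 (c1 y hy)).1
      have d2 := (abs_le.1 (c2 y hy)).1
      simp only [Prod.fst_zero, Prod.snd_zero, Int.cast_zero, sub_zero] at d1
      have e2 : Nm (g ν) (b - z.1) (y - z.2) = Nm (g ν) (z.1 - b) (z.2 - y) := by
        rw [← hN.neg1, ← hN.neg2]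
        congr 1 <;> ring
      rw [e2] at d2
      rw [T_comm ω (b, y) z] at hω
      linarith
    · have d1 := c4 (b, y) (Or.inr (by
        have : (m : ℝ) ≤ |(y : ℝ)| := hm1.trans hy.le
        exact_mod_cast this))
      have d2 := T_nonneg ω (b, y) z
      have d4 := hN.le z.1 z.2
      have d5 : μ * (|(z.1 : ℝ)| + |(z.2 : ℝ)|) ≤ μ * (C * n + C * n) :=
        mul_le_mul_of_nonneg_left (add_le_add hz1 hz2) hμ.le
      have d6 : μ * C' = 4 * μ * C + μ + c := by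
        rw [hC']; field_simp
      have d7 : μ * (C' * n) < μ * (m + 1) := mul_lt_mul_of_pos_left hm2 hμ
      have d8 : μ * (C' * n) = (4 * μ * C + μ + c) * n := by rw [← d6]; ring
      have d9 : μ * 1 ≤ μ * n := mul_le_mul_of_nonneg_left hn4 hμ.le
      nlinarith
  calc (Q ν).real _ ≤ (Q ν).real ((A1 ∪ A2) ∪ (A3 ∪ A4)) :=
        measureReal_mono hincl (measure_ne_top _ _)
    _ ≤ ((Q ν).real A1 + (Q ν).real A2) + ((Q ν).real A3 + (Q ν).real A4) :=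
      (measureReal_union_le _ _).trans
        (add_le_add (measureReal_union_le _ _) (measureReal_union_le _ _))
    _ ≤ ε := by linarith

theorem macro_h {ν : Measure ℝ} [IsProbabilityMeasure ν]
    (hI : Integrable (fun ω => T ω 0 (1, 0)) (Q ν)) (hμ : 0 < Nm (g ν) 1 0) {ε c C : ℝ}
    (hε : 0 < ε) (hc : 0 < c) (hC : 0 < C) :
    ∃ n0 : ℕ, ∀ n : ℕ, n0 ≤ n → ∀ (z : V) (b : ℤ), |(z.1 : ℝ)| ≤ C * n → |(z.2 : ℝ)| ≤ C * n →
      |(b : ℝ)| ≤ C * n →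
      (Q ν).real {ω | ∃ x : ℤ,
        Nm (g ν) z.1 z.2 + c * n ≤ Nm (g ν) x b + Nm (g ν) (z.1 - x) (z.2 - b) ∧
        T ω 0 (x, b) + T ω (x, b) z ≤ T ω 0 z + c * n / 4} ≤ ε := by
  obtain ⟨n0, h0⟩ := macro_v hI hμ hε hc hC
  refine ⟨n0, fun n hn z b hz1 hz2 hb => ?_⟩
  have h1 := h0 n hn (z.2, z.1) b hz2 hz1 hb
  rw [← real_act ν swp _ (mv_meas ν (c * n) (c * n / 4) (z.2, z.1) b)] at h1
  have e : {ω : Cfg | ∃ x : ℤ,
        Nm (g ν) z.1 z.2 + c * n ≤ Nm (g ν) x b + Nm (g ν) (z.1 - x) (z.2 - b) ∧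
        T ω 0 (x, b) + T ω (x, b) z ≤ T ω 0 z + c * n / 4} =
      {ω : Cfg | act swp ω ∈ {ω : Cfg | ∃ y : ℤ,
        Nm (g ν) (z.2, z.1).1 (z.2, z.1).2 + c * n ≤
          Nm (g ν) b y + Nm (g ν) ((z.2, z.1).1 - b) ((z.2, z.1).2 - y) ∧
        T ω 0 (b, y) + T ω (b, y) (z.2, z.1) ≤ T ω 0 (z.2, z.1) + c * n / 4}} := by
    ext ω
    simp only [Set.mem_ofPred_eq]
    refine exists_congr fun t => ?_
    rw [T_swp, T_swp, T_swp, nm_swap (subSym_g hI) z.2 z.1, nm_swap (subSym_g hI) b t,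
      nm_swap (subSym_g hI) (z.2 - b) (z.1 - t)]
    rfl
  rw [e]
  exact h1

end Pool.Agent.Work.MP_9a767b_pr.U
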