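import Pool.Agent.Work.MP_9a767b_pr.U.Defs

/-!
# Mtp: mass transport

PROOF. Every integer `y` is `r + s K` with unique `0 ≤ r < K` and `s : ℤ`, and
`q 0 (r + s K) = q (-s) r` by `hcov`. So
`∑' y, q 0 y = ∑ r < K, ∑' s, q (-s) r = ∑ r < K, ∑' j, q j r ≤ ∑ r < K, B r`.
(Use `ENNReal.tsum` with an equivalence `ℤ ≃ ℤ × Fin K`, for instance `Int.divModEquiv`, then
`ENNReal.tsum_prod`, `tsum_fintype`, `Equiv.tsum_eq` for `s ↦ -s`.)
-/

open MeasureTheory ProbabilityTheory Filter Topology ENNReal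

namespace Pool.Agent.Work.MP_9a767b_pr.U

theorem mtp (K : ℕ) (hK : 0 < K) (q : ℤ → ℤ → ℝ≥0∞) (hcov : ∀ j y, q j y = q 0 (y - j * K))
    (B : ℕ → ℝ≥0∞) (hB : ∀ r < K, ∑' j : ℤ, q j r ≤ B r) :
    ∑' y : ℤ, q 0 y ≤ ∑ r ∈ Finset.range K, B r := by
  have : NeZero K := ⟨hK.ne'⟩
  rw [← (Int.divModEquiv K).symm.tsum_eq (fun y => q 0 y)]
  have h1 : ∑' p : ℤ × Fin K, q 0 ((Int.divModEquiv K).symm p)
      = ∑' (r : Fin K), ∑' (s : ℤ), q 0 ((Int.divModEquiv K).symm (s, r)) := by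
    rw [ENNReal.tsum_comm, ← ENNReal.tsum_prod]
  rw [h1, tsum_fintype, Finset.sum_range]
  refine Finset.sum_le_sum fun r _ => ?_
  refine le_trans (le_of_eq ?_) (hB r r.2)
  rw [← (Equiv.neg ℤ).tsum_eq (fun j => q j (r : ℕ))]
  refine tsum_congr fun s => ?_
  rw [hcov (Equiv.neg ℤ s)]
  congr 1
  simp [Int.divModEquiv]
  ring

end Pool.Agent.Work.MP_9a767b_pr.U
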