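import Pool.Agent.Work.MP_9a767b_pr.U.Corridor
import Pool.Agent.Work.MP_9a767b_pr.U.GoodP
import Pool.Agent.Work.MP_9a767b_pr.U.HasGeoAe
import Pool.Agent.Work.MP_9a767b_pr.U.ExistsH

/-!
# MxSmall: the four point expression is rarely positive

PROOF. `μ = Nm (g ν) 1 0 > 0`. Let `K0` be from `good_prob` with `δ = ε/4`. Let `K ≥ K0`, `K' = 2K`. `good_prob`
for `K'` gives `m`, and `exists_H` gives `H`; `corridor` for `K'`, `m`, `δ = ε/4`. By translation by `(0,-K)`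
(`T_trans`, `real_act`, measurability of `Mx`) the probability in the statement is the probability of
`0 < Mx ω (0, 0 * K') (0, 1 * K') (n, 0 * K') (n, 1 * K')`. This event is contained in the union of
`InI n m K' ω 0`, `¬ HasGeo ω` (probability zero, `hasGeo_ae`) and
`HasGeo ω ∧ ¬ GoodW (ga n K' ω j)` for `j = 0, 1`.
-/

open MeasureTheory ProbabilityTheory Filter Topology

namespace Pool.Agent.Work.MP_9a767b_pr.U

theorem mx_small {ν : Measure ℝ} [IsProbabilityMeasure ν]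
    (hI : Integrable (fun ω => T ω 0 (1, 0)) (Q ν))
    (hd : Nm (g ν) 1 1 < 2 * Nm (g ν) 1 0) {ε : ℝ} (hε : 0 < ε) :
    ∃ K0 : ℕ, 0 < K0 ∧ ∀ K : ℕ, K0 ≤ K → ∃ n0 : ℕ, ∀ n : ℕ, n0 ≤ n →
      (Q ν).real {ω | 0 < Mx ω (0, -(K : ℤ)) (0, K) (n, -(K : ℤ)) (n, K)} ≤ ε := by
  have hN := isNm (subSym_g hI)
  have hμ : 0 < Nm (g ν) 1 0 := by
    have h1 := hN.ge1 1 1
    rw [abs_one, mul_one] at h1
    linarith
  have hε4 : 0 < ε / 4 := by linarith
  obtain ⟨K0, hK0, hgp⟩ := good_prob hI hd hε4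
  obtain ⟨H, hH, hp⟩ := exists_H hI hd
  refine ⟨K0, hK0, fun K hK => ?_⟩
  obtain ⟨m, hm, n1, h1⟩ := hgp (2 * K) (by omega)
  obtain ⟨n2, h2⟩ := corridor hI hμ hH hp (K := 2 * K) (by omega) hm hε4
  refine ⟨max n1 n2, fun n hn => ?_⟩
  have g0 := h1 n ((le_max_left _ _).trans hn) 0
  have g1 := h1 n ((le_max_left _ _).trans hn) 1
  have g2 := h2 n ((le_max_right _ _).trans hn)
  have g3 : (Q ν).real {ω | ¬ HasGeo ω} = 0 := by
    rw [measureReal_eq_zero_iff (measure_ne_top _ _)]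
    exact ae_iff.1 (hasGeo_ae hI hμ)
  obtain ⟨E0, hE0⟩ : ∃ E : Set Cfg, E = {ω | 0 < Mx ω (0, 0) (0, ((2 * K : ℕ) : ℤ)) (n, 0)
      (n, ((2 * K : ℕ) : ℤ))} := ⟨_, rfl⟩
  have hE0m : MeasurableSet E0 := by
    rw [hE0]
    unfold Mx
    exact measurableSet_lt measurable_const ((((measurable_T _ _).add (measurable_T _ _)).sub
      (measurable_T _ _)).sub (measurable_T _ _))
  have hev : {ω : Cfg | 0 < Mx ω (0, -(K : ℤ)) (0, K) (n, -(K : ℤ)) (n, K)} =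
      {ω | act (trans (0, -(K : ℤ))) ω ∈ E0} := by
    ext ω
    rw [hE0]
    simp only [Set.mem_ofPred_eq, Mx, T_trans]
    have e1 : ((0, -(K : ℤ)) : V) + (0, 0) = (0, -(K : ℤ)) := by simp
    have e2 : ((0, -(K : ℤ)) : V) + (0, ((2 * K : ℕ) : ℤ)) = (0, (K : ℤ)) := by
      ext
      · simp
      · show -(K : ℤ) + ((2 * K : ℕ) : ℤ) = K
        push_cast
        ring
    have e3 : ((0, -(K : ℤ)) : V) + ((n : ℤ), 0) = ((n : ℤ), -(K : ℤ)) := by simp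
    have e4 : ((0, -(K : ℤ)) : V) + ((n : ℤ), ((2 * K : ℕ) : ℤ)) = ((n : ℤ), (K : ℤ)) := by
      ext
      · simp
      · show -(K : ℤ) + ((2 * K : ℕ) : ℤ) = K
        push_cast
        ring
    rw [e1, e2, e3, e4]
  rw [hev, real_act ν _ _ hE0m]
  have hsub : E0 ⊆ ({ω | InI n m ((2 * K : ℕ) : ℤ) ω 0} ∪ {ω | ¬ HasGeo ω}) ∪
      ({ω | HasGeo ω ∧ ¬ GoodW n m ((2 * K : ℕ) : ℤ) (ga n ((2 * K : ℕ) : ℤ) ω 0)} ∪
       {ω | HasGeo ω ∧ ¬ GoodW n m ((2 * K : ℕ) : ℤ) (ga n ((2 * K : ℕ) : ℤ) ω 1)}) := by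
    intro ω hω
    rw [hE0] at hω
    by_cases c1 : HasGeo ω
    · by_cases c2 : GoodW n m ((2 * K : ℕ) : ℤ) (ga n ((2 * K : ℕ) : ℤ) ω 0)
      · by_cases c3 : GoodW n m ((2 * K : ℕ) : ℤ) (ga n ((2 * K : ℕ) : ℤ) ω 1)
        · left; left
          refine ⟨c1, c2, c3, ?_⟩
          rw [zero_mul, zero_add, one_mul]
          exact hω
        · right; right
          exact ⟨c1, c3⟩
      · right; left
        exact ⟨c1, c2⟩
    · left; right
      exact c1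
  calc (Q ν).real E0 ≤ _ := measureReal_mono hsub (measure_ne_top _ _)
    _ ≤ _ := measureReal_union_le _ _
    _ ≤ _ := add_le_add (measureReal_union_le _ _) (measureReal_union_le _ _)
    _ ≤ ε := by linarith

end Pool.Agent.Work.MP_9a767b_pr.U
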