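import Pool.Agent.Work.MP_9a767b_pr.U.Defs
import Pool.Agent.Work.MP_9a767b_pr.Metric

/-!
# NearA: the number of nearly straight paths

PROOF. `card_words`: `∑_{f : Fin N → Fin 4} ∏_i (if f i = 0 then 1 else x) = (1 + 3x)^N`
(`Finset.prod_univ_sum` / `Fintype.sum_pow`), the summand of `f` is `x^(a f)` with
`a f = card {i | f i ≠ 0}`, and `x^(a f) ≥ x^(δ N)` if `a f ≤ δ N` (`0 < x ≤ 1`). So the number of `f`
with `a f ≤ δ N` is at most `x^(-δN) (1+3x)^N`. With `x = δ`: `≤ exp (N (δ log (1/δ) + 3 δ))`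
(`1 + 3δ ≤ exp (3δ)`).
`path_union`: code a walk of length `N` that starts at `0` by its steps `f : Fin N → Fin 4`
(`0` = step `(1,0)`, `1` = `(-1,0)`, `2` = `(0,1)`, `3` = `(0,-1)`); the walk (its support, its list of
edges) is determined by `f` (for instance the `i`-th vertex is the sum of the first `i` steps, and
the list of edges is given by the consecutive vertices). If the walk ends at `(n,0)` and
`N ≤ n (1 + δ)`, let `R, L, U, D` be the numbers of the steps of the four kinds: `R - L = n`,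
`R + L + U + D = N`, so `n ≤ N` and `L + U + D ≤ N - n ≤ δ n ≤ δ N`. A path has no repeated edge
(`SimpleGraph.Walk.IsPath.isTrail`, `edges_nodup`), and the length of `w.edges` is `N`. So the event is
contained in the union over `N ∈ [n, n(1+δ)]` and over the `f` with `a f ≤ δ N` (for which the list
`l f` of edges is nodup) of `E (l f)`; its probability is at most
`∑_N exp (N (δ log (1/δ) + 3δ)) p^N`.
-/

open MeasureTheory ProbabilityTheory Filter Topology

namespace Pool.Agent.Work.MP_9a767b_pr.U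

theorem card_words (N : ℕ) {δ : ℝ} (h0 : 0 < δ) (h1 : δ ≤ 1) :
    (Nat.card {f : Fin N → Fin 4 // ((Finset.univ.filter fun i => f i ≠ 0).card : ℝ) ≤ δ * N} : ℝ)
      ≤ Real.exp (N * (δ * Real.log (1 / δ) + 3 * δ)) := by
  classical
  have hsum : ∑ f : Fin N → Fin 4, δ ^ (Finset.univ.filter fun i => f i ≠ 0).card =
      (1 + 3 * δ) ^ N := by
    have h2 := Fintype.sum_pow (fun a : Fin 4 => if a = 0 then (1 : ℝ) else δ) N
    have h3 : ∑ a : Fin 4, (if a = 0 then (1 : ℝ) else δ) = 1 + 3 * δ := by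
      rw [Fin.sum_univ_four]
      simp
      ring
    rw [h3] at h2
    rw [h2]
    refine Finset.sum_congr rfl fun f _ => ?_
    rw [Finset.prod_ite]
    simp
  set F := Finset.univ.filter fun f : Fin N → Fin 4 =>
    ((Finset.univ.filter fun i => f i ≠ 0).card : ℝ) ≤ δ * N with hF
  have hcard : Nat.card {f : Fin N → Fin 4 //
      ((Finset.univ.filter fun i => f i ≠ 0).card : ℝ) ≤ δ * N} = F.card := by
    rw [Nat.card_eq_fintype_card, Fintype.card_subtype]
  rw [hcard]
  have hlow : (F.card : ℝ) * Real.exp (Real.log δ * (δ * N)) ≤ (1 + 3 * δ) ^ N := by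
    rw [← hsum]
    refine le_trans ?_ (Finset.sum_le_sum_of_subset_of_nonneg (Finset.subset_univ F)
      fun f _ _ => by positivity)
    rw [← nsmul_eq_mul]
    refine Finset.card_nsmul_le_sum _ _ _ fun f hf => ?_
    have hf' := (Finset.mem_filter.1 hf).2
    have : δ ^ (Finset.univ.filter fun i => f i ≠ 0).card =
        Real.exp (Real.log δ * (Finset.univ.filter fun i => f i ≠ 0).card) := by
      rw [mul_comm, Real.exp_nat_mul, Real.exp_log h0]
    rw [this]
    refine Real.exp_le_exp.2 ?_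
    exact mul_le_mul_of_nonpos_left hf' (Real.log_nonpos h0.le h1)
  have hup : (1 + 3 * δ) ^ N ≤ Real.exp (N * (3 * δ)) := by
    rw [Real.exp_nat_mul]
    refine pow_le_pow_left₀ (by positivity) ?_ N
    have := Real.add_one_le_exp (3 * δ)
    linarith
  have hpos := Real.exp_pos (Real.log δ * (δ * N))
  have h4 : (F.card : ℝ) ≤ Real.exp (N * (3 * δ)) / Real.exp (Real.log δ * (δ * N)) := by
    rw [le_div_iff₀ hpos]
    exact hlow.trans hup
  refine h4.trans (le_of_eq ?_)
  rw [← Real.exp_sub]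
  congr 1
  rw [one_div, Real.log_inv]
  ring

/-- The kind of a step. -/
private def stepCode (v : V) : Fin 4 :=
  if v = (1, 0) then 0 else if v = (-1, 0) then 1 else if v = (0, 1) then 2 else 3

/-- The step of a kind. -/
private def stepVec : Fin 4 → V := ![(1, 0), (-1, 0), (0, 1), (0, -1)]

private theorem stepVec_stepCode {x y : V} (h : lattice.Adj x y) :
    stepVec (stepCode (y - x)) = y - x := by
  rw [adj_iff] at h
  have hc : y - x = (1, 0) ∨ y - x = (-1, 0) ∨ y - x = (0, 1) ∨ y - x = (0, -1) := by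
    obtain ⟨a, b⟩ := x
    obtain ⟨c, d⟩ := y
    simp only [Prod.mk_sub_mk, Prod.mk.injEq] at *
    rcases abs_cases (a - c) with h1 | h1 <;> rcases abs_cases (b - d) with h2 | h2 <;> omega
  rcases hc with hc | hc | hc | hc <;> rw [hc] <;> decide

private theorem step_le {x y : V} (h : lattice.Adj x y) :
    y.1 - x.1 ≤ if stepCode (y - x) = 0 then 1 else 0 := by
  rw [adj_iff] at h
  have hc : y - x = (1, 0) ∨ y - x = (-1, 0) ∨ y - x = (0, 1) ∨ y - x = (0, -1) := by
    obtain ⟨a, b⟩ := x
    obtain ⟨c, d⟩ := y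
    simp only [Prod.mk_sub_mk, Prod.mk.injEq] at *
    rcases abs_cases (a - c) with h1 | h1 <;> rcases abs_cases (b - d) with h2 | h2 <;> omega
  have h1 : y.1 - x.1 = (y - x).1 := rfl
  rw [h1]
  rcases hc with hc | hc | hc | hc <;> rw [hc] <;> decide

/-- The word of a walk. -/
private def word {x y : V} (w : lattice.Walk x y) (N : ℕ) : Fin N → Fin 4 :=
  fun i => stepCode (w.getVert (i + 1) - w.getVert i)

private theorem word_inj {x y : V} {w w' : lattice.Walk x y} {N : ℕ} (hw : w.length = N)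
    (hw' : w'.length = N) (h : word w N = word w' N) : w = w' := by
  have key : ∀ k, k ≤ N → w.getVert k = w'.getVert k := by
    intro k
    induction k with
    | zero => intro _; simp
    | succ k ih =>
      intro hk
      have h1 := ih (by omega)
      have h2 := congrFun h ⟨k, by omega⟩
      have h3 := w.adj_getVert_succ (i := k) (by omega)
      have h4 := w'.adj_getVert_succ (i := k) (by omega)
      have h5 := stepVec_stepCode h3
      have h6 := stepVec_stepCode h4
      simp only [word] at h2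
      rw [h2, h6, h1] at h5
      exact (sub_left_inj.1 h5).symm
  refine SimpleGraph.Walk.ext_getVert_le_length (hw.trans hw'.symm) fun k hk => ?_
  exact key k (by omega)

private theorem word_count {x y : V} (w : lattice.Walk x y) {N : ℕ} (hw : w.length = N) :
    y.1 - x.1 + ((Finset.univ.filter fun i => word w N i ≠ 0).card : ℤ) ≤ N := by
  have h1 : y.1 - x.1 = ∑ i ∈ Finset.range N, ((w.getVert (i + 1)).1 - (w.getVert i).1) := by
    rw [Finset.sum_range_sub (fun i => (w.getVert i).1), ← hw]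
    simp
  have h2 : ∑ i ∈ Finset.range N, ((w.getVert (i + 1)).1 - (w.getVert i).1) =
      ∑ i : Fin N, ((w.getVert ((i : ℕ) + 1)).1 - (w.getVert i).1) := by
    rw [Finset.sum_range]
  have h3 : ∑ i : Fin N, ((w.getVert ((i : ℕ) + 1)).1 - (w.getVert i).1) ≤
      ∑ i : Fin N, (if word w N i = 0 then (1 : ℤ) else 0) := by
    refine Finset.sum_le_sum fun i _ => ?_
    exact step_le (w.adj_getVert_succ (by rw [hw]; exact i.2))
  have h4 : ∑ i : Fin N, (if word w N i = 0 then (1 : ℤ) else 0) =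
      ((Finset.univ.filter fun i => word w N i = 0).card : ℤ) := by
    rw [Finset.sum_boole]
  have h5 := Finset.card_filter_add_card_filter_not (s := (Finset.univ : Finset (Fin N)))
    (fun i => word w N i = 0)
  rw [Finset.card_univ, Fintype.card_fin] at h5
  have h6 : ((Finset.univ.filter fun i => word w N i = 0).card : ℤ) +
      ((Finset.univ.filter fun i => word w N i ≠ 0).card : ℤ) = N := by
    exact_mod_cast h5
  linarith

theorem path_union {ν : Measure ℝ} [IsProbabilityMeasure ν] (n : ℕ) {δ p : ℝ} (h0 : 0 < δ)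
    (h1 : δ ≤ 1) (hp : 0 ≤ p) (E : List (Sym2 V) → Set Cfg)
    (hE : ∀ l : List (Sym2 V), l.Nodup → (Q ν).real (E l) ≤ p ^ l.length) :
    (Q ν).real {ω | ∃ w : lattice.Walk (0 : V) (n, 0), w.IsPath ∧ (w.length : ℝ) ≤ n * (1 + δ) ∧
      ω ∈ E w.edges} ≤
      ∑ N ∈ Finset.Icc n ⌊n * (1 + δ)⌋₊, (Real.exp (δ * Real.log (1 / δ) + 3 * δ) * p) ^ N := by
  classical
  have : IsProbabilityMeasure (Q ν) := by unfold Q; infer_instance
  let S : ℕ → Type := fun N => {w : lattice.Walk (0 : V) (n, 0) // w.IsPath ∧ w.length = N ∧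
    (w.length : ℝ) ≤ n * (1 + δ)}
  have hcnt : ∀ N : ℕ, ∀ w : S N, n ≤ N ∧
      ((Finset.univ.filter fun i => word w.1 N i ≠ 0).card : ℝ) ≤ δ * N := by
    intro N w
    have h2 := word_count w.1 w.2.2.1
    have h3 : (n : ℤ) + ((Finset.univ.filter fun i => word w.1 N i ≠ 0).card : ℤ) ≤ N := by
      simpa using h2
    have h4 : n + (Finset.univ.filter fun i => word w.1 N i ≠ 0).card ≤ N := by
      exact_mod_cast h3
    have h5 : n ≤ N := by omega
    refine ⟨h5, ?_⟩
    have h6 : (n : ℝ) + ((Finset.univ.filter fun i => word w.1 N i ≠ 0).card : ℝ) ≤ N := by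
      exact_mod_cast h4
    have h7 : (N : ℝ) ≤ n * (1 + δ) := by
      have := w.2.2.2
      rw [w.2.2.1] at this
      exact this
    have h8 : (n : ℝ) ≤ N := by exact_mod_cast h5
    nlinarith
  let φ : ∀ N : ℕ, S N → {f : Fin N → Fin 4 //
      ((Finset.univ.filter fun i => f i ≠ 0).card : ℝ) ≤ δ * N} :=
    fun N w => ⟨word w.1 N, (hcnt N w).2⟩
  have hφ : ∀ N, Function.Injective (φ N) := by
    intro N w w' h
    have h2 : word w.1 N = word w'.1 N := congrArg Subtype.val h
    exact Subtype.ext (word_inj w.2.2.1 w'.2.2.1 h2)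
  have hfin : ∀ N, Finite (S N) := fun N => Finite.of_injective (φ N) (hφ N)
  have hsub : {ω | ∃ w : lattice.Walk (0 : V) (n, 0), w.IsPath ∧
      (w.length : ℝ) ≤ n * (1 + δ) ∧ ω ∈ E w.edges} ⊆
      ⋃ N ∈ Finset.Icc n ⌊n * (1 + δ)⌋₊, ⋃ w : S N, E w.1.edges := by
    rintro ω ⟨w, hw1, hw2, hw3⟩
    have h2 := (hcnt w.length ⟨w, hw1, rfl, hw2⟩).1
    simp only [Set.mem_iUnion]
    refine ⟨w.length, Finset.mem_Icc.2 ⟨h2, Nat.le_floor hw2⟩, ⟨w, hw1, rfl, hw2⟩, hw3⟩
  refine (measureReal_mono hsub (measure_ne_top _ _)).trans ?_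
  refine (measureReal_biUnion_finset_le _ _).trans ?_
  refine Finset.sum_le_sum fun N _ => ?_
  have := hfin N
  have := Fintype.ofFinite (S N)
  refine (measureReal_iUnion_fintype_le _).trans ?_
  have h2 : ∑ w : S N, (Q ν).real (E w.1.edges) ≤ ∑ w : S N, p ^ N := by
    refine Finset.sum_le_sum fun w _ => ?_
    refine (hE _ w.2.1.isTrail.edges_nodup).trans (le_of_eq ?_)
    rw [SimpleGraph.Walk.length_edges, w.2.2.1]
  refine h2.trans ?_
  rw [Finset.sum_const, nsmul_eq_mul, Finset.card_univ, mul_pow]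
  have h3 : (Fintype.card (S N) : ℝ) ≤ Real.exp (δ * Real.log (1 / δ) + 3 * δ) ^ N := by
    have h4 : Nat.card (S N) ≤ Nat.card {f : Fin N → Fin 4 //
      ((Finset.univ.filter fun i => f i ≠ 0).card : ℝ) ≤ δ * N} :=
      Nat.card_le_card_of_injective (φ N) (hφ N)
    rw [Nat.card_eq_fintype_card] at h4
    refine (Nat.cast_le.2 h4).trans ((card_words N h0 h1).trans (le_of_eq ?_))
    rw [Real.exp_nat_mul]
  exact mul_le_mul_of_nonneg_right h3 (by positivity)

end Pool.Agent.Work.MP_9a767b_pr.U
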