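import Pool.Agent.Work.MP_9a767b_pr.U.Defs
import Pool.Agent.Work.MP_9a767b_pr.Metric

/-!
# Straight: straight walks and the passage time of a vertical segment

PROOF. Induction on the length (compare `walk_h`, `walk_v` in `Metric.lean`, which are private:
copy them and keep track of the support). For `vert_le`: induction on `i` with `T_triangle` and
`pt_le_len` for the walk with one edge.
-/

open MeasureTheory ProbabilityTheory Filter Topology

namespace Pool.Agent.Work.MP_9a767b_pr.U

private theorem adj_h (a b : ℤ) : lattice.Adj ((a, b) : V) (a + 1, b) := by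
  rw [adj_iff]
  have : a - (a + 1) = -1 := by ring
  simp [this]

private theorem adj_v (a b : ℤ) : lattice.Adj ((a, b) : V) (a, b + 1) := by
  rw [adj_iff]
  have : b - (b + 1) = -1 := by ring
  simp [this]

private theorem hw0 (a b : ℤ) (k : ℕ) : ∃ w : lattice.Walk ((a, b) : V) (a + k, b),
    ∀ v ∈ w.support, v.2 = b ∧ a ≤ v.1 ∧ v.1 ≤ a + k := by
  induction k with
  | zero =>
    refine ⟨SimpleGraph.Walk.nil.copy rfl (by simp), fun v hv => ?_⟩
    rw [SimpleGraph.Walk.support_copy, SimpleGraph.Walk.support_nil, List.mem_singleton] at hv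
    subst hv
    simp
  | succ k ih =>
    obtain ⟨w, hw⟩ := ih
    have e : ((a + k + 1, b) : V) = (a + ((k + 1 : ℕ) : ℤ), b) := by
      push_cast
      rw [add_assoc]
    refine ⟨(w.concat (adj_h (a + k) b)).copy rfl e, fun v hv => ?_⟩
    rw [SimpleGraph.Walk.support_copy, SimpleGraph.Walk.support_concat, List.mem_append,
      List.mem_singleton] at hv
    push_cast
    rcases hv with hv | hv
    · obtain ⟨h1, h2, h3⟩ := hw v hv
      exact ⟨h1, h2, by omega⟩
    · subst hv
      refine ⟨rfl, ?_, ?_⟩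
      · change a ≤ a + k + 1
        omega
      · change a + k + 1 ≤ a + (k + 1)
        omega

private theorem vw0 (a b : ℤ) (k : ℕ) : ∃ w : lattice.Walk ((a, b) : V) (a, b + k),
    ∀ v ∈ w.support, v.1 = a ∧ b ≤ v.2 ∧ v.2 ≤ b + k := by
  induction k with
  | zero =>
    refine ⟨SimpleGraph.Walk.nil.copy rfl (by simp), fun v hv => ?_⟩
    rw [SimpleGraph.Walk.support_copy, SimpleGraph.Walk.support_nil, List.mem_singleton] at hv
    subst hv
    simp
  | succ k ih =>
    obtain ⟨w, hw⟩ := ih
    have e : ((a, b + k + 1) : V) = (a, b + ((k + 1 : ℕ) : ℤ)) := by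
      push_cast
      rw [add_assoc]
    refine ⟨(w.concat (adj_v a (b + k))).copy rfl e, fun v hv => ?_⟩
    rw [SimpleGraph.Walk.support_copy, SimpleGraph.Walk.support_concat, List.mem_append,
      List.mem_singleton] at hv
    push_cast
    rcases hv with hv | hv
    · obtain ⟨h1, h2, h3⟩ := hw v hv
      exact ⟨h1, h2, by omega⟩
    · subst hv
      refine ⟨rfl, ?_, ?_⟩
      · change b ≤ b + k + 1
        omega
      · change b + k + 1 ≤ b + (k + 1)
        omega

/-- A horizontal walk. -/
theorem hwalk (a a' b : ℤ) : ∃ w : lattice.Walk ((a, b) : V) (a', b),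
    ∀ v ∈ w.support, v.2 = b ∧ min a a' ≤ v.1 ∧ v.1 ≤ max a a' := by
  rcases le_total a a' with h | h
  · obtain ⟨k, rfl⟩ := Int.le.dest h
    obtain ⟨w, hw⟩ := hw0 a b k
    refine ⟨w, fun v hv => ?_⟩
    rw [min_eq_left h, max_eq_right h]
    exact hw v hv
  · obtain ⟨k, rfl⟩ := Int.le.dest h
    obtain ⟨w, hw⟩ := hw0 a' b k
    refine ⟨w.reverse, fun v hv => ?_⟩
    rw [min_eq_right h, max_eq_left h]
    rw [SimpleGraph.Walk.support_reverse, List.mem_reverse] at hv
    exact hw v hv

/-- A vertical walk. -/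
theorem vwalk (a b b' : ℤ) : ∃ w : lattice.Walk ((a, b) : V) (a, b'),
    ∀ v ∈ w.support, v.1 = a ∧ min b b' ≤ v.2 ∧ v.2 ≤ max b b' := by
  rcases le_total b b' with h | h
  · obtain ⟨k, rfl⟩ := Int.le.dest h
    obtain ⟨w, hw⟩ := vw0 a b k
    refine ⟨w, fun v hv => ?_⟩
    rw [min_eq_left h, max_eq_right h]
    exact hw v hv
  · obtain ⟨k, rfl⟩ := Int.le.dest h
    obtain ⟨w, hw⟩ := vw0 a b' k
    refine ⟨w.reverse, fun v hv => ?_⟩
    rw [min_eq_right h, max_eq_left h]
    rw [SimpleGraph.Walk.support_reverse, List.mem_reverse] at hv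
    exact hw v hv

/-- The passage time along a vertical segment. -/
theorem vert_le (ω : Cfg) (x y : ℤ) (i : ℕ) :
    T ω (x, y) (x, y + i) ≤ ∑ l ∈ Finset.range i, |ω s((x, y + l), (x, y + l + 1))| := by
  induction i with
  | zero =>
    simp only [Nat.cast_zero, add_zero, Finset.range_zero, Finset.sum_empty]
    exact (T_self ω _).le
  | succ i ih =>
    rw [Finset.sum_range_succ]
    have e : ((x, y + ((i + 1 : ℕ) : ℤ)) : V) = (x, y + i + 1) := by
      push_cast
      rw [add_assoc]
    rw [e]
    have h1 := T_triangle ω (x, y) (x, y + i) (x, y + i + 1)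
    have h2 : T ω (x, y + i) (x, y + i + 1) ≤ |ω s((x, y + i), (x, y + i + 1))| := by
      have h3 := pt_le_len (c := fun e => |ω e|) (fun _ => abs_nonneg _)
        (SimpleGraph.Walk.cons (adj_v x (y + i)) SimpleGraph.Walk.nil)
      simpa [len, T] using h3
    linarith

end Pool.Agent.Work.MP_9a767b_pr.U
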