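import Pool.Agent.Work.MP_9a767b_pr.U.Order
import Pool.Agent.Work.MP_9a767b_pr.U.FirstV
import Pool.Agent.Work.MP_9a767b_pr.U.Straight

/-!
# NoWall: there is no wall between three active geodesics

Notation: `x = t L`, `x' = (t+1) L`, `γ_j = ga n K ω j`, `p = (x, ht x γ_0)`, `p' = (x', ht x' γ_0)`,
`r = (x, ht x γ_i)`, `r' = (x', ht x' γ_i)`.

PROOF. By `order`, `ht x γ_0 < ht x γ_i < ht x γ_c ≤ ht x γ_0 + R`, so `r = p + (0, i1)` with
`0 ≤ i1 ≤ R`; in the same way `r' = p' + (0, i2)`. By `vert_le` and `vert`, `vert'` (and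
nonnegative weights) `T p r ≤ C0`, `T p' r' ≤ C0`, so `T r r' ≤ 2 C0 + κ` by `hor`.
`γ_i` is a geodesic. By `firstv` write `γ_i = w1.append (w2.append w3)` with `w2` from `r` to `r'`; as
in `ht_dist`, `ln ω w2 = T r r'` (or use `piece_of_geo`). Every vertex `v` of `w2` has
`T r v ≤ ln ω w2 ≤ 2 C0 + κ < Z1`, so by `far` (with the index `i1`) `|v.1 - x| ≤ R1` and
`|v.2 - ht x γ_0| ≤ R1`. For every `s` with `x ≤ s < x'` the walk `w2` uses an edge
`{(s,y), (s+1,y)}` (it goes from the column `x` to the column `x'`; for instance by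
`exists_last_col` for the column `s`: the next vertex is in the column `s + 1`). Its end points
are on `γ_i` in the columns `[m, n-m]`, so by the first part of `order` they are not on `γ_0`, `γ_c`
and the edge is not an edge of `γ_0`, `γ_c`. By `High` its weight is at least `H`. The edges for
different `s` are different, so `ln ω w2 ≥ H L` (the sum of the weights of the edges of a walk is
at least the sum over a finite set of edges of the walk, since the weights are nonnegative).
But `ln ω w2 ≤ 2 C0 + κ < H L`.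
-/

open MeasureTheory ProbabilityTheory Filter Topology

namespace Pool.Agent.Work.MP_9a767b_pr.U

/-- The weight of a walk is at least the sum of the weights of a finite set of its edges. -/
private theorem sum_le_ln {ω : Cfg} {x y : V} (w : lattice.Walk x y) (S : Finset (Sym2 V))
    (hS : ∀ e ∈ S, e ∈ w.edges) : ∑ e ∈ S, |ω e| ≤ ln ω w := by
  have h1 : S.val ≤ (w.edges : Multiset (Sym2 V)) := by
    rw [Multiset.le_iff_subset S.nodup]
    intro e he
    exact Multiset.mem_coe.2 (hS e he)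
  obtain ⟨t, ht⟩ := Multiset.le_iff_exists_add.1 h1
  have h2 : ln ω w = ((w.edges : Multiset (Sym2 V)).map fun e => |ω e|).sum := by
    simp [ln, len]
  rw [h2, ht, Multiset.map_add, Multiset.sum_add]
  have h3 : 0 ≤ (t.map fun e => |ω e|).sum := by
    refine Multiset.sum_nonneg ?_
    intro r hr
    obtain ⟨e, -, rfl⟩ := Multiset.mem_map.1 hr
    exact abs_nonneg _
  have h4 : ∑ e ∈ S, |ω e| = (S.val.map fun e => |ω e|).sum := rfl
  rw [h4]
  linarith

/-- A walk from the column `x.1` to the column `y.1` uses a horizontal edge between the columns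
`s` and `s + 1`. -/
private theorem exists_edge {x y : V} (w : lattice.Walk x y) {s : ℤ} (hx : x.1 ≤ s)
    (hy : s < y.1) : ∃ b : ℤ, s(((s, b) : V), (s + 1, b)) ∈ w.edges := by
  obtain ⟨u, w1, w2, hw, hu, -, h2⟩ := exists_last_col w hx hy.le
  cases w2 with
  | nil => omega
  | @cons _ z _ hadj q =>
    have hz : s < z.1 := by
      apply h2
      simp
    have hadj' := (adj_iff u z).1 hadj
    have e1 : z.1 = s + 1 ∧ z.2 = u.2 := by
      have a1 := abs_nonneg (u.2 - z.2)
      have a2 : |u.1 - z.1| = z.1 - u.1 := by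
        rw [abs_sub_comm]; exact abs_of_nonneg (by omega)
      have a3 : |u.2 - z.2| = 0 := by omega
      have a4 := abs_eq_zero.1 a3
      constructor <;> omega
    refine ⟨u.2, ?_⟩
    rw [hw, SimpleGraph.Walk.edges_append]
    refine List.mem_append_right _ ?_
    rw [SimpleGraph.Walk.edges_cons]
    have e2 : (s, u.2) = u := by rw [← hu]
    have e3 : (s + 1, u.2) = z := by
      rw [← e1.1, ← e1.2]
    rw [e2, e3]
    simp

theorem no_wall {n m K : ℤ} (hK : 0 < K) (hm : 0 < m) (hn : 2 * m < n) {ω : Cfg} {i c : ℤ}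
    (hi : 0 < i) (hic : i < c) (h0 : InI n m K ω 0) (hIi : InI n m K ω i)
    (hc : InI n m K ω c) {L R R1 : ℕ} {C0 κ Z1 H : ℝ} {t : ℤ} (ht1 : m ≤ t * L)
    (ht2 : (t + 1) * L ≤ n - m) (hL : 0 < L) (hZ : 2 * C0 + κ < Z1)
    (hH : 2 * C0 + κ < H * L)
    (hw : PW ω L R R1 C0 κ Z1 t (ga n K ω 0) (ga n K ω c))
    (hh : High ω L R1 H t (ga n K ω 0) (ga n K ω c)) : False := by
  have hLe : t * (L : ℤ) < (t + 1) * L := by
    have : (0 : ℤ) < L := by exact_mod_cast hL
    nlinarith
  have o1 := order hK hm hn hi h0 hIi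
  have o2 := order hK hm hn hic hIi hc
  have o1x := o1.2 (t * L) ht1 (by omega)
  have o2x := o2.2 (t * L) ht1 (by omega)
  have o1x' := o1.2 ((t + 1) * L) (by omega) ht2
  have o2x' := o2.2 ((t + 1) * L) (by omega) ht2
  have hgeo : IsGeo ω (ga n K ω i) := (sel_spec (exists_isGeo h0.1 _ _)).1
  have hg1 := hw.gap.2
  have hg2 := hw.gap'.2
  -- the vertical segments
  have vert : ∀ (X b b' : ℤ), b ≤ b' → b' ≤ b + R →
      ∑ j ∈ Finset.range R, |ω s((X, b + j), (X, b + j + 1))| ≤ C0 →
      T ω (X, b) (X, b') ≤ C0 := by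
    intro X b b' hb hb' hs
    obtain ⟨k, rfl⟩ : ∃ k : ℕ, b' = b + k := ⟨(b' - b).toNat, by omega⟩
    have hk : k ≤ R := by omega
    refine (vert_le ω X b k).trans (le_trans ?_ hs)
    exact Finset.sum_le_sum_of_subset_of_nonneg (Finset.range_mono hk)
      fun _ _ _ => abs_nonneg _
  have v1 := vert _ _ (ht (t * L) (ga n K ω i)) o1x.le (by omega) hw.vert
  have v2 := vert _ _ (ht ((t + 1) * L) (ga n K ω i)) o1x'.le (by omega) hw.vert'
  have hT : T ω (t * L, ht (t * L) (ga n K ω i)) ((t + 1) * L, ht ((t + 1) * L) (ga n K ω i))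
      ≤ 2 * C0 + κ := by
    have a1 := T_triangle ω (t * L, ht (t * L) (ga n K ω i)) (t * L, ht (t * L) (ga n K ω 0))
      ((t + 1) * L, ht ((t + 1) * L) (ga n K ω i))
    have a2 := T_triangle ω (t * L, ht (t * L) (ga n K ω 0))
      ((t + 1) * L, ht ((t + 1) * L) (ga n K ω 0))
      ((t + 1) * L, ht ((t + 1) * L) (ga n K ω i))
    have a3 := T_comm ω (t * L, ht (t * L) (ga n K ω i)) (t * L, ht (t * L) (ga n K ω 0))
    have a4 := hw.hor
    linarith
  obtain ⟨w1, w2, w3, hww, -⟩ := firstv (ga n K ω i) (c := t * L) (c' := (t + 1) * L)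
    (by show (0 : ℤ) ≤ t * L; omega) hLe.le (by show (t + 1) * (L : ℤ) ≤ n; omega)
  have hln : ln ω w2 = T ω (t * L, ht (t * L) (ga n K ω i))
      ((t + 1) * L, ht ((t + 1) * L) (ga n K ω i)) := by
    have p := piece_of_geo hgeo.2 hww
    have b1 : T ω (t * L, ht (t * L) (ga n K ω i))
      ((t + 1) * L, ht ((t + 1) * L) (ga n K ω i)) ≤ ln ω w2 :=
      pt_le_len (fun _ => abs_nonneg _) w2
    unfold Piece at p
    have b2 := T_triangle ω (0, i * K) (t * L, ht (t * L) (ga n K ω i)) (n, i * K)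
    have b3 := T_triangle ω (t * L, ht (t * L) (ga n K ω i))
      ((t + 1) * L, ht ((t + 1) * L) (ga n K ω i)) (n, i * K)
    linarith
  have hbox : ∀ v ∈ w2.support, |v.1 - t * L| ≤ R1 ∧ |v.2 - ht (t * L) (ga n K ω 0)| ≤ R1 := by
    intro v hv
    by_contra hcon
    obtain ⟨k, hk⟩ : ∃ k : ℕ, ht (t * L) (ga n K ω i) = ht (t * L) (ga n K ω 0) + k :=
      ⟨(ht (t * L) (ga n K ω i) - ht (t * L) (ga n K ω 0)).toNat, by omega⟩
    have hf := hw.far k (by omega) v hcon
    rw [← hk] at hf
    have hsp : T ω (t * L, ht (t * L) (ga n K ω i)) v +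
        T ω v ((t + 1) * L, ht ((t + 1) * L) (ga n K ω i)) ≤ ln ω w2 :=
      pt_split (fun _ => abs_nonneg _) w2 hv
    have := T_nonneg ω v ((t + 1) * L, ht ((t + 1) * L) (ga n K ω i))
    linarith
  have hsub : ∀ e ∈ w2.edges, e ∈ (ga n K ω i).edges := by
    intro e he
    rw [hww, SimpleGraph.Walk.edges_append, SimpleGraph.Walk.edges_append]
    simp [he]
  have hex : ∀ s ∈ Finset.Ico (t * (L : ℤ)) ((t + 1) * L), ∃ b : ℤ,
      s(((s, b) : V), (s + 1, b)) ∈ w2.edges ∧ H ≤ |ω s((s, b), (s + 1, b))| := by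
    intro s hs
    rw [Finset.mem_Ico] at hs
    obtain ⟨b, hb⟩ := exists_edge w2 (s := s) hs.1 hs.2
    have hbs : ((s, b) : V) ∈ w2.support := w2.fst_mem_support_of_mem_edges hb
    have hbi : ((s, b) : V) ∈ (ga n K ω i).support :=
      (ga n K ω i).fst_mem_support_of_mem_edges (hsub _ hb)
    refine ⟨b, hb, hh s b hs.1 hs.2 (hbox _ hbs).2 ?_ ?_⟩
    · intro hcon
      exact o1.1 (s, b) ((ga n K ω 0).fst_mem_support_of_mem_edges hcon) hbi
        (by show m ≤ s; omega) (by show s ≤ n - m; omega)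
    · intro hcon
      exact o2.1 (s, b) hbi ((ga n K ω c).fst_mem_support_of_mem_edges hcon)
        (by show m ≤ s; omega) (by show s ≤ n - m; omega)
  choose! b hb using hex
  have hinj : Function.Injective (fun s : ℤ => s(((s, b s) : V), (s + 1, b s))) := by
    intro s s' hss
    simp only [Sym2.eq_iff, Prod.mk.injEq] at hss
    omega
  have hsum := sum_le_ln (ω := ω) w2
    ((Finset.Ico (t * (L : ℤ)) ((t + 1) * L)).image
      (fun s : ℤ => s(((s, b s) : V), (s + 1, b s)))) (by
      intro e he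
      obtain ⟨s, hs, rfl⟩ := Finset.mem_image.1 he
      exact (hb s hs).1)
  rw [Finset.sum_image (fun s _ s' _ h => hinj h)] at hsum
  have hcard : ((Finset.Ico (t * (L : ℤ)) ((t + 1) * L)).card : ℝ) = L := by
    rw [Int.card_Ico]
    have : ((t + 1) * (L : ℤ) - t * L).toNat = L := by
      have : (t + 1) * (L : ℤ) - t * L = L := by ring
      rw [this]; simp
    rw [this]
  have hge := Finset.card_nsmul_le_sum (Finset.Ico (t * (L : ℤ)) ((t + 1) * L))
    (fun s : ℤ => |ω s(((s, b s) : V), (s + 1, b s))|) H (fun s hs => (hb s hs).2)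
  rw [nsmul_eq_mul, hcard] at hge
  have : H * L = L * H := mul_comm _ _
  linarith

end Pool.Agent.Work.MP_9a767b_pr.U
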