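import Pool.Agent.Work.MP_9a767b_pr.U.Defs
import Pool.Agent.Work.MP_9a767b_pr.Meas

/-!
# Resample: changing the weights of finitely many edges

PROOF. Let `Φ (ω, ω2) e = ω2 e` for `e ∈ S` and `ω e` otherwise. `Φ` is measurable and maps
`(Q ν).prod (Q ν)` to `Q ν`: its coordinates are independent with the law `ν`; for instance check
the values on the boxes (`Measure.eq_infinitePi` or the like; the preimage of a box
`{ω | ∀ e ∈ s, ω e ∈ A e}` under `Φ` is the product of two boxes), compare `Act.lean`,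
`LocLLN.lean`, `Transfer.lean`. If `ω ∈ A` and `H ≤ |ω2 e|` for all `e ∈ S` then `Φ (ω, ω2) ∈ B` by
`h`. So `Q(A) Q{ω2 | ∀ e ∈ S, H ≤ |ω2 e|} ≤ (Q×Q)(Φ⁻¹ B) = Q(B)`, and the second factor is
`(ν {x | H ≤ |x|})^(card S)` (`Measure.infinitePi_pi` or similar).
-/

open MeasureTheory ProbabilityTheory Filter Topology

namespace Pool.Agent.Work.MP_9a767b_pr.U

open Classical in
private noncomputable def mixc (S : Finset (Sym2 V)) (p : Cfg × Cfg) : Cfg :=
  fun e => if e ∈ S then p.2 e else p.1 e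

private theorem measurable_mixc (S : Finset (Sym2 V)) : Measurable (mixc S) := by
  refine measurable_pi_lambda _ fun e => ?_
  unfold mixc
  by_cases h : e ∈ S
  · simp only [h, if_true]
    exact (measurable_pi_apply e).comp measurable_snd
  · simp only [h, if_false]
    exact (measurable_pi_apply e).comp measurable_fst

open Classical in
private theorem map_mixc (ν : Measure ℝ) [IsProbabilityMeasure ν] (S : Finset (Sym2 V)) :
    ((Q ν).prod (Q ν)).map (mixc S) = Q ν := by
  conv_rhs => unfold Q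
  refine Measure.eq_infinitePi _ fun s t ht => ?_
  rw [Measure.map_apply (measurable_mixc S) (.pi s.countable_toSet fun _ _ => ht _)]
  have h1 : mixc S ⁻¹' ((s : Set (Sym2 V)).pi t) =
      (((s \ S : Finset (Sym2 V)) : Set (Sym2 V)).pi t) ×ˢ
        (((s ∩ S : Finset (Sym2 V)) : Set (Sym2 V)).pi t) := by
    ext p
    simp only [Set.mem_preimage, Set.mem_pi, Set.mem_prod, Finset.mem_coe, Finset.mem_sdiff,
      Finset.mem_inter, mixc]
    constructor
    · intro h
      refine ⟨fun e he => ?_, fun e he => ?_⟩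
      · have := h e he.1
        rwa [if_neg he.2] at this
      · have := h e he.1
        rwa [if_pos he.2] at this
    · rintro ⟨h, h'⟩ e he
      by_cases hS : e ∈ S
      · rw [if_pos hS]; exact h' e ⟨he, hS⟩
      · rw [if_neg hS]; exact h e ⟨he, hS⟩
  rw [h1, Measure.prod_prod]
  unfold Q
  rw [Measure.infinitePi_pi _ (fun i _ => ht i), Measure.infinitePi_pi _ (fun i _ => ht i)]
  rw [mul_comm, ← Finset.prod_union]
  · congr 1
    ext e
    simp only [Finset.mem_union, Finset.mem_inter, Finset.mem_sdiff]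
    tauto
  · rw [Finset.disjoint_left]
    intro e he he'
    simp only [Finset.mem_inter, Finset.mem_sdiff] at he he'
    exact he'.2 he.2

theorem resample (ν : Measure ℝ) [IsProbabilityMeasure ν] (S : Finset (Sym2 V)) (A B : Set Cfg)
    (hA : MeasurableSet A) (hB : MeasurableSet B) (H : ℝ)
    (h : ∀ ω ∈ A, ∀ ω' : Cfg, (∀ e, e ∉ S → ω' e = ω e) → (∀ e ∈ S, H ≤ |ω' e|) → ω' ∈ B) :
    (Q ν).real A * (ν.real {x | H ≤ |x|}) ^ S.card ≤ (Q ν).real B := by
  have hH : MeasurableSet {x : ℝ | H ≤ |x|} :=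
    measurableSet_le measurable_const continuous_abs.measurable
  set C : Set Cfg := (S : Set (Sym2 V)).pi (fun _ => {x : ℝ | H ≤ |x|}) with hC
  have h1 : (Q ν) C = (ν {x : ℝ | H ≤ |x|}) ^ S.card := by
    rw [hC]
    unfold Q
    rw [Measure.infinitePi_pi _ (fun i _ => hH), Finset.prod_const]
  have h2 : (Q ν) B = ((Q ν).prod (Q ν)) (mixc S ⁻¹' B) := by
    rw [← Measure.map_apply (measurable_mixc S) hB, map_mixc]
  have h3 : A ×ˢ C ⊆ mixc S ⁻¹' B := by
    rintro ⟨ω, ω2⟩ ⟨hω, hω2⟩
    refine h ω hω _ (fun e he => ?_) (fun e he => ?_)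
    · unfold mixc; rw [if_neg he]
    · unfold mixc; rw [if_pos he]
      exact hω2 e he
  have h4 : (Q ν) A * (ν {x : ℝ | H ≤ |x|}) ^ S.card ≤ (Q ν) B := by
    rw [h2, ← h1, ← Measure.prod_prod]
    exact measure_mono h3
  have h5 := ENNReal.toReal_mono (measure_ne_top _ _) h4
  rw [ENNReal.toReal_mul, ENNReal.toReal_pow] at h5
  exact h5

end Pool.Agent.Work.MP_9a767b_pr.U
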