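import Pool.Agent.Work.MP_9a767b_pr.U.Four
import Pool.Agent.Work.MP_9a767b_pr.U.MxSmall

/-!
# SecondDiff: the second differences of the expected passage times tend to zero
-/

open MeasureTheory ProbabilityTheory Filter Topology

namespace Pool.Agent.Work.MP_9a767b_pr.U

theorem measurable_Mx (x x' y y' : V) : Measurable (fun ω : Cfg => Mx ω x x' y y') := by
  unfold Mx
  exact (((measurable_T x y').add (measurable_T x' y)).sub (measurable_T x y)).sub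
    (measurable_T x' y')

theorem abs_Mx_le (ω : Cfg) (x x' y y' : V) : |Mx ω x x' y y'| ≤ 2 * T ω x x' := by
  unfold Mx
  have h1 := T_triangle ω x x' y'
  have h2 := T_triangle ω x' x y'
  have h3 := T_triangle ω x x' y
  have h4 := T_triangle ω x' x y
  have h5 := T_comm ω x x'
  rw [abs_le]
  constructor <;> linarith

theorem ne_of_not {ω : Cfg} {n l a b : ℤ} (h : ¬ ∃ j : ℤ,
        (l ≤ |j - a| ∧ T ω (0, a) (0, j) + T ω (0, j) (n, b) ≤ T ω (0, a) (n, b) + 0) ∨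
        (l ≤ |j - b| ∧ T ω (0, a) (n, j) + T ω (n, j) (n, b) ≤ T ω (0, a) (n, b) + 0)) :
    NE ω n l a b := by
  push Not at h
  refine ⟨fun j hj => ?_, fun j hj => ?_⟩
  · have := (h j).1 hj
    linarith
  · have := (h j).2 hj
    linarith

theorem small_prob {ν : Measure ℝ} [IsProbabilityMeasure ν]
    (hI : Integrable (fun ω => T ω 0 (1, 0)) (Q ν))
    (hd : Nm (g ν) 1 1 < 2 * Nm (g ν) 1 0) {ε : ℝ} (hε : 0 < ε) :
    ∃ n0 : ℕ, ∀ n : ℕ, n0 ≤ n →
      (Q ν).real {ω | Mx ω (-1, 0) (0, 0) (n, 0) ((n : ℤ) + 1, 0) ≠ 0} ≤ 5 * ε := by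
  classical
  have hN : IsNm (Nm (g ν)) (Nm (g ν) 1 0) := isNm (subSym_g hI)
  have hμ : 0 < Nm (g ν) 1 0 := by
    have h1 := hN.ge1 1 1
    rw [abs_one, mul_one] at h1
    linarith
  -- the constant `D'`
  set A := ∫ ω, |T ω (-1, 0) 0| ∂(Q ν) with hA
  have hA0 : 0 ≤ A := integral_nonneg fun ω => abs_nonneg _
  set D' := (A + 1) / ε with hD'
  have hD'0 : 0 < D' := by positivity
  have hd1 : (Q ν).real {ω | D' ≤ |T ω (-1, 0) 0|} ≤ ε := by
    refine (lh_markov (integrable_T hI _ _) hD'0 hA.symm.le).trans ?_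
    rw [hD', div_le_iff₀ (by positivity)]
    have : ε * ((A + 1) / ε) = A + 1 := by field_simp
    linarith
  have hmeas : MeasurableSet {ω : Cfg | D' ≤ |T ω (-1, 0) 0|} :=
    measurableSet_le measurable_const (measurable_T _ _).abs
  have hd2 : ∀ n : ℕ, (Q ν).real {ω | D' ≤ |T ω ((n : ℤ), 0) ((n : ℤ) + 1, 0)|} ≤ ε := by
    intro n
    have h1 := real_act ν (trans (((n : ℤ) + 1, 0) : V)) _ hmeas
    refine le_trans (le_of_eq ?_) hd1
    rw [← h1]
    congr 1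
    ext ω
    simp only [Set.mem_ofPred_eq, T_trans]
    have e1 : (((n : ℤ) + 1, 0) : V) + (-1, 0) = ((n : ℤ), 0) := by
      ext <;> simp
    have e2 : (((n : ℤ) + 1, 0) : V) + 0 = ((n : ℤ) + 1, 0) := by simp
    rw [e1, e2]
  obtain ⟨k, hk0, hk⟩ := exc2 hI hd (D := 4 * D') (ε := ε) (by positivity) hε
  obtain ⟨n1, hn1⟩ := hk 0
  obtain ⟨l, hl0, hl⟩ := exc2 hI hd (D := 0) (ε := ε / (2 * (2 * k + 3) ^ 2)) le_rfl (by positivity)
  obtain ⟨K0, hK0, hK⟩ := mx_small hI hd hε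
  set K := max K0 (k + 2 * l) with hKdef
  obtain ⟨n2, hn2⟩ := hl (2 * K)
  obtain ⟨n3, hn3⟩ := hK K (le_max_left _ _)
  refine ⟨max (max n1 1) (max n2 n3), fun n hn => ?_⟩
  have hnn1 : n1 ≤ n := (le_max_left _ _).trans ((le_max_left _ _).trans hn)
  have hn0 : 1 ≤ n := (le_max_right _ _).trans ((le_max_left _ _).trans hn)
  have hnn2 : n2 ≤ n := (le_max_left _ _).trans ((le_max_right _ _).trans hn)
  have hnn3 : n3 ≤ n := (le_max_right _ _).trans ((le_max_right _ _).trans hn)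
  set P : Finset (ℤ × ℤ) := (Finset.Icc (-(k : ℤ)) k ×ˢ Finset.Icc (-(k : ℤ)) k) ∪
    {(-(K : ℤ), (K : ℤ)), ((K : ℤ), -(K : ℤ))} with hP
  have hkK : k ≤ K := (by omega : k ≤ k + 2 * l).trans (le_max_right _ _)
  have hPK : ∀ p ∈ P, |p.1 - p.2| ≤ (2 * K : ℕ) := by
    intro p hp
    simp only [hP, Finset.mem_union, Finset.mem_product, Finset.mem_Icc, Finset.mem_insert,
      Finset.mem_singleton] at hp
    have hkK' : (k : ℤ) ≤ K := by exact_mod_cast hkK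
    rw [abs_le]
    push_cast
    rcases hp with h | h | h
    · constructor <;> linarith [h.1.1, h.1.2, h.2.1, h.2.2]
    · rw [h]; constructor <;> simp <;> omega
    · rw [h]; constructor <;> simp <;> omega
  have hPcard : (P.card : ℝ) ≤ 2 * (2 * k + 3) ^ 2 := by
    have h1 : P.card ≤ (2 * k + 1) * (2 * k + 1) + 2 := by
      refine (Finset.card_union_le _ _).trans (add_le_add ?_ Finset.card_le_two)
      rw [Finset.card_product, Int.card_Icc]
      have : ((k : ℤ) + 1 - -(k : ℤ)).toNat = 2 * k + 1 := by omega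
      rw [this]
    have h2 : (P.card : ℝ) ≤ (2 * k + 1) * (2 * k + 1) + 2 := by exact_mod_cast h1
    nlinarith [(by positivity : (0 : ℝ) ≤ k)]
  -- the exceptional events
  set E0 : Set Cfg := {ω | ∃ j : ℤ,
        ((k : ℤ) ≤ |j - 0| ∧ T ω (0, 0) (0, j) + T ω (0, j) (n, 0) ≤
          T ω (0, 0) (n, 0) + 4 * D') ∨
        ((k : ℤ) ≤ |j - 0| ∧ T ω (0, 0) (n, j) + T ω (n, j) (n, 0) ≤
          T ω (0, 0) (n, 0) + 4 * D')} with hE0
  set EP : ℤ × ℤ → Set Cfg := fun p => {ω | ∃ j : ℤ,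
        ((l : ℤ) ≤ |j - p.1| ∧ T ω (0, p.1) (0, j) + T ω (0, j) (n, p.2) ≤
          T ω (0, p.1) (n, p.2) + 0) ∨
        ((l : ℤ) ≤ |j - p.2| ∧ T ω (0, p.1) (n, j) + T ω (n, j) (n, p.2) ≤
          T ω (0, p.1) (n, p.2) + 0)} with hEP
  have hE0p : (Q ν).real E0 ≤ ε := hn1 n hnn1 0 0 (by simp)
  have hEPp : (Q ν).real (⋃ p ∈ P, EP p) ≤ ε := by
    refine (measureReal_biUnion_finset_le _ _).trans ?_
    calc ∑ p ∈ P, (Q ν).real (EP p) ≤ ∑ _p ∈ P, ε / (2 * (2 * k + 3) ^ 2) :=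
          Finset.sum_le_sum fun p hp => hn2 n hnn2 p.1 p.2 (hPK p hp)
      _ = P.card * (ε / (2 * (2 * k + 3) ^ 2)) := by rw [Finset.sum_const, nsmul_eq_mul]
      _ ≤ (2 * (2 * k + 3) ^ 2) * (ε / (2 * (2 * k + 3) ^ 2)) :=
          mul_le_mul_of_nonneg_right hPcard (by positivity)
      _ = ε := by field_simp
  have hMp : (Q ν).real {ω | 0 < Mx ω (0, -(K : ℤ)) (0, K) (n, -(K : ℤ)) (n, K)} ≤ ε :=
    hn3 n hnn3
  have hGp : (Q ν).real {ω | ¬ HasGeo ω} = 0 := by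
    rw [measureReal_def, ae_iff.1 (hasGeo_ae hI hμ)]
    rfl
  have hincl : {ω | Mx ω (-1, 0) (0, 0) (n, 0) ((n : ℤ) + 1, 0) ≠ 0} ⊆
      ((({ω | D' ≤ |T ω (-1, 0) 0|} ∪ {ω | D' ≤ |T ω ((n : ℤ), 0) ((n : ℤ) + 1, 0)|}) ∪ E0) ∪
        (⋃ p ∈ P, EP p)) ∪
      ({ω | 0 < Mx ω (0, -(K : ℤ)) (0, K) (n, -(K : ℤ)) (n, K)} ∪ {ω | ¬ HasGeo ω}) := by
    intro ω hω
    by_contra hcon
    simp only [Set.mem_union, Set.mem_iUnion, not_or, not_exists] at hcon
    obtain ⟨⟨⟨⟨c1, c2⟩, c3⟩, c4⟩, c5, c6⟩ := hcon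
    simp only [Set.mem_ofPred_eq, not_le, not_lt, not_not] at c1 c2 c5 c6
    rw [abs_of_nonneg (T_nonneg _ _ _)] at c1 c2
    apply hω
    refine four c6 (k := k) (l := l) (K := K) (by exact_mod_cast hn0) (by exact_mod_cast hk0)
      (by exact_mod_cast hl0) ?_ ?_ ?_ ?_ c5 ?_
    · have : k + 2 * l ≤ K := le_max_right _ _
      exact_mod_cast this
    · exact ne_of_not (c4 (-(K : ℤ), (K : ℤ)) (by simp [hP]))
    · exact ne_of_not (c4 ((K : ℤ), -(K : ℤ)) (by simp [hP]))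
    · intro a b ha hb
      have ha' := abs_le.1 ha
      have hb' := abs_le.1 hb
      refine ne_of_not (c4 (a, b) ?_)
      simp only [hP, Finset.mem_union, Finset.mem_product, Finset.mem_Icc]
      exact Or.inl ⟨ha', hb'⟩
    · intro x y hx hy j hj
      have hx0 : T ω 0 x ≤ D' := by
        rcases hx with rfl | rfl
        · rw [T_comm]; exact c1.le
        · rw [show ((0, 0) : V) = 0 from rfl, T_self]; exact hD'0.le
      have hy0 : T ω ((n : ℤ), 0) y ≤ D' := by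
        rcases hy with rfl | rfl
        · rw [T_self]; exact hD'0.le
        · exact c2.le
      have hc : ∀ v : V, T ω x v + T ω v y ≤ T ω x y →
          T ω (0, 0) v + T ω v (n, 0) ≤ T ω (0, 0) (n, 0) + 4 * D' := by
        intro v hv
        have h1 := T_triangle ω 0 x v
        have h2 := T_triangle ω v y ((n : ℤ), 0)
        have h3 := T_triangle ω x 0 y
        have h4 := T_triangle ω 0 ((n : ℤ), 0) y
        have h5 := T_comm ω y ((n : ℤ), 0)
        have h6 := T_comm ω x 0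
        have e : ((0, 0) : V) = 0 := rfl
        rw [e]
        linarith
      have hE : ∀ j : ℤ, ¬ (((k : ℤ) ≤ |j - 0| ∧ T ω (0, 0) (0, j) + T ω (0, j) (n, 0) ≤
          T ω (0, 0) (n, 0) + 4 * D') ∨
        ((k : ℤ) ≤ |j - 0| ∧ T ω (0, 0) (n, j) + T ω (n, j) (n, 0) ≤
          T ω (0, 0) (n, 0) + 4 * D')) := fun j hj => c3 ⟨j, hj⟩
      have hEj := hE j
      rw [sub_zero, not_or] at hEj
      constructor
      · by_contra hcon
        exact hEj.1 ⟨hj, hc _ (not_lt.1 hcon)⟩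
      · by_contra hcon
        exact hEj.2 ⟨hj, hc _ (not_lt.1 hcon)⟩
  refine (measureReal_mono hincl).trans ?_
  have u1 := measureReal_union_le (μ := Q ν)
    ((({ω | D' ≤ |T ω (-1, 0) 0|} ∪ {ω | D' ≤ |T ω ((n : ℤ), 0) ((n : ℤ) + 1, 0)|}) ∪ E0) ∪
        (⋃ p ∈ P, EP p))
      ({ω | 0 < Mx ω (0, -(K : ℤ)) (0, K) (n, -(K : ℤ)) (n, K)} ∪ {ω | ¬ HasGeo ω})
  have u2 := measureReal_union_le (μ := Q ν)
    (({ω | D' ≤ |T ω (-1, 0) 0|} ∪ {ω | D' ≤ |T ω ((n : ℤ), 0) ((n : ℤ) + 1, 0)|}) ∪ E0)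
        (⋃ p ∈ P, EP p)
  have u3 := measureReal_union_le (μ := Q ν)
    ({ω | D' ≤ |T ω (-1, 0) 0|} ∪ {ω | D' ≤ |T ω ((n : ℤ), 0) ((n : ℤ) + 1, 0)|}) E0
  have u4 := measureReal_union_le (μ := Q ν)
    {ω | D' ≤ |T ω (-1, 0) 0|} {ω | D' ≤ |T ω ((n : ℤ), 0) ((n : ℤ) + 1, 0)|}
  have u5 := measureReal_union_le (μ := Q ν)
    {ω | 0 < Mx ω (0, -(K : ℤ)) (0, K) (n, -(K : ℤ)) (n, K)} {ω | ¬ HasGeo ω}
  have hd2n := hd2 n
  linarith

theorem second_diff {ν : Measure ℝ} [IsProbabilityMeasure ν]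
    (hI : Integrable (fun ω => T ω 0 (1, 0)) (Q ν))
    (hd : Nm (g ν) 1 1 < 2 * Nm (g ν) 1 0) :
    Tendsto (fun n : ℕ => g ν ((n : ℤ) + 2, 0) + g ν (n, 0) - 2 * g ν ((n : ℤ) + 1, 0)) atTop
      (𝓝 0) := by
  set s : ℕ → Set Cfg := fun n => {ω | Mx ω (-1, 0) (0, 0) (n, 0) ((n : ℤ) + 1, 0) ≠ 0} with hs
  have hsm : ∀ n, MeasurableSet (s n) := fun n =>
    (measurable_Mx _ _ _ _ (measurableSet_singleton (0 : ℝ))).compl
  have hexp : ∀ n : ℕ, ∫ ω, Mx ω (-1, 0) (0, 0) (n, 0) ((n : ℤ) + 1, 0) ∂(Q ν) =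
      g ν ((n : ℤ) + 2, 0) + g ν (n, 0) - 2 * g ν ((n : ℤ) + 1, 0) := by
    intro n
    unfold Mx
    have i1 : Integrable (fun ω => T ω (-1, 0) ((n : ℤ) + 1, 0) + T ω (0, 0) ((n : ℤ), 0))
        (Q ν) := (integrable_T hI _ _).add (integrable_T hI _ _)
    have i2 : Integrable (fun ω => T ω (-1, 0) ((n : ℤ) + 1, 0) + T ω (0, 0) ((n : ℤ), 0) -
        T ω (-1, 0) ((n : ℤ), 0)) (Q ν) := i1.sub (integrable_T hI _ _)
    rw [integral_sub i2 (integrable_T hI _ _), integral_sub i1 (integrable_T hI _ _),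
      integral_add (integrable_T hI _ _) (integrable_T hI _ _), integral_T, integral_T,
      integral_T, integral_T]
    have e1 : (((n : ℤ) + 1, 0) : V) - (-1, 0) = ((n : ℤ) + 2, 0) := by
      ext
      · simp; ring
      · simp
    have e2 : (((n : ℤ), 0) : V) - (0, 0) = ((n : ℤ), 0) := by ext <;> simp
    have e3 : (((n : ℤ), 0) : V) - (-1, 0) = ((n : ℤ) + 1, 0) := by ext <;> simp
    have e4 : (((n : ℤ) + 1, 0) : V) - (0, 0) = ((n : ℤ) + 1, 0) := by ext <;> simp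
    rw [e1, e2, e3, e4]
    ring
  have hlim : Tendsto (fun n => Q ν (s n)) atTop (𝓝 0) := by
    have h1 : Tendsto (fun n => (Q ν).real (s n)) atTop (𝓝 0) := by
      rw [Metric.tendsto_atTop]
      intro ε hε
      obtain ⟨n0, hn0⟩ := small_prob hI hd (ε := ε / 10) (by positivity)
      refine ⟨n0, fun n hn => ?_⟩
      rw [Real.dist_eq, sub_zero, abs_of_nonneg measureReal_nonneg]
      have := hn0 n hn
      have h2 : (Q ν).real (s n) ≤ 5 * (ε / 10) := this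
      linarith
    have h2 : (fun n => Q ν (s n)) = fun n => ENNReal.ofReal ((Q ν).real (s n)) := by
      funext n
      rw [measureReal_def, ENNReal.ofReal_toReal (measure_ne_top _ _)]
    rw [h2, ← ENNReal.ofReal_zero]
    exact ENNReal.tendsto_ofReal h1
  have hint : Integrable (fun ω => 2 * T ω (-1, 0) (0, 0)) (Q ν) :=
    (integrable_T hI _ _).const_mul 2
  have h0 := hint.tendsto_setIntegral_nhds_zero hlim
  have hbound : ∀ n : ℕ, |g ν ((n : ℤ) + 2, 0) + g ν (n, 0) - 2 * g ν ((n : ℤ) + 1, 0)| ≤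
      ∫ ω in s n, 2 * T ω (-1, 0) (0, 0) ∂(Q ν) := by
    intro n
    rw [← hexp n]
    have h1 : ∫ ω, Mx ω (-1, 0) (0, 0) (n, 0) ((n : ℤ) + 1, 0) ∂(Q ν) =
        ∫ ω in s n, Mx ω (-1, 0) (0, 0) (n, 0) ((n : ℤ) + 1, 0) ∂(Q ν) := by
      symm
      refine setIntegral_eq_integral_of_forall_compl_eq_zero fun ω hω => ?_
      by_contra hcon
      exact hω hcon
    rw [h1]
    refine (abs_integral_le_integral_abs).trans ?_
    refine integral_mono_of_nonneg (Eventually.of_forall fun ω => abs_nonneg _)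
      hint.integrableOn (Eventually.of_forall fun ω => abs_Mx_le ω _ _ _ _)
  exact squeeze_zero_norm (fun n => by rw [Real.norm_eq_abs]; exact hbound n) h0

end Pool.Agent.Work.MP_9a767b_pr.U
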