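import Pool.Agent.Work.MP_9a767b_pr.U.Lrbt

/-!
# SideCross: a walk across a vertical strip separates its two sides

PROOF. From `lrbt`. If `u` or `v` is on `β` we are done, so assume they are not. Choose `Y1`
smaller than all heights of `β`, `G` (minus 2) and `Y2` larger than all heights (plus 2); the
rectangle is `[x1-2, x2+2] × [Y1, Y2]`. Extend `β` by the horizontal segments from `(x1-2, b)` to
`(x1, b)` and from `(x2, b')` to `(x2+2, b')`: a left-right crossing. Extend `G` at its start `u` to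
the bottom row: in the case `u.1 = x1, u.2 ≤ b` (so `u.2 < b` since `u` is not on `β`) step left to
the column `x1 - 1` and go down to the row `Y1`; in the case `u.1 = x2, u.2 ≤ b'` step right to the
column `x2 + 1` and go down; in the third case go straight down from `u`. In the same way extend
`G` at its end `v` to the top row. This is a bottom-top crossing, so by `lrbt` there is a common
vertex `w`. The added vertices of `β` are in the columns `x1-2, x1-1` at the height `b` and in the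
columns `x2+1, x2+2` at the height `b'`; the added vertices of `G` in the columns `x1-1`, `x2+1`
are below (at the start) or above (at the end) these heights (strictly), and the added vertices
that are straight below `u` (above `v`) are in the columns `[x1,x2]`, strictly below (above) all
vertices of `β`. So `w` is on `β` and on `G`.
-/

open MeasureTheory ProbabilityTheory Filter Topology

namespace Pool.Agent.Work.MP_9a767b_pr.U

private theorem bdd (l : List V) : ∃ Y1 Y2 : ℤ, ∀ w ∈ l, Y1 ≤ w.2 ∧ w.2 ≤ Y2 := by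
  induction l with
  | nil => exact ⟨0, 0, by simp⟩
  | cons a l ih =>
    obtain ⟨Y1, Y2, h⟩ := ih
    refine ⟨min Y1 a.2, max Y2 a.2, ?_⟩
    intro w hw
    rw [List.mem_cons] at hw
    rcases hw with hw | hw
    · rw [hw]; omega
    · have := h w hw
      omega

private def Bx (x1 x2 b b' : ℤ) (β : List V) (w : V) : Prop :=
  w ∈ β ∨ (w.1 < x1 ∧ w.2 = b) ∨ (x2 < w.1 ∧ w.2 = b')

private theorem low {x1 x2 b b' Y : ℤ} {u : V} {β : List V} (h12 : x1 ≤ x2)
    (hβ : ∀ w ∈ β, x1 ≤ w.1 ∧ w.1 ≤ x2) (hb : ((x1, b) : V) ∈ β) (hb' : ((x2, b') : V) ∈ β)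
    (hu1 : x1 ≤ u.1 ∧ u.1 ≤ x2) (hY : Y ≤ u.2) (hu2 : u ∉ β)
    (hu : (u.1 = x1 ∧ u.2 ≤ b) ∨ (u.1 = x2 ∧ u.2 ≤ b') ∨ ∀ w ∈ β, u.2 ≤ w.2) :
    ∃ (z : V) (L : lattice.Walk z u), z.2 = Y ∧ ∀ w ∈ L.support,
      x1 - 2 ≤ w.1 ∧ w.1 ≤ x2 + 2 ∧ Y ≤ w.2 ∧ w.2 ≤ u.2 ∧ ¬ Bx x1 x2 b b' β w := by
  obtain ⟨a, h⟩ := u
  simp only at hu1 hY hu
  rcases hu with hu | hu | hu
  · obtain ⟨ha, hh⟩ := hu
    subst ha
    have hne : h ≠ b := by
      intro e
      exact hu2 (e ▸ hb)
    obtain ⟨A1, hA1⟩ := vwalk (a - 1) Y h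
    obtain ⟨A2, hA2⟩ := hwalk (a - 1) a h
    refine ⟨(a - 1, Y), A1.append A2, rfl, ?_⟩
    intro w hw
    rw [SimpleGraph.Walk.mem_support_append_iff] at hw
    rcases hw with hw | hw
    · have h1 := hA1 w hw
      refine ⟨by omega, by omega, by omega, by simp only; omega, ?_⟩
      rintro (h2 | h2 | h2)
      · have := hβ w h2
        omega
      · omega
      · omega
    · have h1 := hA2 w hw
      refine ⟨by omega, by omega, by omega, by simp only; omega, ?_⟩
      rintro (h2 | h2 | h2)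
      · have h3 := hβ w h2
        have h4 : w = (a, h) := Prod.ext (by simp only; omega) h1.1
        exact hu2 (h4 ▸ h2)
      · omega
      · omega
  · obtain ⟨ha, hh⟩ := hu
    subst ha
    have hne : h ≠ b' := by
      intro e
      exact hu2 (e ▸ hb')
    obtain ⟨A1, hA1⟩ := vwalk (a + 1) Y h
    obtain ⟨A2, hA2⟩ := hwalk (a + 1) a h
    refine ⟨(a + 1, Y), A1.append A2, rfl, ?_⟩
    intro w hw
    rw [SimpleGraph.Walk.mem_support_append_iff] at hw
    rcases hw with hw | hw
    · have h1 := hA1 w hw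
      refine ⟨by omega, by omega, by omega, by simp only; omega, ?_⟩
      rintro (h2 | h2 | h2)
      · have := hβ w h2
        omega
      · omega
      · omega
    · have h1 := hA2 w hw
      refine ⟨by omega, by omega, by omega, by simp only; omega, ?_⟩
      rintro (h2 | h2 | h2)
      · have h3 := hβ w h2
        have h4 : w = (a, h) := Prod.ext (by simp only; omega) h1.1
        exact hu2 (h4 ▸ h2)
      · omega
      · omega
  · obtain ⟨A1, hA1⟩ := vwalk a Y h
    refine ⟨(a, Y), A1, rfl, ?_⟩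
    intro w hw
    have h1 := hA1 w hw
    refine ⟨by omega, by omega, by omega, by simp only; omega, ?_⟩
    rintro (h2 | h2 | h2)
    · have h3 := hu w h2
      have h4 : w = (a, h) := Prod.ext h1.1 (by simp only; omega)
      exact hu2 (h4 ▸ h2)
    · omega
    · omega

private theorem high {x1 x2 b b' Y : ℤ} {v : V} {β : List V} (h12 : x1 ≤ x2)
    (hβ : ∀ w ∈ β, x1 ≤ w.1 ∧ w.1 ≤ x2) (hb : ((x1, b) : V) ∈ β) (hb' : ((x2, b') : V) ∈ β)
    (hv1 : x1 ≤ v.1 ∧ v.1 ≤ x2) (hY : v.2 ≤ Y) (hv2 : v ∉ β)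
    (hv : (v.1 = x1 ∧ b ≤ v.2) ∨ (v.1 = x2 ∧ b' ≤ v.2) ∨ ∀ w ∈ β, w.2 ≤ v.2) :
    ∃ (z : V) (L : lattice.Walk v z), z.2 = Y ∧ ∀ w ∈ L.support,
      x1 - 2 ≤ w.1 ∧ w.1 ≤ x2 + 2 ∧ v.2 ≤ w.2 ∧ w.2 ≤ Y ∧ ¬ Bx x1 x2 b b' β w := by
  obtain ⟨a, h⟩ := v
  simp only at hv1 hY hv
  rcases hv with hu | hu | hu
  · obtain ⟨ha, hh⟩ := hu
    subst ha
    have hne : h ≠ b := by
      intro e
      exact hv2 (e ▸ hb)
    obtain ⟨A1, hA1⟩ := vwalk (a - 1) h Y
    obtain ⟨A2, hA2⟩ := hwalk a (a - 1) h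
    refine ⟨(a - 1, Y), A2.append A1, rfl, ?_⟩
    intro w hw
    rw [SimpleGraph.Walk.mem_support_append_iff] at hw
    rcases hw with hw | hw
    · have h1 := hA2 w hw
      refine ⟨by omega, by omega, by simp only; omega, by omega, ?_⟩
      rintro (h2 | h2 | h2)
      · have h3 := hβ w h2
        have h4 : w = (a, h) := Prod.ext (by simp only; omega) h1.1
        exact hv2 (h4 ▸ h2)
      · omega
      · omega
    · have h1 := hA1 w hw
      refine ⟨by omega, by omega, by simp only; omega, by omega, ?_⟩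
      rintro (h2 | h2 | h2)
      · have := hβ w h2
        omega
      · omega
      · omega
  · obtain ⟨ha, hh⟩ := hu
    subst ha
    have hne : h ≠ b' := by
      intro e
      exact hv2 (e ▸ hb')
    obtain ⟨A1, hA1⟩ := vwalk (a + 1) h Y
    obtain ⟨A2, hA2⟩ := hwalk a (a + 1) h
    refine ⟨(a + 1, Y), A2.append A1, rfl, ?_⟩
    intro w hw
    rw [SimpleGraph.Walk.mem_support_append_iff] at hw
    rcases hw with hw | hw
    · have h1 := hA2 w hw
      refine ⟨by omega, by omega, by simp only; omega, by omega, ?_⟩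
      rintro (h2 | h2 | h2)
      · have h3 := hβ w h2
        have h4 : w = (a, h) := Prod.ext (by simp only; omega) h1.1
        exact hv2 (h4 ▸ h2)
      · omega
      · omega
    · have h1 := hA1 w hw
      refine ⟨by omega, by omega, by simp only; omega, by omega, ?_⟩
      rintro (h2 | h2 | h2)
      · have := hβ w h2
        omega
      · omega
      · omega
  · obtain ⟨A1, hA1⟩ := vwalk a h Y
    refine ⟨(a, Y), A1, rfl, ?_⟩
    intro w hw
    have h1 := hA1 w hw
    refine ⟨by omega, by omega, by simp only; omega, by omega, ?_⟩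
    rintro (h2 | h2 | h2)
    · have h3 := hu w h2
      have h4 : w = (a, h) := Prod.ext h1.1 (by simp only; omega)
      exact hv2 (h4 ▸ h2)
    · omega
    · omega

theorem side_cross {x1 x2 b b' : ℤ} {u v : V} (β : lattice.Walk ((x1, b) : V) (x2, b'))
    (G : lattice.Walk u v) (hβ : ∀ w ∈ β.support, x1 ≤ w.1 ∧ w.1 ≤ x2)
    (hG : ∀ w ∈ G.support, x1 ≤ w.1 ∧ w.1 ≤ x2)
    (hu : (u.1 = x1 ∧ u.2 ≤ b) ∨ (u.1 = x2 ∧ u.2 ≤ b') ∨ ∀ w ∈ β.support, u.2 ≤ w.2)
    (hv : (v.1 = x1 ∧ b ≤ v.2) ∨ (v.1 = x2 ∧ b' ≤ v.2) ∨ ∀ w ∈ β.support, w.2 ≤ v.2) :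
    ∃ w, w ∈ β.support ∧ w ∈ G.support := by
  by_cases huβ : u ∈ β.support
  · exact ⟨u, huβ, G.start_mem_support⟩
  by_cases hvβ : v ∈ β.support
  · exact ⟨v, hvβ, G.end_mem_support⟩
  have hb := β.start_mem_support
  have hb' := β.end_mem_support
  have h12 : x1 ≤ x2 := (hβ _ hb).2
  have hu1 := hG _ G.start_mem_support
  have hv1 := hG _ G.end_mem_support
  obtain ⟨Y1, Y2, hY⟩ := bdd (β.support ++ G.support)
  have hYβ : ∀ w ∈ β.support, Y1 ≤ w.2 ∧ w.2 ≤ Y2 := fun w hw =>
    hY w (List.mem_append.2 (Or.inl hw))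
  have hYG : ∀ w ∈ G.support, Y1 ≤ w.2 ∧ w.2 ≤ Y2 := fun w hw =>
    hY w (List.mem_append.2 (Or.inr hw))
  have hYu := hYG _ G.start_mem_support
  have hYv := hYG _ G.end_mem_support
  have hYb := hYβ _ hb
  have hYb' := hYβ _ hb'
  simp only at hYb hYb'
  obtain ⟨z, L, hz, hL⟩ := low h12 hβ hb hb' hu1 hYu.1 huβ hu
  obtain ⟨z', U, hz', hU⟩ := high h12 hβ hb hb' hv1 hYv.2 hvβ hv
  obtain ⟨H1, hH1⟩ := hwalk (x1 - 2) x1 b
  obtain ⟨H2, hH2⟩ := hwalk x2 (x2 + 2) b'
  obtain ⟨w, hw1, hw2⟩ := lrbt (x1 := x1 - 2) (x2 := x2 + 2) (y1 := Y1) (y2 := Y2)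
    (H1.append (β.append H2)) (L.append (G.append U)) rfl rfl hz hz' (by
      intro w hw
      rw [SimpleGraph.Walk.mem_support_append_iff, SimpleGraph.Walk.mem_support_append_iff] at hw
      rcases hw with hw | hw | hw
      · have := hH1 w hw
        omega
      · have h1 := hβ w hw
        have h2 := hYβ w hw
        omega
      · have := hH2 w hw
        omega) (by
      intro w hw
      rw [SimpleGraph.Walk.mem_support_append_iff, SimpleGraph.Walk.mem_support_append_iff] at hw
      rcases hw with hw | hw | hw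
      · have := hL w hw
        omega
      · have h1 := hG w hw
        have h2 := hYG w hw
        omega
      · have := hU w hw
        omega)
  have hB : Bx x1 x2 b b' β.support w := by
    rw [SimpleGraph.Walk.mem_support_append_iff, SimpleGraph.Walk.mem_support_append_iff] at hw1
    rcases hw1 with hw | hw | hw
    · have h1 := hH1 w hw
      by_cases h2 : w.1 < x1
      · exact Or.inr (Or.inl ⟨h2, h1.1⟩)
      · have h3 : w = (x1, b) := Prod.ext (by simp only; omega) h1.1
        exact Or.inl (h3 ▸ hb)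
    · exact Or.inl hw
    · have h1 := hH2 w hw
      by_cases h2 : x2 < w.1
      · exact Or.inr (Or.inr ⟨h2, h1.1⟩)
      · have h3 : w = (x2, b') := Prod.ext (by simp only; omega) h1.1
        exact Or.inl (h3 ▸ hb')
  rw [SimpleGraph.Walk.mem_support_append_iff, SimpleGraph.Walk.mem_support_append_iff] at hw2
  rcases hw2 with hw | hw | hw
  · exact absurd hB (hL w hw).2.2.2.2
  · have h1 := hG w hw
    rcases hB with h2 | h2 | h2
    · exact ⟨w, h2, hw⟩
    · omega
    · omega
  · exact absurd hB (hU w hw).2.2.2.2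

end Pool.Agent.Work.MP_9a767b_pr.U
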