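import Pool.Agent.Work.MP_9a767b_pr.Metric

/-!
# Steep: a counting lemma for steep stretches (deterministic)

Compare `Backtrack.lean`, which has a very similar proof.

PROOF. Write `B_b = ∑_{i<k} T (bk+i) (bk+i+1)` (the cost of block `b`), `E_b = max (B_b - Cw k) 0`. For
`i, j` in the same block (closed block `[bk, (b+1)k]`) `T i j ≤ B_b ≤ Cw k + E_b`.
GREEDY CHOICE: let `r_1` be the least element of `bad`, `j_1 ≥ r_1 + K` with
`T r_1 j_1 + φ j_1 ≤ φ r_1 + D`, `j_1 ≤ mk`; let `r_2` be the least element of `bad` that is `≥ j_1`, and so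
on. We get `N ≤ mk/K` intervals `[r_i, j_i] ⊆ [0, mk]` with disjoint interiors, of length `≥ K ≥ 2k`,
and every element of `bad` is in some `[r_i, j_i)`; so `card bad ≤ S := ∑ (j_i - r_i)`.
(a) LOWER BOUND for `∑ T r_i j_i`: `T 0 (mk) ≤ ∑ T r_i j_i + ∑_{gaps} T j_i r_(i+1)` (with `j_0 = 0`,
`r_(N+1) = mk`). A gap consists of full blocks, whose cost is at most `F + max (T_b - F) 0` with
`T_b = T (bk) ((b+1)k)`, and at most two parts of blocks (costs at most `Cw k + E_b`). The number of
full blocks in gaps is at most `m - S/k`. A block contains at most one `j_i` and one `r_i` in its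
interior (the intervals have length `≥ 2k`), so
`∑ T r_i j_i ≥ T 0 (mk) - F m + (F/k) S - ∑_b max (T_b - F) 0 - 2 N Cw k - 2 ∑_b E_b`.
(b) UPPER BOUND for `∑ (φ r_i - φ j_i)`: `[r_i, j_i]` consists of full blocks, on which `φ` decreases by
at most `s k + max (φ(bk) - φ((b+1)k) - s k) 0`, and two parts of blocks, on which it decreases by at
most `Cw k + E_b` (`hφ`). The number of full blocks inside the intervals times `k` is at most `S`, and
`s ≥ 0`, so `∑ (φ r_i - φ j_i) ≤ s S + ∑_b max (φ(bk) - φ((b+1)k) - sk) 0 + 2 N Cw k + 2 ∑_b E_b`.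
(c) `T r_i j_i ≤ φ r_i - φ j_i + D`. Combine: `(F/k - s) S ≤` right side of the statement, with
`N ≤ m k / K`. Finally `card bad ≤ S` and `s ≤ F/k`.
(In Lean it is convenient to prove by strong induction on the number of remaining bad elements /
on `m` a statement about the part of the line to the right of a given point, as in
`Backtrack.lean`.)
-/

open MeasureTheory ProbabilityTheory Filter Topology

namespace Pool.Agent.Work.MP_9a767b_pr.U

theorem steep (T : ℕ → ℕ → ℝ) (φ : ℕ → ℝ) (hT0 : ∀ i j, 0 ≤ T i j) (hTs : ∀ i, T i i = 0)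
    (hTc : ∀ i j, T i j = T j i) (hTt : ∀ i j l, T i l ≤ T i j + T j l)
    (hφ : ∀ i j, φ i ≤ T i j + φ j) (k K m : ℕ) (hk : 0 < k) (hkK : 2 * k ≤ K) (F s Cw D : ℝ)
    (hF : 0 ≤ F) (hs0 : 0 ≤ s) (hs : s ≤ F / k) (hC : 0 ≤ Cw) (hD : 0 ≤ D) (bad : Finset ℕ)
    (hb : ∀ r ∈ bad, ∃ j, r + K ≤ j ∧ j ≤ m * k ∧ T r j + φ j ≤ φ r + D) :
    (F / k - s) * bad.card ≤
      ∑ b ∈ Finset.range m, max (φ (b * k) - φ ((b + 1) * k) - s * k) 0
      + (F * m - T 0 (m * k))
      + ∑ b ∈ Finset.range m, max (T (b * k) ((b + 1) * k) - F) 0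
      + 4 * ∑ b ∈ Finset.range m,
          max ((∑ i ∈ Finset.range k, T (b * k + i) (b * k + i + 1)) - Cw * k) 0
      + ((m : ℝ) * k / K) * (4 * Cw * k + D) := by
  classical
  obtain ⟨t, ht⟩ : ∃ t : ℕ → ℝ, ∀ i, t i = T i (i + 1) := ⟨_, fun _ => rfl⟩
  obtain ⟨A, hA⟩ : ∃ A : ℕ → ℝ, ∀ b, A b = max (φ (b * k) - φ ((b + 1) * k) - s * k) 0 :=
    ⟨_, fun _ => rfl⟩
  obtain ⟨E1, hE1⟩ : ∃ E1 : ℕ → ℝ, ∀ b, E1 b = max (T (b * k) ((b + 1) * k) - F) 0 :=
    ⟨_, fun _ => rfl⟩
  obtain ⟨E2, hE2⟩ : ∃ E2 : ℕ → ℝ, ∀ b, E2 b =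
      max ((∑ i ∈ Finset.range k, T (b * k + i) (b * k + i + 1)) - Cw * k) 0 := ⟨_, fun _ => rfl⟩
  simp_rw [← hA, ← hE1, ← hE2]
  have ht0 : ∀ i, 0 ≤ t i := fun i => by rw [ht]; exact hT0 _ _
  have hA0 : ∀ b, 0 ≤ A b := fun b => by rw [hA]; exact le_max_right _ _
  have hE10 : ∀ b, 0 ≤ E1 b := fun b => by rw [hE1]; exact le_max_right _ _
  have hE20 : ∀ b, 0 ≤ E2 b := fun b => by rw [hE2]; exact le_max_right _ _
  have hA1 : ∀ b, φ (b * k) - φ ((b + 1) * k) ≤ s * k + A b := fun b => by
    have := le_max_left (φ (b * k) - φ ((b + 1) * k) - s * k) 0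
    rw [hA]; linarith
  have hE11 : ∀ b, T (b * k) ((b + 1) * k) ≤ F + E1 b := fun b => by
    have := le_max_left (T (b * k) ((b + 1) * k) - F) 0
    rw [hE1]; linarith
  have hE21 : ∀ b, ∑ i ∈ Finset.Ico (b * k) ((b + 1) * k), t i ≤ Cw * k + E2 b := fun b => by
    have h1 := le_max_left ((∑ i ∈ Finset.range k, T (b * k + i) (b * k + i + 1)) - Cw * k) 0
    rw [Finset.sum_Ico_eq_sum_range, show (b + 1) * k - b * k = k by
      rw [add_mul, one_mul]; omega, hE2]
    simp only [ht]
    linarith
  have chain : ∀ a b, a ≤ b → T a b ≤ ∑ i ∈ Finset.Ico a b, t i := by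
    intro a b hab
    induction b, hab using Nat.le_induction with
    | base => simp [hTs]
    | succ b hab ih =>
      rw [Finset.sum_Ico_succ_top hab, ht b]
      have := hTt a b (b + 1)
      linarith
  have drop : ∀ b1 b2, b1 ≤ b2 → φ (b1 * k) - φ (b2 * k) ≤
      s * ((b2 : ℝ) * k - b1 * k) + ∑ b ∈ Finset.Ico b1 b2, A b := by
    intro b1 b2 hb
    induction b2, hb using Nat.le_induction with
    | base => simp
    | succ b hab ih =>
      rw [Finset.sum_Ico_succ_top hab]
      have := hA1 b
      push_cast at this ⊢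
      nlinarith
  obtain ⟨G, hG⟩ : ∃ G : ℕ → ℝ, ∀ b, G b = A b + E1 b + E2 b := ⟨_, fun _ => rfl⟩
  have hG0 : ∀ b, 0 ≤ G b := fun b => by
    rw [hG]
    have := hA0 b
    have := hE10 b
    have := hE20 b
    linarith
  have hGmono : ∀ a b, a ≤ b → ∑ i ∈ Finset.Ico b m, G i ≤ ∑ i ∈ Finset.Ico a m, G i := by
    intro a b hab
    exact Finset.sum_le_sum_of_subset_of_nonneg (Finset.Ico_subset_Ico_left hab)
      fun _ _ _ => hG0 _
  have hK : 0 < K := by omega
  -- the main induction
  have main : ∀ n p, p + n = m * k → ∃ M L n1 : ℕ, (bad.filter (fun r => p ≤ r)).card ≤ L ∧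
      M * K ≤ L ∧ n1 * k + L ≤ n ∧
      T p (m * k) ≤ F * n1 + s * L + M * (D + 2 * Cw * k) +
        ∑ b ∈ Finset.Ico ((p + (k - 1)) / k) m, G b +
        ∑ i ∈ Finset.Ico p ((p + (k - 1)) / k * k), t i := by
    intro n
    induction n using Nat.strong_induction_on with
    | _ n ih =>
    intro p hp
    -- block of `p`
    obtain ⟨b, hbdef⟩ : ∃ b, b = p / k := ⟨_, rfl⟩
    have hb1 : b * k ≤ p := hbdef ▸ Nat.div_mul_le_self p k
    have hb2 : p < (b + 1) * k := by
      rw [hbdef, add_mul, one_mul]; exact Nat.lt_div_mul_add hk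
    have hbk : (b + 1) * k = b * k + k := by ring
    rcases Nat.eq_zero_or_pos n with rfl | hn
    · refine ⟨0, 0, 0, ?_, by simp, by simp, ?_⟩
      · rw [nonpos_iff_eq_zero, Finset.card_eq_zero, Finset.filter_eq_empty_iff]
        rintro r hr hpr
        obtain ⟨j, hj, hj2, -⟩ := hb r hr
        omega
      · rw [show p = m * k by omega, hTs]
        have h1 : 0 ≤ ∑ b ∈ Finset.Ico ((m * k + (k - 1)) / k) m, G b :=
          Finset.sum_nonneg fun _ _ => hG0 _
        have h2 : 0 ≤ ∑ i ∈ Finset.Ico (m * k) ((m * k + (k - 1)) / k * k), t i :=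
          Finset.sum_nonneg fun _ _ => ht0 _
        simp only [Nat.cast_zero, mul_zero, zero_mul, zero_add]
        linarith
    have hbm : b + 1 ≤ m := by
      by_contra hcon
      have : m * k ≤ b * k := Nat.mul_le_mul_right k (by omega)
      omega
    have hbmk : (b + 1) * k ≤ m * k := Nat.mul_le_mul_right k hbm
    -- value of the ceiling
    have hceil : ∀ x y, y * k ≤ x → x < (y + 1) * k → (x = y * k ∧ (x + (k - 1)) / k = y) ∨
        (x ≠ y * k ∧ (x + (k - 1)) / k = y + 1) := by
      intro x y h1 h2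
      by_cases h : x = y * k
      · left
        refine ⟨h, ?_⟩
        rw [Nat.div_eq_iff hk]
        constructor
        · omega
        · rw [h]; have : (y + 1) * k = y * k + k := by ring
          omega
      · right
        refine ⟨h, ?_⟩
        rw [Nat.div_eq_iff hk]
        have e1 : (y + 1) * k = y * k + k := by ring
        constructor
        · omega
        · omega
    by_cases hex : ∃ r ∈ bad, p ≤ r ∧ r < (b + 1) * k
    · -- a bad element in the block: the least one
      have hne : (bad.filter (fun r => p ≤ r)).Nonempty := by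
        obtain ⟨r, hr, h1, -⟩ := hex
        exact ⟨r, Finset.mem_filter.2 ⟨hr, h1⟩⟩
      obtain ⟨r, hrdef⟩ : ∃ r, r = (bad.filter (fun r => p ≤ r)).min' hne := ⟨_, rfl⟩
      have hrmem : r ∈ bad.filter (fun r => p ≤ r) := hrdef ▸ Finset.min'_mem _ hne
      have hrmin : ∀ x ∈ bad, p ≤ x → r ≤ x := fun x hx hx2 => by
        rw [hrdef]; exact Finset.min'_le _ _ (Finset.mem_filter.2 ⟨hx, hx2⟩)
      have hr : r ∈ bad := (Finset.mem_filter.1 hrmem).1
      have hpr : p ≤ r := (Finset.mem_filter.1 hrmem).2
      have hre : r < (b + 1) * k := by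
        obtain ⟨x, hx, h1, h2⟩ := hex
        exact (hrmin x hx h1).trans_lt h2
      obtain ⟨j, hj, hj2, hj3⟩ := hb r hr
      obtain ⟨M, L, n1, h1, h2, h3, h4⟩ := ih (m * k - j) (by omega) j (by omega)
      obtain ⟨c, hcdef⟩ : ∃ c, c = j / k := ⟨_, rfl⟩
      have hc1 : c * k ≤ j := hcdef ▸ Nat.div_mul_le_self j k
      have hc2 : j < (c + 1) * k := by
        rw [hcdef, add_mul, one_mul]; exact Nat.lt_div_mul_add hk
      have hck : (c + 1) * k = c * k + k := by ring
      have hbc : b + 1 ≤ c := by
        by_contra hcon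
        have : (c + 1) * k ≤ (b + 1) * k := Nat.mul_le_mul_right k (by omega)
        omega
      have hbck : (b + 1) * k ≤ c * k := Nat.mul_le_mul_right k hbc
      refine ⟨M + 1, L + (j - r), n1, ?_, ?_, by omega, ?_⟩
      · have hsub : bad.filter (fun r => p ≤ r) ⊆
            bad.filter (fun r => j ≤ r) ∪ Finset.Ico r j := by
          intro x hx
          rw [Finset.mem_filter] at hx
          rw [Finset.mem_union, Finset.mem_filter, Finset.mem_Ico]
          have := hrmin x hx.1 hx.2
          by_cases hxx : j ≤ x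
          · exact Or.inl ⟨hx.1, hxx⟩
          · exact Or.inr ⟨this, by omega⟩
        have hc := (Finset.card_le_card hsub).trans (Finset.card_union_le _ _)
        rw [Nat.card_Ico] at hc
        omega
      · have : (M + 1) * K = M * K + K := by ring
        omega
      · have t1 := hTt p r (m * k)
        have t2 := hTt r j (m * k)
        have q1 := chain p r hpr
        have q2 := (hφ r ((b + 1) * k))
        have q3 := chain r ((b + 1) * k) hre.le
        have q4 := Finset.sum_Ico_consecutive t hpr hre.le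
        have q5 := drop (b + 1) c hbc
        have q6 := hφ (c * k) j
        have q7 := chain (c * k) j hc1
        have hjr : ((j - r : ℕ) : ℝ) = j - r := by
          rw [Nat.cast_sub (by omega)]
        have hsle : s * ((c : ℝ) * k - ((b + 1 : ℕ) : ℝ) * k) ≤ s * (j - r) := by
          have e1 : ((c : ℝ) * k) ≤ j := by exact_mod_cast hc1
          have e2 : (r : ℝ) ≤ ((b + 1 : ℕ) : ℝ) * k := by exact_mod_cast hre.le
          exact mul_le_mul_of_nonneg_left (by linarith) hs0
        -- the right part
        have hright : ∑ i ∈ Finset.Ico (c * k) j, t i +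
            ∑ b ∈ Finset.Ico ((j + (k - 1)) / k) m, G b +
            ∑ i ∈ Finset.Ico j ((j + (k - 1)) / k * k), t i ≤
            Cw * k + ∑ b ∈ Finset.Ico c m, G b := by
          rcases hceil j c hc1 hc2 with ⟨e1, e2⟩ | ⟨e1, e2⟩
          · rw [e2, e1, Finset.Ico_self, Finset.sum_empty]
            have : 0 ≤ Cw * k := by positivity
            linarith
          · rw [e2]
            have e3 : c < m := by
              by_contra hcon
              have : m * k ≤ c * k := Nat.mul_le_mul_right k (by omega)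
              omega
            have e4 := Finset.sum_Ico_consecutive t hc1 hc2.le
            have e5 := hE21 c
            rw [Finset.sum_eq_sum_Ico_succ_bot e3]
            have e6 := hG c
            have := hA0 c
            have := hE10 c
            linarith
        have hAG : ∑ x ∈ Finset.Ico (b + 1) c, A x + ∑ x ∈ Finset.Ico c m, G x ≤
            ∑ x ∈ Finset.Ico (b + 1) m, G x := by
          have hcm : c ≤ m := by
            by_contra hcon
            have : (m + 1) * k ≤ c * k := Nat.mul_le_mul_right k (by omega)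
            have : (m + 1) * k = m * k + k := by ring
            omega
          rw [← Finset.sum_Ico_consecutive G hbc hcm]
          have : ∑ x ∈ Finset.Ico (b + 1) c, A x ≤ ∑ x ∈ Finset.Ico (b + 1) c, G x :=
            Finset.sum_le_sum fun x _ => by
              rw [hG]
              have := hE10 x
              have := hE20 x
              linarith
          linarith
        -- the left part
        have hleft : ∑ i ∈ Finset.Ico p ((b + 1) * k), t i +
            ∑ x ∈ Finset.Ico (b + 1) m, G x ≤ Cw * k +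
            ∑ b ∈ Finset.Ico ((p + (k - 1)) / k) m, G b +
            ∑ i ∈ Finset.Ico p ((p + (k - 1)) / k * k), t i := by
          rcases hceil p b hb1 hb2 with ⟨e1, e2⟩ | ⟨e1, e2⟩
          · rw [e2, e1, Finset.Ico_self, Finset.sum_empty,
              Finset.sum_eq_sum_Ico_succ_bot (show b < m by omega)]
            have e5 := hE21 b
            have e6 := hG b
            have := hA0 b
            have := hE10 b
            linarith
          · rw [e2]
            have : 0 ≤ Cw * k := by positivity
            linarith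
        have hpush : ((M + 1 : ℕ) : ℝ) * (D + 2 * Cw * k) =
            M * (D + 2 * Cw * k) + (D + 2 * Cw * k) := by push_cast; ring
        have hpush2 : s * ((L + (j - r) : ℕ) : ℝ) = s * L + s * (j - r) := by
          rw [Nat.cast_add, hjr]; ring
        rw [hpush, hpush2]
        linarith
    · -- no bad element in the rest of the block
      push Not at hex
      obtain ⟨M, L, n1, h1, h2, h3, h4⟩ := ih (m * k - (b + 1) * k) (by omega) ((b + 1) * k)
        (by omega)
      have hce : ((b + 1) * k + (k - 1)) / k = b + 1 := by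
        rcases hceil ((b + 1) * k) (b + 1) le_rfl (by rw [add_mul (b + 1)]; omega) with h | h
        · exact h.2
        · exact absurd rfl h.1
      rw [hce, Finset.Ico_self, Finset.sum_empty] at h4
      have hcard : (bad.filter (fun r => p ≤ r)).card ≤ L := by
        refine le_trans (Finset.card_le_card ?_) h1
        intro x hx
        simp only [Finset.mem_filter] at *
        refine ⟨hx.1, ?_⟩
        by_contra hcon
        exact absurd (hex x hx.1 hx.2) (by omega)
      have t1 := hTt p ((b + 1) * k) (m * k)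
      rcases hceil p b hb1 hb2 with ⟨e1, e2⟩ | ⟨e1, e2⟩
      · refine ⟨M, L, n1 + 1, hcard, h2, ?_, ?_⟩
        · have : (n1 + 1) * k = n1 * k + k := by ring
          omega
        · rw [e2, e1, Finset.Ico_self, Finset.sum_empty,
            Finset.sum_eq_sum_Ico_succ_bot (show b < m by omega)]
          have e5 := hE11 b
          have e6 := hG b
          have := hA0 b
          have := hE20 b
          rw [e1] at t1
          push_cast
          linarith
      · refine ⟨M, L, n1, hcard, h2, by omega, ?_⟩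
        rw [e2]
        have e5 := chain p ((b + 1) * k) hb2.le
        linarith
  obtain ⟨M, L, n1, h1, h2, h3, h4⟩ := main (m * k) 0 (by omega)
  have hc0 : (0 + (k - 1)) / k = 0 := by
    rw [Nat.div_eq_zero_iff]; right; omega
  rw [hc0, zero_mul, Finset.Ico_self, Finset.sum_empty] at h4
  have hcard : bad.card ≤ L := by
    rw [Finset.filter_true_of_mem (fun _ _ => Nat.zero_le _)] at h1
    exact h1
  have hkR : (0 : ℝ) < k := by exact_mod_cast hk
  have hKR : (0 : ℝ) < K := by exact_mod_cast hK
  have h2R : (M : ℝ) * K ≤ L := by exact_mod_cast h2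
  have h3R : (n1 : ℝ) * k + L ≤ (m : ℝ) * k := by exact_mod_cast h3
  have hcR : (bad.card : ℝ) ≤ L := by exact_mod_cast hcard
  have hLm : (L : ℝ) ≤ (m : ℝ) * k := by
    have : (0 : ℝ) ≤ (n1 : ℝ) * k := by positivity
    linarith
  have hM : (M : ℝ) ≤ (m : ℝ) * k / K := by
    rw [le_div_iff₀ hKR]; linarith
  have hn1 : F * n1 ≤ F * m - F / k * L := by
    have e1 : F * n1 = F / k * (n1 * k) := by field_simp
    have e2 : F * m = F / k * (m * k) := by field_simp
    have e3 : 0 ≤ F / k := by positivity
    rw [e1, e2]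
    nlinarith
  have hMb : (M : ℝ) * (D + 2 * Cw * k) ≤ ((m : ℝ) * k / K) * (4 * Cw * k + D) := by
    have : D + 2 * Cw * k ≤ 4 * Cw * k + D := by
      have : 0 ≤ Cw * k := by positivity
      linarith
    exact mul_le_mul hM this (by positivity) (by positivity)
  have hsumG : ∑ b ∈ Finset.Ico 0 m, G b = ∑ b ∈ Finset.range m, A b +
      ∑ b ∈ Finset.range m, E1 b + ∑ b ∈ Finset.range m, E2 b := by
    rw [← Finset.range_eq_Ico, ← Finset.sum_add_distrib, ← Finset.sum_add_distrib]
    exact Finset.sum_congr rfl fun b _ => hG b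
  have hE2s : 0 ≤ ∑ b ∈ Finset.range m, E2 b := Finset.sum_nonneg fun _ _ => hE20 _
  have hfin : (F / k - s) * bad.card ≤ (F / k - s) * L :=
    mul_le_mul_of_nonneg_left hcR (by linarith)
  rw [hsumG] at h4
  linarith

end Pool.Agent.Work.MP_9a767b_pr.U
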