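import Pool.Agent.Work.MP_9a767b_pr.U.Steep
import Pool.Agent.Work.MP_9a767b_pr.U.AvgSlope
import Pool.Agent.Work.MP_9a767b_pr.BadSum

/-!
# SteepExp: long steep stretches are rare for an average over targets

Notation: `N = Nm (g ν)`, `μ = N 1 0 > 0`; `σ2 = (σ1 + μ)/2 ∈ (σ1, μ)` (we may assume `σ1 ≥ 0`, replace
`σ1` by `max σ1 0`).

PROOF. Let `ε1 > 0` be small (see the end). `avg_slope` with `σ1, σ2, c, ε1` gives `η0` and `k0`; `η = η0/2`
(and `η ≤ η0/3`). `exists_block` gives `k` as large as we want (use `exists_block` in the form of its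
proof, or note that its three statements hold for all large `k`: `nm_tendsto_int`, `lln`/`step_lln`;
if `exists_block` only gives some `k`, reprove it for all large `k`) with `F := g ν (k,0)`,
`k μ ≤ F ≤ k (μ + ε1)`, `E |T 0 (k,0) - F| ≤ ε1 k`,
`E |∑_{j<k} T (j,0) (j+1,0) - k g ν (1,0)| ≤ ε1 k`, and `k ≥ k0`. `Cw = g ν (1,0)`. Let
`K1 ≥ 2k` with `(4 Cw k + D)/K1 ≤ ε1`.
Let `1 ≤ W ≤ η n` (if `W < K1` the events are empty), `m = 2W/k + 1` (natural division) so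
`2W ≤ m k ≤ 2 W + k`. Fix `s`, `z = (q s, s + W)`, and apply `steep` to
`T i j = T ω (0,i) (0,j)`, `φ i = T ω (0,i) z`, `K = K1`, `s := σ2`, `F`, `Cw`, `D`, and `bad` = the set of
`r < W` for which there is `j` with `K1 ≤ j ≤ W` and
`T (0,r) (0,r+j) + T (0,r+j) z ≤ T (0,r) z + D` (`r + j ≤ 2 W ≤ m k`). Take expectations. By translation
by `(0,r)` the probability that `r` is bad is the probability in the statement. The expectation of
the right side, summed over `s ∈ [S0,S1)`: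
* `φ(bk) - φ((b+1)k) ≤ T_b := T (0,bk) (0,(b+1)k)`, so
  `max (φ(bk) - φ((b+1)k) - σ2 k) 0 ≤ max (T_b - F) 0 + F 1{φ(bk) - φ((b+1)k) ≥ σ2 k}`; the event is, by
  translation by `(0,bk)`, the event of `avg_slope` with `t = W - bk`, `|t| ≤ 2W + k ≤ η0 n` for large
  `n`. So the sum over `s` of the expectations is at most `(S1-S0) (ε1 k + F ε1)`.
* `F m - E T 0 (0, mk) ≤ m ε1 k` (`g ν (mk, 0) ≥ m k μ` by `nm_le` and `nm_axis`).
* `E max (T_b - F) 0 ≤ ε1 k`; the fourth term has expectation at most `4 m ε1 k` (use the symmetry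
  `swp` to go from horizontal to vertical segments).
* the last term is at most `m k ε1`.
Altogether `(μ - σ2) ∑_s E card bad ≤ (S1 - S0) m k ε1 (2 + (μ + ε1) + 1 + 1 + 4 + 1)` and
`m k ≤ 2 W + k ≤ 3 W`. Choose `ε1` so that this is at most `(μ - σ2) ε W (S1 - S0)`.
-/

open MeasureTheory ProbabilityTheory Filter Topology

namespace Pool.Agent.Work.MP_9a767b_pr.U

/-- `exists_block` for all large `k`. -/
private theorem block_all {ν : Measure ℝ} [IsProbabilityMeasure ν]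
    (hI : Integrable (fun ω => T ω 0 (1, 0)) (Q ν)) {ε : ℝ} (hε : 0 < ε) :
    ∃ k1 : ℕ, ∀ k : ℕ, k1 ≤ k → 0 < k → g ν (k, 0) ≤ k * (Nm (g ν) 1 0 + ε) ∧
      ∫ ω, |T ω 0 (k, 0) - g ν (k, 0)| ∂(Q ν) ≤ ε * k ∧
      ∫ ω, |(∑ j ∈ Finset.range k, T ω (j, 0) ((j : ℤ) + 1, 0)) - k * g ν (1, 0)| ∂(Q ν)
        ≤ ε * k := by
  set μ := Nm (g ν) 1 0 with hμ
  obtain ⟨m1, hm1⟩ := lln hI (1, 0) (half_pos hε)
  obtain ⟨m2, hm2⟩ := step_lln hI (1, 0) hε
  refine ⟨m1 + m2 + 1, fun k hkm hk0' => ?_⟩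
  have h1 := hm1 k (by omega)
  have h2 := hm2 k (by omega) 0
  have e0 : (k : ℤ) • ((1, 0) : V) = ((k : ℤ), 0) := by ext <;> simp
  rw [e0] at h1
  simp only [Int.cast_one, Int.cast_zero] at h1
  rw [← hμ] at h1
  have iT := integrable_T hI 0 ((k : ℤ), 0)
  have h3 : |g ν (k, 0) - k * μ| ≤ ε / 2 * k := by
    refine le_trans ?_ h1
    have e : g ν (k, 0) - k * μ = ∫ ω, (T ω 0 (k, 0) - k * μ) ∂(Q ν) := by
      rw [integral_sub iT (integrable_const _)]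
      simp [g]
    rw [e]
    exact abs_integral_le_integral_abs
  have hk0 : (0 : ℝ) < k := by exact_mod_cast hk0'
  refine ⟨?_, ?_, ?_⟩
  · have := (abs_le.1 h3).2
    nlinarith
  · have hpt : ∀ ω, |T ω 0 (k, 0) - g ν (k, 0)| ≤ |T ω 0 (k, 0) - k * μ| + |g ν (k, 0) - k * μ| := by
      intro ω
      have e : T ω 0 (k, 0) - g ν (k, 0) = (T ω 0 (k, 0) - k * μ) - (g ν (k, 0) - k * μ) := by ring
      rw [e]
      exact abs_sub _ _
    have i1 : Integrable (fun ω => |T ω 0 (k, 0) - k * μ|) (Q ν) :=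
      (iT.sub (integrable_const _)).abs
    have hint := integral_mono ((iT.sub (integrable_const (g ν (k, 0)))).abs)
      (i1.add (integrable_const |g ν (k, 0) - k * μ|)) hpt
    have e1 : ∫ ω, (|T ω 0 (k, 0) - k * μ| + |g ν (k, 0) - k * μ|) ∂(Q ν) =
        ∫ ω, |T ω 0 (k, 0) - k * μ| ∂(Q ν) + |g ν (k, 0) - k * μ| := by
      rw [integral_add i1 (integrable_const _)]; simp
    have h4 : ∫ ω, |T ω 0 (k, 0) - g ν (k, 0)| ∂(Q ν) ≤
        ∫ ω, |T ω 0 (k, 0) - k * μ| ∂(Q ν) + |g ν (k, 0) - k * μ| := hint.trans (le_of_eq e1)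
    linarith
  · refine le_trans (le_of_eq ?_) h2
    refine integral_congr_ae (Eventually.of_forall fun ω => ?_)
    simp only
    congr 2
    refine Finset.sum_congr rfl fun j _ => ?_
    have e1 : (0 : V) + (j : ℤ) • ((1, 0) : V) = ((j : ℤ), 0) := by ext <;> simp
    have e2 : (0 : V) + ((j : ℤ) + 1) • ((1, 0) : V) = ((j : ℤ) + 1, 0) := by ext <;> simp
    rw [e1, e2]

/-- Block passage times on the vertical axis. -/
private theorem vert_block {ν : Measure ℝ} [IsProbabilityMeasure ν] (k : ℕ) (F η : ℝ)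
    (h1 : ∫ ω, |T ω 0 (k, 0) - F| ∂(Q ν) ≤ η) (b : ℕ) :
    ∫ ω, |T ω (0, ((b * k : ℕ) : ℤ)) (0, (((b + 1) * k : ℕ) : ℤ)) - F| ∂(Q ν) ≤ η := by
  refine le_trans (le_of_eq ?_) h1
  have hm : Measurable (fun ω : Cfg => |T ω 0 (k, 0) - F|) :=
    ((measurable_T _ _).sub measurable_const).abs
  rw [← integral_comp_act ν swp _ hm,
    ← integral_comp_act ν (trans (0, ((b * k : ℕ) : ℤ))) (fun ω => |T (act swp ω) 0 (k, 0) - F|)
      (hm.comp (measurable_act swp))]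
  refine integral_congr_ae (Eventually.of_forall fun ω => ?_)
  simp only [T_swp, T_trans]
  congr 3
  ext
  · simp
  · simp; ring

private theorem vert_steps {ν : Measure ℝ} [IsProbabilityMeasure ν] (k : ℕ) (F η : ℝ)
    (h1 : ∫ ω, |(∑ j ∈ Finset.range k, T ω (j, 0) ((j : ℤ) + 1, 0)) - F| ∂(Q ν) ≤ η) (b : ℕ) :
    ∫ ω, |(∑ i ∈ Finset.range k, T ω (0, ((b * k + i : ℕ) : ℤ)) (0, ((b * k + i + 1 : ℕ) : ℤ))) - F|
      ∂(Q ν) ≤ η := by
  refine le_trans (le_of_eq ?_) h1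
  have hm : Measurable (fun ω : Cfg =>
      |(∑ j ∈ Finset.range k, T ω (j, 0) ((j : ℤ) + 1, 0)) - F|) :=
    ((Finset.measurable_sum _ fun _ _ => measurable_T _ _).sub measurable_const).abs
  rw [← integral_comp_act ν swp _ hm,
    ← integral_comp_act ν (trans (0, ((b * k : ℕ) : ℤ)))
      (fun ω => |(∑ j ∈ Finset.range k, T (act swp ω) (j, 0) ((j : ℤ) + 1, 0)) - F|)
      (hm.comp (measurable_act swp))]
  refine integral_congr_ae (Eventually.of_forall fun ω => ?_)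
  simp only [T_swp, T_trans, Prod.mk_add_mk, add_zero]
  congr 2

private theorem ev_meas (K1 W : ℕ) (D : ℝ) (p : V) (u : ℕ → V) (z : V) :
    MeasurableSet {ω : Cfg | ∃ j : ℕ, K1 ≤ j ∧ j ≤ W ∧
      T ω p (u j) + T ω (u j) z ≤ T ω p z + D} := by
  have : {ω : Cfg | ∃ j : ℕ, K1 ≤ j ∧ j ≤ W ∧
      T ω p (u j) + T ω (u j) z ≤ T ω p z + D} =
      ⋃ j : ℕ, {ω : Cfg | K1 ≤ j ∧ j ≤ W ∧ T ω p (u j) + T ω (u j) z ≤ T ω p z + D} := by
    ext ω; simp
  rw [this]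
  refine MeasurableSet.iUnion fun j => ?_
  by_cases h1 : K1 ≤ j
  · by_cases h2 : j ≤ W
    · simp only [h1, h2, true_and]
      exact measurableSet_le ((measurable_T _ _).add (measurable_T _ _))
        ((measurable_T _ _).add_const _)
    · simp only [h2, false_and, and_false]
      exact MeasurableSet.empty
  · simp only [h1, false_and]
    exact MeasurableSet.empty

open Classical in
/-- The bad positions. -/
private noncomputable def bad (ω : Cfg) (K1 W : ℕ) (D : ℝ) (z : V) : Finset ℕ :=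
  (Finset.range W).filter fun r => ∃ j : ℕ, K1 ≤ j ∧ j ≤ W ∧
    T ω (0, (r : ℤ)) (0, (r : ℤ) + j) + T ω (0, (r : ℤ) + j) z ≤ T ω (0, (r : ℤ)) z + D

private theorem card_bad (ω : Cfg) (K1 W : ℕ) (D : ℝ) (z : V) :
    ((bad ω K1 W D z).card : ℝ) = ∑ r ∈ Finset.range W,
      Set.indicator {ω : Cfg | ∃ j : ℕ, K1 ≤ j ∧ j ≤ W ∧
        T ω (0, (r : ℤ)) (0, (r : ℤ) + j) + T ω (0, (r : ℤ) + j) z ≤ T ω (0, (r : ℤ)) z + D}
        (fun _ => (1 : ℝ)) ω := by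
  classical
  unfold bad
  rw [Finset.card_filter]
  push_cast
  refine Finset.sum_congr rfl fun r _ => ?_
  simp only [Set.indicator_apply, Set.mem_ofPred_eq]

private theorem int_card_bad (ν : Measure ℝ) [IsProbabilityMeasure ν] (K1 W : ℕ) (D : ℝ) (z : V) :
    Integrable (fun ω => ((bad ω K1 W D z).card : ℝ)) (Q ν) ∧
    ∫ ω, ((bad ω K1 W D z).card : ℝ) ∂(Q ν) = ∑ r ∈ Finset.range W,
      (Q ν).real {ω : Cfg | ∃ j : ℕ, K1 ≤ j ∧ j ≤ W ∧
        T ω (0, (r : ℤ)) (0, (r : ℤ) + j) + T ω (0, (r : ℤ) + j) z ≤ T ω (0, (r : ℤ)) z + D} := by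
  have hm : ∀ r : ℕ, MeasurableSet {ω : Cfg | ∃ j : ℕ, K1 ≤ j ∧ j ≤ W ∧
        T ω (0, (r : ℤ)) (0, (r : ℤ) + j) + T ω (0, (r : ℤ) + j) z ≤ T ω (0, (r : ℤ)) z + D} :=
    fun r => ev_meas K1 W D (0, (r : ℤ)) (fun j => (0, (r : ℤ) + j)) z
  have hi : ∀ r ∈ Finset.range W, Integrable (Set.indicator {ω : Cfg | ∃ j : ℕ, K1 ≤ j ∧ j ≤ W ∧
        T ω (0, (r : ℤ)) (0, (r : ℤ) + j) + T ω (0, (r : ℤ) + j) z ≤ T ω (0, (r : ℤ)) z + D}
        (fun _ => (1 : ℝ))) (Q ν) := fun r _ => (integrable_const (1 : ℝ)).indicator (hm r)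
  simp only [card_bad]
  refine ⟨integrable_finsetSum _ hi, ?_⟩
  rw [integral_finsetSum _ hi]
  refine Finset.sum_congr rfl fun r _ => ?_
  rw [integral_indicator (hm r)]
  simp [Measure.real]

/-- The expected number of bad positions for one target. -/
private theorem one_target {ν : Measure ℝ} [IsProbabilityMeasure ν]
    (hI : Integrable (fun ω => T ω 0 (1, 0)) (Q ν)) (k K m : ℕ) (hk : 0 < k) (hkK : 2 * k ≤ K)
    (σ ε D : ℝ) (hσ0 : 0 ≤ σ) (hσ : σ ≤ g ν (k, 0) / k) (hD : 0 ≤ D)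
    (h1 : ∫ ω, |T ω 0 (k, 0) - g ν (k, 0)| ∂(Q ν) ≤ ε * k)
    (h2 : ∫ ω, |(∑ j ∈ Finset.range k, T ω (j, 0) ((j : ℤ) + 1, 0)) - k * g ν (1, 0)| ∂(Q ν)
        ≤ ε * k) (W : ℕ) (hW : 2 * W ≤ m * k) (z : V) :
    (g ν (k, 0) / k - σ) * ∑ r ∈ Finset.range W,
      (Q ν).real {ω : Cfg | ∃ j : ℕ, K ≤ j ∧ j ≤ W ∧
        T ω (0, (r : ℤ)) (0, (r : ℤ) + j) + T ω (0, (r : ℤ) + j) z ≤ T ω (0, (r : ℤ)) z + D} ≤
      g ν (k, 0) * ∑ b ∈ Finset.range m, (Q ν).real {ω : Cfg | σ * k ≤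
        T ω (0, ((b * k : ℕ) : ℤ)) z - T ω (0, (((b + 1) * k : ℕ) : ℤ)) z}
      + (g ν (k, 0) * m - g ν ((m : ℤ) * k, 0)) + 6 * m * (ε * k)
      + ((m : ℝ) * k / K) * (4 * g ν (1, 0) * k + D) := by
  have hsub := subSym_g hI
  set F := g ν (k, 0) with hF
  set f1 := g ν (1, 0) with hf1
  have hF0 : 0 ≤ F := hsub.nonneg _
  have hf0 : 0 ≤ f1 := hsub.nonneg _
  have hkR : (0 : ℝ) < k := by exact_mod_cast hk
  obtain ⟨icard, ecard⟩ := int_card_bad ν K W D z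
  rw [← ecard]
  let D1 : ℕ → Cfg → ℝ := fun b ω =>
    |T ω (0, ((b * k : ℕ) : ℤ)) (0, (((b + 1) * k : ℕ) : ℤ)) - F|
  let D2 : ℕ → Cfg → ℝ := fun b ω => |(∑ i ∈ Finset.range k,
    T ω (0, ((b * k + i : ℕ) : ℤ)) (0, ((b * k + i + 1 : ℕ) : ℤ))) - k * f1|
  let A : ℕ → Set Cfg := fun b => {ω : Cfg | σ * k ≤
        T ω (0, ((b * k : ℕ) : ℤ)) z - T ω (0, (((b + 1) * k : ℕ) : ℤ)) z}
  have hAm : ∀ b, MeasurableSet (A b) := fun b =>
    measurableSet_le measurable_const ((measurable_T _ _).sub (measurable_T _ _))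
  let D3 : ℕ → Cfg → ℝ := fun b => Set.indicator (A b) (fun _ => (1 : ℝ))
  have hpt : ∀ ω, (F / k - σ) * ((bad ω K W D z).card : ℝ) ≤
      ((((F * m - T ω (0, ((0 : ℕ) : ℤ)) (0, ((m * k : ℕ) : ℤ))) + 2 * ∑ b ∈ Finset.range m, D1 b ω)
        + 4 * ∑ b ∈ Finset.range m, D2 b ω) + F * ∑ b ∈ Finset.range m, D3 b ω)
        + ((m : ℝ) * k / K) * (4 * f1 * k + D) := by
    intro ω
    have hb := steep (fun i j => T ω (0, (i : ℤ)) (0, (j : ℤ))) (fun i => T ω (0, (i : ℤ)) z)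
      (fun i j => T_nonneg _ _ _) (fun i => T_self _ _) (fun i j => T_comm _ _ _)
      (fun i j l => T_triangle _ _ _ _) (fun i j => T_triangle _ _ _ _) k K m hk hkK F σ f1 D hF0
      hσ0 hσ hf0 hD (bad ω K W D z)
      (fun r hr => by
        classical
        unfold bad at hr
        rw [Finset.mem_filter, Finset.mem_range] at hr
        obtain ⟨hr1, j, hj1, hj2, hj3⟩ := hr
        refine ⟨r + j, by omega, by omega, ?_⟩
        push_cast
        exact hj3)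
    refine hb.trans ?_
    have e1 : ∑ b ∈ Finset.range m, max (T ω (0, ((b * k : ℕ) : ℤ)) (0, (((b + 1) * k : ℕ) : ℤ)) - F) 0
        ≤ ∑ b ∈ Finset.range m, D1 b ω :=
      Finset.sum_le_sum fun l _ => max_le (le_abs_self _) (abs_nonneg _)
    have e2 : ∑ b ∈ Finset.range m, max ((∑ i ∈ Finset.range k,
        T ω (0, ((b * k + i : ℕ) : ℤ)) (0, ((b * k + i + 1 : ℕ) : ℤ))) - f1 * k) 0
        ≤ ∑ b ∈ Finset.range m, D2 b ω := by
      refine Finset.sum_le_sum fun l _ => ?_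
      rw [mul_comm f1]
      exact max_le (le_abs_self _) (abs_nonneg _)
    have e3 : ∑ b ∈ Finset.range m, max (T ω (0, ((b * k : ℕ) : ℤ)) z -
        T ω (0, (((b + 1) * k : ℕ) : ℤ)) z - σ * k) 0 ≤
        ∑ b ∈ Finset.range m, D1 b ω + F * ∑ b ∈ Finset.range m, D3 b ω := by
      rw [Finset.mul_sum, ← Finset.sum_add_distrib]
      refine Finset.sum_le_sum fun b _ => ?_
      have t1 := T_triangle ω (0, ((b * k : ℕ) : ℤ)) (0, (((b + 1) * k : ℕ) : ℤ)) z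
      have t2 := le_abs_self (T ω (0, ((b * k : ℕ) : ℤ)) (0, (((b + 1) * k : ℕ) : ℤ)) - F)
      have t3 := abs_nonneg (T ω (0, ((b * k : ℕ) : ℤ)) (0, (((b + 1) * k : ℕ) : ℤ)) - F)
      by_cases hω : ω ∈ A b
      · have e : D3 b ω = 1 := Set.indicator_of_mem hω _
        rw [e]
        refine max_le ?_ (by positivity)
        have : 0 ≤ σ * k := by positivity
        simp only [D1]
        linarith
      · have e : D3 b ω = 0 := Set.indicator_of_notMem hω _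
        rw [e, mul_zero, add_zero]
        have hω' : ¬ (σ * k ≤
          T ω (0, ((b * k : ℕ) : ℤ)) z - T ω (0, (((b + 1) * k : ℕ) : ℤ)) z) := hω
        refine max_le ?_ t3
        simp only [D1]
        linarith
    linarith
  have iT := fun x y => integrable_T hI x y
  have iD1 : ∀ b, Integrable (D1 b) (Q ν) := fun b => ((iT _ _).sub (integrable_const _)).abs
  have iD2 : ∀ b, Integrable (D2 b) (Q ν) := fun b =>
    ((integrable_finsetSum _ fun _ _ => iT _ _).sub (integrable_const _)).abs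
  have iD3 : ∀ b, Integrable (D3 b) (Q ν) := fun b => (integrable_const (1 : ℝ)).indicator (hAm b)
  have iS1 : Integrable (fun ω => ∑ b ∈ Finset.range m, D1 b ω) (Q ν) :=
    integrable_finsetSum _ fun l _ => iD1 l
  have iS2 : Integrable (fun ω => ∑ b ∈ Finset.range m, D2 b ω) (Q ν) :=
    integrable_finsetSum _ fun l _ => iD2 l
  have iS3 : Integrable (fun ω => ∑ b ∈ Finset.range m, D3 b ω) (Q ν) :=
    integrable_finsetSum _ fun l _ => iD3 l
  have i1 := iT (0, ((0 : ℕ) : ℤ)) (0, ((m * k : ℕ) : ℤ))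
  have ii1 := (integrable_const (μ := Q ν) (F * (m : ℝ))).sub i1
  have ii2 := ii1.add (iS1.const_mul 2)
  have ii3 := ii2.add (iS2.const_mul 4)
  have ii4 := ii3.add (iS3.const_mul F)
  have ii5 := ii4.add (integrable_const (μ := Q ν) (((m : ℝ) * k / K) * (4 * f1 * k + D)))
  have hint := integral_mono (icard.const_mul (F / k - σ)) ii5 hpt
  rw [integral_const_mul] at hint
  refine hint.trans ?_
  have a5 := integral_add (μ := Q ν) ii4 (integrable_const (((m : ℝ) * k / K) * (4 * f1 * k + D)))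
  have a4 := integral_add (μ := Q ν) ii3 (iS3.const_mul F)
  have a3 := integral_add (μ := Q ν) ii2 (iS2.const_mul 4)
  have a2 := integral_add (μ := Q ν) ii1 (iS1.const_mul 2)
  have a1 := integral_sub (μ := Q ν) (integrable_const (F * (m : ℝ))) i1
  simp only [Pi.add_apply, Pi.sub_apply] at a5 a4 a3 a2 a1 ⊢
  have s1 : ∫ ω, 2 * ∑ l ∈ Finset.range m, D1 l ω ∂(Q ν) =
      2 * ∑ l ∈ Finset.range m, ∫ ω, D1 l ω ∂(Q ν) := by
    rw [integral_const_mul, integral_finsetSum _ fun l _ => iD1 l]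
  have s2 : ∫ ω, 4 * ∑ l ∈ Finset.range m, D2 l ω ∂(Q ν) =
      4 * ∑ l ∈ Finset.range m, ∫ ω, D2 l ω ∂(Q ν) := by
    rw [integral_const_mul, integral_finsetSum _ fun l _ => iD2 l]
  have s3 : ∫ ω, F * ∑ l ∈ Finset.range m, D3 l ω ∂(Q ν) =
      F * ∑ l ∈ Finset.range m, ∫ ω, D3 l ω ∂(Q ν) := by
    rw [integral_const_mul, integral_finsetSum _ fun l _ => iD3 l]
  rw [a5, a4, a3, a2, a1, s1, s2, s3, integral_T, integral_const, integral_const]
  have b1 : ∀ l, ∫ ω, D1 l ω ∂(Q ν) ≤ ε * k := fun l => vert_block k F (ε * k) h1 l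
  have b2 : ∀ l, ∫ ω, D2 l ω ∂(Q ν) ≤ ε * k := fun l => vert_steps k (k * f1) (ε * k) h2 l
  have b3 : ∀ l, ∫ ω, D3 l ω ∂(Q ν) = (Q ν).real (A l) := by
    intro l
    simp only [D3]
    rw [integral_indicator (hAm l)]
    simp [Measure.real]
  have c1 : ∑ l ∈ Finset.range m, ∫ ω, D1 l ω ∂(Q ν) ≤ m * (ε * k) := by
    refine (Finset.sum_le_sum fun l _ => b1 l).trans ?_
    simp
  have c2 : ∑ l ∈ Finset.range m, ∫ ω, D2 l ω ∂(Q ν) ≤ m * (ε * k) := by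
    refine (Finset.sum_le_sum fun l _ => b2 l).trans ?_
    simp
  have c3 : ∑ l ∈ Finset.range m, ∫ ω, D3 l ω ∂(Q ν) = ∑ l ∈ Finset.range m, (Q ν).real (A l) :=
    Finset.sum_congr rfl fun l _ => b3 l
  have d1 : ((0, ((m * k : ℕ) : ℤ)) : V) - (0, ((0 : ℕ) : ℤ)) = ((0, (m : ℤ) * k) : V) := by
    ext <;> simp
  rw [d1, c3, hsub.swap]
  simp only [probReal_univ, one_smul]
  linarith

theorem steep_exp {ν : Measure ℝ} [IsProbabilityMeasure ν]
    (hI : Integrable (fun ω => T ω 0 (1, 0)) (Q ν)) (hμ : 0 < Nm (g ν) 1 0) {q : ℕ} (hq : 0 < q)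
    {c D ε : ℝ} (hσ : Nm (g ν) q 2 - Nm (g ν) q 1 < Nm (g ν) 1 0) (hc : 0 < c) (hD : 0 ≤ D)
    (hε : 0 < ε) :
    ∃ η > 0, ∃ K1 : ℕ, 0 < K1 ∧ ∃ n0 : ℕ, ∀ n : ℕ, n0 ≤ n → ∀ S0 S1 : ℕ,
      c * n ≤ S0 → (S0 : ℝ) + c * n ≤ S1 → S1 ≤ n → ∀ W : ℕ, (W : ℝ) ≤ η * n →
      ∑ s ∈ Finset.Ico S0 S1, ∑ r ∈ Finset.range W, (Q ν).real {ω | ∃ j : ℕ, K1 ≤ j ∧ j ≤ W ∧
        T ω 0 (0, (j : ℤ)) + T ω (0, (j : ℤ)) ((q : ℤ) * s, (s : ℤ) + W - r) ≤
          T ω 0 ((q : ℤ) * s, (s : ℤ) + W - r) + D} ≤ ε * (W * (S1 - S0)) := by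
  have hsub := subSym_g hI
  set μ := Nm (g ν) 1 0 with hμd
  set σ1 : ℝ := max (Nm (g ν) q 2 - Nm (g ν) q 1) 0 with hσ1
  have hσ10 : 0 ≤ σ1 := le_max_right _ _
  have hσ11 : σ1 < μ := max_lt hσ hμ
  set σ2 : ℝ := (σ1 + μ) / 2 with hσ2
  have h12 : σ1 < σ2 := by rw [hσ2]; linarith
  have h2μ : σ2 < μ := by rw [hσ2]; linarith
  have hσ20 : 0 ≤ σ2 := by linarith
  set ε1 : ℝ := min 1 (ε * (μ - σ2) / (3 * (9 + μ))) with hε1
  have hε10 : 0 < ε1 := by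
    refine lt_min one_pos ?_
    have : 0 < μ - σ2 := by linarith
    positivity
  have hε11 : ε1 ≤ 1 := min_le_left _ _
  have hε12 : ε1 * (3 * (9 + μ)) ≤ ε * (μ - σ2) := by
    have := min_le_right 1 (ε * (μ - σ2) / (3 * (9 + μ)))
    rw [← hε1, le_div_iff₀ (by positivity)] at this
    exact this
  obtain ⟨η, hη, k0, hav⟩ := avg_slope hI hq (σ1 := σ1) (σ2 := σ2) (c := c) (ε := ε1)
    (le_max_left _ _) h12 hc hε10
  obtain ⟨k1, hbl⟩ := block_all hI hε10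
  set k := k0 + k1 + 1 with hk
  have hk0 : 0 < k := by omega
  have hkR : (0 : ℝ) < k := by exact_mod_cast hk0
  obtain ⟨hkF, hk1, hk2⟩ := hbl k (by omega) hk0
  obtain ⟨n0, hn0⟩ := hav k (by omega) hk0
  set F := g ν (k, 0) with hF
  set f1 := g ν (1, 0) with hf1
  have hf0 : 0 ≤ f1 := hsub.nonneg _
  have hFk : k * μ ≤ F := by
    have h1 := (isNm hsub).ge1 (k : ℝ) 0
    have h2 := nm_le hsub ((k : ℤ), 0)
    simp only [Int.cast_natCast, Int.cast_zero] at h2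
    rw [abs_of_pos hkR] at h1
    linarith
  have hF0 : 0 ≤ F := hsub.nonneg _
  have hμk : μ ≤ F / k := by rw [le_div_iff₀ hkR]; linarith
  obtain ⟨c1, hc1⟩ := exists_nat_ge ((4 * f1 * k + D) / ε1)
  refine ⟨η, hη, 2 * k + c1, by omega, n0, fun n hn S0 S1 hS0 hS1 hS1n W hW => ?_⟩
  set K := 2 * k + c1 with hK
  have hKR : (0 : ℝ) < K := by exact_mod_cast (by omega : 0 < K)
  have hKε : (4 * f1 * k + D) / K ≤ ε1 := by
    rw [div_le_iff₀ hKR]
    have : (4 * f1 * k + D) / ε1 ≤ K := hc1.trans (by exact_mod_cast (by omega : c1 ≤ K))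
    rw [div_le_iff₀ hε10] at this
    linarith
  have hn' : (0 : ℝ) ≤ n := Nat.cast_nonneg n
  have hSS : (0 : ℝ) ≤ (S1 : ℝ) - S0 := by
    have : 0 ≤ c * n := by positivity
    linarith
  have hSle : S0 ≤ S1 := by
    have : (S0 : ℝ) ≤ S1 := by linarith
    exact_mod_cast this
  by_cases hWK : W < K
  · refine le_trans (le_of_eq ?_) (show (0 : ℝ) ≤ ε * (W * (S1 - S0)) by positivity)
    refine Finset.sum_eq_zero fun s _ => Finset.sum_eq_zero fun r _ => ?_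
    have : {ω : Cfg | ∃ j : ℕ, K ≤ j ∧ j ≤ W ∧
        T ω 0 (0, (j : ℤ)) + T ω (0, (j : ℤ)) ((q : ℤ) * s, (s : ℤ) + W - r) ≤
          T ω 0 ((q : ℤ) * s, (s : ℤ) + W - r) + D} = ∅ := by
      ext ω
      simp only [Set.mem_ofPred_eq, Set.mem_empty_iff_false, iff_false]
      rintro ⟨j, h1, h2, -⟩
      omega
    rw [this, measureReal_empty]
  push Not at hWK
  set m := 2 * W / k + 1 with hm
  have hm1 : 2 * W ≤ m * k := by
    have := Nat.lt_div_mul_add (a := 2 * W) hk0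
    rw [hm, add_mul, one_mul]; omega
  have hm2 : (m - 1) * k ≤ 2 * W := by
    rw [hm, Nat.add_sub_cancel]; exact Nat.div_mul_le_self _ _
  have hm3 : m * k ≤ 3 * W := by
    have : m * k = (m - 1) * k + k := by rw [hm, Nat.add_sub_cancel]; ring
    omega
  have hm3R : (m : ℝ) * k ≤ 3 * W := by exact_mod_cast hm3
  -- one target
  have hone : ∀ s : ℕ, (F / k - σ2) * ∑ r ∈ Finset.range W, (Q ν).real {ω | ∃ j : ℕ, K ≤ j ∧ j ≤ W ∧
        T ω 0 (0, (j : ℤ)) + T ω (0, (j : ℤ)) ((q : ℤ) * s, (s : ℤ) + W - r) ≤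
          T ω 0 ((q : ℤ) * s, (s : ℤ) + W - r) + D} ≤
      F * ∑ b ∈ Finset.range m, (Q ν).real {ω | T ω (0, (k : ℤ)) ((q : ℤ) * s, s + ((W : ℤ) - b * k)) ≤
          T ω 0 ((q : ℤ) * s, s + ((W : ℤ) - b * k)) - σ2 * k}
      + m * (k * ε1) * 8 := by
    intro s
    have h := one_target hI k K m hk0 (by omega) σ2 ε1 D hσ20 (by linarith) hD hk1 hk2 W hm1
      ((q : ℤ) * s, (s : ℤ) + W)
    have e1 : ∀ r : ℕ, (Q ν).real {ω : Cfg | ∃ j : ℕ, K ≤ j ∧ j ≤ W ∧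
        T ω (0, (r : ℤ)) (0, (r : ℤ) + j) + T ω (0, (r : ℤ) + j) ((q : ℤ) * s, (s : ℤ) + W) ≤
          T ω (0, (r : ℤ)) ((q : ℤ) * s, (s : ℤ) + W) + D} =
        (Q ν).real {ω | ∃ j : ℕ, K ≤ j ∧ j ≤ W ∧
        T ω 0 (0, (j : ℤ)) + T ω (0, (j : ℤ)) ((q : ℤ) * s, (s : ℤ) + W - r) ≤
          T ω 0 ((q : ℤ) * s, (s : ℤ) + W - r) + D} := by
      intro r
      rw [← real_act ν (trans (0, (r : ℤ))) _ (ev_meas K W D 0 (fun j => (0, (j : ℤ)))
        ((q : ℤ) * s, (s : ℤ) + W - r))]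
      congr 1
      ext ω
      simp only [Set.mem_ofPred_eq, T_trans, add_zero, Prod.mk_add_mk, zero_add]
      have e : (r : ℤ) + ((s : ℤ) + W - r) = (s : ℤ) + W := by ring
      rw [e]
    have e2 : ∀ b : ℕ, (Q ν).real {ω : Cfg | σ2 * k ≤
        T ω (0, ((b * k : ℕ) : ℤ)) ((q : ℤ) * s, (s : ℤ) + W) -
          T ω (0, (((b + 1) * k : ℕ) : ℤ)) ((q : ℤ) * s, (s : ℤ) + W)} =
        (Q ν).real {ω | T ω (0, (k : ℤ)) ((q : ℤ) * s, s + ((W : ℤ) - b * k)) ≤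
          T ω 0 ((q : ℤ) * s, s + ((W : ℤ) - b * k)) - σ2 * k} := by
      intro b
      rw [← real_act ν (trans (0, ((b * k : ℕ) : ℤ))) {ω | T ω (0, (k : ℤ)) ((q : ℤ) * s, s + ((W : ℤ) - b * k)) ≤
          T ω 0 ((q : ℤ) * s, s + ((W : ℤ) - b * k)) - σ2 * k}
        (measurableSet_le (measurable_T _ _) ((measurable_T _ _).sub_const _))]
      congr 1
      ext ω
      simp only [Set.mem_ofPred_eq, T_trans, add_zero, Prod.mk_add_mk, zero_add]
      have e : ((b * k : ℕ) : ℤ) + ((s : ℤ) + ((W : ℤ) - b * k)) = (s : ℤ) + W := by push_cast; ring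
      have e' : ((b * k : ℕ) : ℤ) + (k : ℤ) = (((b + 1) * k : ℕ) : ℤ) := by push_cast; ring
      rw [e, e']
      constructor <;> intro h <;> linarith
    simp only [e1, e2] at h
    refine h.trans ?_
    have b2 : μ * (m * k) ≤ g ν ((m : ℤ) * k, 0) := by
      have h1 := (isNm hsub).ge1 ((m : ℝ) * k) 0
      have h2 := nm_le hsub ((m : ℤ) * k, 0)
      simp only [Int.cast_mul, Int.cast_natCast, Int.cast_zero] at h2
      rw [abs_of_nonneg (by positivity)] at h1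
      linarith
    have b3 : F * m ≤ k * (μ + ε1) * m := by gcongr
    have b5 : ((m : ℝ) * k / K) * (4 * f1 * k + D) ≤ ε1 * (m * k) := by
      have : ((m : ℝ) * k / K) * (4 * f1 * k + D) = ((4 * f1 * k + D) / K) * (m * k) := by ring
      rw [this]
      gcongr
    nlinarith
  have hsum := Finset.sum_le_sum (s := Finset.Ico S0 S1) fun s _ => hone s
  rw [← Finset.mul_sum, Finset.sum_add_distrib, ← Finset.mul_sum,
    Finset.sum_const, Nat.card_Ico, nsmul_eq_mul, Nat.cast_sub hSle] at hsum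
  have hav2 : ∑ b ∈ Finset.range m, ∑ s ∈ Finset.Ico S0 S1,
      (Q ν).real {ω | T ω (0, (k : ℤ)) ((q : ℤ) * s, s + ((W : ℤ) - b * k)) ≤
          T ω 0 ((q : ℤ) * s, s + ((W : ℤ) - b * k)) - σ2 * k} ≤ m * (ε1 * (S1 - S0)) := by
    have : ∀ b ∈ Finset.range m, ∑ s ∈ Finset.Ico S0 S1,
      (Q ν).real {ω | T ω (0, (k : ℤ)) ((q : ℤ) * s, s + ((W : ℤ) - b * k)) ≤
          T ω 0 ((q : ℤ) * s, s + ((W : ℤ) - b * k)) - σ2 * k} ≤ ε1 * (S1 - S0) := by
      intro b hb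
      refine hn0 n hn S0 S1 hS0 hS1 hS1n ((W : ℤ) - b * k) ?_
      have hb1 : b ≤ m - 1 := by have := Finset.mem_range.1 hb; omega
      have hb2 : b * k ≤ 2 * W := (Nat.mul_le_mul_right k hb1).trans hm2
      have hb3 : (b : ℝ) * k ≤ 2 * W := by exact_mod_cast hb2
      have hb4 : (0 : ℝ) ≤ (b : ℝ) * k := by positivity
      push_cast
      refine le_trans ?_ hW
      rw [abs_le]
      constructor <;> linarith
    refine (Finset.sum_le_sum this).trans ?_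
    simp
  rw [Finset.sum_comm] at hav2
  have hX0 : 0 ≤ ∑ s ∈ Finset.Ico S0 S1, ∑ r ∈ Finset.range W, (Q ν).real {ω | ∃ j : ℕ, K ≤ j ∧ j ≤ W ∧
        T ω 0 (0, (j : ℤ)) + T ω (0, (j : ℤ)) ((q : ℤ) * s, (s : ℤ) + W - r) ≤
          T ω 0 ((q : ℤ) * s, (s : ℤ) + W - r) + D} :=
    Finset.sum_nonneg fun s _ => Finset.sum_nonneg fun r _ => measureReal_nonneg
  set X := ∑ s ∈ Finset.Ico S0 S1, ∑ r ∈ Finset.range W, (Q ν).real {ω | ∃ j : ℕ, K ≤ j ∧ j ≤ W ∧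
        T ω 0 (0, (j : ℤ)) + T ω (0, (j : ℤ)) ((q : ℤ) * s, (s : ℤ) + W - r) ≤
          T ω 0 ((q : ℤ) * s, (s : ℤ) + W - r) + D} with hX
  have hd : (μ - σ2) * X ≤ (F / k - σ2) * X := by
    refine mul_le_mul_of_nonneg_right (by linarith) hX0
  have hFm : F * (m * (ε1 * (S1 - S0))) ≤ (k * (μ + ε1)) * (m * (ε1 * (S1 - S0))) := by
    refine mul_le_mul_of_nonneg_right hkF (by positivity)
  have hG := mul_le_mul_of_nonneg_left hav2 hF0
  have hY : (μ - σ2) * X ≤ (m * k) * ((8 + μ + ε1) * (ε1 * (S1 - S0))) := by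
    have h1 := hd.trans hsum
    have h2 := hG.trans hFm
    clear_value X
    linarith
  have hY2 : (m * k) * ((8 + μ + ε1) * (ε1 * (S1 - S0))) ≤
      (3 * W) * ((9 + μ) * (ε1 * (S1 - S0))) := by
    have : 8 + μ + ε1 ≤ 9 + μ := by linarith
    gcongr
  have hY3 : (3 * (W : ℝ)) * ((9 + μ) * (ε1 * (S1 - S0))) ≤ (μ - σ2) * (ε * (W * (S1 - S0))) := by
    have h5 : (ε1 * (3 * (9 + μ))) * (W * (S1 - S0)) ≤ (ε * (μ - σ2)) * (W * (S1 - S0)) :=
      mul_le_mul_of_nonneg_right hε12 (by positivity)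
    linarith
  exact le_of_mul_le_mul_left ((hY.trans hY2).trans hY3) (by linarith)

end Pool.Agent.Work.MP_9a767b_pr.U
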