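import Pool.Agent.Work.MP_9a767b_pr.U.SideCross

/-!
# Strip: crossings of the strip `0 ≤ x ≤ n`

PROOF. All three from `side_cross` with `x1 = 0`, `x2 = n` (destructure the end points).
`cross_strip`: `β = G`, the other walk is `P`: it starts on the column `0` not above the start of
`G` and ends on the column `n` not below the end of `G`. `pocket_left`: `β = P` and the other walk
is `A`, it starts on the column `0` not above the start of `P` and ends on the column `0` not below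
the start of `P`. `pocket_right` in the same way on the column `n`.
-/

open MeasureTheory ProbabilityTheory Filter Topology

namespace Pool.Agent.Work.MP_9a767b_pr.U

theorem cross_strip {n : ℤ} {x y x' y' : V} {P : lattice.Walk x y} {G : lattice.Walk x' y'}
    (hP : IsStrip n P) (hG : IsStrip n G) (h1 : x.2 ≤ x'.2) (h2 : y'.2 ≤ y.2) :
    ∃ z, z ∈ P.support ∧ z ∈ G.support := by
  obtain ⟨hP1, hP2, hP3⟩ := hP
  obtain ⟨hG1, hG2, hG3⟩ := hG
  obtain ⟨x1, x2⟩ := x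
  obtain ⟨y1, y2⟩ := y
  obtain ⟨x1', x2'⟩ := x'
  obtain ⟨y1', y2'⟩ := y'
  simp only at hP1 hP2 hG1 hG2 h1 h2
  subst hP1 hP2
  subst hG1 hG2
  obtain ⟨z, hz1, hz2⟩ := side_cross G P hG3 hP3 (Or.inl ⟨rfl, h1⟩) (Or.inr (Or.inl ⟨rfl, h2⟩))
  exact ⟨z, hz2, hz1⟩

theorem pocket_left {n : ℤ} {x y u u' : V} {P : lattice.Walk x y} (hP : IsStrip n P)
    (A : lattice.Walk u u') (hu : u.1 = 0) (hu' : u'.1 = 0)
    (hA : ∀ z ∈ A.support, 0 ≤ z.1 ∧ z.1 ≤ n) (h1 : u.2 ≤ x.2) (h2 : x.2 ≤ u'.2) :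
    ∃ z, z ∈ P.support ∧ z ∈ A.support := by
  obtain ⟨hP1, hP2, hP3⟩ := hP
  obtain ⟨x1, x2⟩ := x
  obtain ⟨y1, y2⟩ := y
  simp only at hP1 hP2 h1 h2
  subst hP1 hP2
  exact side_cross P A hP3 hA (Or.inl ⟨hu, h1⟩) (Or.inl ⟨hu', h2⟩)

theorem pocket_right {n : ℤ} {x y u u' : V} {P : lattice.Walk x y} (hP : IsStrip n P)
    (A : lattice.Walk u u') (hu : u.1 = n) (hu' : u'.1 = n)
    (hA : ∀ z ∈ A.support, 0 ≤ z.1 ∧ z.1 ≤ n) (h1 : u.2 ≤ y.2) (h2 : y.2 ≤ u'.2) :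
    ∃ z, z ∈ P.support ∧ z ∈ A.support := by
  obtain ⟨hP1, hP2, hP3⟩ := hP
  obtain ⟨x1, x2⟩ := x
  obtain ⟨y1, y2⟩ := y
  simp only at hP1 hP2 h1 h2
  subst hP1 hP2
  exact side_cross P A hP3 hA (Or.inr (Or.inl ⟨hu, h1⟩)) (Or.inr (Or.inl ⟨hu', h2⟩))

end Pool.Agent.Work.MP_9a767b_pr.U
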