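import Pool.Agent.Work.MP_9a767b_pr.U.Strip
import Pool.Agent.Work.MP_9a767b_pr.U.Pieces

/-!
# Through: a crossing of two geodesics is on every geodesic between them

PROOF. Split `βi = βi1.append βi2` and `βl = βl1.append βl2` at `z`
(`SimpleGraph.Walk.take_spec`). All parts are in the strip.
`A = βi1.append βl1.reverse` goes from `ui` to `ul` in the strip, so by `pocket_left` for `βm` there
is `p` on `βm` and on `βi1` or `βl1`. `B = βi2.reverse.append βl2` goes from `vi` to `vl`, so by
`pocket_right` there is `q` on `βm` and on `βi2` or `βl2`.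
CLAIM: there are `p, q` on `βm` with `T p z + T z q = T p q`. If `p ∈ βi1` and `q ∈ βi2`, or
`p ∈ βl1` and `q ∈ βl2`, this is `piece_split`. Otherwise assume `p ∈ βi1`, `q ∈ βl2` (the other
mixed case is symmetric). If `βm` meets `βl1` at some `p'`, then `p', q` are as claimed; if `βm`
meets `βi2` at `q'`, then `p, q'` are as claimed. If `βm` meets neither `βl1` nor `βi2`, consider the
strip walk `M = βl1.append βi2` from `ul` to `vi`: `um.2 ≤ ul.2` and `vi.2 ≤ vm.2`, so `cross_strip`
(with `P = βm`, `G = M`) gives a common vertex of `βm` and `M`, a contradiction. In the other mixed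
case (`p ∈ βl1`, `q ∈ βi2`) use `M = βi1.append βl2` from `ui` to `vl` and `cross_strip` with
`P = M`, `G = βm` (`ui.2 ≤ um.2`, `vm.2 ≤ vl.2`).
CONCLUSION: by `piece_two` for `βm`: if `T xm p + T p q + T q ym = T xm ym` then
`T xm z + T z ym ≤ T xm p + T p z + T z q + T q ym = T xm ym`; if
`T xm q + T q p + T p ym = T xm ym` then `T xm z + T z ym ≤ T xm q + T q z + T z p + T p ym` and
`T q z + T z p = T q p`. The other inequality is the triangle inequality.
-/

open MeasureTheory ProbabilityTheory Filter Topology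

namespace Pool.Agent.Work.MP_9a767b_pr.U

private theorem mem_split {x y z : V} {w1 : lattice.Walk x z} {w2 : lattice.Walk z y} {p : V}
    (h : p ∈ (w1.append w2).support) : p ∈ w1.support ∨ p ∈ w2.support :=
  (SimpleGraph.Walk.mem_support_append_iff w1 w2).1 h

theorem through {ω : Cfg} {n : ℤ} {xi yi xm ym xl yl ui vi um vm ul vl : V}
    {βi : lattice.Walk ui vi} {βm : lattice.Walk um vm} {βl : lattice.Walk ul vl}
    (gi : Piece ω xi yi βi) (gm : Piece ω xm ym βm) (gl : Piece ω xl yl βl)
    (si : IsStrip n βi) (sm : IsStrip n βm) (sl : IsStrip n βl)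
    (h1 : ui.2 ≤ um.2) (h2 : um.2 ≤ ul.2) (h3 : vi.2 ≤ vm.2) (h4 : vm.2 ≤ vl.2)
    {z : V} (hz : z ∈ βi.support) (hz' : z ∈ βl.support) :
    T ω xm z + T ω z ym = T ω xm ym := by
  have hi := SimpleGraph.Walk.take_spec βi hz
  have hl := SimpleGraph.Walk.take_spec βl hz'
  obtain ⟨βi1, βi2, hi⟩ : ∃ (w1 : lattice.Walk ui z) (w2 : lattice.Walk z vi),
    w1.append w2 = βi := ⟨_, _, hi⟩
  obtain ⟨βl1, βl2, hl⟩ : ∃ (w1 : lattice.Walk ul z) (w2 : lattice.Walk z vl),
    w1.append w2 = βl := ⟨_, _, hl⟩
  obtain ⟨si1, si2, si3⟩ := si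
  obtain ⟨sl1, sl2, sl3⟩ := sl
  subst hi hl
  have hi1 : ∀ v ∈ βi1.support, 0 ≤ v.1 ∧ v.1 ≤ n := fun v hv =>
    si3 v ((SimpleGraph.Walk.mem_support_append_iff _ _).2 (Or.inl hv))
  have hi2 : ∀ v ∈ βi2.support, 0 ≤ v.1 ∧ v.1 ≤ n := fun v hv =>
    si3 v ((SimpleGraph.Walk.mem_support_append_iff _ _).2 (Or.inr hv))
  have hl1 : ∀ v ∈ βl1.support, 0 ≤ v.1 ∧ v.1 ≤ n := fun v hv =>
    sl3 v ((SimpleGraph.Walk.mem_support_append_iff _ _).2 (Or.inl hv))
  have hl2 : ∀ v ∈ βl2.support, 0 ≤ v.1 ∧ v.1 ≤ n := fun v hv =>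
    sl3 v ((SimpleGraph.Walk.mem_support_append_iff _ _).2 (Or.inr hv))
  have key : ∃ p q : V, p ∈ βm.support ∧ q ∈ βm.support ∧ T ω p z + T ω z q = T ω p q := by
    obtain ⟨p, hp, hpA⟩ := pocket_left sm (βi1.append βl1.reverse) si1 sl1 (by
      intro v hv
      rcases mem_split hv with h | h
      · exact hi1 v h
      · rw [SimpleGraph.Walk.support_reverse, List.mem_reverse] at h
        exact hl1 v h) h1 h2
    obtain ⟨q, hq, hqB⟩ := pocket_right sm (βi2.reverse.append βl2) si2 sl2 (by
      intro v hv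
      rcases mem_split hv with h | h
      · rw [SimpleGraph.Walk.support_reverse, List.mem_reverse] at h
        exact hi2 v h
      · exact hl2 v h) h3 h4
    have hp' : p ∈ βi1.support ∨ p ∈ βl1.support := by
      rcases mem_split hpA with h | h
      · exact Or.inl h
      · rw [SimpleGraph.Walk.support_reverse, List.mem_reverse] at h
        exact Or.inr h
    have hq' : q ∈ βi2.support ∨ q ∈ βl2.support := by
      rcases mem_split hqB with h | h
      · rw [SimpleGraph.Walk.support_reverse, List.mem_reverse] at h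
        exact Or.inl h
      · exact Or.inr h
    rcases hp' with hpi | hpl
    · rcases hq' with hqi | hql
      · exact ⟨p, q, hp, hq, piece_split βi1 βi2 gi hpi hqi⟩
      · obtain ⟨r, hr1, hr2⟩ := cross_strip (P := βm) (G := βl1.append βi2) sm ⟨sl1, si2, by
          intro v hv
          rcases mem_split hv with h | h
          · exact hl1 v h
          · exact hi2 v h⟩ h2 h3
        rcases mem_split hr2 with h | h
        · exact ⟨r, q, hr1, hq, piece_split βl1 βl2 gl h hql⟩
        · exact ⟨p, r, hp, hr1, piece_split βi1 βi2 gi hpi h⟩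
    · rcases hq' with hqi | hql
      · obtain ⟨r, hr1, hr2⟩ := cross_strip (P := βi1.append βl2) (G := βm) ⟨si1, sl2, by
          intro v hv
          rcases mem_split hv with h | h
          · exact hi1 v h
          · exact hl2 v h⟩ sm h1 h4
        rcases mem_split hr1 with h | h
        · exact ⟨r, q, hr2, hq, piece_split βi1 βi2 gi h hqi⟩
        · exact ⟨p, r, hp, hr2, piece_split βl1 βl2 gl hpl h⟩
      · exact ⟨p, q, hp, hq, piece_split βl1 βl2 gl hpl hql⟩
  obtain ⟨p, q, hp, hq, hpq⟩ := key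
  refine le_antisymm ?_ (T_triangle ω xm z ym)
  rcases piece_two gm hp hq with h | h
  · have a1 := T_triangle ω xm p z
    have a2 := T_triangle ω z q ym
    linarith
  · have a1 := T_triangle ω xm q z
    have a2 := T_triangle ω z p ym
    have a3 : T ω q z = T ω z q := T_comm ω q z
    have a4 : T ω z p = T ω p z := T_comm ω z p
    have a5 : T ω q p = T ω p q := T_comm ω q p
    linarith

end Pool.Agent.Work.MP_9a767b_pr.U
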