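import Pool.Agent.Work.MP_9a767b_pr.U.NoWall
import Pool.Agent.Work.MP_9a767b_pr.U.Insert
import Pool.Agent.Work.MP_9a767b_pr.U.Resample
import Pool.Agent.Work.MP_9a767b_pr.U.SelMeas

/-!
# WallSum: potential walls near three active geodesics are rare

PROOF. Let `h = L (2 R1 + 1)`, `p = ν {x | H ≤ |x|}`, `A_t` the event in the statement, and
`B_t = {ω | PW t ∧ High t ∧ ∀ t' ∈ [t0, t1) with t + q < t' or t' + q < t, ¬ (PW t' ∧ High t')}` (all
with the walks `ga n K ω 0`, `ga n K ω c`).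
(1) `Q(A_t) ≤ 2^h p^(-h) Q(B_t)`: for `y : ℤ` and a subset `S` of `ES L R1 t y` let
`A_(t,y,S) = {ω ∈ A_t | ht (tL) (ga 0) = y, SS = S}` and `B_(t,y) = {ω ∈ B_t | ht (tL) (ga 0) = y}`. If
`ω ∈ A_(t,y,S)`, `ω' = ω` off `S` and `H ≤ |ω'|` on `S`, then `ω' ∈ B_(t,y)` by `insert_wall`: the walks
`ga 0`, `ga c` are the same for `ω'`, there is a wall at `t`, and a wall for `ω'` at `t'` as above would
be a wall for `ω`, which is impossible by `no_wall` (`ω ∈ A_t`, `m ≤ t0 L ≤ t' L`,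
`(t'+1) L ≤ t1 L ≤ n - m`). So by `resample` `Q(A_(t,y,S)) p^(card S) ≤ Q(B_(t,y))`, and `card S ≤ h`,
`p ≤ 1`, so `Q(A_(t,y,S)) ≤ p^(-h) Q(B_(t,y))`. There are at most `2^h` sets `S` (subsets of
`ES L R1 t y`, `card_ES`). Sum over `S` and `y` (the sets `B_(t,y)`, `y : ℤ`, are disjoint with union
`B_t`; `measure_iUnion`).
(2) `∑_t Q(B_t) ≤ q + 1`: for each `ω` the set of `t ∈ [t0,t1)` with `ω ∈ B_t` has at most `q + 1`
elements, since two of them differ by at most `q`. So the sum of the indicator functions is at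
most `q + 1`; integrate.
Measurability: `measurableSet_sel_prop` twice (for fixed walks `w0`, `wc` the conditions `PW`, `High`
are countable intersections of measurable conditions, `ht` is constant), `measurableSet_inI`,
`measurableSet_hasGeo`.
-/

open MeasureTheory ProbabilityTheory Filter Topology

namespace Pool.Agent.Work.MP_9a767b_pr.U

private theorem ws_two {x y x' y' : V} (P : lattice.Walk x y → lattice.Walk x' y' → Cfg → Prop)
    (h : ∀ w w', MeasurableSet {ω : Cfg | P w w' ω}) :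
    MeasurableSet {ω : Cfg | P (sel ω x y) (sel ω x' y') ω} :=
  measurableSet_sel_prop (x := x) (y := y) (fun w ω => P w (sel ω x' y') ω) fun w =>
    measurableSet_sel_prop (x := x') (y := y') (fun w' ω => P w w' ω) fun w' => h w w'

private theorem ws_pw {a b a' b' : V} (L R R1 : ℕ) (C0 κ Z1 : ℝ) (t : ℤ) (w0 : lattice.Walk a b)
    (wc : lattice.Walk a' b') : MeasurableSet {ω : Cfg | PW ω L R R1 C0 κ Z1 t w0 wc} := by
  have hc : ∀ e : Sym2 V, Measurable fun ω : Cfg => |ω e| := fun e =>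
    continuous_abs.measurable.comp (measurable_pi_apply e)
  have h1 : {ω : Cfg | PW ω L R R1 C0 κ Z1 t w0 wc} =
      {ω : Cfg | (ht (t * L) w0 ≤ ht (t * L) wc ∧ ht (t * L) wc ≤ ht (t * L) w0 + R) ∧
        (ht ((t + 1) * L) w0 ≤ ht ((t + 1) * L) wc ∧
          ht ((t + 1) * L) wc ≤ ht ((t + 1) * L) w0 + R)} ∩
      ({ω : Cfg | ∑ i ∈ Finset.range R,
          |ω s((t * L, ht (t * L) w0 + i), (t * L, ht (t * L) w0 + i + 1))| ≤ C0} ∩
      ({ω : Cfg | ∑ i ∈ Finset.range R, |ω s(((t + 1) * L, ht ((t + 1) * L) w0 + i),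
          ((t + 1) * L, ht ((t + 1) * L) w0 + i + 1))| ≤ C0} ∩
      ({ω : Cfg | T ω (t * L, ht (t * L) w0) ((t + 1) * L, ht ((t + 1) * L) w0) ≤ κ} ∩
      ⋂ i : ℕ, ⋂ _ : i ≤ R, ⋂ v : V, ⋂ _ : ¬ (|v.1 - t * L| ≤ R1 ∧ |v.2 - ht (t * L) w0| ≤ R1),
        {ω : Cfg | Z1 ≤ T ω (t * L, ht (t * L) w0 + i) v}))) := by
    ext ω
    simp only [Set.mem_inter_iff, Set.mem_iInter]
    constructor
    · intro h
      exact ⟨⟨h.gap, h.gap'⟩, h.vert, h.vert', h.hor, h.far⟩
    · rintro ⟨⟨h1, h2⟩, h3, h4, h5, h6⟩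
      exact ⟨h1, h2, h3, h4, h5, h6⟩
  rw [h1]
  refine (MeasurableSet.const _).inter (MeasurableSet.inter ?_ (MeasurableSet.inter ?_
    (MeasurableSet.inter ?_ ?_)))
  · exact measurableSet_le (Finset.measurable_sum _ fun i _ => hc _) measurable_const
  · exact measurableSet_le (Finset.measurable_sum _ fun i _ => hc _) measurable_const
  · exact measurableSet_le (measurable_T _ _) measurable_const
  · refine MeasurableSet.iInter fun i => MeasurableSet.iInter fun _ => MeasurableSet.iInter fun v =>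
      MeasurableSet.iInter fun _ => ?_
    exact measurableSet_le measurable_const (measurable_T _ _)

private theorem ws_high {a b a' b' : V} (L R1 : ℕ) (H : ℝ) (t : ℤ) (w0 : lattice.Walk a b)
    (wc : lattice.Walk a' b') : MeasurableSet {ω : Cfg | High ω L R1 H t w0 wc} := by
  have hc : ∀ e : Sym2 V, Measurable fun ω : Cfg => |ω e| := fun e =>
    continuous_abs.measurable.comp (measurable_pi_apply e)
  have h1 : {ω : Cfg | High ω L R1 H t w0 wc} = ⋂ s : ℤ, ⋂ y : ℤ, ⋂ _ : t * L ≤ s,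
      ⋂ _ : s < (t + 1) * L, ⋂ _ : |y - ht (t * L) w0| ≤ R1,
      ⋂ _ : s(((s, y) : V), (s + 1, y)) ∉ w0.edges, ⋂ _ : s(((s, y) : V), (s + 1, y)) ∉ wc.edges,
      {ω : Cfg | H ≤ |ω s((s, y), (s + 1, y))|} := by
    ext ω
    simp only [Set.mem_iInter]
    exact Iff.rfl
  rw [h1]
  refine MeasurableSet.iInter fun s => MeasurableSet.iInter fun y => MeasurableSet.iInter fun _ =>
    MeasurableSet.iInter fun _ => MeasurableSet.iInter fun _ => MeasurableSet.iInter fun _ =>
    MeasurableSet.iInter fun _ => ?_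
  exact measurableSet_le measurable_const (hc _)

private theorem ws_ss {a b a' b' : V} (L R1 : ℕ) (H : ℝ) (t : ℤ) (w0 : lattice.Walk a b)
    (wc : lattice.Walk a' b') (S : Finset (Sym2 V)) :
    MeasurableSet {ω : Cfg | SS ω L R1 H t w0 wc = S} := by
  classical
  have hc : ∀ e : Sym2 V, Measurable fun ω : Cfg => |ω e| := fun e =>
    continuous_abs.measurable.comp (measurable_pi_apply e)
  have h1 : {ω : Cfg | SS ω L R1 H t w0 wc = S} = ⋂ e : Sym2 V,
      {ω : Cfg | (e ∈ ES L R1 t (ht (t * L) w0) ∧ e ∉ w0.edges ∧ e ∉ wc.edges ∧ |ω e| < H) ↔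
        e ∈ S} := by
    ext ω
    simp only [Set.mem_iInter]
    change SS ω L R1 H t w0 wc = S ↔ ∀ e, _
    rw [Finset.ext_iff]
    refine forall_congr' fun e => ?_
    unfold SS
    rw [Finset.mem_filter]
    exact Iff.rfl
  rw [h1]
  refine MeasurableSet.iInter fun e => ?_
  have h2 : MeasurableSet {ω : Cfg | |ω e| < H} := measurableSet_lt (hc e) measurable_const
  by_cases hS : e ∈ S
  · by_cases hk : e ∈ ES L R1 t (ht (t * L) w0) ∧ e ∉ w0.edges ∧ e ∉ wc.edges
    · refine h2.congr ?_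
      ext ω
      change |ω e| < H ↔ (_ ↔ _)
      simp [hS, hk.1, hk.2.1, hk.2.2]
    · refine (MeasurableSet.const False).congr ?_
      ext ω
      change False ↔ (_ ↔ _)
      simp only [hS, iff_true, false_iff]
      rintro ⟨h3, h4, h5, -⟩
      exact hk ⟨h3, h4, h5⟩
  · by_cases hk : e ∈ ES L R1 t (ht (t * L) w0) ∧ e ∉ w0.edges ∧ e ∉ wc.edges
    · refine h2.compl.congr ?_
      ext ω
      change ¬ (|ω e| < H) ↔ (_ ↔ _)
      simp [hS, hk.1, hk.2.1, hk.2.2]
    · refine (MeasurableSet.const True).congr ?_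
      ext ω
      change True ↔ (_ ↔ _)
      simp only [hS, iff_false, true_iff]
      rintro ⟨h3, h4, h5, -⟩
      exact hk ⟨h3, h4, h5⟩

/-- There is a wall at `t`. -/
private def Wl (n K c : ℤ) (L R R1 : ℕ) (C0 κ Z1 H : ℝ) (ω : Cfg) (t : ℤ) : Prop :=
  PW ω L R R1 C0 κ Z1 t (ga n K ω 0) (ga n K ω c) ∧ High ω L R1 H t (ga n K ω 0) (ga n K ω c)

private theorem ws_wl (n K c : ℤ) (L R R1 : ℕ) (C0 κ Z1 H : ℝ) (t : ℤ) :
    MeasurableSet {ω : Cfg | Wl n K c L R R1 C0 κ Z1 H ω t} := by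
  refine ws_two (x := (0, 0 * K)) (y := (n, 0 * K)) (x' := (0, c * K)) (y' := (n, c * K))
    (fun w w' ω => PW ω L R R1 C0 κ Z1 t w w' ∧ High ω L R1 H t w w') fun w w' => ?_
  exact (ws_pw L R R1 C0 κ Z1 t w w').inter (ws_high L R1 H t w w')

theorem wall_sum {ν : Measure ℝ} [IsProbabilityMeasure ν] {n m K c : ℤ} (hK : 0 < K)
    (hm : 0 < m) (hn : 2 * m < n) {L R R1 q : ℕ} {C0 κ Z1 H : ℝ} (hL : 0 < L)
    (hq : R1 + 2 ≤ q * L) (hZ0 : 0 < Z1) (hZ : 2 * C0 + κ < Z1) (hH : 2 * C0 + κ < H * L)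
    (hp : 0 < ν.real {x | H ≤ |x|}) (t0 t1 : ℕ) (h0 : m ≤ (t0 : ℤ) * L)
    (h1 : (t1 : ℤ) * L ≤ n - m) :
    ∑ t ∈ Finset.Ico t0 t1, (Q ν).real {ω | HasGeo ω ∧ InI n m K ω 0 ∧ InI n m K ω c ∧
        (∃ i, 0 < i ∧ i < c ∧ InI n m K ω i) ∧
        PW ω L R R1 C0 κ Z1 t (ga n K ω 0) (ga n K ω c)} ≤
      (q + 1) * (2 ^ (L * (2 * R1 + 1)) / (ν.real {x | H ≤ |x|}) ^ (L * (2 * R1 + 1))) := by
  classical
  set h := L * (2 * R1 + 1) with hh
  set p := ν.real {x | H ≤ |x|} with hpd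
  have hp1 : p ≤ 1 := measureReal_le_one
  have hLz : (0 : ℤ) < L := by exact_mod_cast hL
  let A : ℕ → Set Cfg := fun t => {ω | HasGeo ω ∧ InI n m K ω 0 ∧ InI n m K ω c ∧
        (∃ i, 0 < i ∧ i < c ∧ InI n m K ω i) ∧
        PW ω L R R1 C0 κ Z1 t (ga n K ω 0) (ga n K ω c)}
  let B : ℕ → Set Cfg := fun t => {ω | Wl n K c L R R1 C0 κ Z1 H ω t ∧
    ∀ t' : ℕ, t0 ≤ t' → t' < t1 → (t + q < t' ∨ t' + q < t) → ¬ Wl n K c L R R1 C0 κ Z1 H ω t'}
  have mht : ∀ (t : ℕ) (y : ℤ), MeasurableSet {ω : Cfg | ht (t * L) (ga n K ω 0) = y} := by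
    intro t y
    exact measurableSet_sel_prop (x := (0, 0 * K)) (y := (n, 0 * K))
      (fun w _ => ht ((t : ℤ) * L) w = y) (fun w => MeasurableSet.const _)
  have mSS : ∀ (t : ℕ) (S : Finset (Sym2 V)), MeasurableSet {ω : Cfg |
      SS ω L R1 H t (ga n K ω 0) (ga n K ω c) = S} := by
    intro t S
    exact ws_two (x := (0, 0 * K)) (y := (n, 0 * K)) (x' := (0, c * K)) (y' := (n, c * K))
      (fun w w' ω => SS ω L R1 H t w w' = S) fun w w' => ws_ss L R1 H t w w' S
  have mA : ∀ t, MeasurableSet (A t) := by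
    intro t
    refine measurableSet_hasGeo.inter ((measurableSet_inI n m K 0).inter
      ((measurableSet_inI n m K c).inter (MeasurableSet.inter ?_ ?_)))
    · have : {ω : Cfg | ∃ i, 0 < i ∧ i < c ∧ InI n m K ω i} =
          ⋃ i : ℤ, ⋃ _ : 0 < i, ⋃ _ : i < c, {ω : Cfg | InI n m K ω i} := by
        ext ω
        simp only [Set.mem_iUnion]
        constructor
        · rintro ⟨i, h1, h2, h3⟩
          exact ⟨i, h1, h2, h3⟩
        · rintro ⟨i, h1, h2, h3⟩
          exact ⟨i, h1, h2, h3⟩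
      change MeasurableSet {ω : Cfg | ∃ i, 0 < i ∧ i < c ∧ InI n m K ω i}
      rw [this]
      exact MeasurableSet.iUnion fun i => MeasurableSet.iUnion fun _ => MeasurableSet.iUnion
        fun _ => measurableSet_inI n m K i
    · exact ws_two (x := (0, 0 * K)) (y := (n, 0 * K)) (x' := (0, c * K)) (y' := (n, c * K))
        (fun w w' ω => PW ω L R R1 C0 κ Z1 t w w') fun w w' => ws_pw L R R1 C0 κ Z1 t w w'
  have mB : ∀ t, MeasurableSet (B t) := by
    intro t
    have : B t = {ω : Cfg | Wl n K c L R R1 C0 κ Z1 H ω t} ∩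
        ⋂ t' : ℕ, ⋂ _ : t0 ≤ t', ⋂ _ : t' < t1, ⋂ _ : (t + q < t' ∨ t' + q < t),
          {ω : Cfg | Wl n K c L R R1 C0 κ Z1 H ω t'}ᶜ := by
      ext ω
      simp only [Set.mem_inter_iff, Set.mem_iInter]
      exact Iff.rfl
    rw [this]
    exact (ws_wl _ _ _ _ _ _ _ _ _ _ _).inter (MeasurableSet.iInter fun t' =>
      MeasurableSet.iInter fun _ => MeasurableSet.iInter fun _ => MeasurableSet.iInter fun _ =>
      (ws_wl _ _ _ _ _ _ _ _ _ _ _).compl)
  -- the first step
  have hone : ∀ t ∈ Finset.Ico t0 t1, ∀ (y : ℤ) (S : Finset (Sym2 V)), S.card ≤ h →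
      (Q ν).real (A t ∩ ({ω | ht (t * L) (ga n K ω 0) = y} ∩
        {ω | SS ω L R1 H t (ga n K ω 0) (ga n K ω c) = S})) ≤
      (Q ν).real (B t ∩ {ω | ht (t * L) (ga n K ω 0) = y}) / p ^ h := by
    intro t htm y S hS
    rw [Finset.mem_Ico] at htm
    have hx0 : m ≤ (t : ℤ) * L := by
      refine h0.trans ?_
      have : (t0 : ℤ) ≤ t := by exact_mod_cast htm.1
      exact mul_le_mul_of_nonneg_right this hLz.le
    have hx1 : ((t : ℤ) + 1) * L ≤ n - m := by
      refine le_trans ?_ h1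
      have : (t : ℤ) + 1 ≤ t1 := by exact_mod_cast htm.2
      exact mul_le_mul_of_nonneg_right this hLz.le
    have hr := resample ν S (A t ∩ ({ω | ht (t * L) (ga n K ω 0) = y} ∩
        {ω | SS ω L R1 H t (ga n K ω 0) (ga n K ω c) = S}))
      (B t ∩ {ω | ht (t * L) (ga n K ω 0) = y})
      ((mA t).inter ((mht t y).inter (mSS t S))) ((mB t).inter (mht t y)) H ?_
    · have h2 : p ^ h ≤ p ^ S.card := pow_le_pow_of_le_one hp.le hp1 hS
      rw [le_div_iff₀ (by positivity)]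
      refine le_trans ?_ hr
      exact mul_le_mul_of_nonneg_left h2 measureReal_nonneg
    · rintro ω ⟨⟨hg, hI0, hIc, ⟨i, hi1, hi2, hIi⟩, hpw⟩, hy, hSS⟩ ω' hω1 hω2
      have hSS' : SS ω L R1 H t (ga n K ω 0) (ga n K ω c) = S := hSS
      have hins := insert_wall (n := n) (K := K) (c := c) (ω := ω) (ω' := ω') hg
        (L := L) (R := R) (R1 := R1) (C0 := C0) (κ := κ) (Z1 := Z1) (H := H) (t := t)
        (hm.le.trans hx0) (by linarith) hL hZ0 q hq hpw
        (by rw [hSS']; exact hω1) (by rw [hSS']; exact hω2)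
      obtain ⟨e0, ec, hpw', hh', hfar⟩ := hins
      refine ⟨⟨⟨?_, ?_⟩, ?_⟩, ?_⟩
      · rw [e0, ec]; exact hpw'
      · rw [e0, ec]; exact hh'
      · intro t' ht0 ht1 hd hw
        unfold Wl at hw
        rw [e0, ec] at hw
        have hd' : ((t : ℤ) + q < t' ∨ (t' : ℤ) + q < t) := by
          rcases hd with hd | hd
          · left; exact_mod_cast hd
          · right; exact_mod_cast hd
        obtain ⟨h3, h4⟩ := hfar t' hd' hw.1 hw.2
        have hx0' : m ≤ (t' : ℤ) * L := by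
          refine h0.trans ?_
          have : (t0 : ℤ) ≤ t' := by exact_mod_cast ht0
          exact mul_le_mul_of_nonneg_right this hLz.le
        have hx1' : ((t' : ℤ) + 1) * L ≤ n - m := by
          refine le_trans ?_ h1
          have : (t' : ℤ) + 1 ≤ t1 := by exact_mod_cast ht1
          exact mul_le_mul_of_nonneg_right this hLz.le
        exact no_wall hK hm hn hi1 hi2 hI0 hIi hIc hx0' hx1' hL hZ hH h3 h4
      · change ht (t * L) (ga n K ω' 0) = y
        rw [e0]
        exact hy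
  have htwo : ∀ t ∈ Finset.Ico t0 t1, ∀ y : ℤ,
      (Q ν).real (A t ∩ {ω | ht (t * L) (ga n K ω 0) = y}) ≤
      2 ^ h / p ^ h * (Q ν).real (B t ∩ {ω | ht (t * L) (ga n K ω 0) = y}) := by
    intro t htm y
    have hsub : A t ∩ {ω | ht (t * L) (ga n K ω 0) = y} ⊆
        ⋃ S ∈ (ES L R1 t y).powerset, (A t ∩ ({ω | ht (t * L) (ga n K ω 0) = y} ∩
        {ω | SS ω L R1 H t (ga n K ω 0) (ga n K ω c) = S})) := by
      rintro ω ⟨hA, hy⟩
      simp only [Set.mem_iUnion]
      refine ⟨SS ω L R1 H t (ga n K ω 0) (ga n K ω c), ?_, hA, hy, rfl⟩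
      rw [Finset.mem_powerset]
      have hy' : ht (t * L) (ga n K ω 0) = y := hy
      unfold SS
      rw [hy']
      exact Finset.filter_subset _ _
    have hfin : (Q ν) (⋃ S ∈ (ES L R1 t y).powerset, (A t ∩
        ({ω | ht (t * L) (ga n K ω 0) = y} ∩
        {ω | SS ω L R1 H t (ga n K ω 0) (ga n K ω c) = S}))) ≠ ⊤ := measure_ne_top _ _
    refine (measureReal_mono hsub hfin).trans ((measureReal_biUnion_finset_le _ _).trans ?_)
    have h2 : ∑ S ∈ (ES L R1 t y).powerset, (Q ν).real (A t ∩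
        ({ω | ht (t * L) (ga n K ω 0) = y} ∩
        {ω | SS ω L R1 H t (ga n K ω 0) (ga n K ω c) = S})) ≤
        ∑ S ∈ (ES L R1 t y).powerset,
          (Q ν).real (B t ∩ {ω | ht (t * L) (ga n K ω 0) = y}) / p ^ h := by
      refine Finset.sum_le_sum fun S hS => hone t htm y S ?_
      exact (Finset.card_le_card (Finset.mem_powerset.1 hS)).trans (card_ES L R1 t y)
    refine h2.trans ?_
    rw [Finset.sum_const, Finset.card_powerset, nsmul_eq_mul]
    push_cast
    have h3 : (2 : ℝ) ^ (ES L R1 t y).card ≤ 2 ^ h :=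
      pow_le_pow_right₀ one_le_two (card_ES L R1 t y)
    have h4 : 0 ≤ (Q ν).real (B t ∩ {ω | ht (t * L) (ga n K ω 0) = y}) / p ^ h := by positivity
    calc (2 : ℝ) ^ (ES L R1 t y).card *
          ((Q ν).real (B t ∩ {ω | ht (t * L) (ga n K ω 0) = y}) / p ^ h) ≤
        2 ^ h * ((Q ν).real (B t ∩ {ω | ht (t * L) (ga n K ω 0) = y}) / p ^ h) :=
          mul_le_mul_of_nonneg_right h3 h4
      _ = _ := by ring
  have hthree : ∀ t ∈ Finset.Ico t0 t1, (Q ν).real (A t) ≤ 2 ^ h / p ^ h * (Q ν).real (B t) := by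
    intro t htm
    have hC : 0 ≤ 2 ^ h / p ^ h := by positivity
    have e1 : A t = ⋃ y : ℤ, (A t ∩ {ω | ht (t * L) (ga n K ω 0) = y}) := by
      ext ω
      simp only [Set.mem_iUnion, Set.mem_inter_iff]
      constructor
      · intro h
        exact ⟨_, h, rfl⟩
      · rintro ⟨_, h, _⟩
        exact h
    have e2 : B t = ⋃ y : ℤ, (B t ∩ {ω | ht (t * L) (ga n K ω 0) = y}) := by
      ext ω
      simp only [Set.mem_iUnion, Set.mem_inter_iff]
      constructor
      · intro h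
        exact ⟨_, h, rfl⟩
      · rintro ⟨_, h, _⟩
        exact h
    have h2 : (Q ν) (B t) = ∑' y : ℤ, (Q ν) (B t ∩ {ω | ht (t * L) (ga n K ω 0) = y}) := by
      conv_lhs => rw [e2]
      refine measure_iUnion ?_ fun y => (mB t).inter (mht t y)
      intro y y' hyy
      refine Set.disjoint_left.2 ?_
      rintro ω ⟨-, h3⟩ ⟨-, h4⟩
      exact hyy (h3.symm.trans h4)
    have h3 : (Q ν) (A t) ≤ ENNReal.ofReal (2 ^ h / p ^ h) * (Q ν) (B t) := by
      rw [h2, ← ENNReal.tsum_mul_left]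
      conv_lhs => rw [e1]
      refine (measure_iUnion_le _).trans (ENNReal.tsum_le_tsum fun y => ?_)
      have h4 := htwo t htm y
      have h5 : (Q ν) (A t ∩ {ω | ht (t * L) (ga n K ω 0) = y}) = ENNReal.ofReal
          ((Q ν).real (A t ∩ {ω | ht (t * L) (ga n K ω 0) = y})) := by
        rw [ofReal_measureReal]
      have h6 : (Q ν) (B t ∩ {ω | ht (t * L) (ga n K ω 0) = y}) = ENNReal.ofReal
          ((Q ν).real (B t ∩ {ω | ht (t * L) (ga n K ω 0) = y})) := by
        rw [ofReal_measureReal]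
      rw [h5, h6, ← ENNReal.ofReal_mul hC]
      exact ENNReal.ofReal_le_ofReal h4
    have h7 := ENNReal.toReal_mono (ENNReal.mul_ne_top ENNReal.ofReal_ne_top
      (measure_ne_top (Q ν) (B t))) h3
    rw [ENNReal.toReal_mul, ENNReal.toReal_ofReal hC] at h7
    exact h7
  -- the second step
  have hfour : ∑ t ∈ Finset.Ico t0 t1, (Q ν).real (B t) ≤ q + 1 := by
    have hpt : ∀ ω, ∑ t ∈ Finset.Ico t0 t1, (B t).indicator (fun _ => (1 : ℝ)) ω ≤ q + 1 := by
      intro ω
      have e : ∑ t ∈ Finset.Ico t0 t1, (B t).indicator (fun _ => (1 : ℝ)) ω =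
          (((Finset.Ico t0 t1).filter fun t => ω ∈ B t).card : ℝ) := by
        rw [Finset.card_filter]
        push_cast
        refine Finset.sum_congr rfl fun t _ => ?_
        rw [Set.indicator_apply]
      rw [e]
      set F := (Finset.Ico t0 t1).filter fun t => ω ∈ B t with hF
      rcases F.eq_empty_or_nonempty with hF0 | hF0
      · rw [hF0]
        simp only [Finset.card_empty, Nat.cast_zero]
        positivity
      · set a := F.min' hF0 with ha
        have ha' := Finset.mem_filter.1 (F.min'_mem hF0)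
        have hsub : F ⊆ Finset.Icc a (a + q) := by
          intro t htF
          rw [Finset.mem_Icc]
          refine ⟨F.min'_le t htF, ?_⟩
          by_contra hcon
          have htF' := Finset.mem_filter.1 htF
          have htI := Finset.mem_Ico.1 htF'.1
          exact ha'.2.2 t htI.1 htI.2 (Or.inl (not_le.1 hcon)) htF'.2.1
        have := Finset.card_le_card hsub
        rw [Nat.card_Icc] at this
        have h2 : F.card ≤ q + 1 := by omega
        exact_mod_cast h2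
    have iB : ∀ t, Integrable (fun ω => (B t).indicator (fun _ => (1 : ℝ)) ω) (Q ν) := fun t =>
      (integrable_const _).indicator (mB t)
    have vB : ∀ t, ∫ ω, (B t).indicator (fun _ => (1 : ℝ)) ω ∂(Q ν) = (Q ν).real (B t) := by
      intro t
      rw [integral_indicator_const _ (mB t), smul_eq_mul, mul_one]
    have hint := integral_mono (μ := Q ν) (integrable_finsetSum (Finset.Ico t0 t1) fun t _ => iB t)
      (integrable_const ((q : ℝ) + 1)) hpt
    rw [integral_finsetSum _ fun t _ => iB t] at hint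
    simp only [vB, integral_const, probReal_univ, one_smul] at hint
    exact hint
  change ∑ t ∈ Finset.Ico t0 t1, (Q ν).real (A t) ≤ (q + 1) * (2 ^ h / p ^ h)
  refine (Finset.sum_le_sum hthree).trans ?_
  rw [← Finset.mul_sum, mul_comm ((q : ℝ) + 1)]
  exact mul_le_mul_of_nonneg_left hfour (by positivity)

end Pool.Agent.Work.MP_9a767b_pr.U
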